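import Mathlib

/-!
KTT (MP_0df73a_co, frozen S07186): the shared numerical definitions of the blueprint (captain helper78).
`n` is the parameter, `N = 2n+1`.  All functions are over `ℚ` and computable.
-/

set_option autoImplicit false

namespace Pool.Agent.KTT

open Finset

/-- row lengths of `λ` (to be multiplied by `k`): `((2N+2)^2, (N+1)^(2N))`, `N = 2n+1`. -/
def laRow (n i : ℕ) : ℕ :=
  if i < 2 then 4 * n + 4 else if i < 4 * n + 4 then 2 * n + 2 else 0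

/-- row lengths of `μ` (to be multiplied by `k`): `((3n+3)^2, (N+2)^N, N^N, (n+1)^2)`. -/
def muRow (n v : ℕ) : ℕ :=
  if v < 2 then 3 * n + 3
  else if v < 2 * n + 3 then 2 * n + 3
  else if v < 4 * n + 4 then 2 * n + 1
  else if v < 4 * n + 6 then n + 1 else 0

/-- `q N s = binom((s+N)/2 - 1, N - 1)` as a polynomial in `s`. -/
def q (N : ℕ) (s : ℤ) : ℚ :=
  (∏ l ∈ range (N - 1), ((s : ℚ) + N - 2 * ((l : ℚ) + 1))) / (2 ^ (N - 1) * ((N - 1).factorial : ℚ))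

/-- `Phi n m k` : the two-variable function with `K(k) = Phi n k k` (`N = 2n+1`). -/
def Phi (n m k : ℕ) : ℚ :=
  ∑ i ∈ range (n + 1), ∑ j ∈ range (n + 1),
    (-1 : ℚ) ^ (i + j) * ((2 * n + 1).choose i : ℚ) * ((2 * n + 1).choose j : ℚ) *
      ∑ x ∈ Finset.Nat.antidiagonalTuple 4 m,
        ((x 0 + (4 * n + 2 - i - j)).choose (4 * n + 2 - i - j) : ℚ) *
        ((x 1 + (i + j)).choose (i + j) : ℚ) *
        ((x 2 + (2 * n + 1 + j - i)).choose (2 * n + 1 + j - i) : ℚ) *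
        ((x 3 + (2 * n + 1 + i - j)).choose (2 * n + 1 + i - j) : ℚ) *
        q (2 * n + 1) (((k : ℤ) + 1) * (2 * n + 1 - 2 * i) + (x 0 - x 1 + x 2 - x 3)) *
        q (2 * n + 1) (((k : ℤ) + 1) * (2 * n + 1 - 2 * j) + (x 0 - x 1 - x 2 + x 3))

/-- `h(k) = ∑_{a≤n} (-1)^a C(N,a) q((k+1)(N-2a))`; `Phi n 0 k = h(k)^2`. -/
def hh (n k : ℕ) : ℚ :=
  ∑ a ∈ range (n + 1), (-1 : ℚ) ^ a * ((2 * n + 1).choose a : ℚ) *
    q (2 * n + 1) (((k : ℤ) + 1) * (2 * n + 1 - 2 * a))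

/-- `tau(s) = ∏_{r=1}^n (1 - s²/(4r²))`. -/
def tau (n : ℕ) (s : ℤ) : ℚ := ∏ r ∈ range n, (1 - (s : ℚ) ^ 2 / (4 * ((r : ℚ) + 1) ^ 2))

/-- `Phi n l 0 = ff n l` (Moebius identity summed). -/
def ff (n l : ℕ) : ℚ :=
  ∑ m ∈ range (l / 2 + 1), ((m + (12 * n + 7)).choose (12 * n + 7) : ℚ) *
    ∑ y ∈ Finset.Nat.antidiagonalTuple 4 (l - 2 * m),
      ((4 * n + 2).choose (y 0) : ℚ) * ((4 * n + 2).choose (y 1) : ℚ) *
      ((4 * n + 2).choose (y 2) : ℚ) * ((4 * n + 2).choose (y 3) : ℚ) *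
      tau n (y 0 - y 1 + (y 2 - y 3)) * tau n (y 0 - y 1 - (y 2 - y 3))

/-- `M_{pq}`. -/
def MM (n p q : ℕ) : ℚ :=
  ∑ i ∈ range (2 * p + 1), ∑ j ∈ range (2 * q + 1),
    (-1 : ℚ) ^ (i + j) * ((2 * p).choose i : ℚ) * ((2 * q).choose j : ℚ) *
      (tau n (((i : ℤ) - p) + (j - q)) * tau n (((i : ℤ) - p) - (j - q)))

/-- `r_m`. -/
def rr (n m : ℕ) : ℚ :=
  ∑ x ∈ antidiagonal m, ((4 * n + 2).choose x.1 : ℚ) * ((4 * n + 2).choose x.2 : ℚ) * MM n x.1 x.2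

/-- `beta M 0 = H_{M-1}`, `beta M j = (-1)^(j-1)/(j C(M-1,j))`. -/
def beta (M j : ℕ) : ℚ :=
  if j = 0 then ∑ i ∈ range (M - 1), 1 / ((i : ℚ) + 1)
  else (-1 : ℚ) ^ (j + 1) / ((j : ℚ) * ((M - 1).choose j : ℚ))

/-- `J_m`, `M = 6N+2 = 12n+8`. -/
def JJ (n m : ℕ) : ℚ :=
  ∑ e ∈ range (2 * (2 * n - m) + 1), ((2 * (2 * n - m)).choose e : ℚ) * beta (12 * n + 8) (m + e)

/-- `hp n = h'(0) = N (H_{2n} - H_n)`. -/
def hp (n : ℕ) : ℚ := (2 * n + 1) * ∑ i ∈ Ico n (2 * n), 1 / ((i : ℚ) + 1)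

/-- the linear coefficient of the stretched Kostka polynomial. -/
def e1 (n : ℕ) : ℚ := 2 * hp n + ∑ m ∈ range (2 * n + 1), rr n m * JJ n m

end Pool.Agent.KTT
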