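import Pool.Agent.Work.MP_0df73a_co.KTT.Alg1
import Pool.Agent.Work.MP_0df73a_co.KTT.Spec

/-!
KTT (MP_0df73a_co), module ALG3: from the expansion (Alg1 (d), (e)) to the manifest form
`cf (GG * Hm k ^ N * Hp k ^ N) k 0 0 = Phi n k k`, `N = 2n+1`.

`T N E = q N E` for odd `E > 0`, and `0` otherwise, is the expansion of `(t - 1/t)^(-N)` in
`1/t`; the functional `t^e u^f ↦ T e * T f` inverts the multiplication by
`(t - 1/t)^N (u - 1/u)^N` (lemma `L_TT`).
-/

set_option autoImplicit false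

namespace Pool.Agent.KTT

open PowerSeries Finset

namespace Alg3

/-- the one variable functional -/
def T (N : ℕ) (E : ℤ) : ℚ := if Odd E ∧ 0 < E then q N E else 0

lemma q_nat (N m : ℕ) (hN : 1 ≤ N) : q N (N + 2 * m) = ((N - 1 + m).choose (N - 1) : ℚ) := by
  have h1 : ∏ l ∈ range (N - 1), (((N + 2 * m : ℤ) : ℚ) + N - 2 * ((l : ℚ) + 1))
      = 2 ^ (N - 1) * ((N - 1 + m).descFactorial (N - 1) : ℚ) := by
    rw [← descPochhammer_eval_eq_descFactorial ℚ, descPochhammer_eval_eq_prod_range]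
    have h2 : (2 : ℚ) ^ (N - 1) = ∏ _l ∈ range (N - 1), (2 : ℚ) := by
      rw [Finset.prod_const, card_range]
    rw [h2, ← Finset.prod_mul_distrib]
    refine Finset.prod_congr rfl fun l _ => ?_
    push_cast [Nat.cast_sub hN]
    ring
  have h3 : ((2 : ℚ) ^ (N - 1) * ((N - 1).factorial : ℚ)) ≠ 0 := by positivity
  rw [q, h1, div_eq_iff h3, Nat.descFactorial_eq_factorial_mul_choose]
  push_cast
  ring

lemma q_zero (N l : ℕ) (hl : l < N - 1) (s : ℤ) (hs : s = 2 * (l + 1) - N) : q N s = 0 := by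
  have h1 : ∏ l ∈ range (N - 1), ((s : ℚ) + N - 2 * ((l : ℚ) + 1)) = 0 := by
    refine Finset.prod_eq_zero (mem_range.mpr hl) ?_
    rw [hs]; push_cast; ring
  rw [q, h1, zero_div]

lemma T_eq (N : ℕ) (hN : Odd N) (m : ℤ) :
    T N (N + 2 * m) = if 0 ≤ m then ((N - 1 + m.toNat).choose (N - 1) : ℚ) else 0 := by
  have hN1 : 1 ≤ N := hN.pos
  have hodd : Odd ((N : ℤ) + 2 * m) := by
    have : Odd (N : ℤ) := by exact_mod_cast hN
    exact this.add_even (even_two_mul m)
  rw [T]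
  by_cases hm : 0 ≤ m
  · rw [if_pos ⟨hodd, by omega⟩, if_pos hm]
    obtain ⟨m', rfl⟩ := Int.eq_ofNat_of_zero_le hm
    rw [Int.toNat_natCast]
    exact q_nat N m' hN1
  · rw [if_neg hm]
    by_cases hp : 0 < (N : ℤ) + 2 * m
    · rw [if_pos ⟨hodd, hp⟩]
      refine q_zero N ((N : ℤ) + m - 1).toNat (by omega) _ (by omega)
    · rw [if_neg (by tauto)]

lemma one_sub_pow (N : ℕ) : ((1 : ℚ⟦X⟧) - X) ^ N
    = ∑ i ∈ range (N + 1), PowerSeries.C ((-1 : ℚ) ^ i * (N.choose i : ℚ)) * X ^ i := by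
  rw [sub_eq_neg_add, add_pow]
  refine Finset.sum_congr rfl fun i _ => ?_
  rw [neg_pow, one_pow, mul_one]
  simp only [map_mul, map_pow, map_neg, map_one, map_natCast]
  ring

lemma key (N : ℕ) (hN : 1 ≤ N) (w : ℕ) :
    ∑ i ∈ range (N + 1), ((-1 : ℚ) ^ i * (N.choose i : ℚ)) *
      (if i ≤ w then ((N - 1 + (w - i)).choose (N - 1) : ℚ) else 0) = if w = 0 then 1 else 0 := by
  have h1 : ((1 : ℚ⟦X⟧) - X) ^ N * (PowerSeries.mk 1) ^ N = 1 := by
    rw [← mul_pow, mul_comm, PowerSeries.mk_one_mul_one_sub_eq_one, one_pow]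
  have h2 := congrArg (PowerSeries.coeff w) h1
  rw [PowerSeries.coeff_one, one_sub_pow, Finset.sum_mul, map_sum] at h2
  rw [← h2]
  refine Finset.sum_congr rfl fun i _ => ?_
  obtain ⟨d, rfl⟩ : ∃ d, N = d + 1 := ⟨N - 1, by omega⟩
  rw [mul_assoc (PowerSeries.C _), PowerSeries.coeff_C_mul, PowerSeries.coeff_X_pow_mul',
    PowerSeries.mk_one_pow_eq_mk_choose_add, PowerSeries.coeff_mk, Nat.add_sub_cancel]

lemma sum_T (N : ℕ) (hN : Odd N) (v : ℤ) :
    ∑ i ∈ range (N + 1), ((-1 : ℚ) ^ i * (N.choose i : ℚ)) * T N (v + (N - 2 * i))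
      = if v = 0 then 1 else 0 := by
  have hNZ : Odd (N : ℤ) := by exact_mod_cast hN
  rcases Int.even_or_odd v with he | ho
  · obtain ⟨w, hw⟩ := he
    have hT : ∀ i : ℕ, T N (v + (N - 2 * i))
        = if 0 ≤ w - i then ((N - 1 + (w - i).toNat).choose (N - 1) : ℚ) else 0 := by
      intro i
      rw [← T_eq N hN]
      congr 1
      omega
    by_cases hw0 : 0 ≤ w
    · obtain ⟨w', rfl⟩ := Int.eq_ofNat_of_zero_le hw0
      have h := key N hN.pos w'
      have e1 : (if v = 0 then (1 : ℚ) else 0) = if w' = 0 then 1 else 0 :=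
        if_congr (by omega) rfl rfl
      rw [e1, ← h]
      refine Finset.sum_congr rfl fun i _ => ?_
      rw [hT]
      congr 1
      by_cases hi : i ≤ w'
      · rw [if_pos (by omega), if_pos hi]
        congr 3
        omega
      · rw [if_neg (by omega), if_neg hi]
    · rw [if_neg (by omega)]
      refine Finset.sum_eq_zero fun i _ => ?_
      rw [hT, if_neg (by omega), mul_zero]
  · rw [if_neg (by rintro rfl; simp at ho)]
    refine Finset.sum_eq_zero fun i _ => ?_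
    have h1 : Even (v + ((N : ℤ) - 2 * i)) := by
      have : Odd ((N : ℤ) - 2 * i) := hNZ.sub_even (even_two_mul _)
      exact ho.add_odd this
    rw [T, if_neg (by rintro ⟨h, _⟩; exact (Int.not_odd_iff_even.mpr h1) h), mul_zero]

end Alg3

noncomputable section

namespace Alg3

/-- the two variable weight -/
def TT (N : ℕ) (p : ℤ × ℤ) : ℚ := T N p.1 * T N p.2

lemma L_mon_mul (w : ℤ × ℤ → ℚ) (a b : ℤ) (f : A) :
    L w (mon a b * f) = L (fun p => w (a + p.1, b + p.2)) f := by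
  have : (L w).comp (LinearMap.mulLeft ℚ (mon a b)) = L (fun p => w (a + p.1, b + p.2)) := by
    refine LinearMap.toAddMonoidHom_injective ?_
    refine AddMonoidAlgebra.addMonoidHom_ext fun m r => ?_
    simp only [LinearMap.toAddMonoidHom_coe, L_single, LinearMap.comp_apply,
      LinearMap.mulLeft_apply, mon, AddMonoidAlgebra.single_mul_single, one_mul]
    rfl
  rw [← this]
  rfl

lemma L_congr {w w' : ℤ × ℤ → ℚ} (h : ∀ p, w p = w' p) (f : A) : L w f = L w' f := by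
  rw [funext h]

lemma L_apply (w : ℤ × ℤ → ℚ) (f : A) : L w f = ∑ p ∈ f.coeff.support, f.coeff p * w p := rfl

lemma L_fun_sum {ι : Type*} (s : Finset ι) (w : ι → ℤ × ℤ → ℚ) (f : A) :
    L (fun p => ∑ a ∈ s, w a p) f = ∑ a ∈ s, L (w a) f := by
  simp only [L_apply]
  rw [Finset.sum_comm]
  refine Finset.sum_congr rfl fun p _ => ?_
  rw [Finset.mul_sum]

lemma L_fun_mul (c : ℚ) (w : ℤ × ℤ → ℚ) (f : A) :
    L (fun p => c * w p) f = c * L w f := by
  simp only [L_apply]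
  rw [Finset.mul_sum]
  refine Finset.sum_congr rfl fun p _ => ?_
  ring

lemma subT_pow (N : ℕ) : (mon 1 0 - mon (-1) 0) ^ N
    = ∑ i ∈ range (N + 1), ((-1 : ℚ) ^ i * (N.choose i : ℚ)) • mon (N - 2 * i) 0 := by
  rw [sub_eq_neg_add, add_pow]
  refine Finset.sum_congr rfl fun i hi => ?_
  have hi' : i ≤ N := by simpa [Nat.lt_succ_iff] using hi
  rw [neg_pow, mon_pow, mon_pow, mul_assoc ((-1 : A) ^ i), mon_mul, Algebra.smul_def]
  simp only [map_mul, map_pow, map_neg, map_one, map_natCast]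
  have : mon ((i : ℤ) * -1 + ((N - i : ℕ) : ℤ) * 1) ((i : ℤ) * 0 + ((N - i : ℕ) : ℤ) * 0)
      = mon (N - 2 * i) 0 := by
    push_cast [Nat.cast_sub hi']
    congr 1 <;> ring
  rw [this]
  ring

lemma subU_pow (N : ℕ) : (mon 0 1 - mon 0 (-1)) ^ N
    = ∑ i ∈ range (N + 1), ((-1 : ℚ) ^ i * (N.choose i : ℚ)) • mon 0 (N - 2 * i) := by
  rw [sub_eq_neg_add, add_pow]
  refine Finset.sum_congr rfl fun i hi => ?_
  have hi' : i ≤ N := by simpa [Nat.lt_succ_iff] using hi
  rw [neg_pow, mon_pow, mon_pow, mul_assoc ((-1 : A) ^ i), mon_mul, Algebra.smul_def]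
  simp only [map_mul, map_pow, map_neg, map_one, map_natCast]
  have : mon ((i : ℤ) * 0 + ((N - i : ℕ) : ℤ) * 0) ((i : ℤ) * -1 + ((N - i : ℕ) : ℤ) * 1)
      = mon 0 (N - 2 * i) := by
    push_cast [Nat.cast_sub hi']
    congr 1 <;> ring
  rw [this]
  ring

/-- the functional inverts the multiplication by `(t - 1/t)^N (u - 1/u)^N` -/
theorem L_TT (N : ℕ) (hN : Odd N) (f : A) :
    L (TT N) (((mon 1 0 - mon (-1) 0) ^ N * (mon 0 1 - mon 0 (-1)) ^ N) * f) = CTA f := by
  rw [subT_pow, subU_pow, Finset.sum_mul_sum, Finset.sum_mul, map_sum, CTA_eq]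
  have h1 : ∀ p : ℤ × ℤ, (if p = (0, 0) then (1 : ℚ) else 0)
      = ∑ i ∈ range (N + 1), ∑ j ∈ range (N + 1),
        (((-1 : ℚ) ^ i * (N.choose i : ℚ)) * ((-1 : ℚ) ^ j * (N.choose j : ℚ)))
          * TT N ((N - 2 * i) + p.1, (N - 2 * j) + p.2) := by
    rintro ⟨a, b⟩
    have e1 : (if (a, b) = ((0 : ℤ), (0 : ℤ)) then (1 : ℚ) else 0)
        = (if a = 0 then 1 else 0) * (if b = 0 then 1 else 0) := by
      by_cases ha : a = 0 <;> by_cases hb : b = 0 <;> simp [ha, hb]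
    rw [e1, ← sum_T N hN a, ← sum_T N hN b, Finset.sum_mul_sum]
    refine Finset.sum_congr rfl fun i _ => Finset.sum_congr rfl fun j _ => ?_
    rw [TT, add_comm a, add_comm b]
    ring
  rw [L_congr h1, L_fun_sum]
  refine Finset.sum_congr rfl fun i _ => ?_
  rw [L_fun_sum, Finset.sum_mul, map_sum]
  refine Finset.sum_congr rfl fun j _ => ?_
  rw [L_fun_mul, smul_mul_smul_comm, mon_mul, smul_mul_assoc, map_smul, smul_eq_mul,
    L_mon_mul]
  simp only [zero_add, add_zero]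

lemma L_zsmul (w : ℤ × ℤ → ℚ) (c : ℤ) (f : A) : L w (c • f) = (c : ℚ) * L w f := by
  rw [map_zsmul, zsmul_eq_mul]

lemma L_nat_mul_mon (w : ℤ × ℤ → ℚ) (c : ℕ) (a b : ℤ) (f : A) :
    L w (mon a b * ((c : A) * f)) = (c : ℚ) * L w (mon a b * f) := by
  have : mon a b * ((c : A) * f) = (c : ℚ) • (mon a b * f) := by
    rw [Algebra.smul_def, map_natCast]; ring
  rw [this, map_smul, smul_eq_mul]

/-- first form: the whole double sum with `T` -/
theorem cf_eq (N : ℕ) (hN : Odd N) (k s : ℕ) :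
    cf (GG * Hm k ^ N * Hp k ^ N) s 0 0
      = ∑ i ∈ range (N + 1), ∑ j ∈ range (N + 1),
        (-1 : ℚ) ^ (i + j) * ((N.choose i : ℚ) * (N.choose j : ℚ)) *
          ∑ x ∈ Finset.Nat.antidiagonalTuple 4 s,
            (((x 0 + (2 * N - i - j)).choose (2 * N - i - j) * (x 1 + (i + j)).choose (i + j)
              * (x 2 + (N - i + j)).choose (N - i + j)
              * (x 3 + (N - j + i)).choose (N - j + i) : ℕ) : ℚ)
            * (T N ((k + 1) * (N - 2 * i) + ((x 0 : ℤ) - x 1 + x 2 - x 3))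
              * T N ((k + 1) * (N - 2 * j) + ((x 0 : ℤ) - x 1 - x 2 + x 3))) := by
  have h0 : cf (GG * Hm k ^ N * Hp k ^ N) s 0 0
      = CTA (PowerSeries.coeff s (GG * Hm k ^ N * Hp k ^ N)) := rfl
  rw [h0, ← L_TT N hN, ← PowerSeries.coeff_C_mul, expansion, map_sum, map_sum]
  refine Finset.sum_congr rfl fun i _ => ?_
  rw [map_sum, map_sum]
  refine Finset.sum_congr rfl fun j _ => ?_
  rw [map_zsmul, L_zsmul, PowerSeries.coeff_C_mul, coeff_FF, Finset.mul_sum, map_sum]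
  push_cast
  congr 1
  refine Finset.sum_congr rfl fun x _ => ?_
  have := L_nat_mul_mon (TT N) ((x 0 + (2 * N - i - j)).choose (2 * N - i - j) * (x 1 + (i + j)).choose (i + j)
              * (x 2 + (N - i + j)).choose (N - i + j)
              * (x 3 + (N - j + i)).choose (N - j + i)) ((k + 1) * (N - 2 * i)) ((k + 1) * (N - 2 * j))
              (mon ((x 0 : ℤ) - x 1 + x 2 - x 3) ((x 0 : ℤ) - x 1 - x 2 + x 3))
  push_cast at this
  rw [this, mon_mul, L_mon, TT]

lemma T_pos (n k i : ℕ) (hi : i ≤ n) (P : ℤ) (hP : - (k : ℤ) ≤ P)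
    (hpar : (P - k) % 2 = 0) :
    T (2 * n + 1) (((k : ℤ) + 1) * (((2 * n + 1 : ℕ) : ℤ) - 2 * i) + P)
      = q (2 * n + 1) (((k : ℤ) + 1) * (2 * n + 1 - 2 * i) + P) := by
  have h1 : ((k : ℤ) + 1) * (((2 * n + 1 : ℕ) : ℤ) - 2 * i) + P
      = 2 * (((k : ℤ) + 1) * (n - i)) + (k + 1) + P := by push_cast; ring
  have h2 : 0 ≤ ((k : ℤ) + 1) * (n - i) := mul_nonneg (by omega) (by omega)
  rw [T, if_pos]
  · push_cast; rfl
  · rw [h1]
    refine ⟨?_, by omega⟩
    rw [Int.odd_iff]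
    omega

lemma T_neg (n k i : ℕ) (hi : n < i) (P : ℤ) (hP : P ≤ k) :
    T (2 * n + 1) (((k : ℤ) + 1) * (((2 * n + 1 : ℕ) : ℤ) - 2 * i) + P) = 0 := by
  have h1 : ((k : ℤ) + 1) * (((2 * n + 1 : ℕ) : ℤ) - 2 * i) + P
      = -(2 * (((k : ℤ) + 1) * (i - n - 1))) - (k + 1) + P := by push_cast; ring
  have h2 : 0 ≤ ((k : ℤ) + 1) * (i - n - 1) := mul_nonneg (by omega) (by omega)
  rw [T, if_neg]
  rintro ⟨_, h⟩
  rw [h1] at h
  omega

end Alg3

/-- ALG: the manifest form -/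
theorem alg (n k : ℕ) :
    cf (GG * Hm k ^ (2 * n + 1) * Hp k ^ (2 * n + 1)) k 0 0 = Phi n k k := by
  have hN : Odd (2 * n + 1) := odd_two_mul_add_one n
  rw [Alg3.cf_eq (2 * n + 1) hN k k, Phi]
  have hsub : range (n + 1) ⊆ range (2 * n + 1 + 1) := range_subset_range.mpr (by omega)
  rw [← Finset.sum_subset hsub]
  · refine Finset.sum_congr rfl fun i hi => ?_
    have hi' : i ≤ n := by simpa [Nat.lt_succ_iff] using hi
    rw [← Finset.sum_subset hsub]
    · refine Finset.sum_congr rfl fun j hj => ?_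
      have hj' : j ≤ n := by simpa [Nat.lt_succ_iff] using hj
      rw [← mul_assoc]
      congr 1
      refine Finset.sum_congr rfl fun x hx => ?_
      rw [Finset.Nat.mem_antidiagonalTuple, Fin.sum_univ_four] at hx
      rw [Alg3.T_pos n k i hi' _ (by omega) (by omega), Alg3.T_pos n k j hj' _ (by omega) (by omega)]
      have e1 : 2 * (2 * n + 1) - i - j = 4 * n + 2 - i - j := by omega
      have e2 : 2 * n + 1 - i + j = 2 * n + 1 + j - i := by omega
      have e3 : 2 * n + 1 - j + i = 2 * n + 1 + i - j := by omega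
      rw [e1, e2, e3]
      push_cast
      ring
    · intro j hj hj'
      have hj2 : n < j := by simpa [Nat.lt_succ_iff] using hj'
      rw [mul_eq_zero]
      right
      refine Finset.sum_eq_zero fun x hx => ?_
      rw [Finset.Nat.mem_antidiagonalTuple, Fin.sum_univ_four] at hx
      rw [Alg3.T_neg n k j hj2 _ (by omega), mul_zero, mul_zero]
  · intro i hi hi'
    have hi2 : n < i := by simpa [Nat.lt_succ_iff] using hi'
    refine Finset.sum_eq_zero fun j _ => ?_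
    rw [mul_eq_zero]
    right
    refine Finset.sum_eq_zero fun x hx => ?_
    rw [Finset.Nat.mem_antidiagonalTuple, Fin.sum_univ_four] at hx
    rw [Alg3.T_neg n k i hi2 _ (by omega), zero_mul, mul_zero]

end

end Pool.Agent.KTT
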