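import Pool.Agent.Work.MP_0df73a_co.KTT.Ring

/-!
KTT (MP_0df73a_co): the letter series. Monomials `mon a b = t^a u^b`.
-/

set_option autoImplicit false

namespace Pool.Agent.KTT

open PowerSeries Finset

noncomputable section

/-- `χ_m(t) = t^m + t^(m-2) + ... + t^(-m)` -/
def chiT (m : ℕ) : A := ∑ p ∈ range (m + 1), mon ((m : ℤ) - 2 * p) 0

/-- `χ_m(u)` -/
def chiU (m : ℕ) : A := ∑ p ∈ range (m + 1), mon 0 ((m : ℤ) - 2 * p)

/-- `∑_d z^d χ_{k+d}(t) χ_d(u)` -/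
def Hm (k : ℕ) : S := PowerSeries.mk fun d => chiT (k + d) * chiU d

/-- `∑_d z^d χ_d(t) χ_{k+d}(u)` -/
def Hp (k : ℕ) : S := PowerSeries.mk fun d => chiT d * chiU (k + d)

/-- `∑_{p,q} z^{p+q} χ_p(t) χ_q(t) u^{q-p}` -/
def GG : S := PowerSeries.mk fun d =>
  ∑ p ∈ antidiagonal d, chiT p.1 * chiT p.2 * mon 0 ((p.2 : ℤ) - p.1)

end

end Pool.Agent.KTT
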