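import Pool.Agent.Work.MP_0df73a_co.KTT.Spec
import Pool.Agent.Work.MP_0df73a_co.KTT.Defs

/-!
KTT (MP_0df73a_co): gluing of the modules into the frozen statement S07186 (helper78).
-/

set_option autoImplicit false

namespace Pool.Agent.KTT.Glue

open Finset Pool.Agent.KTT

/-- Young diagram with given antitone row lengths vanishing from `L` on. -/
def dg (f : ℕ → ℕ) (hf : Antitone f) (L : ℕ) : YoungDiagram where
  cells := ((range L) ×ˢ (range (f 0))).filter fun c => c.2 < f c.1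
  isLowerSet := by
    intro a b hba ha
    simp only [coe_filter, mem_product, mem_range, Set.mem_ofPred_eq] at ha ⊢
    obtain ⟨h1, h2⟩ := Prod.le_def.1 hba
    obtain ⟨⟨ha1, ha2⟩, ha3⟩ := ha
    have h3 := hf h1
    refine ⟨⟨by omega, by omega⟩, by omega⟩

lemma rowLen_dg (f : ℕ → ℕ) (hf : Antitone f) (L : ℕ) (hL : ∀ i, L ≤ i → f i = 0) (i : ℕ) :
    (dg f hf L).rowLen i = f i := by
  have h : ∀ j, j < (dg f hf L).rowLen i ↔ j < f i := by
    intro j
    rw [← YoungDiagram.mem_iff_lt_rowLen]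
    change (i, j) ∈ ((range L) ×ˢ (range (f 0))).filter (fun c => c.2 < f c.1) ↔ _
    simp only [mem_filter, mem_product, mem_range]
    constructor
    · rintro ⟨_, h⟩; exact h
    · intro h
      have h0 : f i ≤ f 0 := hf (Nat.zero_le i)
      refine ⟨⟨?_, by omega⟩, h⟩
      by_contra hc
      rw [hL i (by omega)] at h
      omega
  have h1 := h (f i)
  have h2 := h ((dg f hf L).rowLen i)
  omega

lemma laRow_antitone (n : ℕ) : Antitone (laRow n) := by
  intro a b hab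
  unfold laRow
  split_ifs <;> omega

lemma muRow_antitone (n : ℕ) : Antitone (muRow n) := by
  intro a b hab
  unfold muRow
  split_ifs <;> omega

theorem glue (n : ℕ)
    (bridge : ∀ k : ℕ, 1 ≤ k → ∀ D : YoungDiagram, (∀ i j : ℕ, (i, j) ∈ D ↔ j < k * laRow n i) →
      ((Nat.card {T : SemistandardYoungTableau D //
        ∀ v : ℕ, Nat.card {c : ℕ × ℕ // c ∈ D ∧ T c.1 c.2 = v} = k * muRow n v} : ℕ) : ℚ)
        = cf (GG * Hm k ^ (2 * n + 1) * Hp k ^ (2 * n + 1)) k 0 0)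
    (alg : ∀ k : ℕ, cf (GG * Hm k ^ (2 * n + 1) * Hp k ^ (2 * n + 1)) k 0 0 = Phi n k k)
    (diag : ∀ P A B : Polynomial ℚ, (∀ k : ℕ, 1 ≤ k → P.eval (k : ℚ) = Phi n k k) →
      (∀ m : ℕ, A.eval (m : ℚ) = Phi n m 0) → (∀ k : ℕ, B.eval (k : ℚ) = Phi n 0 k) →
      P.coeff 1 = A.coeff 1 + B.coeff 1)
    (pm : ∀ m : ℕ, Phi n m 0 = ff n m)
    (val1 : ∃ B : Polynomial ℚ, (∀ k : ℕ, B.eval (k : ℚ) = Phi n 0 k) ∧ B.coeff 1 = 2 * hp n)
    (val2 : ∃ A : Polynomial ℚ, (∀ l : ℕ, A.eval (l : ℚ) = ff n l) ∧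
      A.coeff 1 = ∑ m ∈ range (2 * n + 1), rr n m * JJ n m)
    (num : e1 n < 0) :
    ¬ (∀ la mu : YoungDiagram, ∃ P : Polynomial ℚ,
      (∀ k : ℕ, 1 ≤ k → ∀ D : YoungDiagram,
        (∀ i j : ℕ, (i, j) ∈ D ↔ j < k * la.rowLen i) →
        ((Nat.card {T : SemistandardYoungTableau D //
            ∀ v : ℕ, Nat.card {c : ℕ × ℕ // c ∈ D ∧ T c.1 c.2 = v} = k * mu.rowLen v} : ℕ) : ℚ)
          = P.eval (k : ℚ)) ∧
      ∀ n : ℕ, 0 ≤ P.coeff n) := by
  intro H
  have hla0 : ∀ i, 4 * n + 4 ≤ i → laRow n i = 0 := by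
    intro i hi; unfold laRow; split_ifs <;> omega
  have hmu0 : ∀ i, 4 * n + 6 ≤ i → muRow n i = 0 := by
    intro i hi; unfold muRow; split_ifs <;> omega
  obtain ⟨P, hP, hpos⟩ := H (dg (laRow n) (laRow_antitone n) (4 * n + 4))
    (dg (muRow n) (muRow_antitone n) (4 * n + 6))
  simp only [rowLen_dg (laRow n) (laRow_antitone n) (4 * n + 4) hla0,
    rowLen_dg (muRow n) (muRow_antitone n) (4 * n + 6) hmu0] at hP
  have hPk : ∀ k : ℕ, 1 ≤ k → P.eval (k : ℚ) = Phi n k k := by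
    intro k hk
    have hk0 : Antitone fun i => k * laRow n i := by
      intro a b hab
      exact Nat.mul_le_mul_left k (laRow_antitone n hab)
    have hkz : ∀ i, 4 * n + 4 ≤ i → k * laRow n i = 0 := by
      intro i hi; rw [hla0 i hi, Nat.mul_zero]
    have hD : ∀ i j : ℕ, (i, j) ∈ dg (fun i => k * laRow n i) hk0 (4 * n + 4) ↔
        j < k * laRow n i := by
      intro i j
      rw [YoungDiagram.mem_iff_lt_rowLen, rowLen_dg _ hk0 _ hkz]
    rw [← hP k hk _ hD, bridge k hk _ hD, alg k]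
  obtain ⟨B, hB, hB1⟩ := val1
  obtain ⟨A, hA, hA1⟩ := val2
  have h1 := diag P A B hPk (fun m => by rw [pm m, hA m]) hB
  have h2 : P.coeff 1 = e1 n := by
    rw [h1, hA1, hB1, e1]; ring
  have h3 := hpos 1
  rw [h2] at h3
  linarith

end Pool.Agent.KTT.Glue
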