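/-
MP_0df73a_co (King-Tollu-Toumazet), cell KTT, module POLY (helper71).

Polynomial functions on natural parameters, sums over simplices, and the linear
coefficient of a diagonal.

* `PF S F` : the function `F : α → ℚ` is a polynomial (over `ℚ`) in the functions of `S`.
* `PF.antidiag` : summing a polynomial function over an antidiagonal gives a polynomial
  function of the total and of the parameters.
* `PF.simplex4` : the same for the sum over `a1 + a2 + a3 + a4 = m`.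
* `coeff_one_of_diag` : if `P(k) = Φ(k,k)` for `k ≥ 1`, `A(m) = Φ(m,0)`, `B(k) = Φ(0,k)` and
  `Φ` is a polynomial in two variables, then `P.coeff 1 = A.coeff 1 + B.coeff 1`.
-/
import Mathlib

set_option autoImplicit false

namespace Pool.Agent.KTT.Pl

open Finset Polynomial

/-- `F` is a polynomial in the functions of the set `S`. -/
def PF {α : Type*} (S : Set (α → ℚ)) (F : α → ℚ) : Prop := F ∈ Algebra.adjoin ℚ S

namespace PF

variable {α : Type*} {S : Set (α → ℚ)} {F G : α → ℚ}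

lemma const (c : ℚ) : PF S (fun _ => c) := by
  have h : (algebraMap ℚ (α → ℚ) c) ∈ Algebra.adjoin ℚ S := Subalgebra.algebraMap_mem _ c
  exact h

lemma base (h : F ∈ S) : PF S F := Algebra.subset_adjoin h

lemma add (hF : PF S F) (hG : PF S G) : PF S (fun a => F a + G a) :=
  Subalgebra.add_mem _ hF hG

lemma sub (hF : PF S F) (hG : PF S G) : PF S (fun a => F a - G a) :=
  Subalgebra.sub_mem _ hF hG

lemma neg (hF : PF S F) : PF S (fun a => - F a) :=
  Subalgebra.neg_mem _ hF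

lemma mul (hF : PF S F) (hG : PF S G) : PF S (fun a => F a * G a) :=
  Subalgebra.mul_mem _ hF hG

lemma pow (hF : PF S F) (n : ℕ) : PF S (fun a => F a ^ n) :=
  Subalgebra.pow_mem _ hF n

lemma const_mul (c : ℚ) (hF : PF S F) : PF S (fun a => c * F a) :=
  (const c).mul hF

lemma div_const (hF : PF S F) (c : ℚ) : PF S (fun a => F a / c) := by
  have h := hF.mul (const (S := S) c⁻¹)
  simpa [div_eq_mul_inv] using h

lemma congr (hF : PF S F) (h : ∀ a, G a = F a) : PF S G := by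
  have : G = F := funext h
  rw [this]; exact hF

lemma sum {ι : Type*} (s : Finset ι) (f : ι → α → ℚ) (h : ∀ i ∈ s, PF S (f i)) :
    PF S (fun a => ∑ i ∈ s, f i a) := by
  have h1 : (∑ i ∈ s, f i) ∈ Algebra.adjoin ℚ S := Subalgebra.sum_mem _ h
  have h2 : (∑ i ∈ s, f i) = fun a => ∑ i ∈ s, f i a := by
    funext a; simp [Finset.sum_apply]
  rw [h2] at h1; exact h1

lemma prod {ι : Type*} (s : Finset ι) (f : ι → α → ℚ) (h : ∀ i ∈ s, PF S (f i)) :
    PF S (fun a => ∏ i ∈ s, f i a) := by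
  have h1 : (∏ i ∈ s, f i) ∈ Algebra.adjoin ℚ S := Subalgebra.prod_mem _ h
  have h2 : (∏ i ∈ s, f i) = fun a => ∏ i ∈ s, f i a := by
    funext a; simp [Finset.prod_apply]
  rw [h2] at h1; exact h1

/-- Composition with a one-variable polynomial. -/
lemma poly (q : ℚ[X]) (hF : PF S F) : PF S (fun a => q.eval (F a)) := by
  have h := sum (S := S) (Finset.range (q.natDegree + 1))
    (fun i a => q.coeff i * F a ^ i) (fun i _ => (hF.pow i).const_mul _)
  refine h.congr (fun a => ?_)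
  rw [Polynomial.eval_eq_sum_range]

lemma mono {T : Set (α → ℚ)} (hST : S ⊆ T) (hF : PF S F) : PF T F :=
  Algebra.adjoin_mono hST hF

/-- Change of the base functions along a map of the parameter spaces. -/
lemma comp {β : Type*} {T : Set (β → ℚ)} (φ : β → α) (hφ : ∀ f ∈ S, PF T (fun b => f (φ b)))
    (hF : PF S F) : PF T (fun b => F (φ b)) := by
  unfold PF at hF
  induction hF using Algebra.adjoin_induction with
  | mem f hf => exact hφ f hf
  | algebraMap c => exact const c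
  | add f g _ _ h1 h2 => exact h1.add h2
  | mul f g _ _ h1 h2 => exact h1.mul h2

/-! ### Sums over antidiagonals -/

/-- Adjoin one natural variable to the parameter space. -/
def ext {β : Type*} (S : Set (β → ℚ)) : Set (ℕ × β → ℚ) :=
  insert (fun a => (a.1 : ℚ)) ((fun (g : β → ℚ) (a : ℕ × β) => g a.2) '' S)

lemma fst_ext {β : Type*} (S : Set (β → ℚ)) : PF (ext S) (fun a => (a.1 : ℚ)) :=
  base (Set.mem_insert _ _)

lemma snd_ext {β : Type*} {S : Set (β → ℚ)} {F : β → ℚ} (hF : PF S F) :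
    PF (ext S) (fun a => F a.2) :=
  hF.comp (T := ext S) (fun a : ℕ × β => a.2)
    (fun f hf => base (Set.mem_insert_of_mem _ ⟨f, hf, rfl⟩))

lemma exists_pow_sum (p : ℕ) : ∃ q : ℚ[X], ∀ m : ℕ,
    ∑ i ∈ Finset.range (m + 1), (i : ℚ) ^ p = q.eval (m : ℚ) := by
  refine ⟨∑ i ∈ range (p + 1), C (_root_.bernoulli i * ((p + 1).choose i) / (p + 1)) *
    (X + 1) ^ (p + 1 - i), fun m => ?_⟩
  rw [sum_range_pow, eval_finsetSum]
  refine Finset.sum_congr rfl (fun i _ => ?_)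
  simp only [eval_mul, eval_C, eval_pow, eval_add, eval_X, eval_one]
  push_cast
  ring

lemma exists_conv (s t : ℕ) : ∃ q : ℚ[X], ∀ m : ℕ,
    ∑ p ∈ antidiagonal m, (p.1 : ℚ) ^ s * (p.2 : ℚ) ^ t = q.eval (m : ℚ) := by
  choose Q hQ using exists_pow_sum
  refine ⟨∑ j ∈ range (t + 1), C (((-1 : ℚ)) ^ (t - j) * (t.choose j)) * X ^ j *
    Q (s + (t - j)), fun m => ?_⟩
  rw [Finset.Nat.sum_antidiagonal_eq_sum_range_succ_mk]
  have h1 : ∀ i ∈ Finset.range (m + 1), ((i : ℚ) ^ s * ((m - i : ℕ) : ℚ) ^ t) =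
      ∑ j ∈ range (t + 1), (((-1 : ℚ)) ^ (t - j) * (t.choose j)) * (m : ℚ) ^ j *
        (i : ℚ) ^ (s + (t - j)) := by
    intro i hi
    have hle : i ≤ m := by
      have := Finset.mem_range.mp hi; omega
    rw [Nat.cast_sub hle, sub_eq_add_neg, add_pow, Finset.mul_sum]
    refine Finset.sum_congr rfl (fun j _ => ?_)
    rw [neg_pow (i : ℚ) (t - j), pow_add]
    ring
  rw [Finset.sum_congr rfl h1, Finset.sum_comm, eval_finsetSum]
  refine Finset.sum_congr rfl (fun j _ => ?_)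
  rw [← Finset.mul_sum, hQ]
  simp only [eval_mul, eval_C, eval_pow, eval_X]

lemma closure_form {β : Type*} {S : Set (β → ℚ)} {w : ℕ × ℕ × β → ℚ}
    (hw : w ∈ Submonoid.closure (ext (ext S))) :
    ∃ (s t : ℕ) (c : β → ℚ), PF S c ∧
      ∀ a : ℕ × ℕ × β, w a = (a.1 : ℚ) ^ s * (a.2.1 : ℚ) ^ t * c a.2.2 := by
  induction hw using Submonoid.closure_induction with
  | mem f hf =>
    rcases hf with rfl | ⟨g, hg, rfl⟩
    · exact ⟨1, 0, fun _ => 1, const 1, fun a => by simp⟩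
    · rcases hg with rfl | ⟨g', hg', rfl⟩
      · exact ⟨0, 1, fun _ => 1, const 1, fun a => by simp⟩
      · exact ⟨0, 0, g', base hg', fun a => by simp⟩
  | one => exact ⟨0, 0, fun _ => 1, const 1, fun a => by simp⟩
  | mul f g _ _ h1 h2 =>
    obtain ⟨s1, t1, c1, hc1, e1⟩ := h1
    obtain ⟨s2, t2, c2, hc2, e2⟩ := h2
    refine ⟨s1 + s2, t1 + t2, fun b => c1 b * c2 b, hc1.mul hc2, fun a => ?_⟩
    rw [Pi.mul_apply, e1, e2]
    ring

/-- The sum of a polynomial function over an antidiagonal is a polynomial function. -/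
theorem antidiag {β : Type*} {S : Set (β → ℚ)} {F : ℕ × ℕ × β → ℚ}
    (hF : PF (ext (ext S)) F) :
    PF (ext S) (fun a : ℕ × β => ∑ p ∈ antidiagonal a.1, F (p.1, p.2, a.2)) := by
  have hF' : F ∈ Submodule.span ℚ (Submonoid.closure (ext (ext S)) : Set (ℕ × ℕ × β → ℚ)) := by
    rw [← Algebra.adjoin_eq_span]; exact hF
  clear hF
  induction hF' using Submodule.span_induction with
  | mem w hw =>
    obtain ⟨s, t, c, hc, e⟩ := closure_form hw
    obtain ⟨q, hq⟩ := exists_conv s t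
    refine (((fst_ext S).poly q).mul (snd_ext hc)).congr (fun a => ?_)
    rw [← hq a.1, Finset.sum_mul]
    exact Finset.sum_congr rfl (fun p _ => e _)
  | zero => exact (const 0).congr (fun a => by simp)
  | add f g _ _ h1 h2 =>
    exact (h1.add h2).congr (fun a => by simp [Finset.sum_add_distrib])
  | smul c f _ h =>
    exact (h.const_mul c).congr (fun a => by simp [Finset.mul_sum])

/-! ### Four variables on a simplex, one parameter -/

/-- The base functions `a1, a2, a3, a4, k` on `ℕ⁴ × ℕ`. -/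
def S4 : Set (ℕ × ℕ × ℕ × ℕ × ℕ → ℚ) := ext (ext (ext (ext {fun k : ℕ => (k : ℚ)})))

/-- The base functions `m, k` on `ℕ × ℕ`. -/
def S1 : Set (ℕ × ℕ → ℚ) := ext {fun k : ℕ => (k : ℚ)}

lemma x1 : PF S4 (fun a => (a.1 : ℚ)) := fst_ext _
lemma x2 : PF S4 (fun a => (a.2.1 : ℚ)) := snd_ext (fst_ext _)
lemma x3 : PF S4 (fun a => (a.2.2.1 : ℚ)) := snd_ext (snd_ext (fst_ext _))
lemma x4 : PF S4 (fun a => (a.2.2.2.1 : ℚ)) := snd_ext (snd_ext (snd_ext (fst_ext _)))
lemma x5 : PF S4 (fun a => (a.2.2.2.2 : ℚ)) :=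
  snd_ext (snd_ext (snd_ext (snd_ext (base (Set.mem_singleton _)))))

/-- `a ↦ C(f(a) + r, r)` is polynomial if `f` is. -/
lemma choose {α : Type*} {S : Set (α → ℚ)} {f : α → ℕ} (hf : PF S (fun a => (f a : ℚ)))
    (r : ℕ) : PF S (fun a => ((f a + r).choose r : ℚ)) := by
  have h := ((hf.add (const 1)).poly (ascPochhammer ℚ r)).div_const (r.factorial : ℚ)
  refine h.congr (fun a => ?_)
  have h1 : ((f a : ℚ) + 1) = ((f a + 1 : ℕ) : ℚ) := by push_cast; ring
  have h2 : (r.factorial : ℚ) ≠ 0 := by exact_mod_cast r.factorial_ne_zero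
  rw [h1, ascPochhammer_nat_eq_natCast_ascFactorial, Nat.ascFactorial_eq_factorial_mul_choose,
    eq_div_iff h2]
  push_cast
  ring

/-- **Simplex sums.** -/
theorem simplex4 {F : ℕ → ℕ → ℕ → ℕ → ℕ → ℚ}
    (hF : PF S4 (fun a => F a.1 a.2.1 a.2.2.1 a.2.2.2.1 a.2.2.2.2)) :
    PF S1 (fun a : ℕ × ℕ => ∑ p ∈ antidiagonal a.1, ∑ q ∈ antidiagonal p.1,
      ∑ r ∈ antidiagonal p.2, F q.1 q.2 r.1 r.2 a.2) := by
  -- innermost sum: parameters `(p2, q1, q2, k)`
  have h1 : PF (ext (ext (ext (ext {fun k : ℕ => (k : ℚ)}))))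
      (fun a : ℕ × ℕ × ℕ × ℕ × ℕ => F a.2.2.1 a.2.2.2.1 a.1 a.2.1 a.2.2.2.2) := by
    refine hF.comp (T := S4) (fun a : ℕ × ℕ × ℕ × ℕ × ℕ =>
      (a.2.2.1, a.2.2.2.1, a.1, a.2.1, a.2.2.2.2)) ?_
    rintro f (rfl | ⟨f, (rfl | ⟨f, (rfl | ⟨f, (rfl | ⟨f, rfl, rfl⟩), rfl⟩), rfl⟩), rfl⟩)
    · exact x3
    · exact x4
    · exact x1
    · exact x2
    · exact x5
  have h2 := antidiag h1
  -- middle sum: parameters `(p1, p2, k)`
  have h3 : PF (ext (ext (ext {fun k : ℕ => (k : ℚ)})))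
      (fun a : ℕ × ℕ × ℕ × ℕ => ∑ r ∈ antidiagonal a.2.2.1, F a.1 a.2.1 r.1 r.2 a.2.2.2) := by
    refine h2.comp (T := ext (ext (ext {fun k : ℕ => (k : ℚ)})))
      (fun a : ℕ × ℕ × ℕ × ℕ => (a.2.2.1, a.1, a.2.1, a.2.2.2)) ?_
    rintro f (rfl | ⟨f, (rfl | ⟨f, (rfl | ⟨f, rfl, rfl⟩), rfl⟩), rfl⟩)
    · exact snd_ext (snd_ext (fst_ext _))
    · exact fst_ext _
    · exact snd_ext (fst_ext _)
    · exact snd_ext (snd_ext (snd_ext (base (Set.mem_singleton _))))
  have h4 := antidiag h3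
  exact antidiag (S := {fun k : ℕ => (k : ℚ)}) h4

/-- A polynomial function of `(m, k)` is given by a polynomial in `m` whose coefficients are
polynomials in `k`. -/
lemma exists_biv {Φ : ℕ × ℕ → ℚ} (h : PF S1 Φ) :
    ∃ Q : ℚ[X][X], ∀ m k : ℕ, Φ (m, k) = (Q.eval (C (m : ℚ))).eval (k : ℚ) := by
  unfold PF at h
  induction h using Algebra.adjoin_induction with
  | mem f hf =>
    rcases hf with rfl | ⟨g, rfl, rfl⟩
    · exact ⟨X, fun m k => by simp⟩
    · exact ⟨C X, fun m k => by simp⟩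
  | algebraMap c => exact ⟨C (C c), fun m k => by simp⟩
  | add f g _ _ h1 h2 =>
    obtain ⟨Q1, e1⟩ := h1
    obtain ⟨Q2, e2⟩ := h2
    exact ⟨Q1 + Q2, fun m k => by rw [Pi.add_apply, e1, e2]; simp⟩
  | mul f g _ _ h1 h2 =>
    obtain ⟨Q1, e1⟩ := h1
    obtain ⟨Q2, e2⟩ := h2
    exact ⟨Q1 * Q2, fun m k => by rw [Pi.mul_apply, e1, e2]; simp⟩

end PF

/-! ### The linear coefficient of a diagonal -/

lemma eq_of_eval_nat {P Q : ℚ[X]} (h : ∀ k : ℕ, 1 ≤ k → P.eval (k : ℚ) = Q.eval (k : ℚ)) :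
    P = Q := by
  refine Polynomial.eq_of_infinite_eval_eq P Q ?_
  refine Set.Infinite.mono (s := Set.range (fun k : ℕ => ((k + 1 : ℕ) : ℚ))) ?_ ?_
  · rintro x ⟨k, rfl⟩
    exact h (k + 1) (by omega)
  · refine Set.infinite_range_of_injective ?_
    intro a b hab
    have hab' : ((a + 1 : ℕ) : ℚ) = ((b + 1 : ℕ) : ℚ) := hab
    have : (a + 1 : ℕ) = (b + 1 : ℕ) := by exact_mod_cast hab'
    omega

lemma eval_eval_C (Q : ℚ[X][X]) (x y : ℚ) :
    (Q.eval (C x)).eval y = (Q.map (evalRingHom y)).eval x := by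
  rw [eval_map, eval_eq_sum_range (p := Q), eval₂_eq_sum_range, eval_finsetSum]
  refine Finset.sum_congr rfl (fun i _ => ?_)
  simp

lemma eval_eval_X (Q : ℚ[X][X]) (y : ℚ) :
    (Q.eval X).eval y = (Q.eval (C y)).eval y := by
  rw [eval_eq_sum_range (p := Q), eval_eq_sum_range (p := Q), eval_finsetSum, eval_finsetSum]
  refine Finset.sum_congr rfl (fun i _ => ?_)
  simp

lemma coeff_one_eval_X (Q : ℚ[X][X]) :
    (Q.eval X).coeff 1 = (Q.coeff 0).coeff 1 + (Q.coeff 1).coeff 0 := by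
  have h1 : Q = Q.divX * X + C (Q.coeff 0) := (divX_mul_X_add Q).symm
  have h2 : Q.divX = Q.divX.divX * X + C (Q.divX.coeff 0) := (divX_mul_X_add _).symm
  have h3 : Q.divX.coeff 0 = Q.coeff 1 := by rw [coeff_divX]
  have h4 : (Q.eval X) = ((Q.divX.divX.eval X) * X + Q.coeff 1) * X + Q.coeff 0 := by
    conv_lhs => rw [h1, h2, h3]
    simp only [eval_add, eval_mul, eval_X, eval_C]
  rw [h4, coeff_add, coeff_mul_X, coeff_add, mul_coeff_zero, coeff_X_zero, mul_zero, zero_add]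
  ring

lemma coeff_one_const (Q : ℚ[X][X]) (A : ℚ[X])
    (h : ∀ m : ℕ, A.eval (m : ℚ) = (Q.eval (C (m : ℚ))).eval 0) :
    A.coeff 1 = (Q.coeff 1).coeff 0 := by
  have h1 : A = Q.map (evalRingHom (0 : ℚ)) := by
    refine eq_of_eval_nat (fun m _ => ?_)
    rw [h m, eval_eval_C]
  rw [h1, coeff_map, coe_evalRingHom, coeff_zero_eq_eval_zero]

/-- **The linear coefficient of a diagonal.** -/
theorem coeff_one_of_diag {Φ : ℕ × ℕ → ℚ} (hΦ : PF PF.S1 Φ) (P A B : ℚ[X])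
    (hP : ∀ k : ℕ, 1 ≤ k → P.eval (k : ℚ) = Φ (k, k))
    (hA : ∀ m : ℕ, A.eval (m : ℚ) = Φ (m, 0))
    (hB : ∀ k : ℕ, B.eval (k : ℚ) = Φ (0, k)) :
    P.coeff 1 = A.coeff 1 + B.coeff 1 := by
  obtain ⟨Q, hQ⟩ := PF.exists_biv hΦ
  have h1 : P = Q.eval X := by
    refine eq_of_eval_nat (fun k hk => ?_)
    rw [hP k hk, hQ, eval_eval_X]
  have h2 : B = Q.coeff 0 := by
    refine eq_of_eval_nat (fun k _ => ?_)
    rw [hB k, hQ]
    simp [coeff_zero_eq_eval_zero]
  have h3 : A.coeff 1 = (Q.coeff 1).coeff 0 := by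
    refine coeff_one_const Q A (fun m => ?_)
    rw [hA, hQ]
    simp
  rw [h1, coeff_one_eval_X, h3, h2]
  ring

end Pool.Agent.KTT.Pl
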