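/-
MP_0df73a_co (King-Tollu-Toumazet), cell KTT, module POLY (helper71).
`Phi n m k` (Spec) is a polynomial in `(m, k)`, and the splitting `Phi_diag` of the linear
coefficient of its diagonal.
-/
import Pool.Agent.Work.MP_0df73a_co.KTT.Spec
import Pool.Agent.Work.MP_0df73a_co.KTT.Poly

set_option autoImplicit false

namespace Pool.Agent.KTT.Pl

open Finset Polynomial

/-- Sums over 4-tuples with given sum as nested antidiagonal sums. -/
theorem sum_tuple4 {M : Type*} [AddCommMonoid M] (m : ℕ) (G : (Fin 4 → ℕ) → M) :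
    ∑ x ∈ Finset.Nat.antidiagonalTuple 4 m, G x =
      ∑ p ∈ antidiagonal m, ∑ q ∈ antidiagonal p.1, ∑ r ∈ antidiagonal p.2,
        G ![q.1, q.2, r.1, r.2] := by
  have h1 : ∀ p : ℕ × ℕ, ∑ q ∈ antidiagonal p.1, ∑ r ∈ antidiagonal p.2,
      G ![q.1, q.2, r.1, r.2] = ∑ y ∈ antidiagonal p.1 ×ˢ antidiagonal p.2,
        G ![y.1.1, y.1.2, y.2.1, y.2.2] := fun p => by rw [Finset.sum_product]
  simp only [h1]
  rw [Finset.sum_sigma']
  refine Finset.sum_bij' (i := fun x _ => ⟨(x 0 + x 1, x 2 + x 3), ((x 0, x 1), (x 2, x 3))⟩)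
    (j := fun y _ => ![y.2.1.1, y.2.1.2, y.2.2.1, y.2.2.2]) ?_ ?_ ?_ ?_ ?_
  · intro x hx
    rw [Finset.Nat.mem_antidiagonalTuple, Fin.sum_univ_four] at hx
    rw [Finset.mem_sigma, Finset.mem_product]
    refine ⟨mem_antidiagonal.mpr ?_, mem_antidiagonal.mpr rfl, mem_antidiagonal.mpr rfl⟩
    show x 0 + x 1 + (x 2 + x 3) = m
    omega
  · rintro ⟨p, y⟩ hy
    rw [Finset.mem_sigma, Finset.mem_product] at hy
    obtain ⟨h1, h2, h3⟩ := hy
    have h1' : p.1 + p.2 = m := mem_antidiagonal.mp h1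
    have h2' : y.1.1 + y.1.2 = p.1 := mem_antidiagonal.mp h2
    have h3' : y.2.1 + y.2.2 = p.2 := mem_antidiagonal.mp h3
    rw [Finset.Nat.mem_antidiagonalTuple, Fin.sum_univ_four]
    show y.1.1 + y.1.2 + y.2.1 + y.2.2 = m
    omega
  · intro x _
    funext l
    fin_cases l <;> rfl
  · rintro ⟨p, y⟩ hy
    rw [Finset.mem_sigma, Finset.mem_product] at hy
    obtain ⟨h1, h2, h3⟩ := hy
    have h2' : y.1.1 + y.1.2 = p.1 := mem_antidiagonal.mp h2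
    have h3' : y.2.1 + y.2.2 = p.2 := mem_antidiagonal.mp h3
    have : p = (y.1.1 + y.1.2, y.2.1 + y.2.2) := Prod.ext h2'.symm h3'.symm
    subst this
    rfl
  · intro x _
    congr 1
    funext l
    fin_cases l <;> rfl

namespace PF

lemma q {α : Type*} {S : Set (α → ℚ)} (N : ℕ) {L : α → ℤ}
    (hL : PF S (fun a => (L a : ℚ))) : PF S (fun a => KTT.q N (L a)) := by
  unfold KTT.q
  refine (prod _ _ (fun l _ => ?_)).div_const _
  exact (hL.add (const _)).sub (const _)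

lemma inner (N e1 e2 e3 e4 : ℕ) {c1 c2 : ℕ → ℤ}
    (h1 : PF {fun k : ℕ => (k : ℚ)} (fun k => (c1 k : ℚ)))
    (h2 : PF {fun k : ℕ => (k : ℚ)} (fun k => (c2 k : ℚ))) :
    PF S1 (fun a => ∑ x ∈ Finset.Nat.antidiagonalTuple 4 a.1,
      ((x 0 + e1).choose e1 : ℚ) * ((x 1 + e2).choose e2 : ℚ) *
      ((x 2 + e3).choose e3 : ℚ) * ((x 3 + e4).choose e4 : ℚ) *
      KTT.q N (c1 a.2 + (x 0 - x 1 + x 2 - x 3)) *
      KTT.q N (c2 a.2 + (x 0 - x 1 - x 2 + x 3))) := by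
  have H := simplex4 (F := fun x0 x1 x2 x3 k =>
    ((x0 + e1).choose e1 : ℚ) * ((x1 + e2).choose e2 : ℚ) *
      ((x2 + e3).choose e3 : ℚ) * ((x3 + e4).choose e4 : ℚ) *
      KTT.q N (c1 k + (x0 - x1 + x2 - x3)) * KTT.q N (c2 k + (x0 - x1 - x2 + x3))) ?_
  · refine H.congr (fun a => ?_)
    rw [sum_tuple4]
    rfl
  · have k1 : PF S4 (fun a => (c1 a.2.2.2.2 : ℚ)) := snd_ext (snd_ext (snd_ext (snd_ext h1)))
    have k2 : PF S4 (fun a => (c2 a.2.2.2.2 : ℚ)) := snd_ext (snd_ext (snd_ext (snd_ext h2)))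
    refine (((((x1.choose e1).mul (x2.choose e2)).mul (x3.choose e3)).mul (x4.choose e4)).mul
      (q N ?_)).mul (q N ?_)
    · refine ((((k1.add x1).sub x2).add x3).sub x4).congr (fun a => ?_)
      push_cast
      ring
    · refine ((((k2.add x1).sub x2).sub x3).add x4).congr (fun a => ?_)
      push_cast
      ring

/-- The term `(i, j)` of `Phi`. -/
lemma term (N e1 e2 e3 e4 : ℕ) (c d : ℤ) (r : ℚ) :
    PF S1 (fun a : ℕ × ℕ => r * ∑ x ∈ Finset.Nat.antidiagonalTuple 4 a.1,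
      ((x 0 + e1).choose e1 : ℚ) * ((x 1 + e2).choose e2 : ℚ) *
      ((x 2 + e3).choose e3 : ℚ) * ((x 3 + e4).choose e4 : ℚ) *
      KTT.q N (((a.2 : ℤ) + 1) * c + (x 0 - x 1 + x 2 - x 3)) *
      KTT.q N (((a.2 : ℤ) + 1) * d + (x 0 - x 1 - x 2 + x 3))) := by
  have hc : ∀ c : ℤ, PF {fun k : ℕ => (k : ℚ)} (fun k : ℕ => ((((k : ℤ) + 1) * c : ℤ) : ℚ)) := by
    intro c
    have h := ((base (S := {fun k : ℕ => (k : ℚ)}) (Set.mem_singleton _)).add (const 1)).mul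
      (const (c : ℚ))
    refine h.congr (fun k => ?_)
    push_cast
    ring
  exact const_mul r (inner N e1 e2 e3 e4 (c1 := fun k => ((k : ℤ) + 1) * c)
    (c2 := fun k => ((k : ℤ) + 1) * d) (hc c) (hc d))

/-- **`Phi n m k` is a polynomial in `(m, k)`.** -/
theorem phi (n : ℕ) : PF S1 (fun a => Phi n a.1 a.2) := by
  have h1 := sum (S := S1) (range (n + 1)) (fun i (a : ℕ × ℕ) => ∑ j ∈ range (n + 1),
      ((-1 : ℚ) ^ (i + j) * ((2 * n + 1).choose i : ℚ) * ((2 * n + 1).choose j : ℚ)) *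
      ∑ x ∈ Finset.Nat.antidiagonalTuple 4 a.1,
        ((x 0 + (4 * n + 2 - i - j)).choose (4 * n + 2 - i - j) : ℚ) *
        ((x 1 + (i + j)).choose (i + j) : ℚ) *
        ((x 2 + (2 * n + 1 + j - i)).choose (2 * n + 1 + j - i) : ℚ) *
        ((x 3 + (2 * n + 1 + i - j)).choose (2 * n + 1 + i - j) : ℚ) *
        KTT.q (2 * n + 1) (((a.2 : ℤ) + 1) * (2 * (n : ℤ) + 1 - 2 * (i : ℤ)) +
          (x 0 - x 1 + x 2 - x 3)) *
        KTT.q (2 * n + 1) (((a.2 : ℤ) + 1) * (2 * (n : ℤ) + 1 - 2 * (j : ℤ)) +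
          (x 0 - x 1 - x 2 + x 3)))
    (fun i _ => sum (S := S1) (range (n + 1)) (fun j (a : ℕ × ℕ) =>
      ((-1 : ℚ) ^ (i + j) * ((2 * n + 1).choose i : ℚ) * ((2 * n + 1).choose j : ℚ)) *
      ∑ x ∈ Finset.Nat.antidiagonalTuple 4 a.1,
        ((x 0 + (4 * n + 2 - i - j)).choose (4 * n + 2 - i - j) : ℚ) *
        ((x 1 + (i + j)).choose (i + j) : ℚ) *
        ((x 2 + (2 * n + 1 + j - i)).choose (2 * n + 1 + j - i) : ℚ) *
        ((x 3 + (2 * n + 1 + i - j)).choose (2 * n + 1 + i - j) : ℚ) *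
        KTT.q (2 * n + 1) (((a.2 : ℤ) + 1) * (2 * (n : ℤ) + 1 - 2 * (i : ℤ)) +
          (x 0 - x 1 + x 2 - x 3)) *
        KTT.q (2 * n + 1) (((a.2 : ℤ) + 1) * (2 * (n : ℤ) + 1 - 2 * (j : ℤ)) +
          (x 0 - x 1 - x 2 + x 3)))
      (fun j _ => term _ _ _ _ _ _ _ _))
  refine h1.congr (fun a => ?_)
  unfold Phi
  rfl

end PF

end Pool.Agent.KTT.Pl

namespace Pool.Agent.KTT

open Polynomial in
/-- **[POLY]** the linear coefficient of the diagonal of `Phi`. -/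
theorem Phi_diag (n : ℕ) (P A B : Polynomial ℚ)
    (hP : ∀ k : ℕ, 1 ≤ k → P.eval (k : ℚ) = Phi n k k)
    (hA : ∀ m : ℕ, A.eval (m : ℚ) = Phi n m 0)
    (hB : ∀ k : ℕ, B.eval (k : ℚ) = Phi n 0 k) :
    P.coeff 1 = A.coeff 1 + B.coeff 1 :=
  Pl.coeff_one_of_diag (Pl.PF.phi n) P A B hP hA hB

end Pool.Agent.KTT
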