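import Pool.Agent.Work.MP_0df73a_co.KTT.Spec

/-!
KTT (MP_0df73a_co), module VAL1: the polynomial `h(k)` (number of points `p ∈ [0,k]^N` with
`∑ p = kN/2`) in inclusion-exclusion form, its value and its derivative at `0`.
-/

set_option autoImplicit false

namespace Pool.Agent.KTT
namespace Val1

open Polynomial Finset

noncomputable section

/-- The polynomial `C((s+N)/2 - 1, N-1)` in `s`. -/
def cP (N : ℕ) : ℚ[X] :=
  C (1 / (2 ^ (N - 1) * ((N - 1).factorial : ℚ))) *
    ∏ l ∈ range (N - 1), (X + C ((N : ℚ) - 2 * ((l : ℚ) + 1)))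

/-- `h(k) = ∑_{a ≤ n} (-1)^a C(N,a) c((N-2a)(k+1))`, `N = 2n+1`. -/
def hP (n : ℕ) : ℚ[X] :=
  ∑ a ∈ range (n + 1), C ((-1) ^ a * ((2 * n + 1).choose a : ℚ)) *
    (cP (2 * n + 1)).comp (C ((2 * n + 1 : ℚ) - 2 * (a : ℚ)) * (X + 1))

theorem cP_eval (N : ℕ) (s : ℚ) :
    (cP N).eval s = (∏ l ∈ range (N - 1), (s + N - 2 * ((l : ℚ) + 1))) /
      (2 ^ (N - 1) * ((N - 1).factorial : ℚ)) := by
  unfold cP
  rw [eval_mul, eval_C, eval_prod]
  have h : ∀ l ∈ range (N - 1), eval s (X + C ((N : ℚ) - 2 * ((l : ℚ) + 1)))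
      = s + N - 2 * ((l : ℚ) + 1) := by
    intro l _
    simp only [eval_add, eval_X, eval_C]
    ring
  rw [Finset.prod_congr rfl h]
  ring

/-- `∏_{l<m, l≠j} (j-l) = j! (-1)^(m-1-j) (m-1-j)!` -/
theorem prod_erase (j : ℕ) (d : ℕ) :
    ∏ l ∈ (range (j + 1 + d)).erase j, ((j : ℚ) - l) = (j.factorial : ℚ) * ((-1) ^ d * (d.factorial : ℚ)) := by
  induction d with
  | zero =>
    rw [add_zero, Finset.range_add_one, Finset.erase_insert (by simp)]
    have h : ∀ m : ℕ, ∏ l ∈ range m, ((m : ℚ) - l) = (m.factorial : ℚ) := by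
      intro m
      rw [← Finset.prod_range_reflect, Nat.factorial_eq_prod_range_add_one]
      push_cast
      apply Finset.prod_congr rfl
      intro l hl
      have : l < m := Finset.mem_range.1 hl
      rw [show m - 1 - l = m - (l + 1) by omega, Nat.cast_sub (by omega)]
      push_cast; ring
    rw [h j]; simp
  | succ d ih =>
    have e : range (j + 1 + (d + 1)) = insert (j + 1 + d) (range (j + 1 + d)) := by
      rw [← add_assoc, Finset.range_add_one]
    rw [e, Finset.erase_insert_of_ne (by omega), Finset.prod_insert (by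
      simp), ih, Nat.factorial_succ]
    push_cast
    ring

theorem cP_eval_top (n a : ℕ) (ha : a ≤ n) :
    (cP (2 * n + 1)).eval ((2 * n + 1 : ℚ) - 2 * (a : ℚ)) = if a = 0 then 1 else 0 := by
  rw [cP_eval]
  have h2 : (2 * n + 1 - 1) = 2 * n := by omega
  rw [h2]
  split_ifs with h
  · subst h
    rw [div_eq_one_iff_eq (by positivity)]
    have : ∀ l ∈ range (2 * n), ((2 * n + 1 : ℚ) - 2 * ((0 : ℕ) : ℚ) + ((2 * n + 1 : ℕ) : ℚ) - 2 * ((l : ℚ) + 1))
        = 2 * (((2 * n : ℕ) : ℚ) - l) := by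
      intro l _; push_cast; ring
    rw [Finset.prod_congr rfl this, Finset.prod_mul_distrib, Finset.prod_const, Finset.card_range]
    congr 1
    have := prod_erase (2 * n) 0
    rw [add_zero, Finset.range_add_one, Finset.erase_insert (by simp)] at this
    rw [this]; simp
  · rw [div_eq_zero_iff]
    left
    apply Finset.prod_eq_zero (i := 2 * n - a) (by simp; omega)
    rw [Nat.cast_sub (by omega)]
    push_cast; ring

theorem hP_eval_zero (n : ℕ) : (hP n).eval 0 = 1 := by
  unfold hP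
  rw [eval_finsetSum]
  rw [Finset.sum_eq_single 0]
  · simp only [eval_mul, eval_C, eval_comp, eval_add, eval_X, eval_one]
    rw [show ((2 * n + 1 : ℚ) - 2 * ((0 : ℕ) : ℚ)) * (0 + 1) = (2 * n + 1 : ℚ) - 2 * ((0 : ℕ) : ℚ) by ring,
      cP_eval_top n 0 (by omega)]
    simp
  · intro a ha h0
    simp only [eval_mul, eval_C, eval_comp, eval_add, eval_X, eval_one]
    rw [show ((2 * n + 1 : ℚ) - 2 * (a : ℚ)) * (0 + 1) = (2 * n + 1 : ℚ) - 2 * (a : ℚ) by ring,
      cP_eval_top n a (by simpa [Nat.lt_succ_iff] using ha)]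
    simp [h0]
  · simp

/-- derivative of a product of monic linear factors at a root which occurs once -/
theorem deriv_prod_root (m : ℕ) (g : ℕ → ℚ) (x : ℚ) (j : ℕ) (hj : j ∈ range m) (hx : x + g j = 0) :
    (derivative (∏ l ∈ range m, (X + C (g l)))).eval x = ∏ l ∈ (range m).erase j, (x + g l) := by
  rw [← Finset.mul_prod_erase _ _ hj, derivative_mul, eval_add, eval_mul, eval_mul]
  simp only [derivative_add, derivative_X, derivative_C, add_zero, eval_one, one_mul, eval_add,
    eval_X, eval_C, hx, zero_mul, add_zero, eval_prod]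

theorem deriv_prod_gen (m : ℕ) (g : ℕ → ℚ) (x : ℚ) (hx : ∀ l ∈ range m, x + g l ≠ 0) :
    (derivative (∏ l ∈ range m, (X + C (g l)))).eval x
      = (∏ l ∈ range m, (x + g l)) * ∑ l ∈ range m, (x + g l)⁻¹ := by
  induction m with
  | zero => simp
  | succ m ih =>
    rw [Finset.prod_range_succ, derivative_mul, eval_add, eval_mul, eval_mul, ih (by
      intro l hl; exact hx l (by simp at hl ⊢; omega)), Finset.prod_range_succ, Finset.sum_range_succ]
    have h := hx m (by simp)
    simp only [derivative_add, derivative_X, derivative_C, add_zero, eval_one, mul_one, eval_add,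
      eval_X, eval_C, eval_prod]
    field_simp

/-- value of `c'(N-2a)` for `a = 0` -/
theorem cP_deriv_top (n : ℕ) :
    (derivative (cP (2 * n + 1))).eval (2 * n + 1 : ℚ) = (1 / 2) * harmonic (2 * n) := by
  unfold cP
  have h2 : (2 * n + 1 - 1) = 2 * n := by omega
  rw [derivative_C_mul, eval_mul, eval_C, h2, deriv_prod_gen]
  · have h1 : ∏ l ∈ range (2 * n), ((2 * n + 1 : ℚ) + (((2 * n + 1 : ℕ) : ℚ) - 2 * ((l : ℚ) + 1)))
        = 2 ^ (2 * n) * ((2 * n).factorial : ℚ) := by
      have h := cP_eval_top n 0 (by omega)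
      rw [cP_eval, h2] at h
      simp only [if_true, Nat.cast_zero, mul_zero, sub_zero] at h
      rw [div_eq_one_iff_eq (by positivity)] at h
      rw [← h]
      apply Finset.prod_congr rfl
      intro l _; ring
    rw [h1]
    have h3 : ∑ l ∈ range (2 * n), ((2 * n + 1 : ℚ) + (((2 * n + 1 : ℕ) : ℚ) - 2 * ((l : ℚ) + 1)))⁻¹
        = (1 / 2) * harmonic (2 * n) := by
      rw [harmonic, ← Finset.sum_range_reflect, Finset.mul_sum]
      apply Finset.sum_congr rfl
      intro l hl
      have : l < 2 * n := Finset.mem_range.1 hl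
      rw [show 2 * n - 1 - l = 2 * n - (l + 1) by omega, Nat.cast_sub (by omega)]
      push_cast
      rw [show ((2 * n + 1 : ℚ) + ((2 * n + 1 : ℚ) - 2 * ((2 * (n : ℚ) - ((l : ℚ) + 1)) + 1))) = 2 * ((l : ℚ) + 1) by ring]
      have : ((l : ℚ) + 1) ≠ 0 := by positivity
      field_simp
    rw [h3]
    have : (2 : ℚ) ^ (2 * n) * ((2 * n).factorial : ℚ) ≠ 0 := by positivity
    field_simp
  · intro l hl
    have : l < 2 * n := Finset.mem_range.1 hl
    have h : ((l : ℚ) + 1) ≤ 2 * n := by exact_mod_cast this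
    push_cast
    intro h0
    linarith

/-- value of `c'(N-2a)` for `1 ≤ a ≤ n` -/
theorem cP_deriv_root (n a : ℕ) (h1 : 1 ≤ a) (ha : a ≤ n) :
    (derivative (cP (2 * n + 1))).eval ((2 * n + 1 : ℚ) - 2 * (a : ℚ))
      = (1 / 2) * ((-1) ^ (a - 1) * ((2 * n - a).factorial : ℚ) * ((a - 1).factorial : ℚ)) /
          ((2 * n).factorial : ℚ) := by
  unfold cP
  have h2 : (2 * n + 1 - 1) = 2 * n := by omega
  rw [derivative_C_mul, eval_mul, eval_C, h2, deriv_prod_root (j := 2 * n - a)]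
  · have h3 : ∀ l ∈ (range (2 * n)).erase (2 * n - a),
        ((2 * n + 1 : ℚ) - 2 * (a : ℚ)) + (((2 * n + 1 : ℕ) : ℚ) - 2 * ((l : ℚ) + 1))
          = 2 * (((2 * n - a : ℕ) : ℚ) - l) := by
      intro l _
      rw [Nat.cast_sub (by omega)]; push_cast; ring
    rw [Finset.prod_congr rfl h3, Finset.prod_mul_distrib, Finset.prod_const]
    have hc : ((range (2 * n)).erase (2 * n - a)).card = 2 * n - 1 := by
      rw [Finset.card_erase_of_mem (by simp; omega), Finset.card_range]
    rw [hc]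
    have hp := prod_erase (2 * n - a) (a - 1)
    rw [show 2 * n - a + 1 + (a - 1) = 2 * n by omega] at hp
    rw [hp]
    have hpow : (2 : ℚ) ^ (2 * n) = 2 * 2 ^ (2 * n - 1) := by
      rw [← pow_succ']; congr 1; omega
    rw [hpow]
    have : (2 : ℚ) ^ (2 * n - 1) ≠ 0 := by positivity
    have : ((2 * n).factorial : ℚ) ≠ 0 := by positivity
    field_simp
  · simp; omega
  · rw [Nat.cast_sub (by omega)]; push_cast; ring

theorem hP_deriv (n : ℕ) :
    (derivative (hP n)).eval 0 = (2 * n + 1) * (harmonic (2 * n) - harmonic n) := by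
  have hterm : ∀ a : ℕ, (derivative (C ((-1) ^ a * ((2 * n + 1).choose a : ℚ)) *
      (cP (2 * n + 1)).comp (C ((2 * n + 1 : ℚ) - 2 * (a : ℚ)) * (X + 1)))).eval 0
      = (-1) ^ a * ((2 * n + 1).choose a : ℚ) * ((2 * n + 1 : ℚ) - 2 * (a : ℚ)) *
        (derivative (cP (2 * n + 1))).eval ((2 * n + 1 : ℚ) - 2 * (a : ℚ)) := by
    intro a
    rw [derivative_C_mul, eval_mul, eval_C, derivative_comp, eval_mul, eval_comp, derivative_C_mul]
    simp only [derivative_add, derivative_X, derivative_one, add_zero, mul_one, eval_C, eval_mul,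
      eval_add, eval_X, eval_one, zero_add]
    ring
  unfold hP
  rw [derivative_sum, eval_finsetSum, Finset.sum_congr rfl (fun a _ => hterm a),
    Finset.sum_range_succ']
  have h0 : (-1 : ℚ) ^ 0 * ((2 * n + 1).choose 0 : ℚ) * ((2 * n + 1 : ℚ) - 2 * ((0 : ℕ) : ℚ)) *
        (derivative (cP (2 * n + 1))).eval ((2 * n + 1 : ℚ) - 2 * ((0 : ℕ) : ℚ))
        = (2 * n + 1) / 2 * harmonic (2 * n) := by
    rw [show ((2 * n + 1 : ℚ) - 2 * ((0 : ℕ) : ℚ)) = 2 * n + 1 by push_cast; ring, cP_deriv_top]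
    simp; ring
  rw [h0]
  have hS : ∀ a ∈ range n, (-1 : ℚ) ^ (a + 1) * ((2 * n + 1).choose (a + 1) : ℚ) *
        ((2 * n + 1 : ℚ) - 2 * ((a + 1 : ℕ) : ℚ)) *
        (derivative (cP (2 * n + 1))).eval ((2 * n + 1 : ℚ) - 2 * ((a + 1 : ℕ) : ℚ))
        = - ((2 * n + 1) / 2) * (((a : ℚ) + 1)⁻¹ - ((2 * n : ℚ) - a)⁻¹) := by
    intro a ha
    have han : a < n := Finset.mem_range.1 ha
    rw [cP_deriv_root n (a + 1) (by omega) (by omega)]
    have hch : ((2 * n + 1).choose (a + 1) : ℚ) * (((a + 1).factorial : ℚ) * ((2 * n + 1 - (a + 1)).factorial : ℚ))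
        = ((2 * n + 1).factorial : ℚ) := by
      have := Nat.choose_mul_factorial_mul_factorial (n := 2 * n + 1) (k := a + 1) (by omega)
      rw [← mul_assoc]
      exact_mod_cast this
    rw [show 2 * n + 1 - (a + 1) = (2 * n - (a + 1)) + 1 by omega, Nat.factorial_succ a,
      Nat.factorial_succ (2 * n - (a + 1)), Nat.factorial_succ (2 * n)] at hch
    rw [show a + 1 - 1 = a by omega]
    have c1 : ((2 * n - (a + 1) : ℕ) : ℚ) = 2 * n - (a + 1) := by
      rw [Nat.cast_sub (by omega)]; push_cast; ring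
    push_cast at hch
    rw [c1] at hch
    have hpos : (0 : ℚ) < 2 * n - a := by
      have : (a : ℚ) < n := by exact_mod_cast han
      have : (0 : ℚ) ≤ n := by positivity
      linarith
    have e1 : ((2 : ℚ) * n - (a + 1) + 1) = 2 * n - a := by ring
    rw [e1] at hch
    have hf1 : ((2 * n).factorial : ℚ) ≠ 0 := by positivity
    have hf2 : ((a).factorial : ℚ) ≠ 0 := by positivity
    have hf3 : ((2 * n - (a + 1)).factorial : ℚ) ≠ 0 := by positivity
    have ha1 : ((a : ℚ) + 1) ≠ 0 := by positivity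
    have hpos' := hpos.ne'
    have hch' : ((2 * n + 1).choose (a + 1) : ℚ) =
        (2 * n + 1) * ((2 * n).factorial : ℚ) /
          (((a : ℚ) + 1) * (a.factorial : ℚ) * ((2 * n - a) * ((2 * n - (a + 1)).factorial : ℚ))) := by
      rw [eq_div_iff (by positivity)]
      exact hch
    rw [hch']
    have hs : (-1 : ℚ) ^ (a + 1) * (-1) ^ a = -1 := by
      rw [← pow_add, show a + 1 + a = 2 * a + 1 by ring, pow_succ, pow_mul]; norm_num
    push_cast
    rw [show ∀ u v w x y z : ℚ, (-1 : ℚ) ^ (a + 1) * u * v * (w * ((-1) ^ a * x * y) / z)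
        = ((-1 : ℚ) ^ (a + 1) * (-1) ^ a) * (u * v * (w * (x * y) / z)) by intros; ring, hs]
    field_simp
    ring
  rw [Finset.sum_congr rfl hS, ← Finset.mul_sum, Finset.sum_sub_distrib]
  have hn : ∑ a ∈ range n, ((a : ℚ) + 1)⁻¹ = harmonic n := by
    rw [harmonic]; push_cast; rfl
  have h2n : ∑ a ∈ range n, ((2 * n : ℚ) - a)⁻¹ = harmonic (2 * n) - harmonic n := by
    have h4 : harmonic (2 * n) = harmonic n + ∑ a ∈ range n, (((n + a : ℕ) : ℚ) + 1)⁻¹ := by
      rw [harmonic, harmonic, show 2 * n = n + n by ring, Finset.sum_range_add]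
      push_cast; rfl
    rw [h4, add_sub_cancel_left, ← Finset.sum_range_reflect]
    apply Finset.sum_congr rfl
    intro a ha
    have han : a < n := Finset.mem_range.1 ha
    rw [show n - 1 - a = n - (a + 1) by omega]
    push_cast [Nat.cast_sub (show a + 1 ≤ n by omega)]
    congr 1
    ring
  rw [hn, h2n]
  ring

theorem q_eq (N : ℕ) (s : ℤ) : q N s = (cP N).eval (s : ℚ) := by
  rw [cP_eval, q]

theorem hh_eq (n k : ℕ) : hh n k = (hP n).eval (k : ℚ) := by
  unfold hh hP
  rw [eval_finsetSum]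
  apply Finset.sum_congr rfl
  intro a _
  rw [q_eq]
  simp only [eval_mul, eval_C, eval_comp, eval_add, eval_X, eval_one]
  congr 2
  push_cast
  ring

theorem Phi_zero_left (n k : ℕ) : Phi n 0 k = hh n k ^ 2 := by
  unfold Phi hh
  rw [sq, Finset.sum_mul_sum]
  apply Finset.sum_congr rfl
  intro i _
  apply Finset.sum_congr rfl
  intro j _
  rw [Finset.Nat.antidiagonalTuple_zero_right, Finset.sum_singleton]
  simp only [Pi.zero_apply, zero_add, Nat.choose_self, Nat.cast_one, mul_one, one_mul,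
    Nat.cast_zero, sub_zero, add_zero, pow_add]
  ring

theorem hp_eq (n : ℕ) : hp n = (2 * n + 1) * (harmonic (2 * n) - harmonic n) := by
  unfold hp
  rw [Finset.sum_Ico_eq_sub _ (by omega)]
  simp [harmonic]

end

end Val1

/-- module VAL1 -/
theorem val1 (n : ℕ) : ∃ B : Polynomial ℚ, (∀ k : ℕ, B.eval (k : ℚ) = Phi n 0 k) ∧
    B.coeff 1 = 2 * hp n := by
  refine ⟨Val1.hP n ^ 2, ?_, ?_⟩
  · intro k
    rw [Val1.Phi_zero_left, Val1.hh_eq, Polynomial.eval_pow]
  · have h : (Val1.hP n ^ 2).coeff 1 = (Polynomial.derivative (Val1.hP n ^ 2)).eval 0 := by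
      rw [← Polynomial.coeff_zero_eq_eval_zero, Polynomial.coeff_derivative]; simp
    rw [h, sq, Polynomial.derivative_mul, Polynomial.eval_add, Polynomial.eval_mul,
      Polynomial.eval_mul, Val1.hP_eval_zero, Val1.hP_deriv, Val1.hp_eq]
    ring

end Pool.Agent.KTT
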