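import Pool.Agent.Work.MP_0df73a_co.KTT.Spec

/-!
# KTT, module VAL2 (helper12)

`ff n l` (the value at `kappa = 0` of the two-variable polynomial, after the Moebius step) is a
polynomial in `l`; its linear coefficient is `∑ rr n m * JJ n m`.
-/

set_option autoImplicit false

namespace Pool.Agent.KTT

namespace Val2

open Finset

/-- The coefficient of `z^l` of `T[((1+zX)(1+z/X)(1+zY)(1+z/Y))^(2N)]`. -/
def h4 (n l : ℕ) : ℚ := ∑ y ∈ Finset.Nat.antidiagonalTuple 4 l,
      ((4 * n + 2).choose (y 0) : ℚ) * ((4 * n + 2).choose (y 1) : ℚ) *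
      ((4 * n + 2).choose (y 2) : ℚ) * ((4 * n + 2).choose (y 3) : ℚ) *
      tau n (y 0 - y 1 + (y 2 - y 3)) * tau n (y 0 - y 1 - (y 2 - y 3))

/-! ### Vanishing of high mixed differences -/

lemma alt_sum_pow (p a : ℕ) (h : a < 2*p) :
    ∑ i ∈ range (2*p+1), (-1:ℚ)^i * ((2*p).choose i : ℚ) * ((i:ℚ) - p)^a = 0 := by
  have h1 := congrFun (fwdDiff_iter_pow_eq_zero_of_lt (R := ℚ) h) (-(p:ℚ))
  rw [fwdDiff_iter_eq_sum_shift] at h1
  rw [Pi.zero_apply] at h1
  rw [← h1]
  refine Finset.sum_congr rfl fun i hi => ?_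
  have hi' : i ≤ 2*p := by have := mem_range.1 hi; omega
  have e1 : (-1:ℤ)^(2*p - i) = (-1)^i := by
    have : (-1:ℤ)^(2*p - i) * (-1)^i = 1 := by
      rw [← pow_add, Nat.sub_add_cancel hi', pow_mul]; norm_num
    have h2 : ((-1:ℤ)^i) * (-1)^i = 1 := by rw [← mul_pow]; norm_num
    calc (-1:ℤ)^(2*p - i) = (-1:ℤ)^(2*p - i) * ((-1)^i * (-1)^i) := by rw [h2, mul_one]
      _ = (-1)^i := by rw [← mul_assoc, this, one_mul]
  rw [e1]
  simp only [zsmul_eq_mul, nsmul_eq_mul, mul_one]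
  push_cast
  ring

/-- polynomial whose values are `tau(i+j) tau(i-j)` -/
noncomputable def gpoly (n : ℕ) : MvPolynomial (Fin 2) ℚ :=
  ∏ r ∈ range n,
    ((1 - MvPolynomial.C (1 / (4 * ((r:ℚ)+1)^2)) * (MvPolynomial.X 0 + MvPolynomial.X 1)^2) *
     (1 - MvPolynomial.C (1 / (4 * ((r:ℚ)+1)^2)) * (MvPolynomial.X 0 - MvPolynomial.X 1)^2))

lemma gpoly_eval (n : ℕ) (i j : ℤ) :
    MvPolynomial.eval ![(i:ℚ), (j:ℚ)] (gpoly n) = tau n (i+j) * tau n (i-j) := by
  unfold gpoly tau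
  rw [map_prod, ← Finset.prod_mul_distrib]
  refine Finset.prod_congr rfl fun r _ => ?_
  simp only [map_mul, map_sub, map_one, map_pow, map_add, MvPolynomial.eval_C,
    MvPolynomial.eval_X]
  simp only [Matrix.cons_val_zero, Matrix.cons_val_one]
  push_cast
  ring

lemma gpoly_deg (n : ℕ) : (gpoly n).totalDegree ≤ 4*n := by
  unfold gpoly
  refine (MvPolynomial.totalDegree_finsetProd _ _).trans ?_
  calc _ ≤ ∑ r ∈ range n, 4 := by
        refine Finset.sum_le_sum fun r _ => ?_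
        have hx : ∀ (s : MvPolynomial (Fin 2) ℚ), s.totalDegree ≤ 1 → ∀ c : ℚ,
            (1 - MvPolynomial.C c * s^2 : MvPolynomial (Fin 2) ℚ).totalDegree ≤ 2 := by
          intro s hs c
          refine (MvPolynomial.totalDegree_sub _ _).trans ?_
          refine max_le (by simp) ?_
          refine (MvPolynomial.totalDegree_mul _ _).trans ?_
          rw [MvPolynomial.totalDegree_C]
          have := MvPolynomial.totalDegree_pow s 2
          omega
        have h1 : (MvPolynomial.X 0 + MvPolynomial.X 1 : MvPolynomial (Fin 2) ℚ).totalDegree ≤ 1 := by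
          refine (MvPolynomial.totalDegree_add _ _).trans ?_
          simp [MvPolynomial.totalDegree_X]
        have h2 : (MvPolynomial.X 0 - MvPolynomial.X 1 : MvPolynomial (Fin 2) ℚ).totalDegree ≤ 1 := by
          refine (MvPolynomial.totalDegree_sub _ _).trans ?_
          simp [MvPolynomial.totalDegree_X]
        refine (MvPolynomial.totalDegree_mul _ _).trans ?_
        have := hx _ h1 (1 / (4 * ((r:ℚ)+1)^2))
        have := hx _ h2 (1 / (4 * ((r:ℚ)+1)^2))
        omega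
    _ = 4*n := by simp [mul_comm]

lemma MM_zero (n p q : ℕ) (h : 2*n < p+q) : MM n p q = 0 := by
  unfold MM
  have key : ∀ i j : ℤ, tau n (i+j) * tau n (i-j) =
      ∑ d ∈ (gpoly n).support, (gpoly n).coeff d * ((i:ℚ)^(d 0) * (j:ℚ)^(d 1)) := by
    intro i j
    rw [← gpoly_eval, MvPolynomial.eval_eq']
    refine Finset.sum_congr rfl fun d _ => ?_
    simp [Fin.prod_univ_two]
  have step : ∑ i ∈ range (2*p+1), ∑ j ∈ range (2*q+1),
      (-1:ℚ)^(i+j) * ((2*p).choose i : ℚ) * ((2*q).choose j : ℚ) *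
        (tau n (((i:ℤ) - p) + ((j:ℤ) - q)) * tau n (((i:ℤ) - p) - ((j:ℤ) - q))) =
      ∑ d ∈ (gpoly n).support, (gpoly n).coeff d *
        ((∑ i ∈ range (2*p+1), (-1:ℚ)^i * ((2*p).choose i : ℚ) * ((i:ℚ) - p)^(d 0)) *
         (∑ j ∈ range (2*q+1), (-1:ℚ)^j * ((2*q).choose j : ℚ) * ((j:ℚ) - q)^(d 1))) := by
    have hd : ∀ d : Fin 2 →₀ ℕ, (gpoly n).coeff d *
        ((∑ i ∈ range (2*p+1), (-1:ℚ)^i * ((2*p).choose i : ℚ) * ((i:ℚ) - p)^(d 0)) *
         (∑ j ∈ range (2*q+1), (-1:ℚ)^j * ((2*q).choose j : ℚ) * ((j:ℚ) - q)^(d 1))) =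
        ∑ i ∈ range (2*p+1), ∑ j ∈ range (2*q+1), (gpoly n).coeff d *
        (((-1:ℚ)^i * ((2*p).choose i : ℚ) * ((i:ℚ) - p)^(d 0)) *
         ((-1:ℚ)^j * ((2*q).choose j : ℚ) * ((j:ℚ) - q)^(d 1))) := by
      intro d
      rw [Finset.sum_mul_sum, Finset.mul_sum]
      refine Finset.sum_congr rfl fun i _ => ?_
      rw [Finset.mul_sum]
    simp only [hd]
    symm
    rw [Finset.sum_comm]
    refine Finset.sum_congr rfl fun i _ => ?_
    rw [Finset.sum_comm]
    refine Finset.sum_congr rfl fun j _ => ?_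
    rw [key, Finset.mul_sum]
    refine Finset.sum_congr rfl fun d _ => ?_
    push_cast
    ring
  rw [step]
  refine Finset.sum_eq_zero fun d hd => ?_
  have hdeg : d 0 + d 1 ≤ 4*n := by
    have h1 := MvPolynomial.le_totalDegree hd
    have h2 := gpoly_deg n
    have h3 : (d.sum fun _ e => e) = d 0 + d 1 := by
      rw [Finsupp.sum_fintype _ _ (by simp), Fin.sum_univ_two]
    omega
  rcases Nat.lt_or_ge (d 0) (2*p) with h0 | h0
  · rw [alt_sum_pow p (d 0) h0]; ring
  · have h1 : d 1 < 2*q := by omega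
    rw [alt_sum_pow q (d 1) h1]; ring

/-! ### Sums over 4-tuples -/

lemma sum_tuple4 (l : ℕ) (f : ℕ → ℕ → ℕ → ℕ → ℚ) :
    ∑ y ∈ Finset.Nat.antidiagonalTuple 4 l, f (y 0) (y 1) (y 2) (y 3) =
    ∑ x ∈ antidiagonal l, ∑ u ∈ antidiagonal x.1, ∑ v ∈ antidiagonal x.2,
      f u.1 u.2 v.1 v.2 := by
  have h : ∀ x : ℕ × ℕ, ∑ u ∈ antidiagonal x.1, ∑ v ∈ antidiagonal x.2, f u.1 u.2 v.1 v.2
      = ∑ w ∈ antidiagonal x.1 ×ˢ antidiagonal x.2, f w.1.1 w.1.2 w.2.1 w.2.2 := by
    intro x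
    rw [Finset.sum_product]
  simp only [h]
  rw [Finset.sum_sigma']
  refine Finset.sum_nbij' (i := fun y => ⟨(y 0 + y 1, y 2 + y 3), ((y 0, y 1), (y 2, y 3))⟩)
    (j := fun w => ![w.2.1.1, w.2.1.2, w.2.2.1, w.2.2.2]) ?_ ?_ ?_ ?_ ?_
  · intro y hy
    rw [Finset.Nat.mem_antidiagonalTuple, Fin.sum_univ_four] at hy
    simp only [Finset.mem_sigma, Finset.mem_product, HasAntidiagonal.mem_antidiagonal]
    exact ⟨by omega, trivial, trivial⟩
  · rintro ⟨⟨a, b⟩, ⟨⟨c, d⟩, ⟨e, g⟩⟩⟩ hw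
    simp only [Finset.mem_sigma, Finset.mem_product, HasAntidiagonal.mem_antidiagonal] at hw
    rw [Finset.Nat.mem_antidiagonalTuple, Fin.sum_univ_four]
    simp
    omega
  · intro y hy
    ext i
    fin_cases i <;> rfl
  · rintro ⟨⟨a, b⟩, ⟨⟨c, d⟩, ⟨e, g⟩⟩⟩ hw
    simp only [Finset.mem_sigma, Finset.mem_product, HasAntidiagonal.mem_antidiagonal] at hw
    obtain ⟨h1, h2, h3⟩ := hw
    subst h2 h3
    rfl
  · intro y hy
    rfl

/-! ### The generating polynomial -/

open Polynomial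

section ring
variable {B : Type*} [CommRing B]

lemma coeff_one_add (a : B) (K i : ℕ) :
    ((1 + C a * X : B[X])^K).coeff i = (K.choose i : B) * a^i := by
  rw [add_comm, add_pow, finsetSum_coeff]
  have h : ∀ b, ((C a * X)^b * 1^(K-b) * (K.choose b : B[X])).coeff i =
      if b = i then (K.choose i : B) * a^i else 0 := by
    intro b
    rw [one_pow, mul_one, mul_pow, ← C_pow, ← C_eq_natCast, mul_right_comm, ← C_mul,
      coeff_C_mul, coeff_X_pow]
    by_cases hb : b = i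
    · subst hb; simp [mul_comm]
    · simp [hb, Ne.symm hb]
  simp only [h]
  rw [Finset.sum_ite_eq']
  split_ifs with hi
  · rfl
  · have : K < i := by simpa using hi
    rw [Nat.choose_eq_zero_of_lt this]; simp

lemma pow_one_var (x x' : B) (h : x * x' = 1) (K : ℕ) :
    (1 + C x * X : B[X])^K * (1 + C x' * X)^K =
      ∑ p ∈ range (K+1), C ((K.choose p : B) * (x + x' - 2)^p) * (X^p * (1+X)^(2*(K-p))) := by
  have h1 : (1 + C x * X : B[X]) * (1 + C x' * X) = C (x + x' - 2) * X + (1+X)^2 := by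
    have : (C x * C x' : B[X]) = 1 := by rw [← C_mul, h, C_1]
    have h2 : (C (x + x' - 2) : B[X]) = C x + C x' - 2 := by
      rw [C_sub, C_add]; rfl
    rw [h2]
    linear_combination (X:B[X])^2 * this
  rw [← mul_pow, h1, add_pow]
  refine Finset.sum_congr rfl fun p _ => ?_
  rw [← pow_mul, mul_pow, C_mul, C_pow, C_eq_natCast]
  ring

lemma four_var (x x' y y' : B) (hx : x * x' = 1) (hy : y * y' = 1) (K l : ℕ) :
    ∑ w ∈ antidiagonal l, ∑ u ∈ antidiagonal w.1, ∑ v ∈ antidiagonal w.2,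
      ((K.choose u.1 : B) * (K.choose u.2 : B) * (K.choose v.1 : B) * (K.choose v.2 : B)) *
        (x^u.1 * x'^u.2 * (y^v.1 * y'^v.2)) =
    ∑ p ∈ range (K+1), ∑ q ∈ range (K+1),
      ((K.choose p : B) * (K.choose q : B) *
        (if p + q ≤ l then ((2*(K-p) + 2*(K-q)).choose (l-(p+q)) : B) else 0)) *
        ((x + x' - 2)^p * (y + y' - 2)^q) := by
  have h1 : (((1 + C x * X : B[X])^K * (1 + C x' * X)^K) *
      ((1 + C y * X : B[X])^K * (1 + C y' * X)^K)).coeff l =
      ∑ w ∈ antidiagonal l, ∑ u ∈ antidiagonal w.1, ∑ v ∈ antidiagonal w.2,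
      ((K.choose u.1 : B) * (K.choose u.2 : B) * (K.choose v.1 : B) * (K.choose v.2 : B)) *
        (x^u.1 * x'^u.2 * (y^v.1 * y'^v.2)) := by
    rw [Polynomial.coeff_mul]
    refine Finset.sum_congr rfl fun w _ => ?_
    rw [Polynomial.coeff_mul, Polynomial.coeff_mul, Finset.sum_mul_sum]
    refine Finset.sum_congr rfl fun u _ => ?_
    refine Finset.sum_congr rfl fun v _ => ?_
    rw [coeff_one_add, coeff_one_add, coeff_one_add, coeff_one_add]
    ring
  rw [← h1, pow_one_var x x' hx, pow_one_var y y' hy, Finset.sum_mul_sum, finsetSum_coeff]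
  refine Finset.sum_congr rfl fun p _ => ?_
  rw [finsetSum_coeff]
  refine Finset.sum_congr rfl fun q _ => ?_
  have e : C ((K.choose p : B) * (x + x' - 2)^p) * (X^p * (1+X)^(2*(K-p))) *
      (C ((K.choose q : B) * (y + y' - 2)^q) * (X^q * (1+X)^(2*(K-q)))) =
      C (((K.choose p : B) * (x + x' - 2)^p) * ((K.choose q : B) * (y + y' - 2)^q)) *
        (X^(p+q) * (1+X)^(2*(K-p) + 2*(K-q))) := by
    simp only [C_mul, pow_add]; ring
  rw [e, coeff_C_mul, Polynomial.coeff_X_pow_mul', add_comm (1:B[X]) X, coeff_X_add_one_pow]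
  ring

end ring

/-! ### The functional -/

/-- Laurent polynomials in two variables -/
abbrev LL : Type := AddMonoidAlgebra ℚ (ℤ × ℤ)

/-- the monomial with exponents `(i, j)` -/
noncomputable def mo (i j : ℤ) : LL := AddMonoidAlgebra.single (i, j) 1

lemma mo_mul (i j i' j' : ℤ) : mo i j * mo i' j' = mo (i + i') (j + j') := by
  simp [mo]

lemma mo_zero : mo 0 0 = 1 := rfl

lemma mo_pow (i j : ℤ) (k : ℕ) : (mo i j)^k = mo (k * i) (k * j) := by
  induction k with
  | zero => simp [mo_zero]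
  | succ k ih => rw [pow_succ, ih, mo_mul]; push_cast; congr 1 <;> ring

/-- The linear functional `(i,j) ↦ w (i,j)` (as in helper29's `Ring.lean`). -/
noncomputable def TT (w : ℤ × ℤ → ℚ) : LL →ₗ[ℚ] ℚ where
  toFun f := f.coeff.sum fun p c => c * w p
  map_add' f g := by
    rw [AddMonoidAlgebra.coeff_add, Finsupp.sum_add_index']
    · intro p; simp
    · intro p a b; ring
  map_smul' c f := by
    rw [AddMonoidAlgebra.coeff_smul, Finsupp.sum_smul_index']
    · rw [Finsupp.sum, Finsupp.sum, RingHom.id_apply, smul_eq_mul, Finset.mul_sum]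
      refine Finset.sum_congr rfl fun p _ => ?_
      simp [mul_assoc]
    · intro p; simp

lemma TT_mo (w : ℤ × ℤ → ℚ) (i j : ℤ) : TT w (mo i j) = w (i, j) := by
  simp [TT, mo]

lemma TT_nat_mul (w : ℤ × ℤ → ℚ) (k : ℕ) (f : LL) : TT w ((k : LL) * f) = (k:ℚ) * TT w f := by
  rw [← nsmul_eq_mul, map_nsmul, nsmul_eq_mul]

/-- `X`-power difference -/
lemma diff_pow (i j : ℤ) (p : ℕ) :
    (mo i j + mo (-i) (-j) - 2)^p =
      ∑ a ∈ range (2*p+1), ((-1:LL)^a * ((2*p).choose a : LL)) *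
        mo ((a - p) * i) ((a - p) * j) := by
  have h : mo i j + mo (-i) (-j) - 2 = mo (-i) (-j) * (mo i j - 1)^2 := by
    have h1 : mo (-i) (-j) * mo i j = 1 := by rw [mo_mul]; simp [mo_zero]
    linear_combination (2 - mo i j) * h1
  rw [h, mul_pow, ← pow_mul, sub_eq_add_neg, add_pow, Finset.mul_sum]
  refine Finset.sum_congr rfl fun a ha => ?_
  have ha' : a ≤ 2*p := by have := mem_range.1 ha; omega
  have e1 : (-1:LL)^(2*p - a) = (-1)^a := by
    have h1 : (-1:LL)^(2*p - a) * (-1)^a = 1 := by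
      rw [← pow_add, Nat.sub_add_cancel ha', pow_mul]; norm_num
    have h2 : ((-1:LL)^a) * (-1)^a = 1 := by rw [← mul_pow]; norm_num
    calc (-1:LL)^(2*p - a) = (-1:LL)^(2*p - a) * ((-1)^a * (-1)^a) := by rw [h2, mul_one]
      _ = (-1)^a := by rw [← mul_assoc, h1, one_mul]
  have e2 : mo ((a - p) * i) ((a - p) * j) = mo (-i) (-j) ^ p * mo i j ^ a := by
    rw [mo_pow, mo_pow, mo_mul]
    congr 1 <;> ring
  rw [e1, e2]
  ring

/-- the weight `(a,b) ↦ tau(a+b) tau(a-b)` -/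
def wt (n : ℕ) (x : ℤ × ℤ) : ℚ := tau n (x.1 + x.2) * tau n (x.1 - x.2)

lemma TT_x_pow (n p q : ℕ) :
    TT (wt n) ((mo 1 0 + mo (-1) 0 - 2)^p * (mo 0 1 + mo 0 (-1) - 2)^q) = MM n p q := by
  have h1 := diff_pow 1 0 p
  have h2 := diff_pow 0 1 q
  rw [neg_zero] at h1 h2
  rw [h1, h2, Finset.sum_mul_sum, map_sum]
  unfold MM
  refine Finset.sum_congr rfl fun a _ => ?_
  rw [map_sum]
  refine Finset.sum_congr rfl fun b _ => ?_
  have e : ((-1:LL)^a * ((2*p).choose a : LL)) * mo ((a - p) * 1) ((a - p) * 0) *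
      (((-1:LL)^b * ((2*q).choose b : LL)) * mo ((b - q) * 0) ((b - q) * 1)) =
      ((-1:ℚ)^(a+b) * ((2*p).choose a : ℚ) * ((2*q).choose b : ℚ)) •
        mo ((a:ℤ) - p) ((b:ℤ) - q) := by
    have e3 : mo ((a:ℤ) - p) ((b:ℤ) - q) = mo ((a - p) * 1) ((a - p) * 0) *
        mo ((b - q) * 0) ((b - q) * 1) := by
      rw [mo_mul]; congr 1 <;> ring
    rw [e3, Algebra.smul_def]
    simp only [map_mul, map_pow, map_neg, map_one, map_natCast]
    ring
  rw [e, map_smul, TT_mo, smul_eq_mul]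
  rfl

lemma h4_eq_nested (n l : ℕ) : h4 n l =
    ∑ w ∈ antidiagonal l, ∑ u ∈ antidiagonal w.1, ∑ v ∈ antidiagonal w.2,
      ((4*n+2).choose u.1 : ℚ) * ((4*n+2).choose u.2 : ℚ) *
      ((4*n+2).choose v.1 : ℚ) * ((4*n+2).choose v.2 : ℚ) *
      wt n ((u.1:ℤ) - u.2, (v.1:ℤ) - v.2) := by
  unfold h4
  rw [← sum_tuple4 l (fun a b c d => ((4*n+2).choose a : ℚ) * ((4*n+2).choose b : ℚ) *
      ((4*n+2).choose c : ℚ) * ((4*n+2).choose d : ℚ) * wt n ((a:ℤ) - b, (c:ℤ) - d))]
  refine Finset.sum_congr rfl fun y _ => ?_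
  simp only [wt]
  ring

lemma h4_eq_MM (n l : ℕ) : h4 n l =
    ∑ p ∈ range (4*n+2+1), ∑ q ∈ range (4*n+2+1),
      ((4*n+2).choose p : ℚ) * ((4*n+2).choose q : ℚ) *
        (if p + q ≤ l then
          ((2*(4*n+2-p) + 2*(4*n+2-q)).choose (l-(p+q)) : ℚ) else 0) * MM n p q := by
  have hx : mo 1 0 * mo (-1) 0 = 1 := by rw [mo_mul]; simp [mo_zero]
  have hy : mo 0 1 * mo 0 (-1) = 1 := by rw [mo_mul]; simp [mo_zero]
  have h := congrArg (TT (wt n)) (four_var _ _ _ _ hx hy (4*n+2) l)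
  rw [h4_eq_nested]
  simp only [map_sum] at h
  refine Eq.trans ?_ (h.trans ?_)
  · refine Finset.sum_congr rfl fun w _ => ?_
    refine Finset.sum_congr rfl fun u _ => ?_
    refine Finset.sum_congr rfl fun v _ => ?_
    have e : mo 1 0 ^ u.1 * mo (-1) 0 ^ u.2 * (mo 0 1 ^ v.1 * mo 0 (-1) ^ v.2) =
        mo ((u.1:ℤ) - u.2) ((v.1:ℤ) - v.2) := by
      simp only [mo_pow, mo_mul]; congr 1 <;> ring
    rw [e]
    have e2 : (((4*n+2).choose u.1 : LL) * ((4*n+2).choose u.2 : LL) *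
        ((4*n+2).choose v.1 : LL) * ((4*n+2).choose v.2 : LL)) =
        ((((4*n+2).choose u.1) * ((4*n+2).choose u.2) *
        ((4*n+2).choose v.1) * ((4*n+2).choose v.2) : ℕ) : LL) := by push_cast; ring
    rw [e2, TT_nat_mul, TT_mo]
    push_cast
    ring
  · refine Finset.sum_congr rfl fun p _ => ?_
    refine Finset.sum_congr rfl fun q _ => ?_
    have e2 : (((4*n+2).choose p : LL) * ((4*n+2).choose q : LL) *
        (if p + q ≤ l then ((2*(4*n+2-p) + 2*(4*n+2-q)).choose (l-(p+q)) : LL) else 0)) =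
        ((((4*n+2).choose p) * ((4*n+2).choose q) *
        (if p + q ≤ l then ((2*(4*n+2-p) + 2*(4*n+2-q)).choose (l-(p+q))) else 0) : ℕ) : LL) := by
      split_ifs <;> push_cast <;> ring
    rw [e2, TT_nat_mul, TT_x_pow]
    split_ifs <;> push_cast <;> ring

lemma sum_square_eq (D K : ℕ) (hD : D ≤ K) (F : ℕ → ℕ → ℚ) (hF : ∀ p q, D < p + q → F p q = 0) :
    ∑ p ∈ range (K+1), ∑ q ∈ range (K+1), F p q =
      ∑ m ∈ range (D+1), ∑ x ∈ antidiagonal m, F x.1 x.2 := by
  rw [← Finset.sum_product', Finset.sum_sigma']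
  symm
  refine Finset.sum_bij_ne_zero (fun y _ _ => y.2) ?_ ?_ ?_ ?_
  · rintro ⟨m, ⟨a, b⟩⟩ h1 _
    simp only [Finset.mem_sigma, Finset.mem_range, HasAntidiagonal.mem_antidiagonal] at h1
    simp only [Finset.mem_product, Finset.mem_range]
    omega
  · rintro ⟨m, ⟨a, b⟩⟩ h1 _ ⟨m', ⟨a', b'⟩⟩ h1' _ h
    simp only [Finset.mem_sigma, Finset.mem_range, HasAntidiagonal.mem_antidiagonal] at h1 h1'
    simp only [Prod.mk.injEq] at h
    obtain ⟨h2, h3⟩ := h
    subst h2 h3
    have : m = m' := by omega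
    subst this
    rfl
  · rintro ⟨a, b⟩ h1 h2
    have h3 : a + b ≤ D := by
      by_contra hc
      exact h2 (hF a b (by omega))
    refine ⟨⟨a+b, (a, b)⟩, ?_, h2, rfl⟩
    simp only [Finset.mem_sigma, Finset.mem_range, HasAntidiagonal.mem_antidiagonal]
    exact ⟨by omega, trivial⟩
  · rintro ⟨m, ⟨a, b⟩⟩ h1 _
    rfl

lemma h4_eq_rr (n l : ℕ) : h4 n l =
    ∑ m ∈ range (2*n+1), rr n m *
      (if m ≤ l then ((16*n+8-2*m).choose (l-m) : ℚ) else 0) := by
  rw [h4_eq_MM, sum_square_eq (2*n) (4*n+2) (by omega)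
    (fun p q => ((4*n+2).choose p : ℚ) * ((4*n+2).choose q : ℚ) *
        (if p + q ≤ l then
          ((2*(4*n+2-p) + 2*(4*n+2-q)).choose (l-(p+q)) : ℚ) else 0) * MM n p q)
    (fun p q h => by rw [MM_zero n p q h, mul_zero])]
  refine Finset.sum_congr rfl fun m hm => ?_
  have hm' := mem_range.1 hm
  unfold rr
  rw [Finset.sum_mul]
  refine Finset.sum_congr rfl fun x hx => ?_
  rw [HasAntidiagonal.mem_antidiagonal] at hx
  have e1 : 2*(4*n+2-x.1) + 2*(4*n+2-x.2) = 16*n+8-2*m := by omega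
  rw [e1, hx]
  ring

/-! ### The power series identity -/

/-- `H(z) = ∑ h4 z^l`. -/
noncomputable def Hs (n : ℕ) : PowerSeries ℚ := PowerSeries.mk (h4 n)

lemma Hs_eq (n : ℕ) : Hs n = ∑ m ∈ range (2*n+1),
    (PowerSeries.C (rr n m)) * (PowerSeries.X^m * (1 + PowerSeries.X)^(16*n+8-2*m)) := by
  ext l
  rw [Hs, PowerSeries.coeff_mk, h4_eq_rr, map_sum]
  refine Finset.sum_congr rfl fun m _ => ?_
  rw [PowerSeries.coeff_C_mul, PowerSeries.coeff_X_pow_mul']
  congr 1
  split_ifs with h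
  · have : ((1 + PowerSeries.X : PowerSeries ℚ)^(16*n+8-2*m)) =
        (((1 + Polynomial.X : Polynomial ℚ)^(16*n+8-2*m) : Polynomial ℚ) : PowerSeries ℚ) := by
      simp
    rw [this, Polynomial.coeff_coe, add_comm (1 : Polynomial ℚ) Polynomial.X,
      Polynomial.coeff_X_add_one_pow]
  · rfl

/-- `E(z) = (1-z^2)^(-M)`, `M = 12n+8`. -/
noncomputable def Es (n : ℕ) : PowerSeries ℚ :=
  PowerSeries.expand 2 two_ne_zero (PowerSeries.invOneSubPow ℚ (12*n+8)).val

lemma Es_mul (n : ℕ) : Es n * (1 - PowerSeries.X^2)^(12*n+8) = 1 := by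
  have h : ((PowerSeries.invOneSubPow ℚ (12*n+8)).val) * (1 - PowerSeries.X)^(12*n+8) = 1 := by
    have h1 := (PowerSeries.invOneSubPow ℚ (12*n+8)).val_inv
    have h2 := PowerSeries.invOneSubPow_inv_eq_one_sub_pow ℚ (12*n+8)
    rw [h2] at h1
    exact h1
  have h2 := congrArg (PowerSeries.expand (R := ℚ) 2 two_ne_zero) h
  rw [map_mul, map_pow, map_sub, map_one, PowerSeries.expand_X] at h2
  exact h2

lemma Es_mul' (n m : ℕ) (hm : m ≤ 2*n) : Es n * (1 + PowerSeries.X)^(16*n+8-2*m) =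
    (PowerSeries.invOneSubPow ℚ (12*n+8)).val * (1 + PowerSeries.X)^(2*(2*n-m)) := by
  have h : ((PowerSeries.invOneSubPow ℚ (12*n+8)).val) * (1 - PowerSeries.X)^(12*n+8) = 1 := by
    have h1 := (PowerSeries.invOneSubPow ℚ (12*n+8)).val_inv
    have h2 := PowerSeries.invOneSubPow_inv_eq_one_sub_pow ℚ (12*n+8)
    rw [h2] at h1
    exact h1
  have h2 := Es_mul n
  have e : 16*n+8-2*m = (12*n+8) + 2*(2*n-m) := by omega
  have h3 : (1 - PowerSeries.X^2 : PowerSeries ℚ)^(12*n+8) =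
      (1 - PowerSeries.X)^(12*n+8) * (1 + PowerSeries.X)^(12*n+8) := by
    rw [← mul_pow]; congr 1; ring
  rw [h3] at h2
  have h4 : Es n * (1 + PowerSeries.X)^(12*n+8) = (PowerSeries.invOneSubPow ℚ (12*n+8)).val := by
    calc Es n * (1 + PowerSeries.X)^(12*n+8)
        = Es n * (1 + PowerSeries.X)^(12*n+8) *
          (((PowerSeries.invOneSubPow ℚ (12*n+8)).val) * (1 - PowerSeries.X)^(12*n+8)) := by
            rw [h, mul_one]
      _ = (Es n * ((1 - PowerSeries.X)^(12*n+8) * (1 + PowerSeries.X)^(12*n+8))) *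
          ((PowerSeries.invOneSubPow ℚ (12*n+8)).val) := by ring
      _ = _ := by rw [h2, one_mul]
  rw [e, pow_add, ← mul_assoc, h4]

lemma inv_coeff (n a : ℕ) : PowerSeries.coeff a (PowerSeries.invOneSubPow ℚ (12*n+8)).val =
    ((a + (12*n+7)).choose (12*n+7) : ℚ) := by
  have h : 12*n+8 = (12*n+7)+1 := rfl
  rw [h, PowerSeries.invOneSubPow_val_succ_eq_mk_add_choose, PowerSeries.coeff_mk, add_comm]

lemma ff_eq_coeff (n l : ℕ) : ff n l = PowerSeries.coeff l (Es n * Hs n) := by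
  have h0 : ff n l = ∑ m ∈ range (l/2+1), ((m + (12*n+7)).choose (12*n+7) : ℚ) *
      h4 n (l - 2*m) := rfl
  rw [h0, PowerSeries.coeff_mul,
    Finset.Nat.sum_antidiagonal_eq_sum_range_succ_mk]
  have h1 : ∀ k ∈ range (l+1), PowerSeries.coeff k (Es n) * PowerSeries.coeff (l - k) (Hs n) =
      if 2 ∣ k then ((k/2 + (12*n+7)).choose (12*n+7) : ℚ) * h4 n (l-k) else 0 := by
    intro k _
    rw [Es, Hs, PowerSeries.coeff_mk, PowerSeries.coeff_expand]
    split_ifs with h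
    · rw [inv_coeff]
    · rw [zero_mul]
  rw [Finset.sum_congr rfl h1, ← Finset.sum_filter]
  refine Finset.sum_nbij' (i := fun m => 2*m) (j := fun k => k/2) ?_ ?_ ?_ ?_ ?_
  · intro m hm
    have := mem_range.1 hm
    simp only [Finset.mem_filter, Finset.mem_range]
    exact ⟨by omega, Dvd.intro m rfl⟩
  · intro k hk
    simp only [Finset.mem_filter, Finset.mem_range] at hk
    exact mem_range.2 (by omega)
  · intro m _
    omega
  · intro k hk
    simp only [Finset.mem_filter, Finset.mem_range] at hk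
    omega
  · intro m _
    have : 2*m/2 = m := by omega
    rw [this]

lemma ff_eq (n l : ℕ) : ff n l = ∑ m ∈ range (2*n+1), ∑ e ∈ range (2*(2*n-m)+1),
    rr n m * ((2*(2*n-m)).choose e : ℚ) *
      (if m + e ≤ l then ((l - (m+e) + (12*n+7)).choose (12*n+7) : ℚ) else 0) := by
  rw [ff_eq_coeff, Hs_eq, Finset.mul_sum, map_sum]
  refine Finset.sum_congr rfl fun m hm => ?_
  have hm' : m ≤ 2*n := by have := mem_range.1 hm; omega
  have e1 : Es n * (PowerSeries.C (rr n m) *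
      (PowerSeries.X^m * (1 + PowerSeries.X)^(16*n+8-2*m))) =
      PowerSeries.C (rr n m) * (PowerSeries.X^m * (∑ e ∈ range (2*(2*n-m)+1),
        (PowerSeries.C ((2*(2*n-m)).choose e : ℚ)) * (PowerSeries.X^e *
          (PowerSeries.invOneSubPow ℚ (12*n+8)).val))) := by
    have e2 : ((1 + PowerSeries.X)^(2*(2*n-m)) : PowerSeries ℚ) =
        ∑ e ∈ range (2*(2*n-m)+1), (PowerSeries.C ((2*(2*n-m)).choose e : ℚ)) *
          PowerSeries.X^e := by
      rw [add_comm, add_pow]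
      refine Finset.sum_congr rfl fun e _ => ?_
      rw [one_pow, mul_one, map_natCast, mul_comm]
    calc _ = PowerSeries.C (rr n m) * (PowerSeries.X^m *
          (Es n * (1 + PowerSeries.X)^(16*n+8-2*m))) := by ring
      _ = _ := by
        rw [Es_mul' n m hm', e2, Finset.mul_sum]
        congr 2
        refine Finset.sum_congr rfl fun e _ => ?_
        ring
  rw [e1, PowerSeries.coeff_C_mul, PowerSeries.coeff_X_pow_mul']
  split_ifs with h
  · rw [map_sum, Finset.mul_sum]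
    refine Finset.sum_congr rfl fun e _ => ?_
    rw [PowerSeries.coeff_C_mul, PowerSeries.coeff_X_pow_mul', inv_coeff]
    by_cases h2 : m + e ≤ l
    · rw [if_pos h2, if_pos (by omega : e ≤ l - m)]
      have : l - m - e = l - (m+e) := by omega
      rw [this]; ring
    · rw [if_neg h2, if_neg (by omega : ¬ e ≤ l - m)]
      ring
  · rw [mul_zero]
    symm
    refine Finset.sum_eq_zero fun e _ => ?_
    rw [if_neg (by omega : ¬ m + e ≤ l), mul_zero]

/-! ### The binomial polynomial -/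

/-- `C(X - j + D, D)` as a polynomial in `X`. -/
noncomputable def bp (D j : ℕ) : Polynomial ℚ :=
  Polynomial.C (1 / (D.factorial : ℚ)) *
    ∏ i ∈ range D, (Polynomial.X + Polynomial.C ((i:ℚ) + 1 - j))

lemma bp_eval (D j l : ℕ) (hj : j ≤ D) : (bp D j).eval (l:ℚ) =
    if j ≤ l then ((l - j + D).choose D : ℚ) else 0 := by
  unfold bp
  rw [Polynomial.eval_mul, Polynomial.eval_C, Polynomial.eval_prod]
  simp only [Polynomial.eval_add, Polynomial.eval_X, Polynomial.eval_C]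
  split_ifs with h
  · have e1 : ∏ i ∈ range D, ((l:ℚ) + ((i:ℚ) + 1 - j)) = (((l - j) + D).descFactorial D : ℕ) := by
      rw [Nat.descFactorial_eq_prod_range, Nat.cast_prod, ← Finset.prod_range_reflect]
      refine Finset.prod_congr rfl fun i hi => ?_
      have hi' := mem_range.1 hi
      have e2 : ((D - 1 - i : ℕ) : ℚ) = (D:ℚ) - 1 - i := by
        rw [Nat.cast_sub (by omega), Nat.cast_sub (by omega)]; norm_num
      have e3 : ((l - j + D - i : ℕ) : ℚ) = (l:ℚ) - j + D - i := by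
        rw [Nat.cast_sub (by omega), Nat.cast_add, Nat.cast_sub h]
      rw [e2, e3]
      ring
    rw [e1, Nat.descFactorial_eq_factorial_mul_choose]
    have : (D.factorial : ℚ) ≠ 0 := by exact_mod_cast D.factorial_ne_zero
    push_cast
    field_simp
  · have : ∏ i ∈ range D, ((l:ℚ) + ((i:ℚ) + 1 - j)) = 0 := by
      refine Finset.prod_eq_zero (i := j - l - 1) (mem_range.2 (by omega)) ?_
      rw [Nat.cast_sub (by omega), Nat.cast_sub (by omega)]
      push_cast
      ring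
    rw [this, mul_zero]

lemma prod_neg (j : ℕ) : ∏ i ∈ range j, ((i:ℚ) - j) = (-1)^j * (j.factorial : ℚ) := by
  rw [← Finset.prod_range_reflect]
  have h : ∀ i ∈ range j, (((j - 1 - i : ℕ) : ℚ) - j) = (-1) * ((i:ℚ) + 1) := by
    intro i hi
    have hi' := mem_range.1 hi
    rw [Nat.cast_sub (by omega), Nat.cast_sub (by omega)]
    push_cast; ring
  rw [Finset.prod_congr rfl h, Finset.prod_mul_distrib, Finset.prod_const, Finset.card_range,
    ← Finset.prod_range_add_one_eq_factorial]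
  push_cast
  rfl

lemma prod_pos' (D : ℕ) : ∏ i ∈ range D, ((i:ℚ) + 1) = (D.factorial : ℚ) := by
  rw [← Finset.prod_range_add_one_eq_factorial]
  push_cast
  rfl

lemma bp_coeff_one (D j : ℕ) (hj : j ≤ D) : (bp D j).coeff 1 = beta (D+1) j := by
  have hD : (D.factorial : ℚ) ≠ 0 := by exact_mod_cast D.factorial_ne_zero
  unfold bp beta
  rw [Polynomial.coeff_C_mul]
  split_ifs with h
  · subst h
    have h1 : (∏ i ∈ range D, (Polynomial.X + Polynomial.C ((i:ℚ) + 1 - (0:ℕ)))).coeff 1 =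
        ∑ i ∈ range D, ∏ a ∈ (range D).erase i, ((a:ℚ) + 1) := by
      have h2 := Polynomial.coeff_derivative
        (∏ i ∈ range D, (Polynomial.X + Polynomial.C ((i:ℚ) + 1 - (0:ℕ)))) 0
      have h2' : (Polynomial.derivative
          (∏ i ∈ range D, (Polynomial.X + Polynomial.C ((i:ℚ) + 1 - (0:ℕ))))).coeff 0 =
          (∏ i ∈ range D, (Polynomial.X + Polynomial.C ((i:ℚ) + 1 - (0:ℕ)))).coeff 1 := by
        rw [h2]; simp
      rw [← h2', Polynomial.derivative_prod_finset, Polynomial.finsetSum_coeff]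
      refine Finset.sum_congr rfl fun i _ => ?_
      rw [Polynomial.derivative_add, Polynomial.derivative_X, Polynomial.derivative_C, add_zero,
        mul_one, Polynomial.coeff_zero_eq_eval_zero, Polynomial.eval_prod]
      refine Finset.prod_congr rfl fun a _ => ?_
      simp
    rw [h1, Finset.mul_sum, Nat.add_sub_cancel]
    refine Finset.sum_congr rfl fun i hi => ?_
    have h3 : (((i:ℚ) + 1)) * ∏ a ∈ (range D).erase i, ((a:ℚ) + 1) = (D.factorial : ℚ) := by
      rw [Finset.mul_prod_erase (range D) (fun a : ℕ => (a:ℚ) + 1) hi, prod_pos']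
    have h4 : ((i:ℚ) + 1) ≠ 0 := by positivity
    have h5 : ∏ a ∈ (range D).erase i, ((a:ℚ) + 1) = (D.factorial : ℚ) / ((i:ℚ) + 1) := by
      rw [← h3]; field_simp
    rw [h5]
    field_simp
  · obtain ⟨j', rfl⟩ : ∃ j', j = j' + 1 := ⟨j - 1, by omega⟩
    obtain ⟨k, rfl⟩ : ∃ k, D = j' + (1 + k) := ⟨D - (j' + 1), by omega⟩
    rw [Finset.prod_range_add, Finset.prod_range_add, Finset.prod_range_one]
    have e0 : (Polynomial.X + Polynomial.C (((j' + 0 : ℕ) : ℚ) + 1 - ((j'+1 : ℕ) : ℚ))) =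
        (Polynomial.X : Polynomial ℚ) := by
      have : (((j' + 0 : ℕ) : ℚ) + 1 - ((j'+1 : ℕ) : ℚ)) = 0 := by push_cast; ring
      rw [this, Polynomial.C_0, add_zero]
    rw [e0]
    have e1 : ∀ P Q : Polynomial ℚ, (P * (Polynomial.X * Q)).coeff 1 = P.eval 0 * Q.eval 0 := by
      intro P Q
      have : P * (Polynomial.X * Q) = Polynomial.X * (P * Q) := by ring
      rw [this, Polynomial.coeff_X_mul, Polynomial.coeff_zero_eq_eval_zero, Polynomial.eval_mul]
    rw [e1, Polynomial.eval_prod, Polynomial.eval_prod]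
    have e2 : ∏ i ∈ range j', Polynomial.eval 0
        (Polynomial.X + Polynomial.C ((i:ℚ) + 1 - ((j'+1 : ℕ) : ℚ))) =
        (-1)^j' * (j'.factorial : ℚ) := by
      rw [← prod_neg]
      refine Finset.prod_congr rfl fun i _ => ?_
      simp
    have e3 : ∏ i ∈ range k, Polynomial.eval 0
        (Polynomial.X + Polynomial.C (((j' + (1 + i) : ℕ) : ℚ) + 1 - ((j'+1 : ℕ) : ℚ))) =
        (k.factorial : ℚ) := by
      rw [← prod_pos']
      refine Finset.prod_congr rfl fun i _ => ?_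
      simp only [Polynomial.eval_add, Polynomial.eval_X, Polynomial.eval_C]
      push_cast
      ring
    rw [e2, e3, Nat.add_sub_cancel]
    have e4 : ((j' + (1 + k)).choose (j'+1) : ℚ) * (((j'+1).factorial : ℚ) * (k.factorial : ℚ)) =
        ((j' + (1 + k)).factorial : ℚ) := by
      have := Nat.choose_mul_factorial_mul_factorial (n := j' + (1+k)) (k := j'+1) (by omega)
      have e5 : j' + (1 + k) - (j' + 1) = k := by omega
      rw [e5] at this
      rw [← this]
      push_cast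
      ring
    rw [← e4, Nat.factorial_succ]
    have c0 : ((j' + (1 + k)).choose (j'+1) : ℚ) ≠ 0 := by
      exact_mod_cast (Nat.choose_pos (by omega)).ne'
    have c1 : (j'.factorial : ℚ) ≠ 0 := by exact_mod_cast j'.factorial_ne_zero
    have c2 : (k.factorial : ℚ) ≠ 0 := by exact_mod_cast k.factorial_ne_zero
    have c3 : ((j':ℚ) + 1) ≠ 0 := by positivity
    push_cast
    rw [pow_add, pow_add]
    field_simp

theorem val2' (n : ℕ) : ∃ A : Polynomial ℚ, (∀ l : ℕ, A.eval (l:ℚ) = ff n l) ∧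
    A.coeff 1 = ∑ m ∈ range (2*n+1), rr n m * JJ n m := by
  refine ⟨∑ m ∈ range (2*n+1), ∑ e ∈ range (2*(2*n-m)+1),
    Polynomial.C (rr n m * ((2*(2*n-m)).choose e : ℚ)) * bp (12*n+7) (m+e), ?_, ?_⟩
  · intro l
    rw [ff_eq, Polynomial.eval_finsetSum]
    refine Finset.sum_congr rfl fun m hm => ?_
    rw [Polynomial.eval_finsetSum]
    refine Finset.sum_congr rfl fun e he => ?_
    have h1 := mem_range.1 hm
    have h2 := mem_range.1 he
    rw [Polynomial.eval_mul, Polynomial.eval_C, bp_eval _ _ _ (by omega)]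
  · rw [Polynomial.finsetSum_coeff]
    refine Finset.sum_congr rfl fun m hm => ?_
    rw [Polynomial.finsetSum_coeff, JJ, Finset.mul_sum]
    refine Finset.sum_congr rfl fun e he => ?_
    have h1 := mem_range.1 hm
    have h2 := mem_range.1 he
    rw [Polynomial.coeff_C_mul, bp_coeff_one _ _ (by omega)]
    ring

end Val2

theorem val2 (n : ℕ) : ∃ A : Polynomial ℚ, (∀ l : ℕ, A.eval (l:ℚ) = ff n l) ∧
    A.coeff 1 = ∑ m ∈ Finset.range (2*n+1), rr n m * JJ n m := Val2.val2' n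

end Pool.Agent.KTT
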