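import Pool.Agent.Work.MP_0df73a_co.KTT.Bridge
import Pool.Agent.Work.MP_0df73a_co.KTT.Alg3
import Pool.Agent.Work.MP_0df73a_co.KTT.PhiPoly
import Pool.Agent.Work.MP_0df73a_co.KTT.Val1
import Pool.Agent.Work.MP_0df73a_co.KTT.Val2
import Pool.Agent.Work.MP_0df73a_co.KTT.Glue

/-!
KTT (MP_0df73a_co): everything except `Phi n m 0 = ff n m` and the numerical inequality.
-/

set_option autoImplicit false

namespace Pool.Agent.KTT

theorem final_of (n : ℕ) (pm : ∀ m : ℕ, Phi n m 0 = ff n m) (num : e1 n < 0) :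
    ¬ (∀ la mu : YoungDiagram, ∃ P : Polynomial ℚ,
      (∀ k : ℕ, 1 ≤ k → ∀ D : YoungDiagram,
        (∀ i j : ℕ, (i, j) ∈ D ↔ j < k * la.rowLen i) →
        ((Nat.card {T : SemistandardYoungTableau D //
            ∀ v : ℕ, Nat.card {c : ℕ × ℕ // c ∈ D ∧ T c.1 c.2 = v} = k * mu.rowLen v} : ℕ) : ℚ)
          = P.eval (k : ℚ)) ∧
      ∀ n : ℕ, 0 ≤ P.coeff n) :=
  Glue.glue n (fun k hk D hD => bridge n k hk D hD) (alg n) (Phi_diag n) pm (val1 n) (val2 n) num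

end Pool.Agent.KTT
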