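import Pool.Agent.Work.MP_0df73a_co.KTT.NumS

/-!
KTT (MP_0df73a_co), module NM: from the inequality between integers to `SS 130 J1`.
-/

set_option autoImplicit false

namespace Pool.Agent.KTT.NumK

open Finset

theorem split_parity (f : ℕ → ℚ) (n : ℕ) :
    ∑ d ∈ range (2 * n + 1), f d =
      ∑ s ∈ range (n + 1), f (2 * s) + ∑ s ∈ range n, f (2 * s + 1) := by
  induction n with
  | zero => simp
  | succ n ih =>
    have e1 : ∑ d ∈ range (2 * (n + 1) + 1), f d =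
        ∑ d ∈ range (2 * n + 1), f d + f (2 * n + 1) + f (2 * (n + 1)) := by
      rw [show 2 * (n + 1) + 1 = 2 * n + 1 + 1 + 1 by ring, Finset.sum_range_succ,
        Finset.sum_range_succ, show 2 * (n + 1) = 2 * n + 1 + 1 by ring]
    have e2 : ∑ s ∈ range (n + 1 + 1), f (2 * s) = ∑ s ∈ range (n + 1), f (2 * s) + f (2 * (n + 1)) :=
      Finset.sum_range_succ _ _
    have e3 : ∑ s ∈ range (n + 1), f (2 * s + 1) = ∑ s ∈ range n, f (2 * s + 1) + f (2 * n + 1) :=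
      Finset.sum_range_succ _ _
    rw [e1, e2, e3, ih]
    ring

/-- the statement about even `d` -/
def TermE : Prop := ∀ s e : ℕ, e + s ≤ 130 →
  (4 * (Nat.factorial 260 : ℚ) * (gL.getD 0 0 : ℚ) ^ 2) *
    (((522).choose (e + 2 * s) : ℚ) * ((e + 2 * s).choose e : ℚ) * nu 130 e (2 * s)) =
  (heL.getD s 0 : ℚ) * (weL.getD (e + 2 * s) 0 : ℚ) *
    (NumK.conv (fun i => ueL.getD i 0) (fun i => gL.getD i 0) s e : ℚ)

/-- the statement about odd `d` -/
def TermO : Prop := ∀ s e : ℕ, e + s ≤ 129 →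
  ((2 : ℚ) ^ 1031 * (Nat.factorial 260 : ℚ) * (gL.getD 0 0 : ℚ) ^ 2) *
    (((522).choose (e + (2 * s + 1)) : ℚ) * ((e + (2 * s + 1)).choose e : ℚ) *
      nu 130 e (2 * s + 1)) =
  (hoL.getD s 0 : ℚ) * (woL.getD (e + (2 * s + 1)) 0 : ℚ) *
    (NumK.conv (fun i => uoL.getD i 0) (fun i => gL.getD i 0) s e : ℚ)

/-- the rows, even `d` -/
def RowE : Prop := ∀ s e : ℕ, e + 2 * s ≤ 522 →
  ((NumK.rwA (fun i => aeL.getD i 0) s e : ℕ) : ℚ) = LL 130 J1 e (2 * s)

/-- the rows, odd `d` -/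
def RowO : Prop := ∀ s e : ℕ, e + (2 * s + 1) ≤ 522 →
  ((NumK.rwA (fun i => aoL.getD i 0) s e : ℕ) : ℚ) = LL 130 J1 e (2 * s + 1)

/-- the absolute value of the summand of `SS` -/
def fab (d : ℕ) : ℚ := ∑ e ∈ range ((2 * 130 - d) / 2 + 1),
  ((522).choose (e + d) : ℚ) * ((e + d).choose e : ℚ) * nu 130 e d * LL 130 J1 e d

theorem SS_eq : SS 130 J1 = ∑ s ∈ range 131, fab (2 * s) - ∑ s ∈ range 130, fab (2 * s + 1) := by
  have h : SS 130 J1 = ∑ d ∈ range (2 * 130 + 1), (-1 : ℚ) ^ d * fab d := by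
    rw [SS]
    refine Finset.sum_congr rfl fun d _ => ?_
    rw [fab, Finset.mul_sum]
    refine Finset.sum_congr rfl fun e _ => ?_
    rw [show 4 * 130 + 2 = 522 from rfl]
    ring
  rw [h, split_parity, sub_eq_add_neg, ← Finset.sum_neg_distrib]
  congr 1
  · refine Finset.sum_congr rfl fun s _ => ?_
    rw [pow_mul]; norm_num
  · refine Finset.sum_congr rfl fun s _ => ?_
    rw [pow_succ, pow_mul]; norm_num

theorem even_term (K : ℚ) (hT : ∀ s e : ℕ, e + s ≤ 130 →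
      K * (((522).choose (e + 2 * s) : ℚ) * ((e + 2 * s).choose e : ℚ) * nu 130 e (2 * s)) =
      (heL.getD s 0 : ℚ) * (weL.getD (e + 2 * s) 0 : ℚ) *
        (NumK.conv (fun i => ueL.getD i 0) (fun i => gL.getD i 0) s e : ℚ))
    (hR : RowE) (s : ℕ) (hs : s < 131) :
    K * fab (2 * s) = (tmE s : ℚ) := by
  rw [fab, tmE, tm, show (2 * 130 - 2 * s) / 2 + 1 = 131 - s by omega]
  push_cast
  rw [Finset.mul_sum, Finset.mul_sum]
  refine Finset.sum_congr rfl fun e he => ?_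
  rw [Finset.mem_range] at he
  have h1 := hT s e (by omega)
  have h2 := hR s e (by omega)
  rw [add_zero, h2]
  linear_combination LL 130 J1 e (2 * s) * h1

theorem odd_term (K : ℚ) (hT : ∀ s e : ℕ, e + s ≤ 129 →
      K * (((522).choose (e + (2 * s + 1)) : ℚ) * ((e + (2 * s + 1)).choose e : ℚ) *
        nu 130 e (2 * s + 1)) =
      (hoL.getD s 0 : ℚ) * (woL.getD (e + (2 * s + 1)) 0 : ℚ) *
        (NumK.conv (fun i => uoL.getD i 0) (fun i => gL.getD i 0) s e : ℚ))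
    (hR : RowO) (s : ℕ) (hs : s < 130) :
    K * fab (2 * s + 1) = (tmO s : ℚ) := by
  rw [fab, tmO, tm, show (2 * 130 - (2 * s + 1)) / 2 + 1 = 130 - s by omega]
  push_cast
  rw [Finset.mul_sum, Finset.mul_sum]
  refine Finset.sum_congr rfl fun e he => ?_
  rw [Finset.mem_range] at he
  have h1 := hT s e (by omega)
  have h2 := hR s e (by omega)
  rw [h2]
  linear_combination LL 130 J1 e (2 * s + 1) * h1

theorem sum_even (hT : TermE) (hR : RowE) :
    (4 * (Nat.factorial 260 : ℚ) * (gL.getD 0 0 : ℚ) ^ 2) * ∑ s ∈ range 131, fab (2 * s) =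
      ((∑ s ∈ range 131, tmE s : ℕ) : ℚ) := by
  rw [Finset.mul_sum, Nat.cast_sum]
  exact Finset.sum_congr rfl fun s hs => even_term _ hT hR s (Finset.mem_range.1 hs)

theorem sum_odd (hT : TermO) (hR : RowO) :
    ((2 : ℚ) ^ 1031 * (Nat.factorial 260 : ℚ) * (gL.getD 0 0 : ℚ) ^ 2) *
      ∑ s ∈ range 130, fab (2 * s + 1) = ((∑ s ∈ range 130, tmO s : ℕ) : ℚ) := by
  rw [Finset.mul_sum, Nat.cast_sum]
  exact Finset.sum_congr rfl fun s hs => odd_term _ hT hR s (Finset.mem_range.1 hs)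

theorem gL0_pos : 0 < gL.getD 0 0 := by decide +kernel

/-- abstract form of the last step -/
theorem last_step (S E O P2 F g D cE cO : ℚ) (hF : 0 < F) (hg : 0 < g) (hP : 0 < P2)
    (h1 : S = E - O) (hE : (4 * F * g ^ 2) * E = cE) (hO : (4 * P2 * F * g ^ 2) * O = cO)
    (hfin : 371 * D * (4 * P2 * F * g ^ 2) + cO < P2 * cE) : 371 * D < S := by
  have hk : 0 < 4 * P2 * F * g ^ 2 := by positivity
  have h2 : (4 * P2 * F * g ^ 2) * (371 * D) < (4 * P2 * F * g ^ 2) * S := by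
    rw [h1, mul_sub, hO]
    have : (4 * P2 * F * g ^ 2) * E = P2 * cE := by rw [← hE]; ring
    rw [this]
    linarith [hfin]
  exact lt_of_mul_lt_mul_left h2 hk.le

theorem cast_fin (D P2 P3 F g cE cO : ℕ) (hP : P3 = 4 * P2)
    (h : 371 * D * (P3 * F * g ^ 2) + cO < P2 * cE) :
    371 * (D : ℚ) * (4 * (P2 : ℚ) * F * (g : ℚ) ^ 2) + cO < P2 * cE := by
  have h1 : ((371 * D * (P3 * F * g ^ 2) + cO : ℕ) : ℚ) < ((P2 * cE : ℕ) : ℚ) := by
    exact_mod_cast h
  rw [hP] at h1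
  push_cast at h1
  exact h1

/-- everything together, in terms of the four statements -/
theorem main_of (hTE : TermE) (hTO : TermO) (hRE : RowE) (hRO : RowO) :
    371 * ((Nat.ascFactorial 1048 520 : ℕ) : ℚ) < SS 130 J1 := by
  have hE := sum_even hTE hRE
  have hO := sum_odd hTO hRO
  rw [sumE] at hE
  rw [sumO] at hO
  have hfin := final_int
  have hg := gL0_pos
  have hS := SS_eq
  generalize cE0 + cE1 + cE2 + cE3 + cE4 + cE5 + cE6 + cE7 + cE8 = cE at hE hfin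
  generalize cO0 + cO1 + cO2 + cO3 + cO4 + cO5 + cO6 + cO7 + cO8 = cO at hO hfin
  have hP : (2 : ℕ) ^ 1031 = 4 * 2 ^ 1029 := by decide +kernel
  have hPQ : ((2 : ℚ) ^ 1031) = 4 * ((2 ^ 1029 : ℕ) : ℚ) := by
    have h := congrArg (fun x : ℕ => (x : ℚ)) hP
    have e : (((2 : ℕ) ^ 1031 : ℕ) : ℚ) = (2 : ℚ) ^ 1031 := Nat.cast_pow 2 1031
    rw [← e]
    simp only [hP, Nat.cast_mul, Nat.cast_ofNat]
  rw [hPQ] at hO
  have hP2 : 0 < (2 : ℕ) ^ 1029 := Nat.pow_pos (by norm_num)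
  have hF : 0 < Nat.factorial 260 := Nat.factorial_pos _
  generalize (2 : ℕ) ^ 1031 = P3 at hP hfin
  generalize (2 : ℕ) ^ 1029 = P2 at hP hfin hO hP2
  generalize Nat.factorial 260 = F at hfin hE hO hF
  generalize gL.getD 0 0 = g at hfin hE hO hg
  generalize Nat.ascFactorial 1048 520 = D at hfin ⊢
  have h3 := cast_fin D P2 P3 F g cE cO hP hfin
  exact last_step _ _ _ (P2 : ℚ) (F : ℚ) (g : ℚ) (D : ℚ) (cE : ℚ) (cO : ℚ) (by exact_mod_cast hF)
    (by exact_mod_cast hg) (by exact_mod_cast hP2) hS hE hO h3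

end Pool.Agent.KTT.NumK
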