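import Pool.Agent.Work.MP_0df73a_co.KTT.NumDefs
import Pool.Agent.Work.MP_0df73a_co.KTT.NumData
import Pool.Agent.Work.MP_0df73a_co.KTT.NumData2

/-!
KTT (MP_0df73a_co), module NM: the functions which the kernel evaluates, and what they compute.
-/

set_option autoImplicit false

namespace Pool.Agent.KTT.NumK

open Finset

/-! ### the functions evaluated by the kernel -/

/-- scalar product of two lists -/
noncomputable def dot (X : List ℕ) : List ℕ → ℕ :=
  List.rec (fun _ => 0) (fun x _ ih Y => List.rec 0 (fun y Y' _ => Nat.add (Nat.mul x y) (ih Y')) Y) X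

/-- first element -/
noncomputable def hd (X : List ℕ) : ℕ := List.rec 0 (fun x _ _ => x) X

/-- all elements but the first -/
noncomputable def tl (X : List ℕ) : List ℕ := List.rec [] (fun _ X' _ => X') X

/-- all elements but the first `k` -/
noncomputable def dr (k : ℕ) : List ℕ → List ℕ := Nat.rec (fun X => X) (fun _ ih X => ih (tl X)) k

/-- `∑_e W_e A_e ∑_{b ≤ e} x_{e-b} x_b` -/
noncomputable def pd (Z : List ℕ) : List ℕ → List ℕ → List ℕ → List ℕ → ℕ :=
  List.rec (fun _ _ _ _ => 0) (fun x _ ih R X A W =>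
    Nat.add (Nat.mul (Nat.mul (hd W) (hd A)) (dot (List.cons x R) X))
      (ih (List.cons x R) X (tl A) (tl W))) Z

/-- product of two lists, element by element -/
noncomputable def mulL (X : List ℕ) : List ℕ → List ℕ :=
  List.rec (fun _ => [])
    (fun x _ ih Y => List.rec [] (fun y Y' _ => List.cons (Nat.mul x y) (ih Y')) Y) X

/-- `x_e + 4 x_{e+1}` -/
noncomputable def nx0 (X : List ℕ) : List ℕ :=
  List.rec [] (fun x X' ih => List.cons (Nat.add x (Nat.mul 4 (hd X'))) ih) X

/-- row `d+2` from row `d` : `x_{e+1} + 4 x_{e+2}` -/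
noncomputable def nx (X : List ℕ) : List ℕ := nx0 (tl X)

/-- `nx` iterated -/
noncomputable def itn (k : ℕ) : List ℕ → List ℕ := Nat.rec (fun X => X) (fun _ ih X => ih (nx X)) k

/-- sum over `k` values of `s` -/
noncomputable def sm (G : List ℕ) (k : ℕ) : List ℕ → List ℕ → List ℕ → List ℕ → ℕ :=
  Nat.rec (fun _ _ _ _ => 0) (fun _ ih U H A W =>
    Nat.add (Nat.mul (hd H) (pd (mulL U G) [] (mulL U G) A W))
      (ih (tl U) (tl H) (nx A) (tl (tl W)))) k

/-! ### what they compute -/

/-- convolution -/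
def conv (u g : ℕ → ℕ) (s e : ℕ) : ℕ :=
  ∑ b ∈ range (e + 1), (u (s + b) * g b) * (u (s + (e - b)) * g (e - b))

/-- the rows `a(e, 2 s + p)` from the row `a(e, p)` -/
def rwA (a : ℕ → ℕ) : ℕ → ℕ → ℕ
  | 0, e => a e
  | s + 1, e => rwA a s (e + 1) + 4 * rwA a s (e + 2)

end Pool.Agent.KTT.NumK

namespace Pool.Agent.KTT

/-- `jL_m` for `1 ≤ m ≤ 260`, and `0` for all other `m` -/
def J1 (m : ℕ) : ℚ := if m = 0 ∨ 260 < m then 0 else (jL.getD m 0 : ℚ)

end Pool.Agent.KTT
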