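import Pool.Agent.Work.MP_0df73a_co.KTT.NumB
import Pool.Agent.Work.MP_0df73a_co.KTT.NumK

/-!
KTT (MP_0df73a_co), module NUM-R (helper5): the rows `a(e, d)` of the table.
-/

set_option autoImplicit false

namespace Pool.Agent.KTT

open Finset

namespace NumR

/-- `∑_j 4^j C(K, i+j) l_j` if `c = C(K,i)`. -/
def gs (K : ℕ) : List ℕ → ℕ → ℕ → ℕ
  | [], _, _ => 0
  | x :: xs, i, c => c * x + 4 * gs K xs (i + 1) (c * (K - i) / (i + 1))

theorem gs_spec (K : ℕ) : ∀ (l : List ℕ) (i : ℕ),
    gs K l i (Nat.choose K i) = ∑ j ∈ range l.length, 4 ^ j * Nat.choose K (i + j) * l.getD j 0 := by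
  intro l
  induction l with
  | nil => intro i; simp [gs]
  | cons x xs ih =>
    intro i
    have hc : Nat.choose K i * (K - i) / (i + 1) = Nat.choose K (i + 1) := by
      rw [← Nat.choose_succ_right_eq, Nat.mul_div_cancel _ (by omega)]
    rw [gs, hc, ih, List.length_cons, sum_range_succ']
    simp only [List.getD_cons_succ, List.getD_cons_zero, Nat.add_zero]
    rw [mul_sum, add_comm]
    congr 1
    · refine sum_congr rfl fun j _ => ?_
      rw [show i + (j + 1) = i + 1 + j by ring]; ring
    · ring

/-- check of one of the two base rows: `as` against the suffixes `js`, `js.drop 2`, .... -/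
def chk : List ℕ → List ℕ → ℕ → Bool
  | [], _, _ => true
  | a :: as, js, K => Nat.beq a (gs K js 0 1) && chk as js.tail.tail (K - 1)

theorem chk_spec : ∀ (as js : List ℕ) (K : ℕ), chk as js K = true → ∀ i, i < as.length →
    as.getD i 0 = ∑ j ∈ range (js.length - 2 * i),
      4 ^ j * Nat.choose (K - i) j * js.getD (2 * i + j) 0 := by
  intro as
  induction as with
  | nil => intro js K _ i hi; simp at hi
  | cons a as ih =>
    intro js K h i hi
    simp only [chk, Bool.and_eq_true] at h
    obtain ⟨h1, h2⟩ := h
    cases i with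
    | zero =>
      have := gs_spec K js 0
      rw [Nat.choose_zero_right] at this
      rw [List.getD_cons_zero, Nat.eq_of_beq_eq_true h1, this]
      simp
    | succ i =>
      rw [List.getD_cons_succ, ih js.tail.tail (K - 1) h2 i (by simpa using hi)]
      have hl : js.tail.tail.length - 2 * i = js.length - 2 * (i + 1) := by
        simp only [List.length_tail]; omega
      rw [hl]
      refine sum_congr rfl fun j _ => ?_
      have hg : js.tail.tail.getD (2 * i + j) 0 = js.getD (2 * (i + 1) + j) 0 := by
        rw [show 2 * (i + 1) + j = (2 * i + j) + 1 + 1 by ring]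
        cases js with
        | nil => simp
        | cons x l =>
          cases l with
          | nil => simp
          | cons y l => simp
      rw [hg, show K - 1 - i = K - (i + 1) by omega]

/-- `x_m + 2 x_{m+1}` -/
def comb : List ℕ → List ℕ
  | [] => []
  | [x] => [x]
  | x :: y :: l => (x + 2 * y) :: comb (y :: l)

theorem comb_length : ∀ l : List ℕ, (comb l).length = l.length := by
  intro l
  induction l with
  | nil => rfl
  | cons x l ih =>
    cases l with
    | nil => rfl
    | cons y l => simp only [comb, List.length_cons] at ih ⊢; rw [ih]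

theorem comb_getD : ∀ (l : List ℕ) (i : ℕ), (comb l).getD i 0 = l.getD i 0 + 2 * l.getD (i + 1) 0 := by
  intro l
  induction l with
  | nil => intro i; simp [comb]
  | cons x l ih =>
    intro i
    cases l with
    | nil => cases i <;> simp [comb]
    | cons y l =>
      cases i with
      | zero => simp [comb]
      | succ i => simp only [comb, List.getD_cons_succ] at ih ⊢; rw [ih]

theorem jL_len : jL.length = 261 := by decide +kernel
theorem jL_zero : jL.getD 0 0 = 0 := by decide +kernel
theorem aeL_len : aeL.length = 131 := by decide +kernel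
theorem aoL_len : aoL.length = 130 := by decide +kernel
theorem even_ok : chk aeL jL 522 = true := by decide +kernel
theorem odd_ok : chk aoL (comb jL).tail 521 = true := by decide +kernel

theorem J1_eq (m : ℕ) : J1 m = (jL.getD m 0 : ℚ) := by
  rw [J1]
  split_ifs with h
  · rcases h with h | h
    · rw [h, jL_zero]; simp
    · rw [List.getD_eq_default _ _ (by rw [jL_len]; omega)]; simp
  · rfl

theorem J1_big (m : ℕ) (h : 2 * 130 < m) : J1 m = 0 := by
  rw [J1, if_pos (Or.inr (by omega))]

theorem base_even (e : ℕ) : ((aeL.getD e 0 : ℕ) : ℚ) = NumB.aa 130 J1 522 e 0 := by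
  by_cases he : e < 131
  · rw [NumB.aa_zero, chk_spec aeL jL 522 even_ok e (by rw [aeL_len]; exact he), jL_len]
    push_cast
    refine sum_congr (by norm_num) fun j _ => ?_
    rw [J1_eq]
  · rw [NumB.aa_eq_zero 130 J1 522 e 0 (by omega), List.getD_eq_default _ _ (by rw [aeL_len]; omega)]
    simp

theorem base_odd (e : ℕ) : ((aoL.getD e 0 : ℕ) : ℚ) = NumB.aa 130 J1 522 e 1 := by
  by_cases he : e < 130
  · rw [NumB.aa_one 130 J1 522 e J1_big,
      chk_spec aoL (comb jL).tail 521 odd_ok e (by rw [aoL_len]; exact he)]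
    have hl : (comb jL).tail.length - 2 * e = 2 * 130 - 2 * e := by
      rw [List.length_tail, comb_length, jL_len]
    rw [hl]
    push_cast
    refine sum_congr rfl fun j _ => ?_
    have hg : (comb jL).tail.getD (2 * e + j) 0 = (comb jL).getD (2 * e + j + 1) 0 := by
      cases comb jL with
      | nil => simp
      | cons x l => simp
    rw [hg, comb_getD, J1_eq, J1_eq, show 522 - e - 1 = 521 - e by omega,
      show 2 * e + 1 + j = 2 * e + j + 1 by ring, show 2 * e + 2 + j = 2 * e + j + 1 + 1 by ring]
    push_cast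
    ring
  · rw [NumB.aa_eq_zero 130 J1 522 e 1 (by omega), List.getD_eq_default _ _ (by rw [aoL_len]; omega)]
    simp

end NumR

theorem row_even : ∀ s e : ℕ, e + 2 * s ≤ 522 →
    ((NumK.rwA (fun i => aeL.getD i 0) s e : ℕ) : ℚ) = LL 130 J1 e (2 * s) := by
  intro s
  have key : ∀ e : ℕ, e + 2 * s ≤ 522 →
      ((NumK.rwA (fun i => aeL.getD i 0) s e : ℕ) : ℚ) = NumB.aa 130 J1 522 e (2 * s) := by
    induction s with
    | zero => intro e _; rw [NumK.rwA]; exact NumR.base_even e
    | succ s ih =>
      intro e he
      rw [NumK.rwA, show 2 * (s + 1) = 2 * s + 2 by ring,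
        NumB.aa_rec 130 J1 522 e (2 * s) (by omega), ← ih (e + 1) (by omega),
        ← ih (e + 2) (by omega)]
      push_cast
      ring
  intro e he
  rw [key e he]
  exact NumB.aa_eq_LL 130 J1 NumR.J1_big e (2 * s)

theorem row_odd : ∀ s e : ℕ, e + (2 * s + 1) ≤ 522 →
    ((NumK.rwA (fun i => aoL.getD i 0) s e : ℕ) : ℚ) = LL 130 J1 e (2 * s + 1) := by
  intro s
  have key : ∀ e : ℕ, e + (2 * s + 1) ≤ 522 →
      ((NumK.rwA (fun i => aoL.getD i 0) s e : ℕ) : ℚ) = NumB.aa 130 J1 522 e (2 * s + 1) := by
    induction s with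
    | zero => intro e _; rw [NumK.rwA]; exact NumR.base_odd e
    | succ s ih =>
      intro e he
      rw [NumK.rwA, show 2 * (s + 1) + 1 = (2 * s + 1) + 2 by ring,
        NumB.aa_rec 130 J1 522 e (2 * s + 1) (by omega), ← ih (e + 1) (by omega),
        ← ih (e + 2) (by omega)]
      push_cast
      ring
  intro e he
  rw [key e he]
  exact NumB.aa_eq_LL 130 J1 NumR.J1_big e (2 * s + 1)

end Pool.Agent.KTT
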