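import Pool.Agent.Work.MP_0df73a_co.KTT.NumTO

/-!
KTT (MP_0df73a_co), module NM, piece (E) (helper43): the even terms.
-/

set_option autoImplicit false

namespace Pool.Agent.KTT.NumTE

open Finset Pool.Agent.KTT

lemma k_ue : ∀ b < 131, ueL.getD b 0 = Nat.centralBinom b := by
  have h : ∀ b < 130, ueL.getD (b + 1) 0 * (b + 1) = 2 * (2 * b + 1) * ueL.getD b 0 := by
    decide +kernel
  have h0 : ueL.getD 0 0 = 1 := by decide +kernel
  intro b hb
  induction b with
  | zero => rw [h0]; simp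
  | succ b ih =>
    have h1 := h b (by omega)
    have h2 := ih (by omega)
    have h3 := Nat.succ_mul_centralBinom_succ b
    rw [h2] at h1
    have h4 : (b + 1) * ueL.getD (b + 1) 0 = (b + 1) * Nat.centralBinom (b + 1) := by
      rw [h3, mul_comm, h1]
    exact Nat.eq_of_mul_eq_mul_left (Nat.succ_pos b) h4

lemma k_we : ∀ t < 260, weL.getD (t + 1) 0 * 2 = (522 - t) * weL.getD t 0 := by decide +kernel

lemma k_we0 : weL.getD 0 0 = 4 := by decide +kernel

lemma k_he : ∀ s < 130, heL.getD (s + 1) 0 * ((2 * s + 1) * (2 * s + 2)) =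
    4 * heL.getD s 0 := by decide +kernel

lemma k_he0 : heL.getD 0 0 = Nat.factorial 260 := by decide +kernel

attribute [local irreducible] ueL gL weL heL

/-- opaque entries -/
def ue (b : ℕ) : ℕ := ueL.getD b 0
def gg (b : ℕ) : ℕ := gL.getD b 0
def we (b : ℕ) : ℕ := weL.getD b 0
def he (b : ℕ) : ℕ := heL.getD b 0

lemma ue_eq (b : ℕ) (hb : b ≤ 130) : ue b = Nat.centralBinom b := k_ue b (by omega)
lemma we_eq (t : ℕ) (ht : t < 260) : we (t + 1) * 2 = (522 - t) * we t := k_we t ht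
lemma we_zero : we 0 = 4 := k_we0
lemma he_eq (s : ℕ) (hs : s < 130) : he (s + 1) * ((2 * s + 1) * (2 * s + 2)) = 4 * he s :=
  k_he s hs
lemma he_zero : he 0 = Nat.factorial 260 := k_he0
lemma gg_fac (b : ℕ) (hb : b ≤ 130) : gg b * b.factorial = 2 ^ b * gg 0 := NumTO.gg_fac b hb

attribute [local irreducible] ue gg we he

lemma we_desc (t : ℕ) (ht : t ≤ 260) : we t * 2 ^ t = 4 * Nat.descFactorial 522 t := by
  induction t with
  | zero => rw [we_zero]; simp
  | succ t ih =>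
    have h1 := we_eq t (by omega)
    have h2 := ih (by omega)
    calc we (t + 1) * 2 ^ (t + 1) = (we (t + 1) * 2) * 2 ^ t := by ring
      _ = (522 - t) * (we t * 2 ^ t) := by rw [h1]; ring
      _ = 4 * Nat.descFactorial 522 (t + 1) := by rw [h2, Nat.descFactorial_succ]; ring

lemma he_fac (s : ℕ) (hs : s ≤ 130) :
    he s * (2 * s).factorial = 4 ^ s * Nat.factorial 260 := by
  induction s with
  | zero => rw [he_zero]; simp
  | succ s ih =>
    have h := he_eq s (by omega)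
    have ih' := ih (by omega)
    have e : (2 * (s + 1)).factorial = (2 * s + 2) * ((2 * s + 1) * (2 * s).factorial) := by
      rw [show 2 * (s + 1) = 2 * s + 1 + 1 by ring, Nat.factorial_succ, Nat.factorial_succ]
    calc he (s + 1) * (2 * (s + 1)).factorial
        = (he (s + 1) * ((2 * s + 1) * (2 * s + 2))) * (2 * s).factorial := by rw [e]; ring
      _ = 4 * (he s * (2 * s).factorial) := by rw [h]; ring
      _ = 4 ^ (s + 1) * Nat.factorial 260 := by rw [ih']; ring

lemma muN_even (b : ℕ) (hb : b ≤ 130) : muN 130 (2 * b) = (ue b : ℚ) := by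
  rw [ue_eq b hb, muN]
  exact NumC.mu_even 130 b hb

/-- the common sum -/
def sg (s e : ℕ) : ℚ :=
  ∑ b ∈ range (e + 1), (e.choose b : ℚ) * ((ue (s + b) : ℚ) * (ue (s + (e - b)) : ℚ))

lemma nu_sg (s e : ℕ) (h : e + s ≤ 130) : nu 130 e (2 * s) = sg s e := by
  rw [nu, sg]
  refine Finset.sum_congr rfl fun b hb => ?_
  have hb' : b ≤ e := by simpa [Nat.lt_succ_iff] using hb
  have e1 : 2 * s + 2 * b = 2 * (s + b) := by ring
  have e2 : 2 * s + 2 * (e - b) = 2 * (s + (e - b)) := by ring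
  rw [e1, e2, muN_even (s + b) (by omega), muN_even (s + (e - b)) (by omega)]
  ring

lemma conv_sg (s e : ℕ) (h : e ≤ 130) :
    (e.factorial : ℚ) * (NumK.conv ue gg s e : ℚ) = 2 ^ e * (gg 0 : ℚ) ^ 2 * sg s e := by
  rw [NumK.conv, sg, Nat.cast_sum, Finset.mul_sum, Finset.mul_sum]
  refine Finset.sum_congr rfl fun b hb => ?_
  have hb' : b ≤ e := by simpa [Nat.lt_succ_iff] using hb
  have h1 : (gg b : ℚ) * (b.factorial : ℚ) = 2 ^ b * (gg 0 : ℚ) := by
    exact_mod_cast gg_fac b (by omega)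
  have h2 : (gg (e - b) : ℚ) * ((e - b).factorial : ℚ) = 2 ^ (e - b) * (gg 0 : ℚ) := by
    exact_mod_cast gg_fac (e - b) (by omega)
  have h3 : (e.choose b : ℚ) * (b.factorial : ℚ) * ((e - b).factorial : ℚ) = (e.factorial : ℚ) := by
    exact_mod_cast Nat.choose_mul_factorial_mul_factorial hb'
  have h4 : (2 : ℚ) ^ e = 2 ^ b * 2 ^ (e - b) := by rw [← pow_add]; congr 1; omega
  rw [← h3, h4]
  push_cast
  generalize (gg b : ℚ) = x at *
  generalize (gg (e - b) : ℚ) = y at *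
  generalize (gg 0 : ℚ) = g at *
  generalize (b.factorial : ℚ) = f1 at *
  generalize ((e - b).factorial : ℚ) = f2 at *
  generalize (ue (s + b) : ℚ) = u1 at *
  generalize (ue (s + (e - b)) : ℚ) = u2 at *
  calc (e.choose b : ℚ) * f1 * f2 * (u1 * x * (u2 * y))
      = (e.choose b : ℚ) * (u1 * u2) * ((x * f1) * (y * f2)) := by ring
    _ = _ := by rw [h1, h2]; ring

end Pool.Agent.KTT.NumTE

namespace Pool.Agent.KTT

open NumTE in
/-- NM (E): the even terms -/
theorem term_even (s e : ℕ) (h : e + s ≤ 130) :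
    (4 * (Nat.factorial 260 : ℚ) * (gL.getD 0 0 : ℚ) ^ 2) *
      (((522).choose (e + 2 * s) : ℚ) * ((e + 2 * s).choose e : ℚ) * nu 130 e (2 * s)) =
    (heL.getD s 0 : ℚ) * (weL.getD (e + 2 * s) 0 : ℚ) *
      (NumK.conv (fun i => ueL.getD i 0) (fun i => gL.getD i 0) s e : ℚ) := by
  have hA := nu_sg s e h
  have hB := conv_sg s e (by omega)
  have hW : (we (e + 2 * s) : ℚ) * 2 ^ (e + 2 * s) =
      4 * ((Nat.descFactorial 522 (e + 2 * s) : ℕ) : ℚ) := by
    exact_mod_cast we_desc (e + 2 * s) (by omega)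
  have hH : (he s : ℚ) * ((2 * s).factorial : ℚ) = 4 ^ s * (Nat.factorial 260 : ℚ) := by
    exact_mod_cast he_fac s (by omega)
  have hC : ((Nat.descFactorial 522 (e + 2 * s) : ℕ) : ℚ) =
      ((e + 2 * s).factorial : ℚ) * ((522).choose (e + 2 * s) : ℚ) := by
    exact_mod_cast Nat.descFactorial_eq_factorial_mul_choose 522 (e + 2 * s)
  have hD : ((e + 2 * s).choose e : ℚ) * (e.factorial : ℚ) * ((2 * s).factorial : ℚ) =
      ((e + 2 * s).factorial : ℚ) := by
    rw [Nat.choose_symm_add]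
    exact_mod_cast Nat.add_choose_mul_factorial_mul_factorial e (2 * s)
  change (4 * (Nat.factorial 260 : ℚ) * (gg 0 : ℚ) ^ 2) *
      (((522).choose (e + 2 * s) : ℚ) * ((e + 2 * s).choose e : ℚ) * nu 130 e (2 * s)) =
    (he s : ℚ) * (we (e + 2 * s) : ℚ) * (NumK.conv ue gg s e : ℚ)
  rw [hC] at hW
  have h1 : (e.factorial : ℚ) ≠ 0 := by exact_mod_cast e.factorial_ne_zero
  have h2 : ((2 * s).factorial : ℚ) ≠ 0 := by exact_mod_cast (2 * s).factorial_ne_zero
  have h3 : (2 : ℚ) ^ (e + 2 * s) ≠ 0 := by positivity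
  refine mul_left_cancel₀ (mul_ne_zero (mul_ne_zero h1 h2) h3) ?_
  generalize (Nat.factorial 260 : ℚ) = F at *
  generalize (gg 0 : ℚ) = g at *
  generalize nu 130 e (2 * s) = N at *
  generalize (NumK.conv ue gg s e : ℚ) = V at *
  generalize ((522).choose (e + 2 * s) : ℚ) = C1 at *
  generalize ((e + 2 * s).choose e : ℚ) = C2 at *
  generalize ((e + 2 * s).factorial : ℚ) = F3 at *
  generalize (e.factorial : ℚ) = F1 at *
  generalize ((2 * s).factorial : ℚ) = F2 at *
  generalize (he s : ℚ) = H at *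
  generalize (we (e + 2 * s) : ℚ) = W at *
  calc F1 * F2 * 2 ^ (e + 2 * s) * (4 * F * g ^ 2 * (C1 * C2 * N))
      = 4 * F * g ^ 2 * C1 * (C2 * F1 * F2) * 2 ^ (e + 2 * s) * N := by ring
    _ = 4 * F * g ^ 2 * C1 * F3 * 2 ^ (e + 2 * s) * sg s e := by rw [hD, hA]
    _ = (4 ^ s * F) * (4 * (F3 * C1)) * (2 ^ e * g ^ 2 * sg s e) := by
        rw [show (4 : ℚ) ^ s = 2 ^ (2 * s) by rw [pow_mul]; norm_num, pow_add]; ring
    _ = (H * F2) * (W * 2 ^ (e + 2 * s)) * (F1 * V) := by rw [hH, hW, hB]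
    _ = _ := by ring

end Pool.Agent.KTT
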