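import Pool.Agent.Work.MP_0df73a_co.KTT.NumC
import Pool.Agent.Work.MP_0df73a_co.KTT.NumK

/-!
KTT (MP_0df73a_co), module NM, piece (O) (helper83): the odd terms.
-/

set_option autoImplicit false

namespace Pool.Agent.KTT.NumTO

open Finset Pool.Agent.KTT

lemma k_uo : ∀ b < 130, uoL.getD b 0 * 2 ^ (5 + 2 * b) = muL.getD (2 * b + 1) 0 := by
  decide +kernel

lemma k_g : ∀ b < 130, gL.getD (b + 1) 0 * (b + 1) = 2 * gL.getD b 0 := by decide +kernel

lemma k_wo : ∀ t < 260, woL.getD (t + 1) 0 = 2 * (522 - t) * woL.getD t 0 := by decide +kernel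

lemma k_wo0 : woL.getD 0 0 = 1 := by decide +kernel

lemma k_ho : ∀ s < 129, hoL.getD (s + 1) 0 * ((2 * s + 2) * (2 * s + 3)) =
    4 * hoL.getD s 0 := by decide +kernel

lemma k_ho0 : hoL.getD 0 0 = Nat.factorial 260 := by decide +kernel

attribute [local irreducible] uoL muL gL woL hoL

/-- opaque entries -/
def uo (b : ℕ) : ℕ := uoL.getD b 0
def ml (b : ℕ) : ℕ := muL.getD b 0
def gg (b : ℕ) : ℕ := gL.getD b 0
def wo (b : ℕ) : ℕ := woL.getD b 0
def ho (b : ℕ) : ℕ := hoL.getD b 0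

lemma uo_eq (b : ℕ) (hb : b < 130) : uo b * 2 ^ (5 + 2 * b) = ml (2 * b + 1) := k_uo b hb
lemma gg_eq (b : ℕ) (hb : b < 130) : gg (b + 1) * (b + 1) = 2 * gg b := k_g b hb
lemma wo_eq (t : ℕ) (ht : t < 260) : wo (t + 1) = 2 * (522 - t) * wo t := k_wo t ht
lemma wo_zero : wo 0 = 1 := k_wo0
lemma ho_eq (s : ℕ) (hs : s < 129) : ho (s + 1) * ((2 * s + 2) * (2 * s + 3)) = 4 * ho s :=
  k_ho s hs
lemma ho_zero : ho 0 = Nat.factorial 260 := k_ho0
lemma ml_eq (a : ℕ) (ha : a ≤ 260) : (2 : ℚ) ^ 520 * muN 130 a = (ml a : ℚ) := mu_lit a ha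

attribute [local irreducible] uo ml gg wo ho

lemma gg_fac (b : ℕ) (hb : b ≤ 130) : gg b * b.factorial = 2 ^ b * gg 0 := by
  induction b with
  | zero => simp
  | succ b ih =>
    have h := gg_eq b (by omega)
    have ih' := ih (by omega)
    calc gg (b + 1) * (b + 1).factorial = (gg (b + 1) * (b + 1)) * b.factorial := by
          rw [Nat.factorial_succ]; ring
      _ = 2 * (gg b * b.factorial) := by rw [h]; ring
      _ = 2 ^ (b + 1) * gg 0 := by rw [ih']; ring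

lemma wo_desc (t : ℕ) (ht : t ≤ 260) : wo t = 2 ^ t * Nat.descFactorial 522 t := by
  induction t with
  | zero => rw [wo_zero]; simp
  | succ t ih =>
    rw [wo_eq t (by omega), ih (by omega), Nat.descFactorial_succ]
    ring

lemma ho_fac (s : ℕ) (hs : s ≤ 129) :
    ho s * (2 * s + 1).factorial = 4 ^ s * Nat.factorial 260 := by
  induction s with
  | zero => rw [ho_zero]; simp
  | succ s ih =>
    have h := ho_eq s (by omega)
    have ih' := ih (by omega)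
    have e : (2 * (s + 1) + 1).factorial = (2 * s + 3) * ((2 * s + 2) * (2 * s + 1).factorial) := by
      rw [show 2 * (s + 1) + 1 = (2 * s + 1) + 1 + 1 by ring, Nat.factorial_succ,
        Nat.factorial_succ]
    calc ho (s + 1) * (2 * (s + 1) + 1).factorial
        = (ho (s + 1) * ((2 * s + 2) * (2 * s + 3))) * (2 * s + 1).factorial := by rw [e]; ring
      _ = 4 * (ho s * (2 * s + 1).factorial) := by rw [h]; ring
      _ = 4 ^ (s + 1) * Nat.factorial 260 := by rw [ih']; ring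

lemma muN_odd (b : ℕ) (hb : b < 130) :
    (2 : ℚ) ^ 515 * muN 130 (2 * b + 1) = (uo b : ℚ) * 2 ^ (2 * b) := by
  have h1 := ml_eq (2 * b + 1) (by omega)
  have h2 : (uo b : ℚ) * 2 ^ (5 + 2 * b) = (ml (2 * b + 1) : ℚ) := by
    exact_mod_cast uo_eq b hb
  have h3 : (2 : ℚ) ^ 520 = 2 ^ 5 * 2 ^ 515 := by rw [← pow_add]
  rw [h3] at h1
  rw [pow_add] at h2
  generalize (2 : ℚ) ^ 515 = S at *
  have h5 : (2 : ℚ) ^ 5 ≠ 0 := by norm_num
  refine mul_left_cancel₀ h5 ?_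
  rw [← mul_assoc, h1, ← h2]; ring

/-- the common sum -/
def sg (s e : ℕ) : ℚ :=
  ∑ b ∈ range (e + 1), (e.choose b : ℚ) * ((uo (s + b) : ℚ) * (uo (s + (e - b)) : ℚ))

lemma nu_sg (s e : ℕ) (h : e + s ≤ 129) :
    ((2 : ℚ) ^ 515 * (2 : ℚ) ^ 515) * nu 130 e (2 * s + 1) = 2 ^ (4 * s + 2 * e) * sg s e := by
  rw [nu, sg, Finset.mul_sum, Finset.mul_sum]
  refine Finset.sum_congr rfl fun b hb => ?_
  have hb' : b ≤ e := by simpa [Nat.lt_succ_iff] using hb
  have h1 := muN_odd (s + b) (by omega)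
  have h2 := muN_odd (s + (e - b)) (by omega)
  have e1 : 2 * s + 1 + 2 * b = 2 * (s + b) + 1 := by ring
  have e2 : 2 * s + 1 + 2 * (e - b) = 2 * (s + (e - b)) + 1 := by ring
  rw [e1, e2]
  have e3 : (2 : ℚ) ^ (4 * s + 2 * e) = 2 ^ (2 * (s + b)) * 2 ^ (2 * (s + (e - b))) := by
    rw [← pow_add]; congr 1; omega
  rw [e3]
  generalize (2 : ℚ) ^ 515 = S at *
  calc S * S * ((e.choose b : ℚ) * muN 130 (2 * (s + b) + 1) * muN 130 (2 * (s + (e - b)) + 1))
      = (e.choose b : ℚ) * ((S * muN 130 (2 * (s + b) + 1)) *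
          (S * muN 130 (2 * (s + (e - b)) + 1))) := by ring
    _ = _ := by rw [h1, h2]; ring

lemma conv_sg (s e : ℕ) (h : e ≤ 130) :
    (e.factorial : ℚ) * (NumK.conv uo gg s e : ℚ) = 2 ^ e * (gg 0 : ℚ) ^ 2 * sg s e := by
  rw [NumK.conv, sg, Nat.cast_sum, Finset.mul_sum, Finset.mul_sum]
  refine Finset.sum_congr rfl fun b hb => ?_
  have hb' : b ≤ e := by simpa [Nat.lt_succ_iff] using hb
  have h1 : (gg b : ℚ) * (b.factorial : ℚ) = 2 ^ b * (gg 0 : ℚ) := by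
    exact_mod_cast gg_fac b (by omega)
  have h2 : (gg (e - b) : ℚ) * ((e - b).factorial : ℚ) = 2 ^ (e - b) * (gg 0 : ℚ) := by
    exact_mod_cast gg_fac (e - b) (by omega)
  have h3 : (e.choose b : ℚ) * (b.factorial : ℚ) * ((e - b).factorial : ℚ) = (e.factorial : ℚ) := by
    exact_mod_cast Nat.choose_mul_factorial_mul_factorial hb'
  have h4 : (2 : ℚ) ^ e = 2 ^ b * 2 ^ (e - b) := by rw [← pow_add]; congr 1; omega
  rw [← h3, h4]
  push_cast
  generalize (gg b : ℚ) = x at *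
  generalize (gg (e - b) : ℚ) = y at *
  generalize (gg 0 : ℚ) = g at *
  generalize (b.factorial : ℚ) = f1 at *
  generalize ((e - b).factorial : ℚ) = f2 at *
  generalize (uo (s + b) : ℚ) = u1 at *
  generalize (uo (s + (e - b)) : ℚ) = u2 at *
  calc (e.choose b : ℚ) * f1 * f2 * (u1 * x * (u2 * y))
      = (e.choose b : ℚ) * (u1 * u2) * ((x * f1) * (y * f2)) := by ring
    _ = _ := by rw [h1, h2]; ring

end Pool.Agent.KTT.NumTO

namespace Pool.Agent.KTT

open NumTO in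
/-- NM (O): the odd terms -/
theorem term_odd (s e : ℕ) (h : e + s ≤ 129) :
    ((2 : ℚ) ^ 1031 * (Nat.factorial 260 : ℚ) * (gL.getD 0 0 : ℚ) ^ 2) *
      (((522).choose (e + (2 * s + 1)) : ℚ) * ((e + (2 * s + 1)).choose e : ℚ) *
        nu 130 e (2 * s + 1)) =
    (hoL.getD s 0 : ℚ) * (woL.getD (e + (2 * s + 1)) 0 : ℚ) *
      (NumK.conv (fun i => uoL.getD i 0) (fun i => gL.getD i 0) s e : ℚ) := by
  have hA := nu_sg s e h
  have hB := conv_sg s e (by omega)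
  have hW : (wo (e + (2 * s + 1)) : ℚ) = 2 ^ (e + (2 * s + 1)) *
      ((Nat.descFactorial 522 (e + (2 * s + 1)) : ℕ) : ℚ) := by
    exact_mod_cast wo_desc (e + (2 * s + 1)) (by omega)
  have hH : (ho s : ℚ) * ((2 * s + 1).factorial : ℚ) = 4 ^ s * (Nat.factorial 260 : ℚ) := by
    exact_mod_cast ho_fac s (by omega)
  have hC : ((Nat.descFactorial 522 (e + (2 * s + 1)) : ℕ) : ℚ) =
      ((e + (2 * s + 1)).factorial : ℚ) * ((522).choose (e + (2 * s + 1)) : ℚ) := by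
    exact_mod_cast Nat.descFactorial_eq_factorial_mul_choose 522 (e + (2 * s + 1))
  have hD : ((e + (2 * s + 1)).choose e : ℚ) * (e.factorial : ℚ) * ((2 * s + 1).factorial : ℚ) =
      ((e + (2 * s + 1)).factorial : ℚ) := by
    rw [Nat.choose_symm_add]
    exact_mod_cast Nat.add_choose_mul_factorial_mul_factorial e (2 * s + 1)
  have hP : (2 : ℚ) ^ 1031 = 2 * (2 ^ 515 * 2 ^ 515) := by
    rw [← pow_add, ← pow_succ']
  change ((2 : ℚ) ^ 1031 * (Nat.factorial 260 : ℚ) * (gg 0 : ℚ) ^ 2) *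
      (((522).choose (e + (2 * s + 1)) : ℚ) * ((e + (2 * s + 1)).choose e : ℚ) *
        nu 130 e (2 * s + 1)) =
    (ho s : ℚ) * (wo (e + (2 * s + 1)) : ℚ) * (NumK.conv uo gg s e : ℚ)
  rw [hP, hW, hC]
  have h1 : (e.factorial : ℚ) ≠ 0 := by exact_mod_cast e.factorial_ne_zero
  have h2 : ((2 * s + 1).factorial : ℚ) ≠ 0 := by exact_mod_cast (2 * s + 1).factorial_ne_zero
  refine mul_left_cancel₀ (mul_ne_zero h1 h2) ?_
  generalize ((2 : ℚ) ^ 515 * 2 ^ 515) = S at *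
  generalize (Nat.factorial 260 : ℚ) = F at *
  generalize (gg 0 : ℚ) = g at *
  generalize nu 130 e (2 * s + 1) = N at *
  generalize (NumK.conv uo gg s e : ℚ) = V at *
  generalize ((522).choose (e + (2 * s + 1)) : ℚ) = C1 at *
  generalize ((e + (2 * s + 1)).choose e : ℚ) = C2 at *
  generalize ((e + (2 * s + 1)).factorial : ℚ) = F3 at *
  generalize (e.factorial : ℚ) = F1 at *
  generalize ((2 * s + 1).factorial : ℚ) = F2 at *
  generalize (ho s : ℚ) = H at *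
  calc F1 * F2 * (2 * S * F * g ^ 2 * (C1 * C2 * N))
      = 2 * F * g ^ 2 * C1 * (C2 * F1 * F2) * (S * N) := by ring
    _ = 2 * F * g ^ 2 * C1 * F3 * (2 ^ (4 * s + 2 * e) * sg s e) := by rw [hD, hA]
    _ = (4 ^ s * F) * (2 ^ (e + (2 * s + 1)) * (F3 * C1)) * (2 ^ e * g ^ 2 * sg s e) := by
        rw [show (4 : ℚ) = 2 ^ 2 by norm_num, ← pow_mul]; ring
    _ = (H * F2) * (2 ^ (e + (2 * s + 1)) * (F3 * C1)) * (F1 * V) := by rw [hH, hB]
    _ = _ := by ring

end Pool.Agent.KTT
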