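import Pool.Agent.Work.MP_0df73a_co.KTT.NumH
import Pool.Agent.Work.MP_0df73a_co.KTT.NumM
import Pool.Agent.Work.MP_0df73a_co.KTT.NumR
import Pool.Agent.Work.MP_0df73a_co.KTT.NumTE
import Pool.Agent.Work.MP_0df73a_co.KTT.NumTO

/-!
KTT (MP_0df73a_co), module NUM: `e1 130 < 0`.
-/

set_option autoImplicit false

namespace Pool.Agent.KTT

theorem main_int : 371 * (Dj : ℚ) < SS 130 J1 := by
  have h := NumK.main_of term_even term_odd row_even row_odd
  rw [← NumD.Dj_asc] at h
  exact h

/-- the linear coefficient is negative -/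
theorem e1_neg : e1 130 < 0 := NumH.e1_neg_of main_int

end Pool.Agent.KTT
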