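import Mathlib
import Pool.Agent.Work.MP_0df73a_co.KTT.Spec

/-!
KTT (MP_0df73a_co), module MI: the Moebius identity, by the flow proof.
In the ring of power series in v, w over the Laurent polynomials in X, Y the series EE satisfies
DD EE = (N-1)(X+1/X+Y+1/Y) EE for the derivation
DD = (1-w^2)d_w - (1-v^2)d_v - (1/X-X)X d_X - (1/Y-Y) Y d_Y (Lg_EE); the functional
X^a Y^b -> q(a+b) q(a-b) kills (1/X-X)X d_X f + (1/Y-Y)Y d_Y f + (N-1)(X+1/X+Y+1/Y) f (factA); so the
double array of values satisfies a recurrence all of whose solutions are symmetric (rec_symm), and the two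
boundary rows are the two sides of the identity (bdry0, bdry1).
-/

set_option autoImplicit false

open PowerSeries

namespace Pool.Agent.KTT.MIb

/-- Laurent polynomials in two variables. -/
abbrev A := AddMonoidAlgebra ℚ (ℤ × ℤ)

/-- monomials -/
noncomputable abbrev sg (a b : ℤ) (c : ℚ) : A := AddMonoidAlgebra.single ((a, b) : ℤ × ℤ) c

/-- The linear map with prescribed values at monomials. -/
noncomputable def lin {W : Type*} [AddCommGroup W] [Module ℚ W] (φ : ℤ × ℤ → W) : A →ₗ[ℚ] W :=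
  (Finsupp.lsum ℚ (fun g => LinearMap.toSpanSingleton ℚ W (φ g))) ∘ₗ
    (AddMonoidAlgebra.coeffLinearEquiv ℚ).toLinearMap

theorem lin_single {W : Type*} [AddCommGroup W] [Module ℚ W] (φ : ℤ × ℤ → W) (g : ℤ × ℤ) (c : ℚ) :
    lin φ (AddMonoidAlgebra.single g c) = c • φ g := by
  have h : (AddMonoidAlgebra.coeffLinearEquiv ℚ) (AddMonoidAlgebra.single g c) = Finsupp.single g c := rfl
  simp [lin, h]

/-- The Euler derivation attached to an additive character. -/
noncomputable def eul (χ : ℤ × ℤ →+ ℚ) : Derivation ℚ A A := by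
  refine Derivation.mk' (lin (fun g => AddMonoidAlgebra.single g (χ g))) ?_
  intro a b
  induction a using AddMonoidAlgebra.induction_linear with
  | zero => simp
  | add f g hf hg => simp only [add_mul, map_add, hf, hg, add_smul, smul_add]; abel
  | single g c =>
    induction b using AddMonoidAlgebra.induction_linear with
    | zero => simp
    | add f g hf hg => simp only [mul_add, map_add, hf, hg, add_smul, smul_add]; abel
    | single g' c' =>
      simp only [AddMonoidAlgebra.single_mul_single, lin_single, smul_eq_mul, AddMonoidAlgebra.smul_single,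
        map_add]
      rw [add_comm g' g, ← AddMonoidAlgebra.single_add]
      congr 1
      ring

theorem eul_single (χ : ℤ × ℤ →+ ℚ) (g : ℤ × ℤ) (c : ℚ) :
    eul χ (AddMonoidAlgebra.single g c) = AddMonoidAlgebra.single g (c * χ g) := by
  have : eul χ (AddMonoidAlgebra.single g c) = lin (fun g => AddMonoidAlgebra.single g (χ g)) (AddMonoidAlgebra.single g c) := rfl
  rw [this, lin_single]; simp

/-- Coefficientwise derivation. -/
noncomputable def mapD {R : Type*} [CommRing R] [Algebra ℚ R] (d : Derivation ℚ R R) :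
    Derivation ℚ R⟦X⟧ R⟦X⟧ := by
  refine Derivation.mk' { toFun := fun F => PowerSeries.mk fun n => d (coeff n F), map_add' := ?_, map_smul' := ?_ } ?_
  · intro F G; ext n; simp
  · intro c F; ext n; simp
  · intro F G
    ext n
    simp only [LinearMap.coe_mk, AddHom.coe_mk, coeff_mk, coeff_mul, map_sum, Derivation.leibniz, smul_eq_mul, map_add]
    rw [Finset.sum_add_distrib]
    congr 1
    exact Finset.Nat.sum_antidiagonal_swap (f := fun x : ℕ × ℕ => (coeff x.1) G * d ((coeff x.2) F))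

theorem coeff_mapD {R : Type*} [CommRing R] [Algebra ℚ R] (d : Derivation ℚ R R) (F : R⟦X⟧) (n : ℕ) :
    coeff n (mapD d F) = d (coeff n F) := by
  have : mapD d F = PowerSeries.mk fun n => d (coeff n F) := rfl
  rw [this, coeff_mk]


/-- The predicate: f is an eigenvector of d with eigenvalue l (logarithmic derivative). -/
def Lg {B : Type*} [CommRing B] [Algebra ℚ B] (d : Derivation ℚ B B) (f l : B) : Prop := d f = l * f

theorem Lg.mul {B : Type*} [CommRing B] [Algebra ℚ B] {d : Derivation ℚ B B} {f l g m : B}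
    (h : Lg d f l) (h' : Lg d g m) : Lg d (f * g) (l + m) := by
  unfold Lg at *
  rw [Derivation.leibniz, h, h']
  simp only [smul_eq_mul]; ring

theorem Lg.pow {B : Type*} [CommRing B] [Algebra ℚ B] {d : Derivation ℚ B B} {f l : B}
    (h : Lg d f l) (n : ℕ) : Lg d (f ^ n) (n * l) := by
  induction n with
  | zero => simp [Lg]
  | succ n ih =>
    rw [pow_succ]
    have := ih.mul h
    convert this using 1
    push_cast; ring

theorem Lg.inv {B : Type*} [CommRing B] [Algebra ℚ B] {d : Derivation ℚ B B} {f l g : B}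
    (h : Lg d f l) (hg : g * f = 1) : Lg d g (-l) := by
  unfold Lg at *
  have h1 : d (g * f) = 0 := by rw [hg]; simp
  rw [Derivation.leibniz, h] at h1
  simp only [smul_eq_mul] at h1
  have h2 : (g * (l * f) + f * d g) * g = 0 := by rw [h1]; ring
  have h3 : (g * (l * f) + f * d g) * g = (g * f) * (l * g) + (g * f) * d g := by ring
  rw [h3, hg] at h2
  linear_combination h2

/-- power series in v with Laurent polynomial coefficients -/
abbrev A1 := PowerSeries A
/-- power series in w over these -/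
abbrev B := PowerSeries A1

noncomputable def io (a : A) : B := C (C a)
noncomputable def vv : B := C (X : A1)
noncomputable def ww : B := X

theorem io_mul (a b : A) : io (a * b) = io a * io b := by simp [io]
theorem io_add (a b : A) : io (a + b) = io a + io b := by simp [io]
theorem io_sub (a b : A) : io (a - b) = io a - io b := by simp [io]
theorem io_one : io 1 = 1 := by simp [io]

/-- first coordinate character, second coordinate character -/
noncomputable def c1 : ℤ × ℤ →+ ℚ := (Int.castAddHom ℚ).comp (AddMonoidHom.fst ℤ ℤ)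
noncomputable def c2 : ℤ × ℤ →+ ℚ := (Int.castAddHom ℚ).comp (AddMonoidHom.snd ℤ ℤ)

noncomputable def derQ (R : Type*) [CommRing R] [Algebra ℚ R] : Derivation ℚ R⟦X⟧ R⟦X⟧ :=
  (PowerSeries.derivative R).restrictScalars ℚ
theorem derQ_apply (R : Type*) [CommRing R] [Algebra ℚ R] (f : R⟦X⟧) :
    derQ R f = PowerSeries.derivative R f := rfl
theorem derQ_X (R : Type*) [CommRing R] [Algebra ℚ R] : derQ R (X : R⟦X⟧) = 1 := by
  rw [derQ_apply, PowerSeries.derivative_X]
theorem derQ_C (R : Type*) [CommRing R] [Algebra ℚ R] (a : R) : derQ R (C a : R⟦X⟧) = 0 := by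
  rw [derQ_apply, PowerSeries.derivative_C]
theorem coeff_derQ (R : Type*) [CommRing R] [Algebra ℚ R] (f : R⟦X⟧) (n : ℕ) :
    coeff n (derQ R f) = coeff (n + 1) f * ((n : R) + 1) := by
  rw [derQ_apply, PowerSeries.coeff_derivative]

noncomputable def dw : Derivation ℚ B B := derQ A1
noncomputable def dv : Derivation ℚ B B := mapD (derQ A)
noncomputable def dX : Derivation ℚ B B := mapD (mapD (eul c1))
noncomputable def dY : Derivation ℚ B B := mapD (mapD (eul c2))

theorem dw_w : dw ww = 1 := derQ_X _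
theorem dw_C (a : A1) : dw (C a) = 0 := derQ_C _ _
theorem dw_v : dw vv = 0 := dw_C _
theorem dw_io (a : A) : dw (io a) = 0 := dw_C _

theorem mapD_X {R : Type*} [CommRing R] [Algebra ℚ R] (d : Derivation ℚ R R) :
    mapD d (X : R⟦X⟧) = 0 := by
  ext n
  rw [coeff_mapD, coeff_X]
  split_ifs <;> simp
theorem mapD_C {R : Type*} [CommRing R] [Algebra ℚ R] (d : Derivation ℚ R R) (a : R) :
    mapD d (C a : R⟦X⟧) = C (d a) := by
  ext n
  rw [coeff_mapD, coeff_C, coeff_C]
  split_ifs <;> simp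

theorem dv_w : dv ww = 0 := mapD_X _
theorem dv_v : dv vv = 1 := by
  change mapD _ (C (X : A1)) = 1
  rw [mapD_C, derQ_X]; simp
theorem dv_io (a : A) : dv (io a) = 0 := by
  change mapD _ (C (C a : A1)) = 0
  rw [mapD_C, derQ_C]; simp

theorem dX_w : dX ww = 0 := mapD_X _
theorem dY_w : dY ww = 0 := mapD_X _
theorem dX_v : dX vv = 0 := by
  change mapD _ (C (X : A1)) = 0
  rw [mapD_C, mapD_X]; simp
theorem dY_v : dY vv = 0 := by
  change mapD _ (C (X : A1)) = 0
  rw [mapD_C, mapD_X]; simp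
theorem dX_io (a : A) : dX (io a) = io (eul c1 a) := by
  change mapD _ (C (C a : A1)) = _
  rw [mapD_C, mapD_C]; rfl
theorem dY_io (a : A) : dY (io a) = io (eul c2 a) := by
  change mapD _ (C (C a : A1)) = _
  rw [mapD_C, mapD_C]; rfl

/-- the monomials X, 1/X, Y, 1/Y in B -/
noncomputable def Xp : B := io (sg 1 0 1)
noncomputable def Xm : B := io (sg (-1) 0 1)
noncomputable def Yp : B := io (sg 0 1 1)
noncomputable def Ym : B := io (sg 0 (-1) 1)

theorem Xpm : Xp * Xm = 1 := by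
  rw [Xp, Xm, ← io_mul, AddMonoidAlgebra.single_mul_single]; simp; exact io_one
theorem Ypm : Yp * Ym = 1 := by
  rw [Yp, Ym, ← io_mul, AddMonoidAlgebra.single_mul_single]; simp; exact io_one

/-- the total derivation -/
noncomputable def DD : Derivation ℚ B B :=
  (1 - ww ^ 2) • dw - (1 - vv ^ 2) • dv - (Xm - Xp) • dX - (Ym - Yp) • dY

theorem DD_apply (f : B) : DD f =
    (1 - ww ^ 2) * dw f - (1 - vv ^ 2) * dv f - (Xm - Xp) * dX f - (Ym - Yp) * dY f := by
  simp [DD]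

theorem dX_Xp : dX Xp = Xp := by
  rw [Xp, dX_io, eul_single]; simp [c1]
theorem dX_Xm : dX Xm = - Xm := by
  rw [Xm, dX_io, eul_single]; simp [c1, io]
theorem dX_Yp : dX Yp = 0 := by
  rw [Yp, dX_io, eul_single]; simp [c1, io]
theorem dX_Ym : dX Ym = 0 := by
  rw [Ym, dX_io, eul_single]; simp [c1, io]
theorem dY_Yp : dY Yp = Yp := by
  rw [Yp, dY_io, eul_single]; simp [c2]
theorem dY_Ym : dY Ym = - Ym := by
  rw [Ym, dY_io, eul_single]; simp [c2, io]
theorem dY_Xp : dY Xp = 0 := by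
  rw [Xp, dY_io, eul_single]; simp [c2, io]
theorem dY_Xm : dY Xm = 0 := by
  rw [Xm, dY_io, eul_single]; simp [c2, io]
theorem dw_Xp : dw Xp = 0 := dw_io _
theorem dw_Xm : dw Xm = 0 := dw_io _
theorem dw_Yp : dw Yp = 0 := dw_io _
theorem dw_Ym : dw Ym = 0 := dw_io _
theorem dv_Xp : dv Xp = 0 := dv_io _
theorem dv_Xm : dv Xm = 0 := dv_io _
theorem dv_Yp : dv Yp = 0 := dv_io _
theorem dv_Ym : dv Ym = 0 := dv_io _

theorem DD_w : DD ww = 1 - ww ^ 2 := by
  rw [DD_apply, dw_w, dv_w, dX_w, dY_w]; ring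
theorem DD_v : DD vv = - (1 - vv ^ 2) := by
  rw [DD_apply, dw_v, dv_v, dX_v, dY_v]; ring
theorem DD_Xp : DD Xp = - (Xm - Xp) * Xp := by
  rw [DD_apply, dw_Xp, dv_Xp, dX_Xp, dY_Xp]; ring
theorem DD_Xm : DD Xm = (Xm - Xp) * Xm := by
  rw [DD_apply, dw_Xm, dv_Xm, dX_Xm, dY_Xm]; ring
theorem DD_Yp : DD Yp = - (Ym - Yp) * Yp := by
  rw [DD_apply, dw_Yp, dv_Yp, dX_Yp, dY_Yp]; ring
theorem DD_Ym : DD Ym = (Ym - Yp) * Ym := by
  rw [DD_apply, dw_Ym, dv_Ym, dX_Ym, dY_Ym]; ring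

theorem Lg_vw : Lg DD (1 + vv * ww) (vv - ww) := by
  unfold Lg
  rw [map_add, Derivation.leibniz, DD_w, DD_v]
  simp only [Derivation.map_one_eq_zero, smul_eq_mul]; ring
theorem Lg_w : Lg DD (1 - ww ^ 2) (- 2 * ww) := by
  unfold Lg
  rw [map_sub, pow_two, Derivation.leibniz, DD_w]
  simp only [Derivation.map_one_eq_zero, smul_eq_mul]; ring
theorem Lg_vXp : Lg DD (1 - vv * Xp) (Xp + vv) := by
  unfold Lg
  rw [map_sub, Derivation.leibniz, DD_v, DD_Xp]
  simp only [Derivation.map_one_eq_zero, smul_eq_mul]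
  linear_combination (vv) * Xpm
theorem Lg_vXm : Lg DD (1 - vv * Xm) (Xm + vv) := by
  unfold Lg
  rw [map_sub, Derivation.leibniz, DD_v, DD_Xm]
  simp only [Derivation.map_one_eq_zero, smul_eq_mul]
  linear_combination (vv) * Xpm
theorem Lg_vYp : Lg DD (1 - vv * Yp) (Yp + vv) := by
  unfold Lg
  rw [map_sub, Derivation.leibniz, DD_v, DD_Yp]
  simp only [Derivation.map_one_eq_zero, smul_eq_mul]
  linear_combination (vv) * Ypm
theorem Lg_vYm : Lg DD (1 - vv * Ym) (Ym + vv) := by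
  unfold Lg
  rw [map_sub, Derivation.leibniz, DD_v, DD_Ym]
  simp only [Derivation.map_one_eq_zero, smul_eq_mul]
  linear_combination (vv) * Ypm
theorem Lg_wXp : Lg DD (1 + ww * Xp) (Xp - ww) := by
  unfold Lg
  rw [map_add, Derivation.leibniz, DD_w, DD_Xp]
  simp only [Derivation.map_one_eq_zero, smul_eq_mul]
  linear_combination (- ww) * Xpm
theorem Lg_wXm : Lg DD (1 + ww * Xm) (Xm - ww) := by
  unfold Lg
  rw [map_add, Derivation.leibniz, DD_w, DD_Xm]
  simp only [Derivation.map_one_eq_zero, smul_eq_mul]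
  linear_combination (- ww) * Xpm
theorem Lg_wYp : Lg DD (1 + ww * Yp) (Yp - ww) := by
  unfold Lg
  rw [map_add, Derivation.leibniz, DD_w, DD_Yp]
  simp only [Derivation.map_one_eq_zero, smul_eq_mul]
  linear_combination (- ww) * Ypm
theorem Lg_wYm : Lg DD (1 + ww * Ym) (Ym - ww) := by
  unfold Lg
  rw [map_add, Derivation.leibniz, DD_w, DD_Ym]
  simp only [Derivation.map_one_eq_zero, smul_eq_mul]
  linear_combination (- ww) * Ypm

theorem Lg_mono (a b : ℤ) : Lg DD (io (sg a b 1))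
    (io (sg 0 0 (a : ℚ)) * (Xp - Xm) + io (sg 0 0 (b : ℚ)) * (Yp - Ym)) := by
  unfold Lg
  rw [DD_apply, dw_io, dv_io, dX_io, dY_io, eul_single, eul_single]
  have h1 : io (AddMonoidAlgebra.single ((a, b) : ℤ × ℤ) (1 * c1 (a, b))) = io (sg 0 0 (a : ℚ)) * io (sg a b 1) := by
    rw [← io_mul, AddMonoidAlgebra.single_mul_single]; simp [c1]
  have h2 : io (AddMonoidAlgebra.single ((a, b) : ℤ × ℤ) (1 * c2 (a, b))) = io (sg 0 0 (b : ℚ)) * io (sg a b 1) := by
    rw [← io_mul, AddMonoidAlgebra.single_mul_single]; simp [c2]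
  rw [h1, h2]; ring

/-- geometric series in v with ratio a -/
noncomputable def gg (a : A) : A1 := PowerSeries.mk (fun k => a ^ k)

theorem gg_mul (a : A) : gg a * (1 - X * C a) = 1 := by
  ext n
  rw [mul_sub, mul_one, map_sub, show gg a * (X * C a) = X * (gg a * C a) by ring]
  rcases n with _ | n
  · simp [gg]
  · rw [coeff_succ_X_mul, coeff_mul_C]
    simp [gg, pow_succ, coeff_one]

noncomputable def gB (a : A) : B := C (gg a)

theorem gB_mul (a : A) : gB a * (1 - vv * io a) = 1 := by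
  have := congrArg (C : A1 →+* B) (gg_mul a)
  simpa [gB, vv, io] using this

/-- the inverse of 1 - w^2 -/
noncomputable def gw : B := PowerSeries.map (algebraMap ℚ A1) ((1 - X ^ 2 : ℚ⟦X⟧)⁻¹)

theorem gq_mul : ((1 - X ^ 2 : ℚ⟦X⟧)⁻¹) * (1 - X ^ 2) = 1 := by
  apply PowerSeries.inv_mul_cancel
  simp

theorem gw_mul : gw * (1 - ww ^ 2) = 1 := by
  have h : PowerSeries.map (algebraMap ℚ A1) (1 - X ^ 2) = 1 - ww ^ 2 := by
    rw [map_sub, map_one, map_pow, PowerSeries.map_X]; rfl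
  rw [← h, gw, ← map_mul, gq_mul, map_one]

/-- the master series -/
noncomputable def EE (N : ℕ) (al be : ℤ) (e1 e2 e3 e4 : ℕ) : B :=
  io (sg al be 1) * (1 + vv * ww) ^ (4 * N + 4) * gw ^ (6 * N + 2) *
    gB (sg 1 0 1) ^ (e1 + 1) * gB (sg (-1) 0 1) ^ (e2 + 1) *
    gB (sg 0 1 1) ^ (e3 + 1) * gB (sg 0 (-1) 1) ^ (e4 + 1) *
    ((1 + ww * Xp) * (1 + ww * Xm) * (1 + ww * Yp) * (1 + ww * Ym)) ^ (2 * N)

theorem io_nat (n : ℕ) : io (sg 0 0 (n : ℚ)) = (n : B) := by
  have h : (sg 0 0 (n : ℚ)) = ((n : ℕ) : A) := by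
    rw [AddMonoidAlgebra.natCast_def]; rfl
  rw [h]; simp [io]

theorem io_int (n : ℤ) : io (sg 0 0 (n : ℚ)) = (n : B) := by
  have h : (sg 0 0 (n : ℚ)) = ((n : ℤ) : A) := by
    rw [AddMonoidAlgebra.intCast_def]; rfl
  rw [h]; simp [io]

theorem Lg_EE (N : ℕ) (al be : ℤ) (e1 e2 e3 e4 : ℕ)
    (h1 : (e1 : ℤ) = N + al) (h2 : (e2 : ℤ) = N - al) (h3 : (e3 : ℤ) = N + be) (h4 : (e4 : ℤ) = N - be) :
    Lg DD (EE N al be e1 e2 e3 e4) ((N - 1) * (Xp + Xm + Yp + Ym)) := by
  have H := (((((((Lg_mono al be).mul (Lg_vw.pow (4 * N + 4))).mul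
    ((Lg_w.inv gw_mul).pow (6 * N + 2))).mul
    ((Lg_vXp.inv (gB_mul _)).pow (e1 + 1))).mul
    ((Lg_vXm.inv (gB_mul _)).pow (e2 + 1))).mul
    ((Lg_vYp.inv (gB_mul _)).pow (e3 + 1))).mul
    ((Lg_vYm.inv (gB_mul _)).pow (e4 + 1))).mul
    ((((Lg_wXp.mul Lg_wXm).mul Lg_wYp).mul Lg_wYm).pow (2 * N))
  have k1 : (e1 : B) = N + al := by exact_mod_cast congrArg (Int.cast : ℤ → B) h1
  have k2 : (e2 : B) = N - al := by exact_mod_cast congrArg (Int.cast : ℤ → B) h2
  have k3 : (e3 : B) = N + be := by exact_mod_cast congrArg (Int.cast : ℤ → B) h3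
  have k4 : (e4 : B) = N - be := by exact_mod_cast congrArg (Int.cast : ℤ → B) h4
  unfold EE
  convert H using 1
  rw [io_int, io_int]
  push_cast
  rw [k1, k2, k3, k4]
  ring

/-! ### The functional -/

/-- the polynomial weight -/
noncomputable def qq (N : ℕ) (s : ℤ) : ℚ :=
  (∏ l ∈ Finset.range (N - 1), ((s : ℚ) + N - 2 * ((l : ℚ) + 1))) / (2 ^ (N - 1) * ((N - 1).factorial : ℚ))

theorem q_fac (N : ℕ) (hN : 1 ≤ N) (s : ℤ) : ∃ g : ℚ, N = 1 ∧ qq N (s + 1) = 1 ∧ qq N (s - 1) = 1 ∨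
    (qq N (s + 1) = (s + ((N : ℚ) - 1)) * g ∧ qq N (s - 1) = (s - ((N : ℚ) - 1)) * g) := by
  obtain ⟨n, rfl⟩ : ∃ n, N = n + 1 := ⟨N - 1, by omega⟩
  rcases n with _ | n
  · exact ⟨0, Or.inl ⟨rfl, by simp [qq], by simp [qq]⟩⟩
  · refine ⟨(∏ l ∈ Finset.range n, ((s : ℚ) + n - 2 * (l : ℚ) - 1)) / (2 ^ (n + 1) * ((n + 1).factorial : ℚ)), Or.inr ⟨?_, ?_⟩⟩
    · unfold qq
      simp only [Nat.add_sub_cancel]
      rw [Finset.prod_range_succ', mul_div_assoc']
      congr 1
      rw [mul_comm]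
      congr 1
      · push_cast; ring
      · apply Finset.prod_congr rfl
        intro l _
        push_cast; ring
    · unfold qq
      simp only [Nat.add_sub_cancel]
      rw [Finset.prod_range_succ, mul_div_assoc']
      congr 1
      rw [mul_comm]
      congr 1
      · push_cast; ring
      · apply Finset.prod_congr rfl
        intro l _
        push_cast; ring

/-- weight of the monomial (a, b) -/
noncomputable def pw (N : ℕ) (g : ℤ × ℤ) : ℚ := qq N (g.1 + g.2) * qq N (g.1 - g.2)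

theorem pw_rel (N : ℕ) (hN : 1 ≤ N) (a b : ℤ) :
    (a : ℚ) * (pw N (a - 1, b) - pw N (a + 1, b)) + (b : ℚ) * (pw N (a, b - 1) - pw N (a, b + 1)) +
      ((N : ℚ) - 1) * (pw N (a + 1, b) + pw N (a - 1, b) + pw N (a, b + 1) + pw N (a, b - 1)) = 0 := by
  obtain ⟨g, hg⟩ := q_fac N hN (a + b)
  obtain ⟨h, hh⟩ := q_fac N hN (a - b)
  unfold pw
  simp only
  rw [show a - 1 + b = a + b - 1 by ring, show a - 1 - b = a - b - 1 by ring,
    show a + 1 + b = a + b + 1 by ring, show a + 1 - b = a - b + 1 by ring,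
    show a + (b - 1) = a + b - 1 by ring, show a - (b - 1) = a - b + 1 by ring,
    show a + (b + 1) = a + b + 1 by ring, show a - (b + 1) = a - b - 1 by ring]
  rcases hg with ⟨rfl, g1, g2⟩ | ⟨g1, g2⟩
  · rcases hh with ⟨_, h1, h2⟩ | ⟨h1, h2⟩
    · rw [g1, g2, h1, h2]; norm_num
    · rw [g1, g2, h1, h2]; push_cast; ring
  · rcases hh with ⟨rfl, h1, h2⟩ | ⟨h1, h2⟩
    · rw [g1, g2, h1, h2]; push_cast; ring
    · rw [g1, g2, h1, h2]; push_cast; ring

noncomputable def Ps (N : ℕ) : A →ₗ[ℚ] ℚ := lin (pw N)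

theorem Ps_single (N : ℕ) (a b : ℤ) (c : ℚ) : Ps N (sg a b c) = c * pw N (a, b) := by
  unfold Ps; rw [lin_single]; rfl

theorem factA (N : ℕ) (hN : 1 ≤ N) (f : A) :
    Ps N ((sg (-1) 0 1 - sg 1 0 1) * eul c1 f + (sg 0 (-1) 1 - sg 0 1 1) * eul c2 f +
      sg 0 0 ((N : ℚ) - 1) * ((sg 1 0 1 + sg (-1) 0 1 + sg 0 1 1 + sg 0 (-1) 1) * f)) = 0 := by
  induction f using AddMonoidAlgebra.induction_linear with
  | zero => simp
  | add f g hf hg =>
    simp only [map_add, mul_add] at hf hg ⊢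
    linear_combination hf + hg
  | single g c =>
    obtain ⟨a, b⟩ := g
    simp only [eul_single, sub_mul, add_mul, mul_add, AddMonoidAlgebra.single_mul_single, map_add, map_sub]
    have h1 : c1 (a, b) = (a : ℚ) := by simp [c1]
    have h2 : c2 (a, b) = (b : ℚ) := by simp [c2]
    simp only [Prod.mk_add_mk, Ps_single, h1, h2]
    have := pw_rel N hN a b
    rw [show (-1 : ℤ) + a = a - 1 by ring, show (1 : ℤ) + a = a + 1 by ring,
      show (0 : ℤ) + b = b by ring, show (0 : ℤ) + a = a by ring, show (-1 : ℤ) + b = b - 1 by ring,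
      show (1 : ℤ) + b = b + 1 by ring]
    simp only [zero_add]
    linear_combination c * this

/-! ### Coefficients -/

/-- coefficient of v^m w^n -/
noncomputable def cc (m n : ℕ) (F : B) : A := coeff m (coeff n F)

theorem cc_add (m n : ℕ) (F G : B) : cc m n (F + G) = cc m n F + cc m n G := by simp [cc]
theorem cc_sub (m n : ℕ) (F G : B) : cc m n (F - G) = cc m n F - cc m n G := by simp [cc]
theorem cc_io (m n : ℕ) (a : A) (F : B) : cc m n (io a * F) = a * cc m n F := by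
  simp only [cc, io]
  rw [coeff_C_mul, coeff_C_mul]
theorem cc_ww (m n : ℕ) (F : B) : cc m n (ww ^ 2 * F) = if 2 ≤ n then cc m (n - 2) F else 0 := by
  simp only [cc, ww]
  rw [coeff_X_pow_mul']
  split_ifs <;> simp
theorem cc_vv (m n : ℕ) (F : B) : cc m n (vv ^ 2 * F) = if 2 ≤ m then cc (m - 2) n F else 0 := by
  simp only [cc, vv]
  rw [← map_pow, coeff_C_mul, coeff_X_pow_mul']
theorem cc_dw (m n : ℕ) (F : B) : cc m n (dw F) = (((n : ℚ) + 1)) • cc m (n + 1) F := by
  simp only [cc, dw]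
  rw [coeff_derQ]
  have : ((n : A1) + 1) = ((n + 1 : ℕ) : A1) := by push_cast; rfl
  rw [this, mul_comm, ← nsmul_eq_mul, map_nsmul]
  have h2 : ((n : ℚ) + 1) = ((n + 1 : ℕ) : ℚ) := by push_cast; rfl
  rw [h2, Nat.cast_smul_eq_nsmul]
theorem cc_dv (m n : ℕ) (F : B) : cc m n (dv F) = (((m : ℚ) + 1)) • cc (m + 1) n F := by
  simp only [cc, dv]
  rw [coeff_mapD, coeff_derQ]
  have : ((m : A) + 1) = ((m + 1 : ℕ) : A) := by push_cast; rfl
  rw [this, mul_comm, ← nsmul_eq_mul]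
  have h2 : ((m : ℚ) + 1) = ((m + 1 : ℕ) : ℚ) := by push_cast; rfl
  rw [h2, Nat.cast_smul_eq_nsmul]
theorem cc_dX (m n : ℕ) (F : B) : cc m n (dX F) = eul c1 (cc m n F) := by
  simp only [cc, dX]
  rw [coeff_mapD, coeff_mapD]
theorem cc_dY (m n : ℕ) (F : B) : cc m n (dY F) = eul c2 (cc m n F) := by
  simp only [cc, dY]
  rw [coeff_mapD, coeff_mapD]

/-- An array satisfying the recurrence of the flow. -/
def Rec (f : ℕ → ℕ → ℚ) : Prop := ∀ m n : ℕ,
  ((n : ℚ) + 1) * f m (n + 1) - (if 2 ≤ n then ((n : ℚ) - 1) * f m (n - 1) else 0) =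
  ((m : ℚ) + 1) * f (m + 1) n - (if 2 ≤ m then ((m : ℚ) - 1) * f (m - 1) n else 0)

theorem rec_of_Lg (N : ℕ) (hN : 1 ≤ N) (E : B) (hE : Lg DD E ((N - 1) * (Xp + Xm + Yp + Ym))) :
    Rec (fun m n => Ps N (cc m n E)) := by
  intro m n
  unfold Lg at hE
  rw [DD_apply] at hE
  have hN' : ((N : B) - 1) = io (sg 0 0 ((N : ℚ) - 1)) := by
    have := io_int ((N : ℤ) - 1)
    push_cast at this
    rw [this]
  have h1 : dw E - ww ^ 2 * dw E - (dv E - vv ^ 2 * dv E) =
      io (sg (-1) 0 1 - sg 1 0 1) * dX E + io (sg 0 (-1) 1 - sg 0 1 1) * dY E +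
      io (sg 0 0 ((N : ℚ) - 1) * (sg 1 0 1 + sg (-1) 0 1 + sg 0 1 1 + sg 0 (-1) 1)) * E := by
    rw [io_sub, io_sub, io_mul, io_add, io_add, io_add, ← hN']
    have e1 : io (sg 1 0 1) = Xp := rfl
    have e2 : io (sg (-1) 0 1) = Xm := rfl
    have e3 : io (sg 0 1 1) = Yp := rfl
    have e4 : io (sg 0 (-1) 1) = Ym := rfl
    rw [e1, e2, e3, e4]
    linear_combination hE
  have h2 := congrArg (fun F => Ps N (cc m n F)) h1
  simp only [cc_add, cc_sub, cc_io, cc_dw, cc_dv, cc_dX, cc_dY, cc_ww, cc_vv] at h2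
  have h3 := factA N hN (cc m n E)
  rw [mul_assoc (sg 0 0 ((N : ℚ) - 1))] at h2
  rw [h3] at h2
  simp only [map_sub, map_smul, smul_eq_mul] at h2
  have h4 : Ps N (if 2 ≤ n then ((((n - 2 : ℕ) : ℚ) + 1)) • cc m (n - 2 + 1) E else 0) =
      (if 2 ≤ n then ((n : ℚ) - 1) * Ps N (cc m (n - 1) E) else 0) := by
    split_ifs with h
    · rw [map_smul, smul_eq_mul]
      obtain ⟨k, rfl⟩ : ∃ k, n = k + 2 := ⟨n - 2, by omega⟩
      simp only [Nat.add_sub_cancel]
      have : k + 2 - 1 = k + 1 := by omega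
      rw [this]; push_cast; ring
    · simp
  have h5 : Ps N (if 2 ≤ m then ((((m - 2 : ℕ) : ℚ) + 1)) • cc (m - 2 + 1) n E else 0) =
      (if 2 ≤ m then ((m : ℚ) - 1) * Ps N (cc (m - 1) n E) else 0) := by
    split_ifs with h
    · rw [map_smul, smul_eq_mul]
      obtain ⟨k, rfl⟩ : ∃ k, m = k + 2 := ⟨m - 2, by omega⟩
      simp only [Nat.add_sub_cancel]
      have : k + 2 - 1 = k + 1 := by omega
      rw [this]; push_cast; ring
    · simp
  rw [h4, h5] at h2
  linear_combination h2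

theorem rec_symm (f : ℕ → ℕ → ℚ) (hf : Rec f) : ∀ s m n : ℕ, m + n = s → f m n = f n m := by
  intro s
  induction s using Nat.strong_induction_on with
  | _ s ih =>
    have step : ∀ m n : ℕ, m + n + 1 = s →
        ((n : ℚ) + 1) * (f m (n + 1) - f (n + 1) m) = ((m : ℚ) + 1) * (f (m + 1) n - f n (m + 1)) := by
      intro m n h
      have a1 := hf m n
      have a2 := hf n m
      have b1 : (if 2 ≤ n then ((n : ℚ) - 1) * f m (n - 1) else 0) =
          (if 2 ≤ n then ((n : ℚ) - 1) * f (n - 1) m else 0) := by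
        split_ifs with hn
        · rw [ih (m + (n - 1)) (by omega) m (n - 1) rfl]
        · rfl
      have b2 : (if 2 ≤ m then ((m : ℚ) - 1) * f (m - 1) n else 0) =
          (if 2 ≤ m then ((m : ℚ) - 1) * f n (m - 1) else 0) := by
        split_ifs with hm
        · rw [ih ((m - 1) + n) (by omega) (m - 1) n rfl]
        · rfl
      rw [b1, b2] at a1
      linear_combination a1 + a2
    -- d m n = choose * d s 0
    have key : ∀ n m : ℕ, m + n = s → f m n - f n m = (s.choose n : ℚ) * (f s 0 - f 0 s) := by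
      intro n
      induction n with
      | zero => intro m h; simp at h; subst h; simp
      | succ n ihn =>
        intro m h
        have h1 := step m n (by omega)
        have h2 := ihn (m + 1) (by omega)
        rw [h2] at h1
        have h3 : ((s.choose (n + 1) : ℕ) : ℚ) * ((n : ℚ) + 1) = (s.choose n : ℚ) * ((m : ℚ) + 1) := by
          have := Nat.choose_succ_right_eq s n
          have h4 : s - n = m + 1 := by omega
          rw [h4] at this
          exact_mod_cast this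
        have hn : ((n : ℚ) + 1) ≠ 0 := by positivity
        apply mul_left_cancel₀ hn
        rw [h1]
        linear_combination -(f s 0 - f 0 s) * h3
    have h0 : f s 0 - f 0 s = 0 := by
      have := key s 0 (by omega)
      simp at this
      linarith
    intro m n h
    have := key n m h
    rw [h0] at this
    linarith

/-! ### Extraction of the two boundary series -/

theorem gg_eq (a : A) : gg a = PowerSeries.rescale a (PowerSeries.mk 1) := by
  ext n
  rw [gg, coeff_mk, PowerSeries.coeff_rescale, PowerSeries.coeff_mk]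
  simp

theorem coeff_gg_pow (a : A) (e n : ℕ) :
    coeff n (gg a ^ (e + 1)) = ((n + e).choose e : A) * a ^ n := by
  rw [gg_eq, ← map_pow, PowerSeries.mk_one_pow_eq_mk_choose_add,
    PowerSeries.coeff_rescale, PowerSeries.coeff_mk, mul_comm, add_comm e n]

theorem coeff_one_add_pow (a : A) (r n : ℕ) :
    coeff n ((1 + X * C a : A1) ^ r) = (r.choose n : A) * a ^ n := by
  have h : (1 + X * C a : A1) = PowerSeries.rescale a (1 + X) := by
    rw [map_add, map_one, PowerSeries.rescale_X, mul_comm]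
  have h2 : coeff n ((1 + X : A1) ^ r) = (r.choose n : A) := by
    have : ((1 + X : A1) ^ r) = (((1 + Polynomial.X : Polynomial A) ^ r : Polynomial A) : A1) := by
      simp
    rw [this, Polynomial.coeff_coe, Polynomial.coeff_one_add_X_pow]
  rw [h, ← map_pow, PowerSeries.coeff_rescale, h2, mul_comm]

theorem coeff_mul4 (f : Fin 4 → A1) (s : ℕ) :
    coeff s (f 0 * f 1 * f 2 * f 3)
      = ∑ x ∈ Finset.Nat.antidiagonalTuple 4 s, coeff (x 0) (f 0)
        * coeff (x 1) (f 1) * coeff (x 2) (f 2) * coeff (x 3) (f 3) := by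
  rw [← Fin.prod_univ_four, PowerSeries.coeff_prod]
  refine Finset.sum_bij' (fun l _ => (l : Fin 4 → ℕ)) (fun x _ => Finsupp.equivFunOnFinite.symm x)
    ?_ ?_ ?_ ?_ ?_
  · intro l hl
    rw [Finset.mem_finsuppAntidiag] at hl
    rw [Finset.Nat.mem_antidiagonalTuple]
    exact hl.1
  · intro x hx
    rw [Finset.mem_finsuppAntidiag]
    rw [Finset.Nat.mem_antidiagonalTuple] at hx
    exact ⟨by simpa using hx, by simp⟩
  · intro l _; simp
  · intro x _; simp
  · intro l _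
    rw [Fin.prod_univ_four]

theorem sg_pow (a b : ℤ) (n : ℕ) : (sg a b 1) ^ n = sg (n * a) (n * b) 1 := by
  induction n with
  | zero => simp; rfl
  | succ n ih =>
    rw [pow_succ, ih, AddMonoidAlgebra.single_mul_single]
    simp only [mul_one, Prod.mk_add_mk]
    congr 2
    · push_cast; ring
    · push_cast; ring

theorem natA (n : ℕ) : ((n : ℕ) : A) = sg 0 0 (n : ℚ) := by
  rw [AddMonoidAlgebra.natCast_def]; rfl

/-- evaluation of the functional on a product of monomials with natural coefficients -/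
theorem Ps_term (N : ℕ) (al be : ℤ) (c0 c1' c2' c3 y0 y1 y2 y3 : ℕ) :
    Ps N (sg al be 1 * (((c0 : ℕ) : A) * (sg 1 0 1) ^ y0 * (((c1' : ℕ) : A) * (sg (-1) 0 1) ^ y1) *
      (((c2' : ℕ) : A) * (sg 0 1 1) ^ y2) * (((c3 : ℕ) : A) * (sg 0 (-1) 1) ^ y3))) =
    (c0 : ℚ) * c1' * c2' * c3 * (qq N (al + be + (y0 - y1 + y2 - y3)) * qq N (al - be + (y0 - y1 - y2 + y3))) := by
  rw [sg_pow, sg_pow, sg_pow, sg_pow, natA, natA, natA, natA]
  simp only [AddMonoidAlgebra.single_mul_single, Prod.mk_add_mk]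
  rw [Ps_single]
  unfold pw
  simp only [one_mul, mul_one]
  congr 2
  · congr 1; ring
  · congr 1; ring

theorem bdry0 (N : ℕ) (al be : ℤ) (e1 e2 e3 e4 k : ℕ) :
    Ps N (cc k 0 (EE N al be e1 e2 e3 e4)) =
    ∑ x ∈ Finset.Nat.antidiagonalTuple 4 k,
      ((x 0 + e1).choose e1 : ℚ) * ((x 1 + e2).choose e2 : ℚ) * ((x 2 + e3).choose e3 : ℚ) *
        ((x 3 + e4).choose e4 : ℚ) *
        (qq N (al + be + (x 0 - x 1 + x 2 - x 3)) * qq N (al - be + (x 0 - x 1 - x 2 + x 3))) := by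
  have h1 : constantCoeff (EE N al be e1 e2 e3 e4) =
      C (sg al be 1) * (gg (sg 1 0 1) ^ (e1 + 1) * gg (sg (-1) 0 1) ^ (e2 + 1) *
        gg (sg 0 1 1) ^ (e3 + 1) * gg (sg 0 (-1) 1) ^ (e4 + 1)) := by
    have hg : constantCoeff gw = (1 : A1) := by
      rw [gw, ← coeff_zero_eq_constantCoeff_apply, coeff_map, coeff_zero_eq_constantCoeff_apply]
      simp
    unfold EE
    simp only [map_mul, map_pow, map_add, map_one, hg, one_pow, mul_one]
    have hw : constantCoeff ww = (0 : A1) := by simp [ww]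
    rw [hw]
    simp only [mul_zero, zero_mul, add_zero, one_pow, mul_one, gB, io, constantCoeff_C]
    ring
  have h2 : cc k 0 (EE N al be e1 e2 e3 e4) = coeff k (constantCoeff (EE N al be e1 e2 e3 e4)) := by
    rw [cc, coeff_zero_eq_constantCoeff_apply]
  rw [h2, h1, coeff_C_mul]
  have h3 := coeff_mul4 ![gg (sg 1 0 1) ^ (e1 + 1), gg (sg (-1) 0 1) ^ (e2 + 1),
    gg (sg 0 1 1) ^ (e3 + 1), gg (sg 0 (-1) 1) ^ (e4 + 1)] k
  simp only [Matrix.cons_val_zero, Matrix.cons_val_one, Matrix.cons_val] at h3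
  rw [h3, Finset.mul_sum, map_sum]
  refine Finset.sum_congr rfl fun x _ => ?_
  rw [coeff_gg_pow, coeff_gg_pow, coeff_gg_pow, coeff_gg_pow]
  exact Ps_term N al be _ _ _ _ _ _ _ _

/-- doubling of exponents -/
noncomputable def dbl (f : ℚ⟦X⟧) : ℚ⟦X⟧ := PowerSeries.mk (fun n => if n % 2 = 0 then coeff (n / 2) f else 0)

theorem dbl_mul (f : ℚ⟦X⟧) : dbl (f * (1 - X)) = dbl f * (1 - X ^ 2) := by
  ext n
  rw [mul_sub, mul_one, mul_sub, mul_one, map_sub, mul_comm (dbl f), coeff_X_pow_mul']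
  unfold dbl
  simp only [coeff_mk, map_sub]
  rcases n with _ | _ | n
  · simp
  · simp
  · have h1 : (n + 1 + 1) % 2 = n % 2 := by omega
    have h2 : (n + 1 + 1) / 2 = n / 2 + 1 := by omega
    have h3 : n + 1 + 1 - 2 = n := by omega
    have h4 : 2 ≤ n + 1 + 1 := by omega
    rw [h1, h2, h3, coeff_succ_mul_X, if_pos h4]
    split_ifs <;> ring

theorem dbl_pow (M : ℕ) : dbl ((PowerSeries.mk 1 : ℚ⟦X⟧) ^ M) * (1 - X ^ 2) ^ M = 1 := by
  induction M with
  | zero =>
    simp only [pow_zero, mul_one]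
    ext n
    unfold dbl
    simp only [coeff_mk, coeff_one]
    by_cases h : n = 0
    · simp [h]
    · by_cases h2 : n % 2 = 0
      · have : n / 2 ≠ 0 := by omega
        simp [h, h2, this]
      · simp [h, h2]
  | succ M ih =>
    have h := dbl_mul ((PowerSeries.mk 1 : ℚ⟦X⟧) ^ (M + 1))
    have h2 : (PowerSeries.mk 1 : ℚ⟦X⟧) ^ (M + 1) * (1 - X) = (PowerSeries.mk 1 : ℚ⟦X⟧) ^ M := by
      rw [pow_succ, mul_assoc, PowerSeries.mk_one_mul_one_sub_eq_one, mul_one]
    rw [h2] at h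
    rw [pow_succ' (1 - X ^ 2 : ℚ⟦X⟧), ← mul_assoc, ← h, ih]

theorem coeff_inv_pow (M n : ℕ) : coeff n (((1 - X ^ 2 : ℚ⟦X⟧)⁻¹) ^ (M + 1)) =
    if n % 2 = 0 then ((n / 2 + M).choose M : ℚ) else 0 := by
  have h : ((1 - X ^ 2 : ℚ⟦X⟧)⁻¹) ^ (M + 1) = dbl ((PowerSeries.mk 1 : ℚ⟦X⟧) ^ (M + 1)) := by
    have h1 := dbl_pow (M + 1)
    have h2 : ((1 - X ^ 2 : ℚ⟦X⟧)⁻¹) ^ (M + 1) * (1 - X ^ 2) ^ (M + 1) = 1 := by
      rw [← mul_pow, gq_mul, one_pow]
    calc ((1 - X ^ 2 : ℚ⟦X⟧)⁻¹) ^ (M + 1)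
        = ((1 - X ^ 2 : ℚ⟦X⟧)⁻¹) ^ (M + 1) * (dbl ((PowerSeries.mk 1 : ℚ⟦X⟧) ^ (M + 1)) * (1 - X ^ 2) ^ (M + 1)) := by
          rw [h1, mul_one]
      _ = dbl ((PowerSeries.mk 1 : ℚ⟦X⟧) ^ (M + 1)) * (((1 - X ^ 2 : ℚ⟦X⟧)⁻¹) ^ (M + 1) * (1 - X ^ 2) ^ (M + 1)) := by ring
      _ = _ := by rw [h2, mul_one]
  rw [h, dbl, coeff_mk, PowerSeries.mk_one_pow_eq_mk_choose_add, coeff_mk, add_comm M]

/-- the polynomial side, one coefficient -/
noncomputable def HH (N : ℕ) (al be : ℤ) : A1 :=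
  C (sg al be 1) * ((1 + X * C (sg 1 0 1)) ^ (2 * N) * (1 + X * C (sg (-1) 0 1)) ^ (2 * N) *
    (1 + X * C (sg 0 1 1)) ^ (2 * N) * (1 + X * C (sg 0 (-1) 1)) ^ (2 * N))

theorem Ps_HH (N : ℕ) (al be : ℤ) (k : ℕ) :
    Ps N (coeff k (HH N al be)) =
    ∑ y ∈ Finset.Nat.antidiagonalTuple 4 k,
      ((2 * N).choose (y 0) : ℚ) * ((2 * N).choose (y 1) : ℚ) * ((2 * N).choose (y 2) : ℚ) *
        ((2 * N).choose (y 3) : ℚ) *
        (qq N (al + be + (y 0 - y 1 + y 2 - y 3)) * qq N (al - be + (y 0 - y 1 - y 2 + y 3))) := by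
  unfold HH
  rw [coeff_C_mul]
  have h3 := coeff_mul4 ![(1 + X * C (sg 1 0 1)) ^ (2 * N), (1 + X * C (sg (-1) 0 1)) ^ (2 * N),
    (1 + X * C (sg 0 1 1)) ^ (2 * N), (1 + X * C (sg 0 (-1) 1)) ^ (2 * N)] k
  simp only [Matrix.cons_val_zero, Matrix.cons_val_one, Matrix.cons_val] at h3
  rw [h3, Finset.mul_sum, map_sum]
  refine Finset.sum_congr rfl fun x _ => ?_
  rw [coeff_one_add_pow, coeff_one_add_pow, coeff_one_add_pow, coeff_one_add_pow]
  exact Ps_term N al be _ _ _ _ _ _ _ _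

theorem bdry1 (N : ℕ) (al be : ℤ) (e1 e2 e3 e4 k : ℕ) :
    Ps N (cc 0 k (EE N al be e1 e2 e3 e4)) =
    ∑ m ∈ Finset.range (k / 2 + 1), ((m + (6 * N + 1)).choose (6 * N + 1) : ℚ) *
      Ps N (coeff (k - 2 * m) (HH N al be)) := by
  have h1 : PowerSeries.map constantCoeff (EE N al be e1 e2 e3 e4) =
      PowerSeries.map (algebraMap ℚ A) (((1 - X ^ 2 : ℚ⟦X⟧)⁻¹) ^ (6 * N + 2)) * HH N al be := by
    have hv : PowerSeries.map constantCoeff vv = (0 : A1) := by
      rw [vv, PowerSeries.map_C]; simp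
    have hw : PowerSeries.map constantCoeff ww = (X : A1) := by
      rw [ww, PowerSeries.map_X]
    have hio : ∀ a : A, PowerSeries.map constantCoeff (io a) = (C a : A1) := by
      intro a; rw [io, PowerSeries.map_C]; simp
    have hgB : ∀ a : A, PowerSeries.map constantCoeff (gB a) = (1 : A1) := by
      intro a
      rw [gB, PowerSeries.map_C]
      have : constantCoeff (gg a) = (1 : A) := by
        rw [← coeff_zero_eq_constantCoeff_apply, gg, coeff_mk, pow_zero]
      rw [this, map_one]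
    have hgw : PowerSeries.map constantCoeff gw = PowerSeries.map (algebraMap ℚ A) ((1 - X ^ 2 : ℚ⟦X⟧)⁻¹) := by
      ext n
      rw [gw, coeff_map, coeff_map, coeff_map]
      congr 1
    unfold EE
    simp only [map_mul, map_pow, map_add, map_one, hv, hw, hio, hgB, hgw, Xp, Xm, Yp, Ym, mul_pow]
    unfold HH
    ring
  have h2 : cc 0 k (EE N al be e1 e2 e3 e4) = coeff k (PowerSeries.map constantCoeff (EE N al be e1 e2 e3 e4)) := by
    rw [cc, coeff_map, coeff_zero_eq_constantCoeff_apply]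
  rw [h2, h1, coeff_mul, map_sum]
  have h3 : ∀ x ∈ Finset.HasAntidiagonal.antidiagonal k,
      Ps N (coeff x.1 (PowerSeries.map (algebraMap ℚ A) (((1 - X ^ 2 : ℚ⟦X⟧)⁻¹) ^ (6 * N + 2))) * coeff x.2 (HH N al be)) =
      (if x.1 % 2 = 0 then ((x.1 / 2 + (6 * N + 1)).choose (6 * N + 1) : ℚ) else 0) * Ps N (coeff x.2 (HH N al be)) := by
    intro x _
    rw [coeff_map, ← Algebra.smul_def, map_smul, smul_eq_mul, coeff_inv_pow]
  rw [Finset.sum_congr rfl h3, Finset.Nat.sum_antidiagonal_eq_sum_range_succ_mk]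
  simp only
  have h4 : ∀ (F : ℕ → ℚ) (k : ℕ), ∑ i ∈ Finset.range (k + 1), (if i % 2 = 0 then F (i / 2) else 0) =
      ∑ m ∈ Finset.range (k / 2 + 1), F m := by
    intro F k
    induction k with
    | zero => simp
    | succ k ih =>
      rw [Finset.sum_range_succ, ih]
      by_cases h : (k + 1) % 2 = 0
      · rw [if_pos h]
        have : (k + 1) / 2 = k / 2 + 1 := by omega
        rw [this, Finset.sum_range_succ _ (k / 2 + 1)]
      · rw [if_neg h]
        have : (k + 1) / 2 = k / 2 := by omega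
        rw [this, add_zero]
  rw [← h4 (fun m => ((m + (6 * N + 1)).choose (6 * N + 1) : ℚ) * Ps N (coeff (k - 2 * m) (HH N al be))) k]
  refine Finset.sum_congr rfl fun i _ => ?_
  by_cases h : i % 2 = 0
  · rw [if_pos h, if_pos h]
    have : 2 * (i / 2) = i := by omega
    rw [this]
  · rw [if_neg h, if_neg h, zero_mul]

theorem MIqq (N : ℕ) (hN : 1 ≤ N) (al be : ℤ) (e1 e2 e3 e4 : ℕ)
    (h1 : (e1 : ℤ) = N + al) (h2 : (e2 : ℤ) = N - al) (h3 : (e3 : ℤ) = N + be) (h4 : (e4 : ℤ) = N - be)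
    (k : ℕ) :
    ∑ x ∈ Finset.Nat.antidiagonalTuple 4 k,
      ((x 0 + e1).choose e1 : ℚ) * ((x 1 + e2).choose e2 : ℚ) * ((x 2 + e3).choose e3 : ℚ) *
        ((x 3 + e4).choose e4 : ℚ) *
        (qq N (al + be + (x 0 - x 1 + x 2 - x 3)) * qq N (al - be + (x 0 - x 1 - x 2 + x 3))) =
    ∑ m ∈ Finset.range (k / 2 + 1), ((m + (6 * N + 1)).choose (6 * N + 1) : ℚ) *
      ∑ y ∈ Finset.Nat.antidiagonalTuple 4 (k - 2 * m),
        ((2 * N).choose (y 0) : ℚ) * ((2 * N).choose (y 1) : ℚ) * ((2 * N).choose (y 2) : ℚ) *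
          ((2 * N).choose (y 3) : ℚ) *
          (qq N (al + be + (y 0 - y 1 + y 2 - y 3)) * qq N (al - be + (y 0 - y 1 - y 2 + y 3))) := by
  have hR := rec_of_Lg N hN _ (Lg_EE N al be e1 e2 e3 e4 h1 h2 h3 h4)
  have hS := rec_symm _ hR k k 0 (by omega)
  rw [bdry0, bdry1] at hS
  rw [hS]
  refine Finset.sum_congr rfl fun m _ => ?_
  rw [Ps_HH]

theorem qq_eq (N : ℕ) (s : ℤ) : qq N s = Pool.Agent.KTT.q N s := rfl

end Pool.Agent.KTT.MIb

namespace Pool.Agent.KTT

/-- MI: the Moebius identity. -/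
theorem MI (N : ℕ) (hN : 1 ≤ N) (al be : ℤ) (e1 e2 e3 e4 : ℕ)
    (h1 : (e1 : ℤ) = N + al) (h2 : (e2 : ℤ) = N - al) (h3 : (e3 : ℤ) = N + be) (h4 : (e4 : ℤ) = N - be)
    (k : ℕ) :
    ∑ x ∈ Finset.Nat.antidiagonalTuple 4 k,
      ((x 0 + e1).choose e1 : ℚ) * ((x 1 + e2).choose e2 : ℚ) * ((x 2 + e3).choose e3 : ℚ) *
        ((x 3 + e4).choose e4 : ℚ) *
        q N (al + be + (x 0 - x 1 + x 2 - x 3)) * q N (al - be + (x 0 - x 1 - x 2 + x 3)) =
    ∑ m ∈ Finset.range (k / 2 + 1), ((m + (6 * N + 1)).choose (6 * N + 1) : ℚ) *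
      ∑ y ∈ Finset.Nat.antidiagonalTuple 4 (k - 2 * m),
        ((2 * N).choose (y 0) : ℚ) * ((2 * N).choose (y 1) : ℚ) * ((2 * N).choose (y 2) : ℚ) *
          ((2 * N).choose (y 3) : ℚ) *
          q N (al + be + (y 0 - y 1 + (y 2 - y 3))) * q N (al - be + (y 0 - y 1 - (y 2 - y 3))) := by
  have h := MIb.MIqq N hN al be e1 e2 e3 e4 h1 h2 h3 h4 k
  simp only [MIb.qq_eq] at h
  calc _ = _ := Finset.sum_congr rfl fun x _ => by rw [mul_assoc]
    _ = _ := h
    _ = _ := Finset.sum_congr rfl fun m _ => by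
      congr 1
      refine Finset.sum_congr rfl fun y _ => ?_
      rw [← mul_assoc, show ((y 0 : ℤ) - y 1 + (y 2 - y 3)) = y 0 - y 1 + y 2 - y 3 by ring,
        show ((y 0 : ℤ) - y 1 - (y 2 - y 3)) = y 0 - y 1 - y 2 + y 3 by ring]

end Pool.Agent.KTT
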