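import Pool.Agent.Work.MP_0df73a_co.KTT.Alg3
import Pool.Agent.Work.MP_0df73a_co.KTT.MI

/-!
KTT (MP_0df73a_co), module PM: `Phi n m 0 = ff n m`, from the Moebius identity `MI` and
`∑_{a ≤ n} (-1)^a C(N,a) q N (N - 2a + s) = tau n s`, `N = 2n+1` (`tau_sum`).
-/

set_option autoImplicit false

namespace Pool.Agent.KTT

open Finset

namespace PhiM

/-- the truncated alternating sum at even arguments -/
lemma tau_sum_even (n : ℕ) (r : ℤ) (h1 : -(n : ℤ) ≤ r) (h2 : r ≤ n) :
    ∑ a ∈ range (n + 1), (-1 : ℚ) ^ a * ((2 * n + 1).choose a : ℚ) *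
      q (2 * n + 1) (2 * n + 1 - 2 * a + 2 * r) = if r = 0 then 1 else 0 := by
  have hq : ∀ a ∈ range (n + 1), q (2 * n + 1) (2 * n + 1 - 2 * a + 2 * r) =
      if (a : ℤ) ≤ r then ((2 * n + 1 - 1 + (r - a).toNat).choose (2 * n + 1 - 1) : ℚ) else 0 := by
    intro a ha
    have ha' : a ≤ n := by simpa [Nat.lt_succ_iff] using ha
    by_cases h : (a : ℤ) ≤ r
    · rw [if_pos h, ← Alg3.q_nat (2 * n + 1) (r - a).toNat (by omega)]
      congr 1
      push_cast
      omega
    · rw [if_neg h]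
      exact Alg3.q_zero (2 * n + 1) (2 * n + r - a).toNat (by omega) _ (by push_cast; omega)
  by_cases hr : 0 ≤ r
  · obtain ⟨w, rfl⟩ := Int.eq_ofNat_of_zero_le hr
    have hw : w ≤ n := by exact_mod_cast h2
    have h := Alg3.key (2 * n + 1) (by omega) w
    have e1 : (if (w : ℤ) = 0 then (1 : ℚ) else 0) = if w = 0 then 1 else 0 :=
      if_congr (by omega) rfl rfl
    rw [e1, ← h]
    have hsub : range (n + 1) ⊆ range (2 * n + 1 + 1) := by
      intro x hx
      simp only [mem_range] at hx ⊢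
      omega
    rw [← Finset.sum_subset hsub]
    · refine Finset.sum_congr rfl fun a ha => ?_
      rw [hq a ha]
      congr 1
      by_cases hi : a ≤ w
      · rw [if_pos (by exact_mod_cast hi), if_pos hi]
        congr 3
        omega
      · rw [if_neg (by omega), if_neg hi]
    · intro x _ hx
      rw [mem_range, not_lt] at hx
      rw [if_neg (by omega), mul_zero]
  · rw [if_neg (by omega)]
    refine Finset.sum_eq_zero fun a ha => ?_
    rw [hq a ha, if_neg (by omega), mul_zero]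

noncomputable section

open Polynomial

/-- the left side as a polynomial -/
def sP (n : ℕ) : ℚ[X] :=
  ∑ a ∈ range (n + 1), C ((-1 : ℚ) ^ a * ((2 * n + 1).choose a : ℚ) /
    (2 ^ (2 * n) * ((2 * n).factorial : ℚ))) *
      ∏ l ∈ range (2 * n), (X + C ((2 * n + 1 : ℚ) - 2 * a + (2 * n + 1) - 2 * ((l : ℚ) + 1)))

/-- the right side as a polynomial -/
def tP (n : ℕ) : ℚ[X] := ∏ r ∈ range n, (1 - C (1 / (4 * ((r : ℚ) + 1) ^ 2)) * X ^ 2)

lemma sP_eval (n : ℕ) (s : ℤ) : (sP n).eval (s : ℚ) =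
    ∑ a ∈ range (n + 1), (-1 : ℚ) ^ a * ((2 * n + 1).choose a : ℚ) *
      q (2 * n + 1) (2 * n + 1 - 2 * a + s) := by
  rw [sP, eval_finsetSum]
  refine Finset.sum_congr rfl fun a _ => ?_
  rw [eval_mul, eval_C, eval_prod, q, Nat.add_sub_cancel]
  have : ∏ l ∈ range (2 * n), (X + C ((2 * n + 1 : ℚ) - 2 * a + (2 * n + 1) - 2 * ((l : ℚ) + 1))).eval (s : ℚ)
      = ∏ l ∈ range (2 * n), (((2 * n + 1 - 2 * a + s : ℤ) : ℚ) + ((2 * n + 1 : ℕ) : ℚ) - 2 * ((l : ℚ) + 1)) := by
    refine Finset.prod_congr rfl fun l _ => ?_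
    simp only [eval_add, eval_X, eval_C]
    push_cast
    ring
  rw [this]
  ring

lemma tP_eval (n : ℕ) (s : ℤ) : (tP n).eval (s : ℚ) = tau n s := by
  rw [tP, eval_prod, tau]
  refine Finset.prod_congr rfl fun r _ => ?_
  simp only [eval_sub, eval_one, eval_mul, eval_C, eval_pow, eval_X]
  ring

lemma tau_even (n : ℕ) (r : ℤ) (h1 : -(n : ℤ) ≤ r) (h2 : r ≤ n) :
    tau n (2 * r) = if r = 0 then 1 else 0 := by
  by_cases hr : r = 0
  · subst hr
    simp [tau]
  · rw [if_neg hr, tau]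
    refine Finset.prod_eq_zero (i := r.natAbs - 1) (by rw [mem_range]; omega) ?_
    have h3 : ((r.natAbs - 1 : ℕ) : ℚ) + 1 = (r.natAbs : ℚ) := by
      have : 1 ≤ r.natAbs := by omega
      push_cast [Nat.cast_sub this]
      ring
    have h4 : ((r.natAbs : ℕ) : ℚ) ^ 2 = (r : ℚ) ^ 2 := by
      rw [Nat.cast_natAbs, Int.cast_abs, sq_abs]
    have h5 : (r : ℚ) ^ 2 ≠ 0 := pow_ne_zero _ (by exact_mod_cast hr)
    rw [h3, h4]
    push_cast
    field_simp
    ring

lemma sP_natDegree (n : ℕ) : (sP n).natDegree ≤ 2 * n := by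
  refine natDegree_sum_le_of_forall_le _ _ fun a _ => ?_
  refine (natDegree_C_mul_le _ _).trans ((natDegree_prod_le _ _).trans ?_)
  refine (Finset.sum_le_sum fun l _ => (natDegree_X_add_C _).le).trans ?_
  simp

lemma tP_natDegree (n : ℕ) : (tP n).natDegree ≤ 2 * n := by
  refine (natDegree_prod_le _ _).trans ?_
  refine (Finset.sum_le_sum (g := fun _ => 2) fun r _ => ?_).trans (by simp [mul_comm])
  refine (natDegree_sub_le _ _).trans ?_
  rw [natDegree_one]
  exact max_le (by norm_num) (natDegree_C_mul_X_pow_le _ _)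

lemma sP_eq (n : ℕ) : sP n = tP n := by
  rw [← sub_eq_zero]
  refine Polynomial.eq_zero_of_natDegree_lt_card_of_eval_eq_zero (ι := Fin (2 * n + 1))
    (f := fun i => (((2 * ((i : ℤ) - n) : ℤ)) : ℚ)) _ ?_ ?_ ?_
  · intro i j hij
    have : (2 * ((i : ℤ) - n) : ℤ) = 2 * ((j : ℤ) - n) := Int.cast_injective (α := ℚ) hij
    ext
    omega
  · intro i
    have hi := i.2
    rw [eval_sub, sP_eval, tP_eval, tau_sum_even n _ (by omega) (by omega),
      tau_even n _ (by omega) (by omega), sub_self]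
  · rw [Fintype.card_fin]
    refine lt_of_le_of_lt (natDegree_sub_le _ _) ?_
    have := sP_natDegree n
    have := tP_natDegree n
    omega

theorem tau_sum (n : ℕ) (s : ℤ) :
    ∑ a ∈ range (n + 1), (-1 : ℚ) ^ a * ((2 * n + 1).choose a : ℚ) *
      q (2 * n + 1) (2 * n + 1 - 2 * a + s) = tau n s := by
  rw [← sP_eval, sP_eq, tP_eval]

end

end PhiM

/-- [PM] `Phi n m 0 = ff n m`. -/
theorem Phi_right_zero (n m : ℕ) : Phi n m 0 = ff n m := by
  have hMI : ∀ i ∈ range (n + 1), ∀ j ∈ range (n + 1),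
      ∑ x ∈ Finset.Nat.antidiagonalTuple 4 m,
        ((x 0 + (4 * n + 2 - i - j)).choose (4 * n + 2 - i - j) : ℚ) *
        ((x 1 + (i + j)).choose (i + j) : ℚ) *
        ((x 2 + (2 * n + 1 + j - i)).choose (2 * n + 1 + j - i) : ℚ) *
        ((x 3 + (2 * n + 1 + i - j)).choose (2 * n + 1 + i - j) : ℚ) *
        q (2 * n + 1) ((((0 : ℕ) : ℤ) + 1) * (2 * n + 1 - 2 * i) + (x 0 - x 1 + x 2 - x 3)) *
        q (2 * n + 1) ((((0 : ℕ) : ℤ) + 1) * (2 * n + 1 - 2 * j) + (x 0 - x 1 - x 2 + x 3)) =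
      ∑ k ∈ range (m / 2 + 1), ((k + (12 * n + 7)).choose (12 * n + 7) : ℚ) *
        ∑ y ∈ Finset.Nat.antidiagonalTuple 4 (m - 2 * k),
          ((4 * n + 2).choose (y 0) : ℚ) * ((4 * n + 2).choose (y 1) : ℚ) *
          ((4 * n + 2).choose (y 2) : ℚ) * ((4 * n + 2).choose (y 3) : ℚ) *
          q (2 * n + 1) (2 * n + 1 - 2 * i + (y 0 - y 1 + (y 2 - y 3))) *
          q (2 * n + 1) (2 * n + 1 - 2 * j + (y 0 - y 1 - (y 2 - y 3))) := by
    intro i hi j hj
    rw [mem_range] at hi hj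
    have h := MI (2 * n + 1) (by omega) (2 * n + 1 - i - j) (j - i)
      (4 * n + 2 - i - j) (i + j) (2 * n + 1 + j - i) (2 * n + 1 + i - j)
      (by omega) (by omega) (by omega) (by omega) m
    have e1 : 6 * (2 * n + 1) + 1 = 12 * n + 7 := by ring
    have e2 : 2 * (2 * n + 1) = 4 * n + 2 := by ring
    have e3 : ((2 * n + 1 : ℤ) - i - j) + (j - i) = 2 * n + 1 - 2 * i := by ring
    have e4 : ((2 * n + 1 : ℤ) - i - j) - (j - i) = 2 * n + 1 - 2 * j := by ring
    rw [e1, e2, e3, e4] at h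
    simpa only [Nat.cast_zero, zero_add, one_mul] using h
  rw [Phi, ff]
  rw [Finset.sum_congr rfl fun i hi => Finset.sum_congr rfl fun j hj => by rw [hMI i hi j hj]]
  simp only [Finset.mul_sum]
  rw [Finset.sum_congr rfl fun i _ => Finset.sum_comm, Finset.sum_comm]
  refine Finset.sum_congr rfl fun k _ => ?_
  rw [Finset.sum_congr rfl fun i _ => Finset.sum_comm, Finset.sum_comm]
  refine Finset.sum_congr rfl fun y _ => ?_
  rw [← PhiM.tau_sum, ← PhiM.tau_sum, mul_assoc (_ * _ * _ * _ : ℚ), Finset.sum_mul_sum, Finset.mul_sum,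
    Finset.mul_sum]
  refine Finset.sum_congr rfl fun i _ => ?_
  rw [Finset.mul_sum, Finset.mul_sum]
  refine Finset.sum_congr rfl fun j _ => ?_
  rw [pow_add]
  ring

end Pool.Agent.KTT
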