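import Pool.Agent.Work.MP_0df73a_co.KTT.Defs

/-!
KTT (MP_0df73a_co), module ALG1: closed forms of `Hm`, `Hp`, `GG` and the expansion of
`GG * Hm^N * Hp^N`.  Exponent convention: `mon a b = t^a u^b`.
-/

set_option autoImplicit false

namespace Pool.Agent.KTT

open PowerSeries Finset

noncomputable section

/-- `1/(1 - z m)` -/
def geo (m : A) : S := PowerSeries.mk fun n => m ^ n

lemma coeff_geo (m : A) (n : ℕ) : PowerSeries.coeff n (geo m) = m ^ n := by
  rw [geo, PowerSeries.coeff_mk]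

lemma coeff_geo_mul_geo (x y : A) (d : ℕ) :
    PowerSeries.coeff d (geo x * geo y) = ∑ p ∈ antidiagonal d, x ^ p.1 * y ^ p.2 := by
  rw [PowerSeries.coeff_mul]
  refine Finset.sum_congr rfl fun p _ => ?_
  rw [coeff_geo, coeff_geo]

lemma geo_eq_rescale (m : A) : geo m = PowerSeries.rescale m (PowerSeries.mk 1) := by
  ext n
  rw [coeff_geo, PowerSeries.coeff_rescale, PowerSeries.coeff_mk]
  simp

lemma coeff_geo_pow (m : A) (e n : ℕ) :
    PowerSeries.coeff n (geo m ^ (e + 1)) = ((n + e).choose e : A) * m ^ n := by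
  rw [geo_eq_rescale, ← map_pow, PowerSeries.mk_one_pow_eq_mk_choose_add,
    PowerSeries.coeff_rescale, PowerSeries.coeff_mk, mul_comm, add_comm e n]

lemma mon_pow (a b : ℤ) (n : ℕ) : mon a b ^ n = mon (n * a) (n * b) := by
  induction n with
  | zero => simp
  | succ n ih => rw [pow_succ, ih, mon_mul]; push_cast; congr 1 <;> ring

lemma sub_mul_chiT (m : ℕ) :
    (mon 1 0 - mon (-1) 0) * chiT m = mon (m + 1) 0 - mon (-(m + 1)) 0 := by
  have h : ∀ n : ℕ, (mon 1 0 - mon (-1) 0) * ∑ p ∈ range n, mon ((m : ℤ) - 2 * p) 0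
      = mon (m + 1) 0 - mon (m + 1 - 2 * n) 0 := by
    intro n
    induction n with
    | zero => simp
    | succ n ih =>
      rw [Finset.sum_range_succ, mul_add, ih, sub_mul, mon_mul, mon_mul]
      have e1 : (1 : ℤ) + ((m : ℤ) - 2 * n) = m + 1 - 2 * n := by ring
      have e2 : (-1 : ℤ) + ((m : ℤ) - 2 * n) = m + 1 - 2 * ((n + 1 : ℕ) : ℤ) := by push_cast; ring
      rw [e1, e2]
      simp only [add_zero]
      ring
  rw [chiT, h]
  congr 2
  push_cast; ring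

lemma sub_mul_chiU (m : ℕ) :
    (mon 0 1 - mon 0 (-1)) * chiU m = mon 0 (m + 1) - mon 0 (-(m + 1)) := by
  have h : ∀ n : ℕ, (mon 0 1 - mon 0 (-1)) * ∑ p ∈ range n, mon 0 ((m : ℤ) - 2 * p)
      = mon 0 (m + 1) - mon 0 (m + 1 - 2 * n) := by
    intro n
    induction n with
    | zero => simp
    | succ n ih =>
      rw [Finset.sum_range_succ, mul_add, ih, sub_mul, mon_mul, mon_mul]
      have e1 : (1 : ℤ) + ((m : ℤ) - 2 * n) = m + 1 - 2 * n := by ring
      have e2 : (-1 : ℤ) + ((m : ℤ) - 2 * n) = m + 1 - 2 * ((n + 1 : ℕ) : ℤ) := by push_cast; ring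
      rw [e1, e2]
      simp only [add_zero]
      ring
  rw [chiU, h]
  congr 2
  push_cast; ring

/-- `sum_d z^d (ab)^{..}`: the product of two geometric series as a sum over `range` -/
lemma coeff_geo_mul_geo_mon (a b a' b' : ℤ) (d : ℕ) :
    PowerSeries.coeff d (geo (mon a b) * geo (mon a' b'))
      = ∑ p ∈ range (d + 1), mon (p * a + (d - p) * a') (p * b + (d - p) * b') := by
  rw [coeff_geo_mul_geo, Finset.Nat.sum_antidiagonal_eq_sum_range_succ
    (fun i j => mon a b ^ i * mon a' b' ^ j)]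
  refine Finset.sum_congr rfl fun p hp => ?_
  have hp' : p ≤ d := by simpa [Nat.lt_succ_iff] using hp
  rw [mon_pow, mon_pow, mon_mul]
  push_cast [Nat.cast_sub hp']
  rfl

lemma mul_chiU (a : ℤ) (d : ℕ) : mon (d * a) 0 * chiU d
    = PowerSeries.coeff d (geo (mon a (-1)) * geo (mon a 1)) := by
  rw [coeff_geo_mul_geo_mon, chiU, Finset.mul_sum]
  refine Finset.sum_congr rfl fun p _ => ?_
  rw [mon_mul]
  congr 1 <;> ring

lemma mul_chiT (b : ℤ) (d : ℕ) : mon 0 (d * b) * chiT d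
    = PowerSeries.coeff d (geo (mon (-1) b) * geo (mon 1 b)) := by
  rw [coeff_geo_mul_geo_mon, chiT, Finset.mul_sum]
  refine Finset.sum_congr rfl fun p _ => ?_
  rw [mon_mul]
  congr 1 <;> ring

/-- ALG1 (a) -/
theorem sub_mul_Hm (k : ℕ) :
    PowerSeries.C (mon 1 0 - mon (-1) 0) * Hm k
      = PowerSeries.C (mon (k + 1) 0) * (geo (mon 1 1) * geo (mon 1 (-1)))
        - PowerSeries.C (mon (-(k + 1)) 0) * (geo (mon (-1) (-1)) * geo (mon (-1) 1)) := by
  ext1 d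
  rw [PowerSeries.coeff_C_mul, Hm, PowerSeries.coeff_mk, ← mul_assoc, sub_mul_chiT, map_sub,
    PowerSeries.coeff_C_mul, PowerSeries.coeff_C_mul, mul_comm (geo (mon 1 1)), ← mul_chiU,
    ← mul_chiU, ← mul_assoc, ← mul_assoc, mon_mul, mon_mul, ← sub_mul]
  congr 3 <;> (push_cast; ring)

/-- ALG1 (b) -/
theorem sub_mul_Hp (k : ℕ) :
    PowerSeries.C (mon 0 1 - mon 0 (-1)) * Hp k
      = PowerSeries.C (mon 0 (k + 1)) * (geo (mon 1 1) * geo (mon (-1) 1))
        - PowerSeries.C (mon 0 (-(k + 1))) * (geo (mon (-1) (-1)) * geo (mon 1 (-1))) := by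
  ext1 d
  rw [PowerSeries.coeff_C_mul, Hp, PowerSeries.coeff_mk, mul_left_comm, sub_mul_chiU, map_sub,
    PowerSeries.coeff_C_mul, PowerSeries.coeff_C_mul, mul_comm (geo (mon 1 1)), ← mul_chiT,
    ← mul_chiT, ← mul_assoc, ← mul_assoc, mon_mul, mon_mul, ← sub_mul, mul_comm]
  congr 3 <;> (push_cast; ring)

/-- ALG1 (c) -/
theorem GG_eq : GG = geo (mon 1 1) * geo (mon (-1) (-1)) * geo (mon 1 (-1)) * geo (mon (-1) 1) := by
  ext1 d
  have e : geo (mon 1 1) * geo (mon (-1) (-1)) * geo (mon 1 (-1)) * geo (mon (-1) 1)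
      = (geo (mon (-1) (-1)) * geo (mon 1 (-1))) * (geo (mon (-1) 1) * geo (mon 1 1)) := by ring
  rw [e, PowerSeries.coeff_mul, GG, PowerSeries.coeff_mk]
  refine Finset.sum_congr rfl fun q _ => ?_
  rw [← mul_chiT, ← mul_chiT]
  have e1 : mon 0 ((q.1 : ℤ) * -1) * chiT q.1 * (mon 0 ((q.2 : ℤ) * 1) * chiT q.2)
      = chiT q.1 * chiT q.2 * (mon 0 ((q.1 : ℤ) * -1) * mon 0 ((q.2 : ℤ) * 1)) := by ring
  rw [e1, mon_mul]
  congr 2
  ring

/-- the product of the geometric factors in the expansion -/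
def FF (N i j : ℕ) : S :=
  geo (mon 1 1) ^ (2 * N - i - j + 1) * geo (mon (-1) (-1)) ^ (i + j + 1)
    * geo (mon 1 (-1)) ^ (N - i + j + 1) * geo (mon (-1) 1) ^ (N - j + i + 1)

lemma sub_pow_range (x y : S) (N : ℕ) :
    (x - y) ^ N = ∑ i ∈ range (N + 1), ((-1 : ℤ) ^ i * (N.choose i : ℤ)) • (x ^ (N - i) * y ^ i) := by
  rw [sub_eq_neg_add, add_pow]
  refine Finset.sum_congr rfl fun i _ => ?_
  rw [neg_pow, zsmul_eq_mul]
  push_cast
  ring

/-- ALG1 (d) -/
theorem expansion (N k : ℕ) :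
    PowerSeries.C ((mon 1 0 - mon (-1) 0) ^ N * (mon 0 1 - mon 0 (-1)) ^ N)
        * (GG * Hm k ^ N * Hp k ^ N)
      = ∑ i ∈ range (N + 1), ∑ j ∈ range (N + 1),
        (((-1 : ℤ) ^ (i + j) * ((N.choose i : ℤ) * (N.choose j : ℤ))) •
          (PowerSeries.C (mon ((k + 1) * (N - 2 * i)) ((k + 1) * (N - 2 * j))) * FF N i j)) := by
  have h1 : PowerSeries.C ((mon 1 0 - mon (-1) 0) ^ N * (mon 0 1 - mon 0 (-1)) ^ N)
        * (GG * Hm k ^ N * Hp k ^ N)
      = GG * ((PowerSeries.C (mon 1 0 - mon (-1) 0) * Hm k) ^ N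
        * (PowerSeries.C (mon 0 1 - mon 0 (-1)) * Hp k) ^ N) := by
    rw [map_mul, map_pow, map_pow]; ring
  rw [h1, sub_mul_Hm, sub_mul_Hp, sub_pow_range, sub_pow_range, Finset.sum_mul_sum,
    Finset.mul_sum]
  refine Finset.sum_congr rfl fun i hi => ?_
  rw [Finset.mul_sum]
  refine Finset.sum_congr rfl fun j hj => ?_
  have hi' : i ≤ N := by simpa [Nat.lt_succ_iff] using hi
  have hj' : j ≤ N := by simpa [Nat.lt_succ_iff] using hj
  have hm : mon ((k + 1) * (N - 2 * i)) ((k + 1) * (N - 2 * j))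
      = mon (k + 1) 0 ^ (N - i) * mon (-(k + 1)) 0 ^ i * (mon 0 (k + 1) ^ (N - j)
        * mon 0 (-(k + 1)) ^ j) := by
    rw [mon_pow, mon_pow, mon_pow, mon_pow, mon_mul, mon_mul, mon_mul]
    push_cast [Nat.cast_sub hi', Nat.cast_sub hj']
    congr 1 <;> ring
  have e1 : 2 * N - i - j = (N - i) + (N - j) := by omega
  rw [GG_eq, FF, hm, e1]
  simp only [map_mul, map_pow, zsmul_eq_mul, Int.cast_mul, Int.cast_pow, Int.cast_neg,
    Int.cast_one, Int.cast_natCast, mul_pow, pow_add]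
  ring

lemma coeff_mul4 (f : Fin 4 → S) (s : ℕ) :
    PowerSeries.coeff s (f 0 * f 1 * f 2 * f 3)
      = ∑ x ∈ Finset.Nat.antidiagonalTuple 4 s, PowerSeries.coeff (x 0) (f 0)
        * PowerSeries.coeff (x 1) (f 1) * PowerSeries.coeff (x 2) (f 2)
        * PowerSeries.coeff (x 3) (f 3) := by
  rw [← Fin.prod_univ_four, PowerSeries.coeff_prod]
  refine Finset.sum_bij' (fun l _ => (l : Fin 4 → ℕ)) (fun x _ => Finsupp.equivFunOnFinite.symm x)
    ?_ ?_ ?_ ?_ ?_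
  · intro l hl
    rw [Finset.mem_finsuppAntidiag] at hl
    rw [Finset.Nat.mem_antidiagonalTuple]
    exact hl.1
  · intro x hx
    rw [Finset.mem_finsuppAntidiag]
    rw [Finset.Nat.mem_antidiagonalTuple] at hx
    exact ⟨by simpa using hx, by simp⟩
  · intro l _; simp
  · intro x _; simp
  · intro l _
    rw [Fin.prod_univ_four]

/-- ALG1 (e) -/
theorem coeff_FF (N i j s : ℕ) :
    PowerSeries.coeff s (FF N i j)
      = ∑ x ∈ Finset.Nat.antidiagonalTuple 4 s,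
        (((x 0 + (2 * N - i - j)).choose (2 * N - i - j) * (x 1 + (i + j)).choose (i + j)
          * (x 2 + (N - i + j)).choose (N - i + j)
          * (x 3 + (N - j + i)).choose (N - j + i) : ℕ) : A)
          * mon ((x 0 : ℤ) - x 1 + x 2 - x 3) ((x 0 : ℤ) - x 1 - x 2 + x 3) := by
  have h := coeff_mul4 ![geo (mon 1 1) ^ (2 * N - i - j + 1), geo (mon (-1) (-1)) ^ (i + j + 1),
    geo (mon 1 (-1)) ^ (N - i + j + 1), geo (mon (-1) 1) ^ (N - j + i + 1)] s
  simp only [Matrix.cons_val_zero, Matrix.cons_val_one, Matrix.cons_val] at h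
  rw [FF, h]
  refine Finset.sum_congr rfl fun x _ => ?_
  rw [coeff_geo_pow, coeff_geo_pow, coeff_geo_pow, coeff_geo_pow, mon_pow, mon_pow, mon_pow,
    mon_pow]
  have hm : mon ((x 0 : ℤ) - x 1 + x 2 - x 3) ((x 0 : ℤ) - x 1 - x 2 + x 3)
      = mon ((x 0 : ℤ) * 1) ((x 0 : ℤ) * 1) * mon ((x 1 : ℤ) * -1) ((x 1 : ℤ) * -1)
        * mon ((x 2 : ℤ) * 1) ((x 2 : ℤ) * -1) * mon ((x 3 : ℤ) * -1) ((x 3 : ℤ) * 1) := by
    rw [mon_mul, mon_mul, mon_mul]
    congr 1 <;> ring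
  rw [hm]
  push_cast
  ring

end

end Pool.Agent.KTT
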