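import Pool.Agent.Work.MP_0df73a_co.KTT.Alg1
import Pool.Agent.Work.MP_0df73a_co.KTT.Spec

/-!
KTT (MP_0df73a_co), module ALG2: the functional which inverts `(t - 1/t)^N (u - 1/u)^N`.
-/

set_option autoImplicit false

namespace Pool.Agent.KTT

open PowerSeries Finset

noncomputable section

/-- `[t^0] t^s (t - 1/t)^(-N)` (expanded in `1/t`) for odd `N`. -/
def TT (N : ℕ) (s : ℤ) : ℚ := if 0 < s ∧ Odd s then q N s else 0

lemma q_add (N b : ℕ) (hN : 1 ≤ N) : q N ((N : ℤ) + 2 * b) = ((b + (N - 1)).choose (N - 1) : ℚ) := by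
  rw [q]
  have hf : ((N - 1).factorial : ℚ) ≠ 0 := by exact_mod_cast (N - 1).factorial_ne_zero
  have h2 : (2 : ℚ) ^ (N - 1) ≠ 0 := by positivity
  rw [div_eq_iff (mul_ne_zero h2 hf)]
  have h1 : ∀ l ∈ range (N - 1), ((((N : ℤ) + 2 * b : ℤ) : ℚ) + N - 2 * ((l : ℚ) + 1))
      = 2 * (((b + (N - 1) - l : ℕ) : ℚ)) := by
    intro l hl
    have hl' : l < N - 1 := by simpa using hl
    rw [Nat.cast_sub (by omega)]
    push_cast [Nat.cast_sub hN]
    ring
  rw [Finset.prod_congr rfl h1, Finset.prod_mul_distrib, Finset.prod_const, Finset.card_range,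
    ← Nat.cast_prod, ← Nat.descFactorial_eq_prod_range, Nat.descFactorial_eq_factorial_mul_choose]
  push_cast
  ring

lemma q_zero_of (N : ℕ) (s : ℤ) (hs : Odd s) (hN : Odd N) (h0 : 0 < s) (h1 : s < N) : q N s = 0 := by
  obtain ⟨a, ha⟩ := hs
  obtain ⟨n, hn⟩ := hN
  rw [q, Finset.prod_eq_zero (i := (a + n).toNat), zero_div]
  · rw [Finset.mem_range]; omega
  · have : (((a + n).toNat : ℤ)) = a + n := Int.toNat_of_nonneg (by omega)
    have h : (((a + n).toNat : ℚ)) = (a : ℚ) + n := by exact_mod_cast congrArg (Int.cast : ℤ → ℚ) this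
    rw [h, ha, hn]
    push_cast
    ring

/-- `TT N` at `N + 2 j` -/
lemma TT_add (N : ℕ) (hN : Odd N) (j : ℤ) :
    TT N (N + 2 * j) = if 0 ≤ j then ((j.toNat + (N - 1)).choose (N - 1) : ℚ) else 0 := by
  have hN1 : 1 ≤ N := hN.pos
  have hodd : Odd ((N : ℤ) + 2 * j) := by
    obtain ⟨n, hn⟩ := hN
    exact ⟨n + j, by rw [hn]; push_cast; ring⟩
  rw [TT]
  by_cases hj : 0 ≤ j
  · rw [if_pos ⟨by omega, hodd⟩, if_pos hj]
    have : j = ((j.toNat : ℕ) : ℤ) := (Int.toNat_of_nonneg hj).symm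
    conv_lhs => rw [this]
    exact q_add N _ hN1
  · rw [if_neg hj]
    by_cases h0 : 0 < (N : ℤ) + 2 * j
    · rw [if_pos ⟨h0, hodd⟩]
      exact q_zero_of N _ hodd hN h0 (by omega)
    · rw [if_neg (fun h => h0 h.1)]

lemma one_sub_pow_mul (N : ℕ) (hN : 1 ≤ N) :
    ((1 : PowerSeries ℚ) - PowerSeries.X) ^ N
      * (PowerSeries.mk fun b => ((b + (N - 1)).choose (N - 1) : ℚ)) = 1 := by
  obtain ⟨d, rfl⟩ : ∃ d, N = d + 1 := ⟨N - 1, by omega⟩
  have h := PowerSeries.mk_one_pow_eq_mk_choose_add ℚ d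
  have h2 : (PowerSeries.mk fun b => ((b + (d + 1 - 1)).choose (d + 1 - 1) : ℚ))
      = (PowerSeries.mk 1) ^ (d + 1) := by
    rw [h]; ext b
    simp only [PowerSeries.coeff_mk, Nat.add_sub_cancel]
    rw [add_comm]
  rw [h2, ← mul_pow, mul_comm, PowerSeries.mk_one_mul_one_sub_eq_one, one_pow]

lemma coeff_one_sub_pow (N a : ℕ) :
    PowerSeries.coeff a (((1 : PowerSeries ℚ) - PowerSeries.X) ^ N)
      = (-1 : ℚ) ^ a * (N.choose a : ℚ) := by
  have h : ((1 : PowerSeries ℚ) - PowerSeries.X) ^ N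
      = ((((1 : Polynomial ℚ) - Polynomial.X) ^ N : Polynomial ℚ) : PowerSeries ℚ) := by
    simp
  rw [h, Polynomial.coeff_coe]
  have h2 : ((1 : Polynomial ℚ) - Polynomial.X) ^ N
      = ((1 + Polynomial.X) ^ N).comp (-Polynomial.X) := by
    simp [sub_eq_add_neg]
  rw [h2, ← Polynomial.coeff_one_add_X_pow ℚ N a]
  rw [show (-Polynomial.X : Polynomial ℚ) = Polynomial.C (-1) * Polynomial.X by simp,
    Polynomial.comp_C_mul_X_coeff, mul_comm]

lemma sum_shift (N : ℕ) (hN : 1 ≤ N) (j : ℤ) :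
    ∑ r ∈ range (N + 1), (-1 : ℚ) ^ r * (N.choose r : ℚ)
      * (if 0 ≤ j - r then (((j - r).toNat + (N - 1)).choose (N - 1) : ℚ) else 0)
      = if j = 0 then 1 else 0 := by
  by_cases hj : 0 ≤ j
  · obtain ⟨m, rfl⟩ : ∃ m : ℕ, j = m := ⟨j.toNat, (Int.toNat_of_nonneg hj).symm⟩
    have h := congrArg (PowerSeries.coeff m) (one_sub_pow_mul N hN)
    rw [PowerSeries.coeff_mul, PowerSeries.coeff_one, Finset.Nat.sum_antidiagonal_eq_sum_range_succ
      (fun a b => PowerSeries.coeff a (((1 : PowerSeries ℚ) - PowerSeries.X) ^ N)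
        * PowerSeries.coeff b (PowerSeries.mk fun b => ((b + (N - 1)).choose (N - 1) : ℚ)))] at h
    have h3 : (if (m : ℤ) = 0 then (1 : ℚ) else 0) = if m = 0 then 1 else 0 := by
      refine if_congr ?_ rfl rfl
      exact Int.natCast_eq_zero
    rw [h3, ← h]
    -- both sums equal the sum over range (N + m + 1)
    have hL : ∑ r ∈ range (N + 1), (-1 : ℚ) ^ r * (N.choose r : ℚ)
        * (if 0 ≤ (m : ℤ) - r then ((((m : ℤ) - r).toNat + (N - 1)).choose (N - 1) : ℚ) else 0)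
        = ∑ r ∈ range (N + m + 1), (-1 : ℚ) ^ r * (N.choose r : ℚ)
        * (if 0 ≤ (m : ℤ) - r then ((((m : ℤ) - r).toNat + (N - 1)).choose (N - 1) : ℚ) else 0) := by
      refine Finset.sum_subset (fun x hx => ?_) (fun x _ hx => ?_)
      · rw [Finset.mem_range] at hx ⊢; omega
      · rw [Finset.mem_range] at hx
        rw [Nat.choose_eq_zero_of_lt (by omega)]; simp
    have hR : ∑ r ∈ range (m + 1), (PowerSeries.coeff r (((1 : PowerSeries ℚ) - PowerSeries.X) ^ N)
        * PowerSeries.coeff (m - r) (PowerSeries.mk fun b => ((b + (N - 1)).choose (N - 1) : ℚ)))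
        = ∑ r ∈ range (N + m + 1), (-1 : ℚ) ^ r * (N.choose r : ℚ)
        * (if 0 ≤ (m : ℤ) - r then ((((m : ℤ) - r).toNat + (N - 1)).choose (N - 1) : ℚ) else 0) := by
      have : ∑ r ∈ range (m + 1), (-1 : ℚ) ^ r * (N.choose r : ℚ)
        * (if 0 ≤ (m : ℤ) - r then ((((m : ℤ) - r).toNat + (N - 1)).choose (N - 1) : ℚ) else 0)
          = ∑ r ∈ range (N + m + 1), (-1 : ℚ) ^ r * (N.choose r : ℚ)
        * (if 0 ≤ (m : ℤ) - r then ((((m : ℤ) - r).toNat + (N - 1)).choose (N - 1) : ℚ) else 0) := by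
        refine Finset.sum_subset (fun x hx => ?_) (fun x _ hx => ?_)
        · rw [Finset.mem_range] at hx ⊢; omega
        · rw [Finset.mem_range] at hx
          rw [if_neg (by omega), mul_zero]
      rw [← this]
      refine Finset.sum_congr rfl fun r hr => ?_
      rw [Finset.mem_range] at hr
      rw [coeff_one_sub_pow, PowerSeries.coeff_mk, if_pos (by omega)]
      have : ((m : ℤ) - r).toNat = m - r := by omega
      rw [this]
    rw [hL, hR]
  · rw [if_neg (by omega)]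
    refine Finset.sum_eq_zero fun r _ => ?_
    rw [if_neg (by omega), mul_zero]

/-- the one-variable identity -/
theorem TT_sum (N : ℕ) (hN : Odd N) (m : ℤ) :
    ∑ r ∈ range (N + 1), (-1 : ℚ) ^ r * (N.choose r : ℚ) * TT N ((N : ℤ) - 2 * r + m)
      = if m = 0 then 1 else 0 := by
  rcases Int.even_or_odd m with hm | hm
  · obtain ⟨j, hj⟩ := hm
    have h1 : ∀ r ∈ range (N + 1), (-1 : ℚ) ^ r * (N.choose r : ℚ) * TT N ((N : ℤ) - 2 * r + m)
        = (-1 : ℚ) ^ r * (N.choose r : ℚ)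
          * (if 0 ≤ j - r then (((j - r).toNat + (N - 1)).choose (N - 1) : ℚ) else 0) := by
      intro r _
      have e : (N : ℤ) - 2 * r + m = N + 2 * (j - r) := by rw [hj]; ring
      rw [e, TT_add N hN]
    rw [Finset.sum_congr rfl h1, sum_shift N hN.pos j]
    refine if_congr ?_ rfl rfl
    omega
  · rw [if_neg (by rintro rfl; simp at hm)]
    refine Finset.sum_eq_zero fun r _ => ?_
    have : ¬ Odd ((N : ℤ) - 2 * r + m) := by
      rw [Int.not_odd_iff_even]
      have hN' : Odd (N : ℤ) := by exact_mod_cast hN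
      obtain ⟨a, ha⟩ := hN'
      obtain ⟨b, hb⟩ := hm
      exact ⟨a + b + 1 - r, by rw [ha, hb]; ring⟩
    rw [TT, if_neg (fun h => this h.2), mul_zero]

lemma sub_pow_T (N : ℕ) : (mon 1 0 - mon (-1) 0) ^ N
    = ∑ r ∈ range (N + 1), ((-1 : ℚ) ^ r * (N.choose r : ℚ)) • mon ((N : ℤ) - 2 * r) 0 := by
  rw [sub_eq_neg_add, add_pow]
  refine Finset.sum_congr rfl fun r hr => ?_
  have hr' : r ≤ N := by simpa [Nat.lt_succ_iff] using hr
  rw [neg_pow, mon_pow, mon_pow, Algebra.smul_def, map_mul, map_pow, map_neg, map_one,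
    map_natCast]
  have e : mon ((N : ℤ) - 2 * r) 0 = mon (r * (-1)) (r * 0) * mon ((N - r : ℕ) * 1) ((N - r : ℕ) * 0) := by
    rw [mon_mul]
    push_cast [Nat.cast_sub hr']
    congr 1 <;> ring
  rw [e]
  ring

lemma sub_pow_U (N : ℕ) : (mon 0 1 - mon 0 (-1)) ^ N
    = ∑ r ∈ range (N + 1), ((-1 : ℚ) ^ r * (N.choose r : ℚ)) • mon 0 ((N : ℤ) - 2 * r) := by
  rw [sub_eq_neg_add, add_pow]
  refine Finset.sum_congr rfl fun r hr => ?_
  have hr' : r ≤ N := by simpa [Nat.lt_succ_iff] using hr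
  rw [neg_pow, mon_pow, mon_pow, Algebra.smul_def, map_mul, map_pow, map_neg, map_one,
    map_natCast]
  have e : mon 0 ((N : ℤ) - 2 * r) = mon (r * 0) (r * (-1)) * mon ((N - r : ℕ) * 0) ((N - r : ℕ) * 1) := by
    rw [mon_mul]
    push_cast [Nat.cast_sub hr']
    congr 1 <;> ring
  rw [e]
  ring

/-- the functional inverting the denominators -/
theorem L_functional (N : ℕ) (hN : Odd N) (f : A) :
    L (fun p => TT N p.1 * TT N p.2)
      ((mon 1 0 - mon (-1) 0) ^ N * (mon 0 1 - mon 0 (-1)) ^ N * f) = f.coeff (0, 0) := by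
  have key : ∀ a b : ℤ, L (fun p => TT N p.1 * TT N p.2)
      ((mon 1 0 - mon (-1) 0) ^ N * (mon 0 1 - mon 0 (-1)) ^ N * mon a b)
      = (if a = 0 then 1 else 0) * (if b = 0 then 1 else 0) := by
    intro a b
    rw [sub_pow_T, sub_pow_U, ← TT_sum N hN a, ← TT_sum N hN b, Finset.sum_mul_sum,
      Finset.sum_mul_sum, Finset.sum_mul, map_sum]
    refine Finset.sum_congr rfl fun r _ => ?_
    rw [Finset.sum_mul, map_sum]
    refine Finset.sum_congr rfl fun r' _ => ?_
    rw [smul_mul_smul_comm, smul_mul_assoc, mon_mul, mon_mul, map_smul, L_mon, smul_eq_mul]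
    simp only [add_zero, zero_add]
    ring
  induction f using AddMonoidAlgebra.induction_linear with
  | zero => simp
  | add f g hf hg => rw [mul_add, map_add, hf, hg]; simp
  | single p c =>
    have e : (AddMonoidAlgebra.single p c : A) = c • mon p.1 p.2 := by
      rw [mon, AddMonoidAlgebra.smul_single, smul_eq_mul, mul_one]
    rw [e, mul_smul_comm, map_smul, key, AddMonoidAlgebra.coeff_smul, mon,
      AddMonoidAlgebra.coeff_single]
    simp only [smul_eq_mul, Finsupp.smul_apply, Finsupp.single_apply, Prod.mk.injEq]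
    by_cases h1 : p.1 = 0 <;> by_cases h2 : p.2 = 0 <;> simp [h1, h2]

end

end Pool.Agent.KTT
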