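import Pool.Agent.Work.MP_0df73a_co.KTT.Defs

/-!
KTT (MP_0df73a_co), module BR4: the two letters `c + d', c + d''` turn into the factor `GG`.
-/

set_option autoImplicit false

namespace Pool.Agent.KTT

open PowerSeries Finset

noncomputable section

/-- `u ↦ 1/u` on exponents -/
def flipE : (ℤ × ℤ) ≃+ (ℤ × ℤ) where
  toFun p := (p.1, -p.2)
  invFun p := (p.1, -p.2)
  left_inv p := by simp
  right_inv p := by simp
  map_add' p q := by simp [add_comm]

/-- the automorphism `u ↦ 1/u` of `A` -/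
def flip : A ≃ₐ[ℚ] A := AddMonoidAlgebra.domCongr ℚ ℚ flipE

lemma coeff_flip (f : A) (a b : ℤ) : (flip f).coeff (a, b) = f.coeff (a, -b) := by
  rw [flip, AddMonoidAlgebra.coeff_domCongr]
  rfl

lemma flip_mon (a b : ℤ) : flip (mon a b) = mon a (-b) := by
  rw [flip, mon, AddMonoidAlgebra.domCongr_single]
  rfl

lemma flip_chiT (m : ℕ) : flip (chiT m) = chiT m := by
  rw [chiT, map_sum]
  refine Finset.sum_congr rfl fun p _ => ?_
  rw [flip_mon, neg_zero]

lemma flip_chiU (m : ℕ) : flip (chiU m) = chiU m := by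
  rw [chiU, map_sum, ← Finset.sum_range_reflect]
  refine Finset.sum_congr rfl fun p hp => ?_
  rw [Finset.mem_range] at hp
  rw [flip_mon]
  congr 1
  have : ((m + 1 - 1 - p : ℕ) : ℤ) = (m : ℤ) - p := by
    rw [Nat.add_sub_cancel, Nat.cast_sub (by omega)]
  rw [this]
  ring

/-- the automorphism `u ↦ 1/u` of `S` -/
def flipS : S →+* S := PowerSeries.map (flip : A →+* A)

lemma coeff_flipS (F : S) (n : ℕ) : PowerSeries.coeff n (flipS F) = flip (PowerSeries.coeff n F) := by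
  rw [flipS, PowerSeries.coeff_map]; rfl

lemma flipS_Hm (k : ℕ) : flipS (Hm k) = Hm k := by
  ext1 d
  rw [coeff_flipS, Hm, PowerSeries.coeff_mk, map_mul, flip_chiT, flip_chiU]

lemma flipS_Hp (k : ℕ) : flipS (Hp k) = Hp k := by
  ext1 d
  rw [coeff_flipS, Hp, PowerSeries.coeff_mk, map_mul, flip_chiT, flip_chiU]

lemma one_sub_mul_chiU (P : ℕ) : (1 - mon 0 (-2)) * chiU P = mon 0 P - mon 0 (-(P : ℤ) - 2) := by
  induction P with
  | zero => simp [chiU]
  | succ P ih =>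
    have h : chiU (P + 1) = mon 0 1 * chiU P + mon 0 (-(P : ℤ) - 1) := by
      rw [chiU, chiU, Finset.sum_range_succ, Finset.mul_sum]
      congr 1
      · refine Finset.sum_congr rfl fun p _ => ?_
        rw [mon_mul]
        congr 1
        push_cast
        ring
      · congr 1
        push_cast
        ring
    rw [h, mul_add]
    have h2 : (1 - mon 0 (-2)) * (mon 0 1 * chiU P) = mon 0 1 * ((1 - mon 0 (-2)) * chiU P) := by
      ring
    rw [h2, ih, mul_sub, sub_mul, one_mul, mon_mul, mon_mul, mon_mul]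
    have e1 : (1 : ℤ) + (P : ℤ) = ((P + 1 : ℕ) : ℤ) := by push_cast; ring
    have e2 : (1 : ℤ) + (-(P : ℤ) - 2) = -(P : ℤ) - 1 := by ring
    have e3 : (-2 : ℤ) + (-(P : ℤ) - 1) = -((P + 1 : ℕ) : ℤ) - 2 := by push_cast; ring
    rw [e1, e2, e3, zero_add]
    ring

lemma one_sub_mul_chiU' (Q : ℕ) : (1 - mon 0 2) * chiU Q = mon 0 (-(Q : ℤ)) - mon 0 ((Q : ℤ) + 2) := by
  have h := congrArg flip (one_sub_mul_chiU Q)
  rw [map_mul, map_sub, map_sub, map_one, flip_mon, flip_mon, flip_mon, flip_chiU] at h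
  rw [show (2 : ℤ) = -(-2) by norm_num, h]
  congr 2
  ring

lemma coeff_mon_mul (a b c d : ℤ) (f : A) :
    (mon a b * f).coeff (c, d) = f.coeff (c - a, d - b) := by
  rw [mon, AddMonoidAlgebra.coeff_single_mul_eq_mul_coeff (m₂ := (c - a, d - b))]
  · simp
  · rintro ⟨e, g⟩ _
    constructor
    · intro h
      have := Prod.mk.inj h
      ext <;> simp <;> omega
    · intro h
      have := Prod.mk.inj h
      ext <;> simp <;> omega

lemma core (P Q : ℕ) (h : A) (hs : flip h = h)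
    (hB : ∀ a b, h.coeff (a, b) ≠ 0 → b < P + Q + 2) :
    (chiU P * chiU Q * h).coeff (0, 0) - (chiU P * chiU Q * h).coeff (0, 2) =
      (mon 0 ((Q : ℤ) - P) * h).coeff (0, 0) := by
  have hneg : ∀ f : A, flip f = f → ∀ a b, f.coeff (a, b) = f.coeff (a, -b) := by
    intro f hf a b
    conv_lhs => rw [← hf]
    rw [coeff_flip]
  have h1 : (chiU P * chiU Q * h).coeff (0, 0) - (chiU P * chiU Q * h).coeff (0, 2) =
      (((1 - mon 0 (-2)) * chiU P) * (chiU Q * h)).coeff (0, 0) := by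
    have e : ((1 - mon 0 (-2)) * chiU P) * (chiU Q * h) =
        chiU P * chiU Q * h - mon 0 (-2) * (chiU P * chiU Q * h) := by ring
    rw [e]
    simp only [AddMonoidAlgebra.coeff_sub, Finsupp.coe_sub, Pi.sub_apply, coeff_mon_mul]
    norm_num
  have hQ : flip (chiU Q * h) = chiU Q * h := by rw [map_mul, flip_chiU, hs]
  have h2 : (((1 - mon 0 (-2)) * chiU P) * (chiU Q * h)).coeff (0, 0) =
      ((mon 0 (P : ℤ) * ((1 - mon 0 2) * chiU Q)) * h).coeff (0, 0) := by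
    rw [one_sub_mul_chiU]
    have e : (mon 0 (P : ℤ) * ((1 - mon 0 2) * chiU Q)) * h =
        mon 0 (P : ℤ) * (chiU Q * h) - mon 0 ((P : ℤ) + 2) * (chiU Q * h) := by
      have : mon 0 ((P : ℤ) + 2) = mon 0 (P : ℤ) * mon 0 2 := by rw [mon_mul]; simp
      rw [this]; ring
    rw [e, sub_mul]
    simp only [AddMonoidAlgebra.coeff_sub, Finsupp.coe_sub, Pi.sub_apply, coeff_mon_mul]
    rw [hneg _ hQ (0 - 0) (0 - (-(P : ℤ) - 2))]
    congr 3
    ring
  rw [h1, h2, one_sub_mul_chiU', mul_sub, sub_mul, mon_mul, mon_mul]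
  simp only [AddMonoidAlgebra.coeff_sub, Finsupp.coe_sub, Pi.sub_apply, coeff_mon_mul]
  have h3 : h.coeff (0 - (0 + 0), 0 - ((P : ℤ) + ((Q : ℤ) + 2))) = 0 := by
    by_contra hne
    rw [hneg h hs] at hne
    have := hB _ _ hne
    omega
  rw [h3, sub_zero, hneg h hs (0 - 0) (0 - ((Q : ℤ) - P))]
  have e : (0 - (0 + 0), 0 - ((P : ℤ) + -(Q : ℤ))) = ((0 - 0 : ℤ), -(0 - ((Q : ℤ) - P))) := by
    ext <;> simp
    ring
  rw [e]

/-! ### supports and the main identity -/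

lemma coeff_mon (a b : ℤ) (p : ℤ × ℤ) (h : (mon a b).coeff p ≠ 0) : p = (a, b) := by
  rw [mon, AddMonoidAlgebra.coeff_single, Finsupp.single_apply] at h
  by_contra hne
  exact h (if_neg fun h2 => hne h2.symm)

lemma coeff_chiU (m : ℕ) (p : ℤ × ℤ) (h : (chiU m).coeff p ≠ 0) :
    p.1 = 0 ∧ -(m : ℤ) ≤ p.2 ∧ p.2 ≤ m := by
  rw [chiU, AddMonoidAlgebra.coeff_sum, Finsupp.finsetSum_apply] at h
  obtain ⟨q, hq, h⟩ := Finset.exists_ne_zero_of_sum_ne_zero h
  rw [Finset.mem_range] at hq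
  have := coeff_mon _ _ _ h
  rw [this]
  refine ⟨rfl, ?_, ?_⟩
  · simp
    try omega
  · simp
    try omega

lemma coeff_chiT (m : ℕ) (p : ℤ × ℤ) (h : (chiT m).coeff p ≠ 0) :
    p.2 = 0 ∧ -(m : ℤ) ≤ p.1 ∧ p.1 ≤ m := by
  rw [chiT, AddMonoidAlgebra.coeff_sum, Finsupp.finsetSum_apply] at h
  obtain ⟨q, hq, h⟩ := Finset.exists_ne_zero_of_sum_ne_zero h
  rw [Finset.mem_range] at hq
  have := coeff_mon _ _ _ h
  rw [this]
  refine ⟨rfl, ?_, ?_⟩
  · simp
    try omega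
  · simp
    try omega

lemma coeff_mul_ne_zero {f g : A} {p : ℤ × ℤ} (h : (f * g).coeff p ≠ 0) :
    ∃ p₁ p₂ : ℤ × ℤ, p₁ + p₂ = p ∧ f.coeff p₁ ≠ 0 ∧ g.coeff p₂ ≠ 0 := by
  classical
  rw [AddMonoidAlgebra.coeff_mul, Finsupp.sum] at h
  obtain ⟨p₁, hp, h⟩ := Finset.exists_ne_zero_of_sum_ne_zero h
  rw [Finsupp.sum] at h
  obtain ⟨p₂, hq, h⟩ := Finset.exists_ne_zero_of_sum_ne_zero h
  have h0 : p₁ + p₂ = p := by
    by_contra hne
    exact h (if_neg hne)
  exact ⟨p₁, p₂, h0, Finsupp.mem_support_iff.mp hp, Finsupp.mem_support_iff.mp hq⟩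

/-- `u`-exponents are bounded by `B + n` in the coefficient of `z^n` -/
def UB (B : ℕ) (n : ℕ) (_ j : ℤ) : Prop := j ≤ B + n

lemma sup_Hm (k : ℕ) : Sup (UB 0) (Hm k) := by
  intro n i j h
  rw [cf, Hm, PowerSeries.coeff_mk] at h
  obtain ⟨p₁, p₂, h0, h1, h2⟩ := coeff_mul_ne_zero h
  have h3 := coeff_chiT _ _ h1
  have h4 := coeff_chiU _ _ h2
  have h5 : p₁.2 + p₂.2 = j := congrArg Prod.snd h0
  unfold UB
  push_cast
  omega

lemma sup_Hp (k : ℕ) : Sup (UB k) (Hp k) := by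
  intro n i j h
  rw [cf, Hp, PowerSeries.coeff_mk] at h
  obtain ⟨p₁, p₂, h0, h1, h2⟩ := coeff_mul_ne_zero h
  have h3 := coeff_chiT _ _ h1
  have h4 := coeff_chiU _ _ h2
  have h5 : p₁.2 + p₂.2 = j := congrArg Prod.snd h0
  unfold UB
  push_cast at h4
  omega

lemma UB_add {B₁ B₂ n₁ n₂ : ℕ} {i₁ i₂ j₁ j₂ : ℤ} (h1 : UB B₁ n₁ i₁ j₁) (h2 : UB B₂ n₂ i₂ j₂) :
    UB (B₁ + B₂) (n₁ + n₂) (i₁ + i₂) (j₁ + j₂) := by
  unfold UB at *
  push_cast
  omega

lemma sup_pow {B : ℕ} {F : S} (hF : Sup (UB B) F) (m : ℕ) : Sup (UB (m * B)) (F ^ m) := by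
  induction m with
  | zero =>
    rw [pow_zero]
    refine Sup.one ?_
    unfold UB
    simp
  | succ m ih =>
    rw [pow_succ]
    refine (ih.mul hF fun _ _ _ _ _ _ h1 h2 => UB_add h1 h2).mono fun n i j h => ?_
    unfold UB at *
    push_cast at *
    linarith

/-- General form of BR4. -/
theorem br4_general (F : S) (c B k : ℕ) (hF : flipS F = F) (hs : Sup (UB B) F)
    (hB : B + k < 2 * c + 2) :
    cf (F * Hp c ^ 2) k 0 0 - cf (F * Hp c ^ 2) k 0 2 = cf (GG * F) k 0 0 := by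
  have hH : ∀ e, PowerSeries.coeff e (Hp c ^ 2) =
      ∑ p ∈ antidiagonal e, chiU (c + p.1) * chiU (c + p.2) * (chiT p.1 * chiT p.2) := by
    intro e
    rw [pow_two, PowerSeries.coeff_mul]
    refine Finset.sum_congr rfl fun p _ => ?_
    rw [Hp, PowerSeries.coeff_mk, PowerSeries.coeff_mk]
    ring
  have hL : ∀ b : ℤ, cf (F * Hp c ^ 2) k 0 b = ∑ x ∈ antidiagonal k, ∑ p ∈ antidiagonal x.2,
      (chiU (c + p.1) * chiU (c + p.2) * (chiT p.1 * chiT p.2 * PowerSeries.coeff x.1 F)).coeff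
        (0, b) := by
    intro b
    rw [cf, PowerSeries.coeff_mul, AddMonoidAlgebra.coeff_sum, Finsupp.finsetSum_apply]
    refine Finset.sum_congr rfl fun x _ => ?_
    rw [hH, Finset.mul_sum, AddMonoidAlgebra.coeff_sum, Finsupp.finsetSum_apply]
    refine Finset.sum_congr rfl fun p _ => ?_
    have e : PowerSeries.coeff x.1 F * (chiU (c + p.1) * chiU (c + p.2) * (chiT p.1 * chiT p.2)) =
        chiU (c + p.1) * chiU (c + p.2) * (chiT p.1 * chiT p.2 * PowerSeries.coeff x.1 F) := by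
      ring
    rw [e]
  have hR : cf (GG * F) k 0 0 = ∑ x ∈ antidiagonal k, ∑ p ∈ antidiagonal x.2,
      (mon 0 ((p.2 : ℤ) - p.1) * (chiT p.1 * chiT p.2 * PowerSeries.coeff x.1 F)).coeff
        (0, 0) := by
    rw [cf, mul_comm GG F, PowerSeries.coeff_mul, AddMonoidAlgebra.coeff_sum,
      Finsupp.finsetSum_apply]
    refine Finset.sum_congr rfl fun x _ => ?_
    rw [GG, PowerSeries.coeff_mk, Finset.mul_sum, AddMonoidAlgebra.coeff_sum,
      Finsupp.finsetSum_apply]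
    refine Finset.sum_congr rfl fun p _ => ?_
    have e : PowerSeries.coeff x.1 F * (chiT p.1 * chiT p.2 * mon 0 ((p.2 : ℤ) - p.1)) =
        mon 0 ((p.2 : ℤ) - p.1) * (chiT p.1 * chiT p.2 * PowerSeries.coeff x.1 F) := by
      ring
    rw [e]
  rw [hL, hL, hR, ← Finset.sum_sub_distrib]
  refine Finset.sum_congr rfl fun x hx => ?_
  rw [HasAntidiagonal.mem_antidiagonal] at hx
  rw [← Finset.sum_sub_distrib]
  refine Finset.sum_congr rfl fun p hp => ?_
  rw [HasAntidiagonal.mem_antidiagonal] at hp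
  have hFx : flip (PowerSeries.coeff x.1 F) = PowerSeries.coeff x.1 F := by
    rw [← coeff_flipS, hF]
  rw [core (c + p.1) (c + p.2) _ (by rw [map_mul, map_mul, flip_chiT, flip_chiT, hFx])]
  · have e : ((c + p.2 : ℕ) : ℤ) - ((c + p.1 : ℕ) : ℤ) = (p.2 : ℤ) - p.1 := by
      push_cast
      ring
    rw [e]
  · intro a b h
    obtain ⟨p₁, p₂, h0, h1, h2⟩ := coeff_mul_ne_zero h
    obtain ⟨q₁, q₂, h3, h4, h5⟩ := coeff_mul_ne_zero h1
    have e1 := (coeff_chiT _ _ h4).1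
    have e2 := (coeff_chiT _ _ h5).1
    have e3 := hs x.1 p₂.1 p₂.2 h2
    unfold UB at e3
    have e4 : p₁.2 + p₂.2 = b := congrArg Prod.snd h0
    have e5 : q₁.2 + q₂.2 = p₁.2 := congrArg Prod.snd h3
    push_cast
    omega

/-- **BR4** -/
theorem BR4 (n k : ℕ) :
    cf (Hm k ^ (2 * n + 1) * Hp k ^ (2 * n + 1) * Hp ((n + 1) * k) ^ 2) k 0 0 -
      cf (Hm k ^ (2 * n + 1) * Hp k ^ (2 * n + 1) * Hp ((n + 1) * k) ^ 2) k 0 2 =
    cf (GG * Hm k ^ (2 * n + 1) * Hp k ^ (2 * n + 1)) k 0 0 := by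
  rw [mul_assoc GG]
  refine br4_general _ ((n + 1) * k) ((2 * n + 1) * k) k ?_ ?_ ?_
  · rw [map_mul, map_pow, map_pow, flipS_Hm, flipS_Hp]
  · refine ((sup_pow (sup_Hm k) (2 * n + 1)).mul (sup_pow (sup_Hp k) (2 * n + 1))
      fun _ _ _ _ _ _ h1 h2 => UB_add h1 h2).mono fun m i j h => ?_
    unfold UB at *
    have e : (2 * n + 1) * 0 + (2 * n + 1) * k = (2 * n + 1) * k := by ring
    rw [e] at h
    exact h
  · have e : (2 * n + 1) * k + k = 2 * ((n + 1) * k) := by ring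
    omega

end

end Pool.Agent.KTT
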