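import Mathlib

/-!
KTT (MP_0df73a_co): the shape, the content, and the coupled pairs of two-row chains.

`N = 2n+1`, `c = (n+1)k`, `A = 2c`.
-/

set_option autoImplicit false

namespace Pool.Agent.KTT

open Finset

/-- row lengths of `λ` : two rows `2N+2`, then `2N` rows `N+1`. -/
def Lam (n i : ℕ) : ℕ := if i < 2 then 4 * n + 4 else if i < 4 * n + 4 then 2 * n + 2 else 0

/-- the content `μ` : `2` times `3(N+1)/2`, `N` times `N+2`, `N` times `N`, `2` times `(N+1)/2`. -/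
def Mu (n v : ℕ) : ℕ :=
  if v < 2 then 3 * n + 3 else if v < 2 * n + 3 then 2 * n + 3
    else if v < 4 * n + 4 then 2 * n + 1 else if v < 4 * n + 6 then n + 1 else 0

/-- states: a pair `((α₁, α₂), (β₁, β₂))` of two-row partitions. -/
abbrev St : Type := (ℕ × ℕ) × (ℕ × ℕ)

/-- interlacing of two-row partitions (`q/p` is a horizontal strip). -/
def Inter (p q : ℕ × ℕ) : Prop := p.1 ≤ q.1 ∧ p.2 ≤ q.2 ∧ q.2 ≤ p.1

/-- one letter `l = (x, y)`: for some `d`, `|α|` grows by `x + d` and `|β|` grows by `y + d`. -/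
def Step (l : ℕ × ℕ) (s s' : St) : Prop :=
  Inter s.1 s'.1 ∧ Inter s.2 s'.2 ∧
    ∃ d, s'.1.1 + s'.1.2 = s.1.1 + s.1.2 + (l.1 + d) ∧ s'.2.1 + s'.2.2 = s.2.1 + s.2.2 + (l.2 + d)

/-- paths from `s` to `e` with the letters `l` (constant `= e` from `l.length` on). -/
def IsPath (l : List (ℕ × ℕ)) (e s : St) (f : ℕ → St) : Prop :=
  f 0 = s ∧ (∀ i (h : i < l.length), Step l[i] (f i) (f (i + 1))) ∧ ∀ i, l.length ≤ i → f i = e

/-- the letters `2, ..., 2N+3`. -/
def letters (n k : ℕ) : List (ℕ × ℕ) :=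
  List.replicate (2 * n + 1) (k, 0) ++
    (List.replicate (2 * n + 1) (0, k) ++ List.replicate 2 (0, (n + 1) * k))

/-- the final state -/
def fin (n k : ℕ) : St := ((2 * ((n + 1) * k), 2 * ((n + 1) * k)), (2 * ((n + 1) * k), 2 * ((n + 1) * k)))

end Pool.Agent.KTT
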