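import Pool.Agent.Work.MP_0df73a_co.Four.Bij
import Pool.Agent.Work.MP_0df73a_co.KTT.Path

/-!
KTT (MP_0df73a_co): Gelfand-Tsetlin arrays of the shape `k * Lam n`, content `k * Mu n`, are pairs of
coupled two-row chains (`IsPath`).  With `c = (n+1)k`, the state at level `v + 2` is
`((G 0 - 2c, G 1 - 2c), (2c - G (v+1), 2c - G v))`.
-/

set_option autoImplicit false

namespace Pool.Agent.KTT

namespace GtAux

open Finset
open Pool.Agent.Work.MP_0df73a_co.Four (IsGT)

/-- the state of an array at level `v + 2` -/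
def toPath (c : ℕ) (G : ℕ → ℕ → ℕ) (v : ℕ) : St :=
  ((G 0 (v + 2) - 2 * c, G 1 (v + 2) - 2 * c),
    (if v = 0 then 0 else 2 * c - G (v + 1) (v + 2), if v ≤ 1 then 0 else 2 * c - G v (v + 2)))

/-- the array of a path -/
def ofPath (n c : ℕ) (f : ℕ → St) (i v : ℕ) : ℕ :=
  if v = 0 then 0
  else if v = 1 then (if i = 0 then 3 * c else 0)
  else if i = 0 then 2 * c + (f (v - 2)).1.1
  else if i = 1 then 2 * c + (f (v - 2)).1.2
  else if v ≤ i then 0
  else if v = i + 1 then 2 * c - (f (v - 2)).2.1
  else if v = i + 2 then 2 * c - (f (v - 2)).2.2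
  else if i < 4 * n + 4 then 2 * c else 0

/-- the structural facts shared by all arrays -/
structure Good (n c : ℕ) (G : ℕ → ℕ → ℕ) : Prop where
  one : G 0 1 = 3 * c
  z : ∀ i v, v ≤ i → G i v = 0
  full : ∀ i v, 2 ≤ i → i < 4 * n + 4 → i + 3 ≤ v → G i v = 2 * c
  out : ∀ i v, 4 * n + 4 ≤ i → G i v = 0
  le : ∀ i v, 2 ≤ i → G i v ≤ 2 * c
  ge0 : ∀ v, 2 ≤ v → 2 * c ≤ G 0 v
  ge1 : ∀ v, 2 ≤ v → 2 * c ≤ G 1 v

theorem sum_state {n c : ℕ} {G : ℕ → ℕ → ℕ} (h : Good n c G) (w : ℕ) (hw : w ≤ 4 * n + 4) :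
    ∑ i ∈ range (4 * n + 4), G i (w + 2) + ((toPath c G w).2.1 + (toPath c G w).2.2) =
      (w + 2) * (2 * c) + ((toPath c G w).1.1 + (toPath c G w).1.2) := by
  have h1 : ∑ i ∈ range (4 * n + 4), G i (w + 2) = ∑ i ∈ range (w + 2), G i (w + 2) := by
    rcases le_total (w + 2) (4 * n + 4) with hle | hle
    · symm
      refine Finset.sum_subset (range_subset_range.mpr hle) fun i _ hi => ?_
      exact h.z i _ (by simpa using hi)
    · refine Finset.sum_subset (range_subset_range.mpr hle) fun i _ hi => ?_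
      exact h.out i _ (by simpa using hi)
  rw [h1]
  have a0 := h.ge0 (w + 2) (by omega)
  have a1 := h.ge1 (w + 2) (by omega)
  rcases Nat.lt_or_ge w 2 with hw2 | hw2
  · interval_cases w
    · simp only [toPath, sum_range_succ, sum_range_zero] at *
      simp only [if_true, zero_le, Nat.zero_add] at *
      omega
    · have := h.le 2 3 le_rfl
      simp only [toPath, sum_range_succ, sum_range_zero] at *
      simp only [one_ne_zero, if_false, le_refl, if_true, Nat.reduceAdd, Nat.zero_add] at *
      omega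
  · obtain ⟨w', rfl⟩ : ∃ w', w = w' + 2 := ⟨w - 2, by omega⟩
    have h2 : ∑ i ∈ range (w' + 2), G i (w' + 2 + 2) =
        w' * (2 * c) + G 1 (w' + 2 + 2) + G 0 (w' + 2 + 2) := by
      rw [Finset.sum_range_succ', Finset.sum_range_succ']
      have h3 : ∑ i ∈ range w', G (i + 1 + 1) (w' + 2 + 2) = ∑ _i ∈ range w', 2 * c := by
        refine Finset.sum_congr rfl fun i hi => ?_
        rw [Finset.mem_range] at hi
        exact h.full _ _ (by omega) (by omega) (by omega)
      rw [h3, Finset.sum_const, Finset.card_range, smul_eq_mul]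
    rw [sum_range_succ, sum_range_succ, h2]
    have l1 := h.le (w' + 2) (w' + 2 + 2) (by omega)
    have l2 := h.le (w' + 2 + 1) (w' + 2 + 2) (by omega)
    have e : (w' + 2 + 2) * (2 * c) = w' * (2 * c) + 8 * c := by ring
    rw [e]
    simp only [toPath]
    rw [if_neg (by omega), if_neg (by omega)]
    change w' * (2 * c) + G 1 (w' + 2 + 2) + G 0 (w' + 2 + 2) + G (w' + 2) (w' + 2 + 2) +
      G (w' + 2 + 1) (w' + 2 + 2) + _ = _
    generalize w' * (2 * c) = q at *
    generalize G (w' + 2 + 1) (w' + 2 + 2) = g3 at *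
    generalize G (w' + 2) (w' + 2 + 2) = g2 at *
    generalize G 1 (w' + 2 + 2) = g1 at *
    generalize G 0 (w' + 2 + 2) = g0 at *
    clear h2 e
    omega

theorem letters_length (n k : ℕ) : (letters n k).length = 4 * n + 4 := by
  simp only [letters, List.length_append, List.length_replicate]
  omega

theorem letters_get (n k i : ℕ) (h : i < (letters n k).length) :
    (letters n k)[i] =
      if i < 2 * n + 1 then (k, 0) else if i < 4 * n + 2 then (0, k) else (0, (n + 1) * k) := by
  simp only [letters, List.getElem_append, List.length_replicate, List.getElem_replicate]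
  split_ifs <;> first | rfl | omega

/-- content and letters -/
theorem mu_letters (n k i : ℕ) (h : i < (letters n k).length) :
    k * Mu n (i + 2) + ((letters n k)[i]).2 = 2 * ((n + 1) * k) + ((letters n k)[i]).1 := by
  rw [letters_get]
  rw [letters_length] at h
  unfold Mu
  rw [if_neg (by omega)]
  by_cases h1 : i < 2 * n + 1
  · rw [if_pos (by omega), if_pos h1]
    ring
  · rw [if_neg (by omega), if_neg h1]
    by_cases h2 : i < 4 * n + 2
    · rw [if_pos (by omega), if_pos h2]
      ring
    · rw [if_neg (by omega), if_pos (by omega), if_neg h2]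
      ring

section gt

variable {n k : ℕ} {G : ℕ → ℕ → ℕ}

theorem Lam_le (n i : ℕ) (hi : 2 ≤ i) : Lam n i ≤ 2 * n + 2 := by
  unfold Lam
  rw [if_neg (by omega)]
  split_ifs <;> omega

theorem Lam_mid (n i : ℕ) (hi : 2 ≤ i) (h : i < 4 * n + 4) : Lam n i = 2 * n + 2 := by
  unfold Lam
  rw [if_neg (by omega), if_pos h]

theorem Lam_out (n i : ℕ) (h : 4 * n + 4 ≤ i) : Lam n i = 0 := by
  unfold Lam
  rw [if_neg (by omega), if_neg (by omega)]

theorem Lam_two (n i : ℕ) (h : i < 2) : Lam n i = 4 * n + 4 := by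
  unfold Lam
  rw [if_pos h]

theorem good_of_gt
    (hG : IsGT (fun i => k * Lam n i) (4 * n + 4) (4 * n + 6) (fun v => k * Mu n v) G) :
    Good n ((n + 1) * k) G ∧ G 0 2 + G 1 2 = 6 * ((n + 1) * k) ∧ G 1 2 ≤ 3 * ((n + 1) * k) := by
  have z : ∀ i v, v ≤ i → G i v = 0 := by
    intro i v hv
    have h := hG.diag (i - v) v 0
    rw [hG.zero, Nat.sub_add_cancel hv, Nat.zero_add] at h
    omega
  have one : G 0 1 = 3 * ((n + 1) * k) := by
    have h := hG.cont 1
    rw [Finset.sum_eq_single_of_mem 0 (by simp) (fun i _ hi => z i 1 (by omega))] at h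
    rw [h, Finset.sum_range_one]
    change k * Mu n 0 = _
    unfold Mu
    rw [if_pos (by omega)]
    ring
  have two : G 0 2 + G 1 2 = 6 * ((n + 1) * k) := by
    have h := hG.cont 2
    have h1 : ∑ i ∈ range 2, G i 2 = ∑ i ∈ range (4 * n + 4), G i 2 := by
      refine Finset.sum_subset (range_subset_range.mpr (by omega)) fun i _ hi => ?_
      exact z i _ (not_lt.mp fun hh => hi (Finset.mem_range.mpr hh))
    rw [← h1, Finset.sum_range_succ, Finset.sum_range_one, Finset.sum_range_succ,
      Finset.sum_range_one] at h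
    rw [h]
    change k * Mu n 0 + k * Mu n 1 = _
    unfold Mu
    rw [if_pos (by omega), if_pos (by omega)]
    ring
  have l0 : ∀ v, G 0 v ≤ 4 * ((n + 1) * k) := by
    intro v
    have h : G 0 v ≤ k * Lam n 0 := hG.le_top 0 v
    rw [Lam_two n 0 (by omega)] at h
    calc G 0 v ≤ k * (4 * n + 4) := h
      _ = 4 * ((n + 1) * k) := by ring
  have l1 : G 1 2 ≤ 3 * ((n + 1) * k) := by
    have h := hG.col 0 1
    rw [one] at h
    exact h
  refine ⟨⟨one, z, ?_, ?_, ?_, ?_, ?_⟩, two, l1⟩
  · intro i v hi1 hi2 hv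
    have h1 : G i v ≤ k * Lam n i := hG.le_top i v
    rw [Lam_mid n i hi1 hi2] at h1
    have h2 := hG.diag i (4 * n + 3 - i) (i + 3)
    have e1 : i + (4 * n + 3 - i) = 4 * n + 3 := by omega
    have e2 : i + 3 + (4 * n + 3 - i) = 4 * n + 6 := by omega
    rw [e1, e2, hG.top _ _ le_rfl] at h2
    change k * Lam n (4 * n + 3) ≤ _ at h2
    rw [Lam_mid n _ (by omega) (by omega)] at h2
    have h3 := hG.monotone i hv
    have e : k * (2 * n + 2) = 2 * ((n + 1) * k) := by ring
    omega
  · intro i v hi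
    have h1 : G i v ≤ k * Lam n i := hG.le_top i v
    rw [Lam_out n i hi] at h1
    omega
  · intro i v hi
    have h1 : G i v ≤ k * Lam n i := hG.le_top i v
    calc G i v ≤ k * Lam n i := h1
      _ ≤ k * (2 * n + 2) := Nat.mul_le_mul_left _ (Lam_le n i hi)
      _ = 2 * ((n + 1) * k) := by ring
  · intro v hv
    have := hG.monotone 0 hv
    have := l0 2
    omega
  · intro v hv
    have := hG.monotone 1 hv
    have := l0 2
    omega

theorem path_of_gt
    (hG : IsGT (fun i => k * Lam n i) (4 * n + 4) (4 * n + 6) (fun v => k * Mu n v) G) :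
    IsPath (letters n k) (fin n k)
      ((2 * ((n + 1) * k) - (G 1 2 - 2 * ((n + 1) * k)), G 1 2 - 2 * ((n + 1) * k)), (0, 0))
      (toPath ((n + 1) * k) G) := by
  obtain ⟨hg, h2, h3⟩ := good_of_gt hG
  set c := (n + 1) * k with hc
  have g0 := hg.ge0 2 le_rfl
  have g1 := hg.ge1 2 le_rfl
  refine ⟨?_, ?_, ?_⟩
  · simp only [toPath, Nat.zero_add, if_true, zero_le, Prod.mk.injEq, and_true]
    omega
  · intro i hi
    have hi' : i < 4 * n + 4 := by rwa [letters_length] at hi
    have m0 := hG.mono 0 (i + 2)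
    have m1 := hG.mono 1 (i + 2)
    have c0 := hG.col 0 (i + 2)
    have a0 := hg.ge0 (i + 2) (by omega)
    have a1 := hg.ge1 (i + 2) (by omega)
    have a2 := hg.ge1 (i + 3) (by omega)
    have hI2 : Inter (toPath c G i).2 (toPath c G (i + 1)).2 := by
      unfold Inter
      simp only [toPath]
      rw [if_neg (by omega : ¬ i + 1 = 0)]
      have d1 := hG.col (i + 1) (i + 2)
      have d2 := hG.col i (i + 2)
      have d3 := hG.mono (i + 1) (i + 2)
      refine ⟨?_, ?_, ?_⟩
      · split_ifs
        · omega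
        · change 2 * c - G (i + 1) (i + 2) ≤ 2 * c - G (i + 2) (i + 3)
          change G (i + 2) (i + 3) ≤ G (i + 1) (i + 2) at d1
          omega
      · split_ifs
        · omega
        · omega
        · omega
        · change 2 * c - G i (i + 2) ≤ 2 * c - G (i + 1) (i + 3)
          change G (i + 1) (i + 3) ≤ G i (i + 2) at d2
          omega
      · split_ifs
        · omega
        · omega
        · omega
        · change 2 * c - G (i + 1) (i + 3) ≤ 2 * c - G (i + 1) (i + 2)
          change G (i + 1) (i + 2) ≤ G (i + 1) (i + 3) at d3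
          omega
    have hI1 : Inter (toPath c G i).1 (toPath c G (i + 1)).1 := by
      unfold Inter
      simp only [toPath]
      change G 0 (i + 2) - 2 * c ≤ G 0 (i + 3) - 2 * c ∧ G 1 (i + 2) - 2 * c ≤ G 1 (i + 3) - 2 * c ∧
        G 1 (i + 3) - 2 * c ≤ G 0 (i + 2) - 2 * c
      change G 0 (i + 2) ≤ G 0 (i + 3) at m0
      change G 1 (i + 2) ≤ G 1 (i + 3) at m1
      change G 1 (i + 3) ≤ G 0 (i + 2) at c0
      omega
    refine ⟨hI1, hI2, ?_⟩
    have s1 := sum_state hg i (by omega)
    have s2 := sum_state hg (i + 1) (by omega)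
    have t1 := hG.cont (i + 2)
    have t2 := hG.cont (i + 3)
    rw [Finset.sum_range_succ (fun v => k * Mu n v) (i + 2), ← t1] at t2
    have hm := mu_letters n k i hi
    have hx : ((letters n k)[i]).1 = 0 ∨ ((letters n k)[i]).2 = 0 := by
      rw [letters_get]
      split_ifs <;> simp
    unfold Inter at hI1 hI2
    rw [← hc] at hm
    have e : (i + 1 + 2) * (2 * c) = (i + 2) * (2 * c) + 2 * c := by ring
    rw [e] at s2
    change _ = ∑ i_1 ∈ range (4 * n + 4), G i_1 (i + 2) + k * Mu n (i + 2) at t2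
    change ∑ i_1 ∈ range (4 * n + 4), G i_1 (i + 3) + _ = _ at s2
    rw [t2] at s2
    generalize ∑ i_1 ∈ range (4 * n + 4), G i_1 (i + 2) = T at *
    generalize k * Mu n (i + 2) = m at *
    generalize (i + 2) * (2 * c) = q at *
    generalize (toPath c G i) = s at *
    generalize (toPath c G (i + 1)) = s' at *
    generalize (letters n k)[i] = l at *
    rcases hx with hx | hx
    · refine ⟨s'.1.1 + s'.1.2 - (s.1.1 + s.1.2), ?_, ?_⟩ <;> omega
    · refine ⟨s'.2.1 + s'.2.2 - (s.2.1 + s.2.2), ?_, ?_⟩ <;> omega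
  · intro i hi
    rw [letters_length] at hi
    have t0 : G 0 (i + 2) = 4 * c := by
      rw [hG.top 0 (i + 2) (by omega), Lam_two n 0 (by omega), hc]
      ring
    have t1 : G 1 (i + 2) = 4 * c := by
      rw [hG.top 1 (i + 2) (by omega), Lam_two n 1 (by omega), hc]
      ring
    simp only [toPath, fin]
    rw [if_neg (by omega), if_neg (by omega), t0, t1, hg.out _ _ (by omega), hg.out _ _ (by omega),
      ← hc]
    simp only [Prod.mk.injEq, Nat.sub_zero, and_true]
    omega

end gt

section path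

variable {n k : ℕ} {f : ℕ → St} {y : ℕ}

/-- abbreviation for the set of paths from the start state with parameter `y` -/
def PathY (n k y : ℕ) (f : ℕ → St) : Prop :=
  IsPath (letters n k) (fin n k) ((2 * ((n + 1) * k) - y, y), (0, 0)) f

theorem PathY.step (h : PathY n k y f) (i : ℕ) (hi : i < 4 * n + 4) :
    Step (if i < 2 * n + 1 then (k, 0) else if i < 4 * n + 2 then (0, k) else (0, (n + 1) * k))
      (f i) (f (i + 1)) := by
  have h1 := h.2.1 i (by rw [letters_length]; exact hi)
  rwa [letters_get] at h1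

theorem PathY.last (h : PathY n k y f) (i : ℕ) (hi : 4 * n + 4 ≤ i) : f i = fin n k :=
  h.2.2 i (by rw [letters_length]; exact hi)

theorem PathY.mono (h : PathY n k y f) (i : ℕ) :
    (f i).1.1 ≤ (f (i + 1)).1.1 ∧ (f i).1.2 ≤ (f (i + 1)).1.2 ∧
    (f i).2.1 ≤ (f (i + 1)).2.1 ∧ (f i).2.2 ≤ (f (i + 1)).2.2 := by
  rcases Nat.lt_or_ge i (4 * n + 4) with hi | hi
  · obtain ⟨h1, h2, -⟩ := h.step i hi
    exact ⟨h1.1, h1.2.1, h2.1, h2.2.1⟩
  · rw [h.last i hi, h.last (i + 1) (by omega)]
    exact ⟨le_rfl, le_rfl, le_rfl, le_rfl⟩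

theorem PathY.le (h : PathY n k y f) (i : ℕ) :
    (f i).1.1 ≤ 2 * ((n + 1) * k) ∧ (f i).1.2 ≤ 2 * ((n + 1) * k) ∧
    (f i).2.1 ≤ 2 * ((n + 1) * k) ∧ (f i).2.2 ≤ 2 * ((n + 1) * k) := by
  have key : ∀ d, (f i).1.1 ≤ (f (i + d)).1.1 ∧ (f i).1.2 ≤ (f (i + d)).1.2 ∧
      (f i).2.1 ≤ (f (i + d)).2.1 ∧ (f i).2.2 ≤ (f (i + d)).2.2 := by
    intro d
    induction d with
    | zero => exact ⟨le_rfl, le_rfl, le_rfl, le_rfl⟩
    | succ d ih =>
      have := h.mono (i + d)
      rw [← Nat.add_assoc]
      omega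
  have h1 := key (4 * n + 4)
  rw [h.last (i + (4 * n + 4)) (by omega)] at h1
  exact h1

theorem PathY.zero (h : PathY n k y f) : f 0 = ((2 * ((n + 1) * k) - y, y), (0, 0)) := h.1

theorem PathY.be20 (h : PathY n k y f) : (f 0).2.1 = 0 ∧ (f 0).2.2 = 0 ∧ (f 1).2.2 = 0 := by
  have h0 := h.zero
  obtain ⟨-, h2, -⟩ := h.step 0 (by omega)
  have h3 := h2.2.2
  rw [h0] at h3 ⊢
  refine ⟨rfl, rfl, ?_⟩
  change (f 1).2.2 ≤ 0 at h3
  omega

theorem PathY.be1_last (h : PathY n k y f) : (f (4 * n + 3)).2.1 = 2 * ((n + 1) * k) := by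
  obtain ⟨-, h2, -⟩ := h.step (4 * n + 3) (by omega)
  have h3 := h2.2.2
  rw [h.last (4 * n + 3 + 1) (by omega)] at h3
  have h4 := (h.le (4 * n + 3)).2.2.1
  change 2 * ((n + 1) * k) ≤ _ at h3
  omega

section ev

variable (n c : ℕ) (f : ℕ → St)

theorem ofPath_z (i v : ℕ) (h : v ≤ i) : ofPath n c f i v = 0 := by
  unfold ofPath
  split_ifs <;> first | rfl | omega

theorem ofPath_01 : ofPath n c f 0 1 = 3 * c := by
  simp [ofPath]

theorem ofPath_r0 (w : ℕ) : ofPath n c f 0 (w + 2) = 2 * c + (f w).1.1 := by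
  unfold ofPath
  rw [if_neg (by omega), if_neg (by omega), if_pos rfl, Nat.add_sub_cancel]

theorem ofPath_r1 (w : ℕ) : ofPath n c f 1 (w + 2) = 2 * c + (f w).1.2 := by
  unfold ofPath
  rw [if_neg (by omega), if_neg (by omega), if_neg (by omega), if_pos rfl, Nat.add_sub_cancel]

theorem ofPath_d1 (w : ℕ) (h : 1 ≤ w) : ofPath n c f (w + 1) (w + 2) = 2 * c - (f w).2.1 := by
  unfold ofPath
  rw [if_neg (by omega), if_neg (by omega), if_neg (by omega), if_neg (by omega),
    if_neg (by omega), if_pos rfl, Nat.add_sub_cancel]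

theorem ofPath_d2 (w : ℕ) (h : 2 ≤ w) : ofPath n c f w (w + 2) = 2 * c - (f w).2.2 := by
  unfold ofPath
  rw [if_neg (by omega), if_neg (by omega), if_neg (by omega), if_neg (by omega),
    if_neg (by omega), if_neg (by omega), if_pos rfl, Nat.add_sub_cancel]

theorem ofPath_full (i v : ℕ) (h : 2 ≤ i) (hv : i + 3 ≤ v) :
    ofPath n c f i v = if i < 4 * n + 4 then 2 * c else 0 := by
  unfold ofPath
  rw [if_neg (by omega), if_neg (by omega), if_neg (by omega), if_neg (by omega),
    if_neg (by omega), if_neg (by omega), if_neg (by omega)]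

end ev

theorem good_of_path (h : PathY n k y f) :
    Good n ((n + 1) * k) (ofPath n ((n + 1) * k) f) := by
  have hb := h.be1_last
  have hlast := h.last
  have hfin : fin n k = ((2 * ((n + 1) * k), 2 * ((n + 1) * k)),
    (2 * ((n + 1) * k), 2 * ((n + 1) * k))) := rfl
  rw [hfin] at hlast
  generalize (n + 1) * k = c at *
  refine ⟨ofPath_01 _ _ _, ofPath_z _ _ _, ?_, ?_, ?_, ?_, ?_⟩
  · intro i v h1 h2 h3
    rw [ofPath_full _ _ _ i v h1 h3, if_pos h2]
  · intro i v hi
    rcases Nat.lt_or_ge i v with h1 | h1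
    · rcases Nat.lt_or_ge (i + 2) v with h2 | h2
      · rw [ofPath_full _ _ _ i v (by omega) h2, if_neg (by omega)]
      · rcases Nat.lt_or_ge (i + 1) v with h3 | h3
        · have e : v = i + 2 := by omega
          subst e
          rw [ofPath_d2 _ _ _ i (by omega), hlast i hi]
          exact Nat.sub_self _
        · obtain ⟨i', rfl⟩ : ∃ i', i = i' + 1 := ⟨i - 1, by omega⟩
          have e : v = i' + 2 := by omega
          subst e
          rw [ofPath_d1 _ _ _ i' (by omega)]
          rcases Nat.lt_or_ge i' (4 * n + 4) with h4 | h4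
          · have e : i' = 4 * n + 3 := by omega
            rw [e, hb]
            exact Nat.sub_self _
          · rw [hlast i' h4]
            exact Nat.sub_self _
    · exact ofPath_z _ _ _ i v h1
  · intro i v hi
    rcases Nat.lt_or_ge i v with h1 | h1
    · rcases Nat.lt_or_ge (i + 2) v with h2 | h2
      · rw [ofPath_full _ _ _ i v (by omega) h2]
        split_ifs <;> omega
      · rcases Nat.lt_or_ge (i + 1) v with h3 | h3
        · have e : v = i + 2 := by omega
          subst e
          rw [ofPath_d2 _ _ _ i (by omega)]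
          exact Nat.sub_le _ _
        · obtain ⟨i', rfl⟩ : ∃ i', i = i' + 1 := ⟨i - 1, by omega⟩
          have e : v = i' + 2 := by omega
          subst e
          rw [ofPath_d1 _ _ _ i' (by omega)]
          exact Nat.sub_le _ _
    · rw [ofPath_z _ _ _ i v h1]
      exact Nat.zero_le _
  · intro v hv
    obtain ⟨w, rfl⟩ : ∃ w, v = w + 2 := ⟨v - 2, by omega⟩
    rw [ofPath_r0]
    exact Nat.le_add_right _ _
  · intro v hv
    obtain ⟨w, rfl⟩ : ∃ w, v = w + 2 := ⟨v - 2, by omega⟩
    rw [ofPath_r1]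
    exact Nat.le_add_right _ _

theorem toPath_ofPath (h : PathY n k y f) :
    toPath ((n + 1) * k) (ofPath n ((n + 1) * k) f) = f := by
  have hz := h.be20
  have hle := h.le
  generalize hc : (n + 1) * k = c at *
  funext v
  unfold toPath
  have e1 := ofPath_r0 n c f v
  have e2 := ofPath_r1 n c f v
  have e3 : v ≠ 0 → ofPath n c f (v + 1) (v + 2) = 2 * c - (f v).2.1 :=
    fun hv => ofPath_d1 n c f v (by omega)
  have e4 : ¬ v ≤ 1 → ofPath n c f v (v + 2) = 2 * c - (f v).2.2 :=
    fun hv => ofPath_d2 n c f v (by omega)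
  have hl := hle v
  rw [e1, e2]
  have e5 : (if v = 0 then 0 else 2 * c - ofPath n c f (v + 1) (v + 2)) = (f v).2.1 := by
    split_ifs with hv
    · rw [hv]
      exact hz.1.symm
    · rw [e3 hv]
      omega
  have e6 : (if v ≤ 1 then 0 else 2 * c - ofPath n c f v (v + 2)) = (f v).2.2 := by
    split_ifs with hv
    · rcases Nat.lt_or_ge v 1 with h0 | h0
      · have : v = 0 := by omega
        rw [this]
        exact hz.2.1.symm
      · have : v = 1 := by omega
        rw [this]
        exact hz.2.2.symm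
    · rw [e4 hv]
      omega
  rw [e5, e6]
  refine Prod.ext (Prod.ext ?_ ?_) rfl
  · change 2 * c + (f v).1.1 - 2 * c = (f v).1.1
    omega
  · change 2 * c + (f v).1.2 - 2 * c = (f v).1.2
    omega

theorem content_sum (h : PathY n k y f) (hy : y ≤ (n + 1) * k) (w : ℕ) (hw : w ≤ 4 * n + 4) :
    ∑ u ∈ range (w + 2), k * Mu n u + ((f w).2.1 + (f w).2.2) =
      (w + 2) * (2 * ((n + 1) * k)) + ((f w).1.1 + (f w).1.2) := by
  induction w with
  | zero =>
    rw [Finset.sum_range_succ, Finset.sum_range_one, h.zero]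
    unfold Mu
    rw [if_pos (by omega), if_pos (by omega)]
    have e : k * (3 * n + 3) = 3 * ((n + 1) * k) := by ring
    rw [e]
    change 3 * ((n + 1) * k) + 3 * ((n + 1) * k) + (0 + 0) =
      (0 + 2) * (2 * ((n + 1) * k)) + (2 * ((n + 1) * k) - y + y)
    omega
  | succ w ih =>
    have ih := ih (by omega)
    have hl : w < (letters n k).length := by
      rw [letters_length]
      omega
    obtain ⟨-, -, d, d1, d2⟩ := h.2.1 w hl
    have hm := mu_letters n k w hl
    have e0 : ∑ u ∈ range (w + 1 + 2), k * Mu n u =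
        ∑ u ∈ range (w + 2), k * Mu n u + k * Mu n (w + 2) := Finset.sum_range_succ _ (w + 2)
    rw [e0]
    have e : (w + 1 + 2) * (2 * ((n + 1) * k)) =
        (w + 2) * (2 * ((n + 1) * k)) + 2 * ((n + 1) * k) := by ring
    rw [e]
    generalize ∑ u ∈ range (w + 2), k * Mu n u = T at *
    generalize k * Mu n (w + 2) = m at *
    generalize (w + 2) * (2 * ((n + 1) * k)) = q at *
    generalize (n + 1) * k = c at *
    generalize (letters n k)[w] = l at *
    omega

theorem gt_of_path (h : PathY n k y f) (hy : y ≤ (n + 1) * k) :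
    IsGT (fun i => k * Lam n i) (4 * n + 4) (4 * n + 6) (fun v => k * Mu n v)
      (ofPath n ((n + 1) * k) f) := by
  have hg := good_of_path h
  have hle := h.le
  have hmono := h.mono
  have hlast := h.last
  have h0 := h.zero
  have hI : ∀ w, (f (w + 1)).1.2 ≤ (f w).1.1 ∧ (f (w + 1)).2.2 ≤ (f w).2.1 := by
    intro w
    rcases Nat.lt_or_ge w (4 * n + 4) with hv2 | hv2
    · obtain ⟨h1, h2, -⟩ := h.step w hv2
      exact ⟨h1.2.2, h2.2.2⟩
    · rw [hlast w hv2, hlast (w + 1) (by omega)]
      exact ⟨le_rfl, le_rfl⟩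
  have htp := toPath_ofPath h
  have hcs := content_sum h hy
  have hss := sum_state hg
  rw [htp] at hss
  have hfin : fin n k = ((2 * ((n + 1) * k), 2 * ((n + 1) * k)),
    (2 * ((n + 1) * k), 2 * ((n + 1) * k))) := rfl
  have hL : ∀ i, k * Lam n i = if i < 2 then 4 * ((n + 1) * k) else
      if i < 4 * n + 4 then 2 * ((n + 1) * k) else 0 := by
    intro i
    unfold Lam
    split_ifs <;> ring
  rw [hfin] at hlast
  have htop : ∀ i v, 4 * n + 6 ≤ v → ofPath n ((n + 1) * k) f i v = k * Lam n i := by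
    intro i v hv
    rw [hL]
    obtain ⟨w, rfl⟩ : ∃ w, v = w + 2 := ⟨v - 2, by omega⟩
    rcases Nat.lt_or_ge i 2 with hi | hi
    · rw [if_pos hi]
      interval_cases i
      · rw [ofPath_r0, hlast w (by omega)]
        simp only
        ring
      · rw [ofPath_r1, hlast w (by omega)]
        simp only
        ring
    · rw [if_neg (by omega)]
      split_ifs with hi2
      · exact hg.full i _ hi hi2 (by omega)
      · exact hg.out i _ (by omega)
  refine ⟨fun i => hg.z i 0 (Nat.zero_le _), ?_, htop, ?_, ?_⟩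
  · intro i v
    rcases Nat.lt_or_ge i v with h1 | h1
    swap
    · rw [hg.z i v h1]
      exact Nat.zero_le _
    rcases Nat.lt_or_ge v 2 with hv | hv
    · have e1 : v = 1 := by omega
      have e2 : i = 0 := by omega
      subst e1 e2
      rw [hg.one, ofPath_r0, h0]
      change _ ≤ 2 * ((n + 1) * k) + (2 * ((n + 1) * k) - y)
      omega
    · obtain ⟨w, rfl⟩ : ∃ w, v = w + 2 := ⟨v - 2, by omega⟩
      have hm := hmono w
      rcases Nat.lt_or_ge i 2 with hi | hi
      · interval_cases i
        · rw [ofPath_r0, ofPath_r0 n _ f (w + 1)]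
          omega
        · rw [ofPath_r1, ofPath_r1 n _ f (w + 1)]
          omega
      · rcases Nat.lt_or_ge (i + 1) (w + 2) with h3 | h3
        · rcases Nat.lt_or_ge (i + 2) (w + 2) with h4 | h4
          · rw [ofPath_full _ _ _ i _ hi h4, ofPath_full _ _ _ i _ hi (by omega)]
          · have e : i = w := by omega
            subst e
            rw [ofPath_full _ _ _ i (i + 2 + 1) hi (by omega), ofPath_d2 _ _ _ i hi]
            split_ifs with h5
            · exact Nat.sub_le _ _
            · rw [hlast i (by omega)]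
              exact (Nat.sub_self _).le
        · have e : i = w + 1 := by omega
          subst e
          rw [ofPath_d1 _ _ _ w (by omega), ofPath_d2 n _ f (w + 1) hi]
          have := (hI w).2
          omega
  · intro i v
    rcases Nat.lt_or_ge i v with h1 | h1
    swap
    · rw [hg.z (i + 1) (v + 1) (by omega)]
      exact Nat.zero_le _
    rcases Nat.lt_or_ge v 2 with hv | hv
    · have e1 : v = 1 := by omega
      have e2 : i = 0 := by omega
      subst e1 e2
      rw [hg.one, ofPath_r1, h0]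
      change 2 * ((n + 1) * k) + y ≤ _
      omega
    · obtain ⟨w, rfl⟩ : ∃ w, v = w + 2 := ⟨v - 2, by omega⟩
      have hm := hmono w
      rcases Nat.lt_or_ge i 2 with hi | hi
      · interval_cases i
        · rw [ofPath_r0]
          have := ofPath_r1 n ((n + 1) * k) f (w + 1)
          have := (hI w).1
          change ofPath n ((n + 1) * k) f 1 (w + 1 + 2) ≤ _
          omega
        · have a1 := hg.le 2 (w + 2 + 1) le_rfl
          have a2 := hg.ge1 (w + 2) (by omega)
          exact a1.trans a2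
      · rcases Nat.lt_or_ge (i + 1) (w + 2) with h3 | h3
        · rcases Nat.lt_or_ge (i + 2) (w + 2) with h4 | h4
          · rw [ofPath_full _ _ _ i _ hi h4, ofPath_full _ _ _ (i + 1) _ (by omega) (by omega)]
            split_ifs <;> omega
          · have e : i = w := by omega
            subst e
            have e2 := ofPath_d2 n ((n + 1) * k) f (i + 1) (by omega)
            change ofPath n ((n + 1) * k) f (i + 1) (i + 1 + 2) ≤ _
            rw [e2, ofPath_d2 _ _ _ i hi]
            omega
        · have e : i = w + 1 := by omega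
          subst e
          have e2 := ofPath_d1 n ((n + 1) * k) f (w + 1) (by omega)
          change ofPath n ((n + 1) * k) f (w + 1 + 1) (w + 1 + 2) ≤ _
          rw [e2, ofPath_d1 _ _ _ w (by omega)]
          omega
  · intro v
    rcases Nat.lt_or_ge v 2 with hv | hv
    · interval_cases v
      · rw [Finset.sum_range_zero]
        exact Finset.sum_eq_zero fun i _ => hg.z i 0 (Nat.zero_le _)
      · rw [Finset.sum_eq_single_of_mem 0 (by simp) (fun i _ hi => hg.z i 1 (by omega)), hg.one,
          Finset.sum_range_one]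
        unfold Mu
        rw [if_pos (by omega)]
        ring
    · obtain ⟨w, rfl⟩ : ∃ w, v = w + 2 := ⟨v - 2, by omega⟩
      rcases Nat.lt_or_ge (4 * n + 4) w with hw | hw
      · have h1 := hcs (4 * n + 4) le_rfl
        have h2 := hss (4 * n + 4) le_rfl
        have e1 : ∑ i ∈ range (4 * n + 4), ofPath n ((n + 1) * k) f i (w + 2) =
            ∑ i ∈ range (4 * n + 4), ofPath n ((n + 1) * k) f i (4 * n + 4 + 2) := by
          refine Finset.sum_congr rfl fun i _ => ?_
          rw [htop i (w + 2) (by omega), htop i (4 * n + 4 + 2) (by omega)]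
        have e2 : ∑ u ∈ range (w + 2), k * Mu n u = ∑ u ∈ range (4 * n + 4 + 2), k * Mu n u := by
          symm
          refine Finset.sum_subset (range_subset_range.mpr (by omega)) fun u _ hu => ?_
          have : 4 * n + 6 ≤ u := not_lt.mp fun hh => hu (Finset.mem_range.mpr hh)
          unfold Mu
          rw [if_neg (by omega), if_neg (by omega), if_neg (by omega), if_neg (by omega), mul_zero]
        rw [e1, e2]
        omega
      · have h1 := hcs w hw
        have h2 := hss w hw
        omega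

end path

theorem ofPath_toPath {n k : ℕ} {G : ℕ → ℕ → ℕ}
    (hG : IsGT (fun i => k * Lam n i) (4 * n + 4) (4 * n + 6) (fun v => k * Mu n v) G) :
    ofPath n ((n + 1) * k) (toPath ((n + 1) * k) G) = G := by
  obtain ⟨hg, -, -⟩ := good_of_gt hG
  generalize hc : (n + 1) * k = c at *
  funext i v
  rcases Nat.lt_or_ge i v with h1 | h1
  swap
  · rw [ofPath_z _ _ _ i v h1, hg.z i v h1]
  rcases Nat.lt_or_ge v 2 with hv | hv
  · have e1 : v = 1 := by omega
    have e2 : i = 0 := by omega
    subst e1 e2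
    rw [ofPath_01, hg.one]
  · obtain ⟨w, rfl⟩ : ∃ w, v = w + 2 := ⟨v - 2, by omega⟩
    rcases Nat.lt_or_ge i 2 with hi | hi
    · interval_cases i
      · rw [ofPath_r0]
        have := hg.ge0 (w + 2) (by omega)
        simp only [toPath]
        omega
      · rw [ofPath_r1]
        have := hg.ge1 (w + 2) (by omega)
        simp only [toPath]
        omega
    · rcases Nat.lt_or_ge (i + 1) (w + 2) with h3 | h3
      · rcases Nat.lt_or_ge (i + 2) (w + 2) with h4 | h4
        · rw [ofPath_full _ _ _ i _ hi h4]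
          split_ifs with h5
          · exact (hg.full i _ hi h5 h4).symm
          · exact (hg.out i _ (by omega)).symm
        · have e : i = w := by omega
          subst e
          rw [ofPath_d2 _ _ _ i hi]
          have := hg.le i (i + 2) hi
          simp only [toPath]
          rw [if_neg (by omega : ¬ i ≤ 1)]
          omega
      · have e : i = w + 1 := by omega
        subst e
        rw [ofPath_d1 _ _ _ w (by omega)]
        have := hg.le (w + 1) (w + 2) hi
        simp only [toPath]
        rw [if_neg (by omega : ¬ w = 0)]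
        omega

theorem finite_path (n k y : ℕ) : Finite {f : ℕ → St // PathY n k y f} := by
  classical
  let B : Set St := {s | s.1.1 ≤ 2 * ((n + 1) * k) ∧ s.1.2 ≤ 2 * ((n + 1) * k) ∧
    s.2.1 ≤ 2 * ((n + 1) * k) ∧ s.2.2 ≤ 2 * ((n + 1) * k)}
  have hB : B.Finite := by
    refine Set.Finite.subset
      (((Set.finite_Iic (2 * ((n + 1) * k))).prod (Set.finite_Iic (2 * ((n + 1) * k)))).prod
      ((Set.finite_Iic (2 * ((n + 1) * k))).prod (Set.finite_Iic (2 * ((n + 1) * k))))) ?_
    rintro s ⟨h1, h2, h3, h4⟩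
    exact ⟨⟨h1, h2⟩, ⟨h3, h4⟩⟩
  have : Finite B := hB
  let g : {f : ℕ → St // PathY n k y f} → (Fin (4 * n + 4) → B) := fun f i =>
    ⟨f.1 i, f.2.le i⟩
  refine Finite.of_injective g ?_
  rintro ⟨f1, h1⟩ ⟨f2, h2⟩ h
  refine Subtype.ext (funext fun i => ?_)
  change f1 i = f2 i
  rcases Nat.lt_or_ge i (4 * n + 4) with hi | hi
  · have := congrFun h ⟨i, hi⟩
    exact congrArg Subtype.val this
  · rw [h1.last i hi, h2.last i hi]

theorem sig_ext {α β : Type*} {P : α → β → Prop} (p q : Σ a, {b // P a b}) (h1 : p.1 = q.1)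
    (h2 : p.2.1 = q.2.1) : p = q := by
  obtain ⟨a, b, hb⟩ := p
  obtain ⟨a', b', hb'⟩ := q
  change a = a' at h1
  change b = b' at h2
  subst h1
  subst h2
  rfl

end GtAux

open Finset GtAux
open Pool.Agent.Work.MP_0df73a_co.Four (IsGT)

/-- **BR2b.** -/
theorem card_gt_path (n k : ℕ) :
    Nat.card {G : ℕ → ℕ → ℕ //
        IsGT (fun i => k * Lam n i) (4 * n + 4) (4 * n + 6) (fun v => k * Mu n v) G} =
      ∑ y ∈ range ((n + 1) * k + 1),
        Nat.card {f : ℕ → St //
          IsPath (letters n k) (fin n k) ((2 * ((n + 1) * k) - y, y), (0, 0)) f} := by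
  rw [Finset.sum_range]
  have : ∀ y : Fin ((n + 1) * k + 1), Finite {f : ℕ → St //
      IsPath (letters n k) (fin n k) ((2 * ((n + 1) * k) - y, y), (0, 0)) f} :=
    fun y => finite_path n k y
  rw [← Nat.card_sigma]
  refine Nat.card_congr ?_
  refine
    { toFun := fun G => ⟨⟨G.1 1 2 - 2 * ((n + 1) * k), ?_⟩, ⟨toPath ((n + 1) * k) G.1, ?_⟩⟩
      invFun := fun p => ⟨ofPath n ((n + 1) * k) p.2.1, ?_⟩
      left_inv := ?_
      right_inv := ?_ }
  · have := (good_of_gt G.2).2.2
    omega
  · exact path_of_gt G.2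
  · exact gt_of_path (y := p.1) p.2.2 (by have := p.1.2; omega)
  · rintro ⟨G, hG⟩
    exact Subtype.ext (ofPath_toPath hG)
  · rintro ⟨⟨y, hy⟩, ⟨f, hf⟩⟩
    have h1 : toPath ((n + 1) * k) (ofPath n ((n + 1) * k) f) = f := toPath_ofPath (y := y) hf
    have h2 : ofPath n ((n + 1) * k) f 1 2 - 2 * ((n + 1) * k) = y := by
      rw [ofPath_r1]
      have h3 : f 0 = ((2 * ((n + 1) * k) - y, y), (0, 0)) := hf.1
      rw [h3]
      change 2 * ((n + 1) * k) + y - _ = y
      omega
    exact sig_ext (P := fun y : Fin ((n + 1) * k + 1) => IsPath (letters n k) (fin n k)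
      ((2 * ((n + 1) * k) - y, y), (0, 0))) _ _ (Fin.ext h2) h1

end Pool.Agent.KTT
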