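import Pool.Agent.Work.MP_0df73a_co.KTT.BridgeSkel
import Pool.Agent.Work.MP_0df73a_co.KTT.Gt

/-!
KTT (MP_0df73a_co): the bridge, in the form of `Spec.lean`.
-/

set_option autoImplicit false

namespace Pool.Agent.KTT

theorem bridge (n k : ℕ) (hk : 1 ≤ k) (D : YoungDiagram)
    (hD : ∀ i j : ℕ, (i, j) ∈ D ↔ j < k * laRow n i) :
    ((Nat.card {T : SemistandardYoungTableau D //
        ∀ v : ℕ, Nat.card {c : ℕ × ℕ // c ∈ D ∧ T c.1 c.2 = v} = k * muRow n v} : ℕ) : ℚ) =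
      cf (GG * Hm k ^ (2 * n + 1) * Hp k ^ (2 * n + 1)) k 0 0 :=
  bridge_of (fun n k _ => card_gt_path n k) n k hk D hD

end Pool.Agent.KTT
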