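import Pool.Agent.Work.MP_0df73a_co.KTT.Defs
import Pool.Agent.Work.MP_0df73a_co.KTT.Path

/-!
KTT (MP_0df73a_co), BR3: the number of coupled pairs of two-row chains as a coefficient.
-/

set_option autoImplicit false

namespace Pool.Agent.KTT.Cnt

open PowerSeries Finset Pool.Agent.KTT

noncomputable section

/-- the series of the letter `(x, y)` -/
def Ser (x y : ℕ) : S := PowerSeries.mk fun d => chiT (x + d) * chiU (y + d)

lemma Ser_eq_Hm (k : ℕ) : Ser k 0 = Hm k := by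
  ext1 d; simp [Ser, Hm]

lemma Ser_eq_Hp (k : ℕ) : Ser 0 k = Hp k := by
  ext1 d; simp [Ser, Hp]

/-- the product of the letter series -/
def prodSer (l : List (ℕ × ℕ)) : S := (l.map fun p => Ser p.1 p.2).prod

@[simp] lemma prodSer_nil : prodSer [] = 1 := rfl

@[simp] lemma prodSer_cons (p : ℕ × ℕ) (l : List (ℕ × ℕ)) :
    prodSer (p :: l) = Ser p.1 p.2 * prodSer l := by simp [prodSer]

lemma coeff_mon_mul (i j : ℤ) (f : A) (a b : ℤ) :
    (mon i j * f).coeff (a, b) = f.coeff (a - i, b - j) := by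
  rw [mon, AddMonoidAlgebra.coeff_single_mul_eq_mul_coeff (m₂ := (a - i, b - j))]
  · simp
  · rintro ⟨c, d⟩ _
    constructor
    · intro h
      have := Prod.mk.inj h
      ext <;> simp <;> omega
    · intro h
      have := Prod.mk.inj h
      ext <;> simp <;> omega

lemma coeff_chi_mul (m m' : ℕ) (f : A) (a b : ℤ) :
    (chiT m * chiU m' * f).coeff (a, b) =
      ∑ p ∈ range (m + 1), ∑ q ∈ range (m' + 1),
        f.coeff (a + 2 * p - m, b + 2 * q - m') := by
  rw [mul_assoc, chiT, Finset.sum_mul, AddMonoidAlgebra.coeff_sum, Finsupp.finsetSum_apply]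
  refine Finset.sum_congr rfl fun p _ => ?_
  rw [coeff_mon_mul, chiU, Finset.sum_mul, AddMonoidAlgebra.coeff_sum, Finsupp.finsetSum_apply]
  refine Finset.sum_congr rfl fun q _ => ?_
  rw [coeff_mon_mul]
  congr 2
  · ring
  · ring

lemma cf_Ser_mul (x y : ℕ) (F : S) (D : ℕ) (a b : ℤ) :
    cf (Ser x y * F) D a b = ∑ d ∈ range (D + 1), ∑ p ∈ range (x + d + 1),
      ∑ q ∈ range (y + d + 1), cf F (D - d) (a + 2 * p - (x + d : ℕ)) (b + 2 * q - (y + d : ℕ)) := by
  rw [cf, PowerSeries.coeff_mul, AddMonoidAlgebra.coeff_sum, Finsupp.finsetSum_apply,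
    Finset.Nat.sum_antidiagonal_eq_sum_range_succ_mk]
  refine Finset.sum_congr rfl fun d _ => ?_
  simp only [Ser, PowerSeries.coeff_mk]
  rw [coeff_chi_mul]
  rfl

/-! ### symmetry and degree -/

lemma symT_Ser_mul {F : S} (hF : ∀ n a b, cf F n (-a) b = cf F n a b) (x y : ℕ) (n : ℕ) (a b : ℤ) :
    cf (Ser x y * F) n (-a) b = cf (Ser x y * F) n a b := by
  rw [cf_Ser_mul, cf_Ser_mul]
  refine Finset.sum_congr rfl fun d _ => ?_
  rw [← Finset.sum_range_reflect]
  refine Finset.sum_congr rfl fun p hp => ?_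
  rw [Finset.mem_range] at hp
  refine Finset.sum_congr rfl fun q _ => ?_
  rw [← hF]
  congr 1
  have : ((x + d + 1 - 1 - p : ℕ) : ℤ) = (x + d : ℕ) - p := by
    rw [Nat.add_sub_cancel, Nat.cast_sub (by omega)]
  rw [this]
  ring

lemma symU_Ser_mul {F : S} (hF : ∀ n a b, cf F n a (-b) = cf F n a b) (x y : ℕ) (n : ℕ) (a b : ℤ) :
    cf (Ser x y * F) n a (-b) = cf (Ser x y * F) n a b := by
  rw [cf_Ser_mul, cf_Ser_mul]
  refine Finset.sum_congr rfl fun d _ => ?_
  refine Finset.sum_congr rfl fun p _ => ?_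
  rw [← Finset.sum_range_reflect]
  refine Finset.sum_congr rfl fun q hq => ?_
  rw [Finset.mem_range] at hq
  rw [← hF]
  congr 1
  have : ((y + d + 1 - 1 - q : ℕ) : ℤ) = (y + d : ℕ) - q := by
    rw [Nat.add_sub_cancel, Nat.cast_sub (by omega)]
  rw [this]
  ring

lemma symT_prodSer (l : List (ℕ × ℕ)) (n : ℕ) (a b : ℤ) :
    cf (prodSer l) n (-a) b = cf (prodSer l) n a b := by
  induction l generalizing n a b with
  | nil =>
    rw [prodSer_nil, cf_one, cf_one]
    refine if_congr ?_ rfl rfl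
    rw [neg_eq_zero]
  | cons p l ih =>
    rw [prodSer_cons]
    exact symT_Ser_mul ih _ _ n a b

lemma symU_prodSer (l : List (ℕ × ℕ)) (n : ℕ) (a b : ℤ) :
    cf (prodSer l) n a (-b) = cf (prodSer l) n a b := by
  induction l generalizing n a b with
  | nil =>
    rw [prodSer_nil, cf_one, cf_one]
    refine if_congr ?_ rfl rfl
    rw [neg_eq_zero]
  | cons p l ih =>
    rw [prodSer_cons]
    exact symU_Ser_mul ih _ _ n a b

/-- the sum of the first entries -/
def sx (l : List (ℕ × ℕ)) : ℕ := (l.map Prod.fst).sum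
/-- the sum of the second entries -/
def sy (l : List (ℕ × ℕ)) : ℕ := (l.map Prod.snd).sum

@[simp] lemma sx_nil : sx [] = 0 := rfl
@[simp] lemma sy_nil : sy [] = 0 := rfl
@[simp] lemma sx_cons (p : ℕ × ℕ) (l : List (ℕ × ℕ)) : sx (p :: l) = p.1 + sx l := by simp [sx]
@[simp] lemma sy_cons (p : ℕ × ℕ) (l : List (ℕ × ℕ)) : sy (p :: l) = p.2 + sy l := by simp [sy]

lemma degT_prodSer (l : List (ℕ × ℕ)) (n : ℕ) (a b : ℤ) (h : (sx l : ℤ) + n < |a|) :
    cf (prodSer l) n a b = 0 := by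
  induction l generalizing n a b with
  | nil =>
    rw [prodSer_nil, cf_one, if_neg]
    rintro ⟨-, rfl, -⟩
    simp at h
    omega
  | cons p l ih =>
    rw [prodSer_cons, cf_Ser_mul]
    refine Finset.sum_eq_zero fun d hd => Finset.sum_eq_zero fun i hi =>
      Finset.sum_eq_zero fun q _ => ih _ _ _ ?_
    rw [Finset.mem_range] at hd hi
    rw [sx_cons] at h
    push_cast at h ⊢
    rw [Nat.cast_sub (by omega)]
    rw [lt_abs] at h ⊢
    rcases h with h | h
    · left; omega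
    · right; omega

lemma degU_prodSer (l : List (ℕ × ℕ)) (n : ℕ) (a b : ℤ) (h : (sy l : ℤ) + n < |b|) :
    cf (prodSer l) n a b = 0 := by
  induction l generalizing n a b with
  | nil =>
    rw [prodSer_nil, cf_one, if_neg]
    rintro ⟨-, -, rfl⟩
    simp at h
    omega
  | cons p l ih =>
    rw [prodSer_cons, cf_Ser_mul]
    refine Finset.sum_eq_zero fun d hd => Finset.sum_eq_zero fun i _ =>
      Finset.sum_eq_zero fun q hq => ih _ _ _ ?_
    rw [Finset.mem_range] at hd hq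
    rw [sy_cons] at h
    push_cast at h ⊢
    rw [Nat.cast_sub (by omega)]
    rw [lt_abs] at h ⊢
    rcases h with h | h
    · left; omega
    · right; omega

/-! ### the antisymmetrised coefficient -/

/-- the antisymmetrised coefficient -/
def AS (F : S) (D : ℕ) (a b : ℤ) : ℚ :=
  (cf F D a b - cf F D (a + 2) b) - (cf F D a (b + 2) - cf F D (a + 2) (b + 2))

/-- the reflection identity in one variable -/
lemma refl1 (w : ℤ → ℚ) (hw : ∀ e, w (-e) = w e) (m a : ℕ) :
    ∑ p ∈ range (m + 1), (w ((a : ℤ) + 2 * p - m) - w ((a : ℤ) + 2 * p - m + 2)) =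
      ∑ p ∈ range (m + 1), if m ≤ a + p then
        (w ((a : ℤ) + 2 * p - m) - w ((a : ℤ) + 2 * p - m + 2)) else 0 := by
  rcases Nat.le_total m a with h | h
  · refine Finset.sum_congr rfl fun p _ => ?_
    rw [if_pos (by omega)]
  · -- the terms `p < m - a` telescope to zero
    have hsplit : ∀ g : ℕ → ℚ, ∑ p ∈ range (m + 1), g p =
        ∑ p ∈ range (m - a), g p + ∑ p ∈ Finset.Ico (m - a) (m + 1), g p := by
      intro g
      rw [Finset.range_eq_Ico, Finset.range_eq_Ico, Finset.sum_Ico_consecutive _ (by omega) (by omega)]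
    rw [hsplit, hsplit]
    have h1 : ∑ p ∈ range (m - a), (w ((a : ℤ) + 2 * p - m) - w ((a : ℤ) + 2 * p - m + 2)) = 0 := by
      have := Finset.sum_range_sub' (fun p : ℕ => w ((a : ℤ) + 2 * p - m)) (m - a)
      have h2 : ∀ p ∈ range (m - a), (w ((a : ℤ) + 2 * p - m) - w ((a : ℤ) + 2 * p - m + 2)) =
          (fun p : ℕ => w ((a : ℤ) + 2 * p - m)) p - (fun p : ℕ => w ((a : ℤ) + 2 * p - m)) (p + 1) := by
        intro p _
        simp only
        congr 2
        push_cast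
        ring
      rw [Finset.sum_congr rfl h2, this, sub_eq_zero, ← hw]
      congr 1
      push_cast [Nat.cast_sub h]
      ring
    have h3 : ∑ p ∈ range (m - a), (if m ≤ a + p then
        (w ((a : ℤ) + 2 * p - m) - w ((a : ℤ) + 2 * p - m + 2)) else 0) = 0 := by
      refine Finset.sum_eq_zero fun p hp => ?_
      rw [Finset.mem_range] at hp
      rw [if_neg (by omega)]
    rw [h1, h3]
    congr 1
    refine Finset.sum_congr rfl fun p hp => ?_
    rw [Finset.mem_Ico] at hp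
    rw [if_pos (by omega)]

lemma AS_Ser_mul {F : S} (hT : ∀ n a b, cf F n (-a) b = cf F n a b)
    (hU : ∀ n a b, cf F n a (-b) = cf F n a b) (x y D a b : ℕ) :
    AS (Ser x y * F) D a b = ∑ d ∈ range (D + 1), ∑ p ∈ range (x + d + 1),
      ∑ q ∈ range (y + d + 1), if x + d ≤ a + p ∧ y + d ≤ b + q then
        AS F (D - d) ((a : ℤ) + 2 * p - (x + d : ℕ)) ((b : ℤ) + 2 * q - (y + d : ℕ)) else 0 := by
  have h0 : AS (Ser x y * F) D a b = ∑ d ∈ range (D + 1), ∑ p ∈ range (x + d + 1),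
      ∑ q ∈ range (y + d + 1),
        AS F (D - d) ((a : ℤ) + 2 * p - (x + d : ℕ)) ((b : ℤ) + 2 * q - (y + d : ℕ)) := by
    simp only [AS, cf_Ser_mul, ← Finset.sum_sub_distrib]
    refine Finset.sum_congr rfl fun d _ => Finset.sum_congr rfl fun p _ =>
      Finset.sum_congr rfl fun q _ => ?_
    congr 1 <;> congr 1 <;> congr 1 <;> ring
  rw [h0]
  refine Finset.sum_congr rfl fun d _ => ?_
  -- the variable `a`
  set W : ℤ → ℚ := fun e => ∑ q ∈ range (y + d + 1),
    (cf F (D - d) e ((b : ℤ) + 2 * q - (y + d : ℕ)) - cf F (D - d) e ((b : ℤ) + 2 * q - (y + d : ℕ) + 2))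
    with hW
  have h1 := refl1 W (fun e => by simp only [hW, hT]) (x + d) a
  have h2 : ∀ p : ℕ, ∑ q ∈ range (y + d + 1),
        AS F (D - d) ((a : ℤ) + 2 * p - (x + d : ℕ)) ((b : ℤ) + 2 * q - (y + d : ℕ)) =
      W ((a : ℤ) + 2 * p - (x + d : ℕ)) - W ((a : ℤ) + 2 * p - (x + d : ℕ) + 2) := by
    intro p
    simp only [hW, AS, ← Finset.sum_sub_distrib]
    refine Finset.sum_congr rfl fun q _ => ?_
    ring
  simp only [h2]
  rw [h1]
  refine Finset.sum_congr rfl fun p _ => ?_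
  by_cases hp : x + d ≤ a + p
  · rw [if_pos hp, ← h2]
    set V : ℤ → ℚ := fun e => cf F (D - d) ((a : ℤ) + 2 * p - (x + d : ℕ)) e -
      cf F (D - d) ((a : ℤ) + 2 * p - (x + d : ℕ) + 2) e with hV
    have h3 := refl1 V (fun e => by simp only [hV, hU]) (y + d) b
    have h4 : ∀ q : ℕ, AS F (D - d) ((a : ℤ) + 2 * p - (x + d : ℕ)) ((b : ℤ) + 2 * q - (y + d : ℕ)) =
      V ((b : ℤ) + 2 * q - (y + d : ℕ)) - V ((b : ℤ) + 2 * q - (y + d : ℕ) + 2) := by
      intro q; simp only [hV, AS]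
    simp only [h4]
    rw [h3]
    refine Finset.sum_congr rfl fun q _ => ?_
    simp [hp]
  · rw [if_neg hp]
    symm
    refine Finset.sum_eq_zero fun q _ => ?_
    rw [if_neg (fun h => hp h.1)]

/-! ### counting paths -/

lemma Inter.size_le {p q : ℕ × ℕ} (h : Inter p q) : p.1 + p.2 ≤ q.1 + q.2 := by
  have := h.1; have := h.2.1; omega

lemma path_size {l : List (ℕ × ℕ)} {e s : St} {f : ℕ → St} (hf : IsPath l e s f) :
    ∃ D, s.1.1 + s.1.2 + sx l + D = e.1.1 + e.1.2 ∧ s.2.1 + s.2.2 + sy l + D = e.2.1 + e.2.2 := by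
  induction l generalizing s f with
  | nil =>
    have h0 := hf.1
    have h1 := hf.2.2 0 (by simp)
    rw [h0] at h1
    subst h1
    exact ⟨0, by simp, by simp⟩
  | cons p l ih =>
    have hs := hf.2.1 0 (by simp)
    simp only [List.getElem_cons_zero, zero_add] at hs
    rw [hf.1] at hs
    obtain ⟨-, -, d, h1, h2⟩ := hs
    have hf' : IsPath l e (f 1) (fun i => f (i + 1)) := by
      refine ⟨rfl, fun i h => ?_, fun i h => ?_⟩
      · have := hf.2.1 (i + 1) (by simpa using h)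
        simpa using this
      · exact hf.2.2 (i + 1) (by simpa using h)
    obtain ⟨D, h3, h4⟩ := ih hf'
    refine ⟨D + d, ?_, ?_⟩
    · rw [sx_cons]; omega
    · rw [sy_cons]; omega

lemma isPath_cons_iff (p : ℕ × ℕ) (l : List (ℕ × ℕ)) (e s : St) (f : ℕ → St) :
    IsPath (p :: l) e s f ↔ f 0 = s ∧ Step p s (f 1) ∧ IsPath l e (f 1) (fun i => f (i + 1)) := by
  constructor
  · intro hf
    refine ⟨hf.1, ?_, rfl, fun i h => ?_, fun i h => ?_⟩
    · have hs := hf.2.1 0 (by simp)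
      simp only [List.getElem_cons_zero, zero_add] at hs
      rwa [hf.1] at hs
    · have := hf.2.1 (i + 1) (by simpa using h)
      simpa using this
    · exact hf.2.2 (i + 1) (by simpa using h)
  · rintro ⟨h0, h1, -, h2, h3⟩
    refine ⟨h0, fun i h => ?_, fun i h => ?_⟩
    · cases i with
      | zero => simpa [h0] using h1
      | succ i =>
        have := h2 i (by simpa using h)
        simpa using this
    · cases i with
      | zero => simp at h
      | succ i => exact h3 i (by simpa using h)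

/-- the next state -/
def nxt (l : ℕ × ℕ) (s : St) (t : ℕ × ℕ × ℕ) : St :=
  ((s.1.1 + t.2.1, s.1.2 + (l.1 + t.1) - t.2.1), (s.2.1 + t.2.2, s.2.2 + (l.2 + t.1) - t.2.2))

/-- admissible parameters -/
def Adm (l : ℕ × ℕ) (s : St) (D : ℕ) : Finset (ℕ × ℕ × ℕ) :=
  ((range (D + 1)).biUnion fun d => (range (l.1 + d + 1) ×ˢ range (l.2 + d + 1)).image
    fun pq => (d, pq.1, pq.2)).filter fun t =>
      s.1.2 + (l.1 + t.1) ≤ s.1.1 + t.2.1 ∧ s.2.2 + (l.2 + t.1) ≤ s.2.1 + t.2.2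

lemma mem_Adm (l : ℕ × ℕ) (s : St) (D : ℕ) (t : ℕ × ℕ × ℕ) :
    t ∈ Adm l s D ↔ t.1 ≤ D ∧ t.2.1 ≤ l.1 + t.1 ∧ t.2.2 ≤ l.2 + t.1 ∧
      s.1.2 + (l.1 + t.1) ≤ s.1.1 + t.2.1 ∧ s.2.2 + (l.2 + t.1) ≤ s.2.1 + t.2.2 := by
  obtain ⟨d, p, q⟩ := t
  simp only [Adm, Finset.mem_filter, Finset.mem_biUnion, Finset.mem_image, Finset.mem_product,
    Finset.mem_range, Prod.mk.injEq]
  constructor
  · rintro ⟨⟨d', hd, ⟨p', q'⟩, ⟨hp, hq⟩, rfl, rfl, rfl⟩, h1, h2⟩
    simp only at hp hq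
    exact ⟨by omega, by omega, by omega, h1, h2⟩
  · rintro ⟨h1, h2, h3, h4, h5⟩
    exact ⟨⟨d, by omega, (p, q), ⟨by simp only; omega, by simp only; omega⟩, rfl, rfl, rfl⟩, h4, h5⟩

lemma sum_Adm (l : ℕ × ℕ) (s : St) (D : ℕ) (g : ℕ × ℕ × ℕ → ℚ) :
    ∑ t ∈ Adm l s D, g t = ∑ d ∈ range (D + 1), ∑ p ∈ range (l.1 + d + 1),
      ∑ q ∈ range (l.2 + d + 1), if s.1.2 + (l.1 + d) ≤ s.1.1 + p ∧ s.2.2 + (l.2 + d) ≤ s.2.1 + q
        then g (d, p, q) else 0 := by
  rw [Adm, Finset.sum_filter, Finset.sum_biUnion]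
  · refine Finset.sum_congr rfl fun d _ => ?_
    rw [Finset.sum_image, Finset.sum_product]
    rintro ⟨p, q⟩ _ ⟨p', q'⟩ _ h
    simp only [Prod.mk.injEq, true_and] at h
    exact Prod.ext h.1 h.2
  · intro d _ d' _ hne
    rw [Function.onFun, Finset.disjoint_left]
    intro t h1 h2
    rw [Finset.mem_image] at h1 h2
    obtain ⟨pq, -, rfl⟩ := h1
    obtain ⟨pq', -, h⟩ := h2
    simp only [Prod.mk.injEq] at h
    exact hne h.1.symm

/-- prepend a state -/
def consF (s : St) (g : ℕ → St) : ℕ → St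
  | 0 => s
  | i + 1 => g i

lemma consF_zero (s : St) (g : ℕ → St) : consF s g 0 = s := rfl
lemma consF_one (s : St) (g : ℕ → St) : consF s g 1 = g 0 := rfl

/-- peeling the first step -/
def pathEquiv (p : ℕ × ℕ) (l : List (ℕ × ℕ)) (e s : St) (D : ℕ)
    (h1 : s.1.1 + s.1.2 + sx (p :: l) + D = e.1.1 + e.1.2)
    (h2 : s.2.1 + s.2.2 + sy (p :: l) + D = e.2.1 + e.2.2) :
    {f : ℕ → St // IsPath (p :: l) e s f} ≃
      (t : ↥(Adm p s D)) × {f : ℕ → St // IsPath l e (nxt p s t) f} := by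
  have key : ∀ f : ℕ → St, IsPath (p :: l) e s f →
      ((f 1).1.1 + (f 1).1.2 - (s.1.1 + s.1.2) - p.1, (f 1).1.1 - s.1.1, (f 1).2.1 - s.2.1) ∈ Adm p s D
      ∧ nxt p s ((f 1).1.1 + (f 1).1.2 - (s.1.1 + s.1.2) - p.1, (f 1).1.1 - s.1.1,
        (f 1).2.1 - s.2.1) = f 1 := by
    intro f hf
    rw [isPath_cons_iff] at hf
    obtain ⟨-, ⟨⟨i1, i2, i3⟩, ⟨j1, j2, j3⟩, d, hd1, hd2⟩, hf⟩ := hf
    obtain ⟨D', h3, h4⟩ := path_size hf
    rw [sx_cons] at h1
    rw [sy_cons] at h2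
    constructor
    · rw [mem_Adm]
      simp only
      omega
    · simp only [nxt]
      ext <;> simp only <;> omega
  refine
    { toFun := fun f => ⟨⟨_, (key f.1 f.2).1⟩, ⟨fun i => f.1 (i + 1), ?_⟩⟩
      invFun := fun x => ⟨consF s x.2.1, ?_⟩
      left_inv := ?_
      right_inv := ?_ }
  · simp only
    rw [(key f.1 f.2).2]
    exact ((isPath_cons_iff p l e s f.1).mp f.2).2.2
  · rw [isPath_cons_iff]
    have hx := (mem_Adm _ _ _ _).mp x.1.2
    have hx1 := x.2.2
    refine ⟨rfl, ?_, ?_⟩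
    · rw [consF_one, hx1.1]
      refine ⟨⟨?_, ?_, ?_⟩, ⟨?_, ?_, ?_⟩, x.1.1.1, ?_, ?_⟩ <;> simp only [nxt] <;> omega
    · rw [consF_one, hx1.1]
      exact hx1
  · intro f
    apply Subtype.ext
    funext i
    cases i with
    | zero => exact f.2.1.symm
    | succ i => rfl
  · intro x
    obtain ⟨⟨⟨d, a, b⟩, ht⟩, ⟨f, hf⟩⟩ := x
    have hx := (mem_Adm _ _ _ _).mp ht
    have h0 := hf.1
    simp only at hx
    have hkey : ((f 0).1.1 + (f 0).1.2 - (s.1.1 + s.1.2) - p.1, (f 0).1.1 - s.1.1, (f 0).2.1 - s.2.1) =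
        (d, a, b) := by
      rw [h0]
      simp only [nxt, Prod.mk.injEq]
      omega
    refine Sigma.ext (Subtype.ext hkey) ?_
    refine (Subtype.heq_iff_coe_eq ?_).mpr rfl
    intro g
    have h5 : ((consF s f 1).1.1 + (consF s f 1).1.2 - (s.1.1 + s.1.2) - p.1,
        (consF s f 1).1.1 - s.1.1, (consF s f 1).2.1 - s.2.1) = (d, a, b) := hkey
    simp only
    rw [h5]

lemma path_finite (l : List (ℕ × ℕ)) (e s : St) : Finite {f : ℕ → St // IsPath l e s f} := by
  induction l generalizing s with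
  | nil =>
    have : Subsingleton {f : ℕ → St // IsPath [] e s f} :=
      ⟨fun f g => Subtype.ext (funext fun i => by
        rw [f.2.2.2 i (by simp), g.2.2.2 i (by simp)])⟩
    infer_instance
  | cons p l ih =>
    by_cases h : Nonempty {f : ℕ → St // IsPath (p :: l) e s f}
    · obtain ⟨D, h1, h2⟩ := path_size h.some.2
      exact Finite.of_equiv _ (pathEquiv p l e s D h1 h2).symm
    · rw [not_nonempty_iff] at h
      infer_instance

theorem path_count (l : List (ℕ × ℕ)) (c : ℕ) (s : St) (D : ℕ)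
    (hα : s.1.2 ≤ s.1.1) (hβ : s.2.2 ≤ s.2.1)
    (h1 : s.1.1 + s.1.2 + sx l + D = c + c) (h2 : s.2.1 + s.2.2 + sy l + D = c + c) :
    (Nat.card {f : ℕ → St // IsPath l ((c, c), (c, c)) s f} : ℚ) =
      AS (prodSer l) D (s.1.1 - s.1.2 : ℕ) (s.2.1 - s.2.2 : ℕ) := by
  induction l generalizing s D with
  | nil =>
    rw [prodSer_nil]
    simp only [sx_nil, sy_nil, add_zero] at h1 h2
    have hc : ∀ (n : ℕ) (x y : ℤ), 0 < x → cf 1 n x y = 0 := by
      intro n x y hx
      rw [cf_one, if_neg]; rintro ⟨-, rfl, -⟩; omega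
    have hc' : ∀ (n : ℕ) (x y : ℤ), 0 < y → cf 1 n x y = 0 := by
      intro n x y hx
      rw [cf_one, if_neg]; rintro ⟨-, -, rfl⟩; omega
    rw [AS, hc D (((s.1.1 - s.1.2 : ℕ) : ℤ) + 2) ((s.2.1 - s.2.2 : ℕ) : ℤ) (by omega),
      hc D (((s.1.1 - s.1.2 : ℕ) : ℤ) + 2) (((s.2.1 - s.2.2 : ℕ) : ℤ) + 2) (by omega),
      hc' D ((s.1.1 - s.1.2 : ℕ) : ℤ) (((s.2.1 - s.2.2 : ℕ) : ℤ) + 2) (by omega), sub_zero, sub_zero,
      sub_zero, cf_one]
    by_cases hs : s = ((c, c), (c, c))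
    · subst hs
      simp only at h1 h2
      have : Unique {f : ℕ → St // IsPath [] ((c, c), (c, c)) ((c, c), (c, c)) f} :=
        { default := ⟨fun _ => ((c, c), (c, c)), rfl, by simp, fun _ _ => rfl⟩
          uniq := fun f => Subtype.ext (funext fun i => by rw [f.2.2.2 i (by simp)]) }
      rw [Nat.card_unique, if_pos ⟨by omega, by simp, by simp⟩, Nat.cast_one]
    · have : IsEmpty {f : ℕ → St // IsPath [] ((c, c), (c, c)) s f} :=
        ⟨fun f => hs (by rw [← f.2.1, f.2.2.2 0 (by simp)])⟩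
      rw [Nat.card_of_isEmpty, if_neg, Nat.cast_zero]
      rintro ⟨hD, ha, hb⟩
      apply hs
      obtain ⟨⟨s1, s2⟩, ⟨s3, s4⟩⟩ := s
      simp only at h1 h2 ha hb hα hβ
      simp only [Prod.mk.injEq]
      omega
  | cons p l ih =>
    have hfin : ∀ t : ↥(Adm p s D), Finite {f : ℕ → St // IsPath l ((c, c), (c, c)) (nxt p s t) f} :=
      fun t => path_finite _ _ _
    rw [Nat.card_congr (pathEquiv p l ((c, c), (c, c)) s D h1 h2), Nat.card_sigma, Nat.cast_sum,
      Finset.sum_coe_sort (Adm p s D)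
        (fun t => (Nat.card {f : ℕ → St // IsPath l ((c, c), (c, c)) (nxt p s t) f} : ℚ))]
    have h3 : ∀ t ∈ Adm p s D,
        (Nat.card {f : ℕ → St // IsPath l ((c, c), (c, c)) (nxt p s t) f} : ℚ) =
        AS (prodSer l) (D - t.1) (((s.1.1 - s.1.2 : ℕ) : ℤ) + 2 * t.2.1 - (p.1 + t.1 : ℕ))
          (((s.2.1 - s.2.2 : ℕ) : ℤ) + 2 * t.2.2 - (p.2 + t.1 : ℕ)) := by
      intro t ht
      rw [mem_Adm] at ht
      rw [sx_cons] at h1
      rw [sy_cons] at h2
      rw [ih (nxt p s t) (D - t.1) (by simp only [nxt]; omega) (by simp only [nxt]; omega)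
        (by simp only [nxt]; omega) (by simp only [nxt]; omega)]
      congr 1
      · simp only [nxt]; omega
      · simp only [nxt]; omega
    rw [Finset.sum_congr rfl h3, sum_Adm p s D (fun t =>
        AS (prodSer l) (D - t.1) (((s.1.1 - s.1.2 : ℕ) : ℤ) + 2 * t.2.1 - (p.1 + t.1 : ℕ))
          (((s.2.1 - s.2.2 : ℕ) : ℤ) + 2 * t.2.2 - (p.2 + t.1 : ℕ))), prodSer_cons,
      AS_Ser_mul (symT_prodSer l) (symU_prodSer l)]
    refine Finset.sum_congr rfl fun d _ => Finset.sum_congr rfl fun i _ =>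
      Finset.sum_congr rfl fun q _ => ?_
    refine if_congr ?_ rfl rfl
    omega

/-! ### the count for the KTT shapes -/

lemma sx_append (l l' : List (ℕ × ℕ)) : sx (l ++ l') = sx l + sx l' := by simp [sx]
lemma sy_append (l l' : List (ℕ × ℕ)) : sy (l ++ l') = sy l + sy l' := by simp [sy]
lemma sx_replicate (m : ℕ) (p : ℕ × ℕ) : sx (List.replicate m p) = m * p.1 := by simp [sx]
lemma sy_replicate (m : ℕ) (p : ℕ × ℕ) : sy (List.replicate m p) = m * p.2 := by simp [sy]

lemma sx_letters (n k : ℕ) : sx (letters n k) = (2 * n + 1) * k := by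
  simp [letters, sx_append, sx_replicate]

lemma sy_letters (n k : ℕ) : sy (letters n k) = (2 * n + 1) * k + 2 * ((n + 1) * k) := by
  simp [letters, sy_append, sy_replicate]
  ring

lemma prodSer_append (l l' : List (ℕ × ℕ)) : prodSer (l ++ l') = prodSer l * prodSer l' := by
  simp [prodSer]

lemma prodSer_replicate (m : ℕ) (p : ℕ × ℕ) : prodSer (List.replicate m p) = Ser p.1 p.2 ^ m := by
  simp [prodSer]

lemma prodSer_letters (n k : ℕ) : prodSer (letters n k) =
    Hm k ^ (2 * n + 1) * Hp k ^ (2 * n + 1) * Hp ((n + 1) * k) ^ 2 := by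
  rw [letters, prodSer_append, prodSer_append, prodSer_replicate, prodSer_replicate,
    prodSer_replicate, Ser_eq_Hm, Ser_eq_Hp, Ser_eq_Hp, mul_assoc]

/-- BR3: the number of all paths is the difference of two coefficients. -/
theorem sum_path_count (n k : ℕ) :
    ((∑ y ∈ range ((n + 1) * k + 1), Nat.card {f : ℕ → St //
      IsPath (letters n k) (KTT.fin n k) ((2 * ((n + 1) * k) - y, y), (0, 0)) f} : ℕ) : ℚ) =
      cf (Hm k ^ (2 * n + 1) * Hp k ^ (2 * n + 1) * Hp ((n + 1) * k) ^ 2) k 0 0 -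
      cf (Hm k ^ (2 * n + 1) * Hp k ^ (2 * n + 1) * Hp ((n + 1) * k) ^ 2) k 0 2 := by
  rw [← prodSer_letters, Nat.cast_sum]
  set c := (n + 1) * k with hc
  have hkey : (2 * n + 1) * k + k = 2 * c := by rw [hc]; ring
  have h1 : ∀ y ∈ range (c + 1), (Nat.card {f : ℕ → St //
      IsPath (letters n k) (KTT.fin n k) ((2 * c - y, y), (0, 0)) f} : ℚ) =
      AS (prodSer (letters n k)) k (2 * (c - y : ℕ) : ℕ) 0 := by
    intro y hy
    rw [Finset.mem_range] at hy
    have := path_count (letters n k) (2 * c) ((2 * c - y, y), (0, 0)) k (by simp only; omega)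
      (by simp) (by rw [sx_letters]; simp only; omega) (by rw [sy_letters]; simp only; omega)
    rw [show KTT.fin n k = ((2 * c, 2 * c), (2 * c, 2 * c)) from rfl, this]
    congr 1
    simp only
    omega
  rw [Finset.sum_congr rfl h1, ← Finset.sum_range_reflect]
  have h2 : ∀ j ∈ range (c + 1), AS (prodSer (letters n k)) k (2 * (c - (c + 1 - 1 - j) : ℕ) : ℕ) 0 =
      (fun j : ℕ => cf (prodSer (letters n k)) k (2 * j : ℤ) 0 -
        cf (prodSer (letters n k)) k (2 * j : ℤ) 2) j -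
      (fun j : ℕ => cf (prodSer (letters n k)) k (2 * j : ℤ) 0 -
        cf (prodSer (letters n k)) k (2 * j : ℤ) 2) (j + 1) := by
    intro j hj
    rw [Finset.mem_range] at hj
    have e1 : c - (c + 1 - 1 - j) = j := by omega
    rw [e1, AS]
    push_cast
    rw [show (2 * ((j : ℤ) + 1)) = 2 * j + 2 by ring]
    ring
  rw [Finset.sum_congr rfl h2, Finset.sum_range_sub']
  have h3 : ∀ b : ℤ, cf (prodSer (letters n k)) k (2 * ((c + 1 : ℕ) : ℤ)) b = 0 := by
    intro b
    apply degT_prodSer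
    rw [sx_letters, abs_of_nonneg (by positivity)]
    push_cast
    have : ((2 * n + 1) * k + k : ℤ) = 2 * c := by exact_mod_cast hkey
    linarith
  rw [h3, h3]
  simp

end

end Pool.Agent.KTT.Cnt
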