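import Pool.Agent.Work.MP_0df73a_co.KTT.Tab
import Pool.Agent.Work.MP_0df73a_co.KTT.Count
import Pool.Agent.Work.MP_0df73a_co.KTT.BR4
import Pool.Agent.Work.MP_0df73a_co.KTT.Spec

set_option autoImplicit false

namespace Pool.Agent.KTT

open Finset Pool.Agent.Work.MP_0df73a_co.Four

theorem bridge_of (card_gt_path : ∀ n k : ℕ, 1 ≤ k →
    Nat.card {G : ℕ → ℕ → ℕ // IsGT (fun i => k * Lam n i) (4 * n + 4) (4 * n + 6)
      (fun v => k * Mu n v) G} =
    ∑ y ∈ range ((n + 1) * k + 1), Nat.card {f : ℕ → St //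
      IsPath (letters n k) (KTT.fin n k) ((2 * ((n + 1) * k) - y, y), (0, 0)) f})
    (n k : ℕ) (hk : 1 ≤ k) (D : YoungDiagram)
    (hD : ∀ i j : ℕ, (i, j) ∈ D ↔ j < k * laRow n i) :
    ((Nat.card {T : SemistandardYoungTableau D //
        ∀ v : ℕ, Nat.card {c : ℕ × ℕ // c ∈ D ∧ T c.1 c.2 = v} = k * muRow n v} : ℕ) : ℚ) =
      cf (GG * Hm k ^ (2 * n + 1) * Hp k ^ (2 * n + 1)) k 0 0 := by
  have h := card_tab_gt n k D hD
  have h2 : Nat.card {T : SemistandardYoungTableau D //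
        ∀ v : ℕ, Nat.card {c : ℕ × ℕ // c ∈ D ∧ T c.1 c.2 = v} = k * muRow n v} =
      ∑ y ∈ range ((n + 1) * k + 1), Nat.card {f : ℕ → St //
      IsPath (letters n k) (KTT.fin n k) ((2 * ((n + 1) * k) - y, y), (0, 0)) f} :=
    h.trans (card_gt_path n k hk)
  rw [h2, Cnt.sum_path_count, BR4]

end Pool.Agent.KTT
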