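import Pool.Agent.Work.MP_0df73a_co.KTT.Spec

/-!
KTT (MP_0df73a_co), module NUM: definitions used in the evaluation of `e1 130`.

Plan.  `(1 + η x)(1 + η y)` with `x + y = p q - 4`, `x y = (p - q)^2`, replaced by `η → -η`:
`(1 + 4η) - η (1 + 2η) p q + η² (p² + q²)`, raised to the power `2N = 4n+2`; `muN n a` is the value
of the functional at `p ^ a`.
-/

set_option autoImplicit false

namespace Pool.Agent.KTT

open Finset

/-- `muN n a = ∑_j C(a,j) tau(a-2j)` -/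
def muN (n a : ℕ) : ℚ := ∑ j ∈ range (a + 1), (a.choose j : ℚ) * tau n ((a : ℤ) - 2 * j)

/-- value of the functional at `(p q)^d (p² + q²)^e` -/
def nu (n e d : ℕ) : ℚ :=
  ∑ b ∈ range (e + 1), (e.choose b : ℚ) * muN n (d + 2 * b) * muN n (d + 2 * (e - b))

/-- value of the linear functional `η^m ↦ J m` on `η^(2e+d) (1+2η)^d (1+4η)^(4n+2-e-d)` -/
def LL (n : ℕ) (J : ℕ → ℚ) (e d : ℕ) : ℚ :=
  ∑ i ∈ range (d + 1), ∑ j ∈ range (4 * n + 2 - e - d + 1),
    (d.choose i : ℚ) * 2 ^ i * ((4 * n + 2 - e - d).choose j : ℚ) * 4 ^ j * J (2 * e + d + i + j)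

/-- the sum to be evaluated -/
def SS (n : ℕ) (J : ℕ → ℚ) : ℚ :=
  ∑ d ∈ range (2 * n + 1), ∑ e ∈ range ((2 * n - d) / 2 + 1),
    (-1 : ℚ) ^ d * ((4 * n + 2).choose (e + d) : ℚ) * ((e + d).choose e : ℚ) * nu n e d *
      LL n J e d

end Pool.Agent.KTT
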