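import Pool.Agent.Work.MP_0df73a_co.KTT.Ring
import Pool.Agent.Work.MP_0df73a_co.KTT.NumDefs

/-!
KTT (MP_0df73a_co), module NUM-B (helper43): the algebra behind the numerical evaluation.
With `p = t + 1/t`, `q = u + 1/u`, `X = t u`, `Y = t / u`, `x = X + 1/X - 2`, `y = Y + 1/Y - 2`:
`x + y = p q - 4`, `x y = (p - q)^2`, hence
`((1 - η x)(1 - η y))^(2N) = ∑_{e,d} (-1)^d C(2N,e) C(2N-e,d) (p^2+q^2)^e (p q)^d P_{e,d}(η)`,
`P_{e,d} = η^(2e+d) (1+2η)^d (1+4η)^(2N-e-d)`.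
-/

set_option autoImplicit false

namespace Pool.Agent.KTT.NumB

open Finset Pool.Agent.KTT

noncomputable section

/-- the weight `t^a u^b ↦ τ(a) τ(b)` -/
def wt (n : ℕ) (p : ℤ × ℤ) : ℚ := tau n p.1 * tau n p.2

/-- `μ_a = ∑_j C(a,j) τ(a-2j)` -/
def mu' (n a : ℕ) : ℚ := ∑ j ∈ range (a + 1), (a.choose j : ℚ) * tau n ((a : ℤ) - 2 * j)

/-- `ν(e,d) = ∑_b C(e,b) μ_{d+2b} μ_{d+2(e-b)}` -/
def nu (n e d : ℕ) : ℚ :=
  ∑ b ∈ range (e + 1), (e.choose b : ℚ) * mu' n (d + 2 * b) * mu' n (d + 2 * (e - b))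

def xx : A := mon 1 1 + mon (-1) (-1) - 2
def yy : A := mon 1 (-1) + mon (-1) 1 - 2
def pp : A := mon 1 0 + mon (-1) 0
def qq : A := mon 0 1 + mon 0 (-1)

lemma mon_pow (a b : ℤ) (m : ℕ) : mon a b ^ m = mon (m * a) (m * b) := by
  induction m with
  | zero => simp
  | succ m ih => rw [pow_succ, ih, mon_mul]; congr 1 <;> push_cast <;> ring

lemma xx_pow (p : ℕ) : xx ^ p = ∑ i ∈ range (2 * p + 1),
    ((-1 : ℚ) ^ i * ((2 * p).choose i : ℚ)) • mon ((i : ℤ) - p) ((i : ℤ) - p) := by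
  have h : xx = (mon 1 1 + (-1)) ^ 2 * mon (-1) (-1) := by
    have h1 : mon 1 1 * mon (-1) (-1) = 1 := by rw [mon_mul]; simp
    rw [xx]; linear_combination (2 - mon 1 1) * h1
  rw [h, mul_pow, ← pow_mul, add_pow, mon_pow, Finset.sum_mul]
  refine Finset.sum_congr rfl fun i hi => ?_
  have hi' : i ≤ 2 * p := by simpa [Nat.lt_succ_iff] using hi
  have h2 : ((-1 : A)) ^ (2 * p - i) = (-1) ^ i := by
    have : (-1 : A) ^ (2 * p - i) * (-1) ^ i * (-1) ^ i = (-1) ^ i := by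
      rw [← pow_add, Nat.sub_add_cancel hi', pow_mul]; simp
    have h3 : (-1 : A) ^ i * (-1) ^ i = 1 := by rw [← pow_add, ← two_mul, pow_mul]; simp
    rw [mul_assoc, h3, mul_one] at this; exact this
  rw [h2, mon_pow, Algebra.smul_def, map_mul, map_pow, map_neg, map_one, map_natCast]
  have h4 : mon ((i : ℤ) * 1) ((i : ℤ) * 1) * mon ((p : ℤ) * -1) ((p : ℤ) * -1) =
      mon ((i : ℤ) - p) ((i : ℤ) - p) := by rw [mon_mul]; congr 1 <;> ring
  rw [← h4]; ring

lemma yy_pow (p : ℕ) : yy ^ p = ∑ i ∈ range (2 * p + 1),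
    ((-1 : ℚ) ^ i * ((2 * p).choose i : ℚ)) • mon ((i : ℤ) - p) (-((i : ℤ) - p)) := by
  have h : yy = (mon 1 (-1) + (-1)) ^ 2 * mon (-1) 1 := by
    have h1 : mon 1 (-1) * mon (-1) 1 = 1 := by rw [mon_mul]; simp
    rw [yy]; linear_combination (2 - mon 1 (-1)) * h1
  rw [h, mul_pow, ← pow_mul, add_pow, mon_pow, Finset.sum_mul]
  refine Finset.sum_congr rfl fun i hi => ?_
  have hi' : i ≤ 2 * p := by simpa [Nat.lt_succ_iff] using hi
  have h2 : ((-1 : A)) ^ (2 * p - i) = (-1) ^ i := by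
    have : (-1 : A) ^ (2 * p - i) * (-1) ^ i * (-1) ^ i = (-1) ^ i := by
      rw [← pow_add, Nat.sub_add_cancel hi', pow_mul]; simp
    have h3 : (-1 : A) ^ i * (-1) ^ i = 1 := by rw [← pow_add, ← two_mul, pow_mul]; simp
    rw [mul_assoc, h3, mul_one] at this; exact this
  rw [h2, mon_pow, Algebra.smul_def, map_mul, map_pow, map_neg, map_one, map_natCast]
  have h4 : mon ((i : ℤ) * 1) ((i : ℤ) * (-1)) * mon ((p : ℤ) * -1) ((p : ℤ) * 1) =
      mon ((i : ℤ) - p) (-((i : ℤ) - p)) := by rw [mon_mul]; congr 1 <;> ring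
  rw [← h4]; ring

lemma MM_eq (n p q : ℕ) : MM n p q = L (wt n) (xx ^ p * yy ^ q) := by
  rw [xx_pow, yy_pow, Finset.sum_mul_sum, map_sum, MM]
  refine Finset.sum_congr rfl fun i _ => ?_
  rw [map_sum]
  refine Finset.sum_congr rfl fun j _ => ?_
  rw [smul_mul_smul_comm, mon_mul, map_smul, L_mon, wt, smul_eq_mul]
  have : ((i : ℤ) - p) + (-((j : ℤ) - q)) = ((i : ℤ) - p) - (j - q) := by ring
  rw [this]; ring

lemma pp_pow (a : ℕ) : pp ^ a = ∑ j ∈ range (a + 1), ((a.choose j : ℚ)) • mon ((a : ℤ) - 2 * j) 0 := by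
  rw [pp, add_comm, add_pow]
  refine Finset.sum_congr rfl fun j hj => ?_
  have hj' : j ≤ a := by simpa [Nat.lt_succ_iff] using hj
  rw [mon_pow, mon_pow, mon_mul, Algebra.smul_def, map_natCast, mul_comm]
  congr 2
  push_cast [Nat.cast_sub hj']; ring

lemma qq_pow (a : ℕ) : qq ^ a = ∑ j ∈ range (a + 1), ((a.choose j : ℚ)) • mon 0 ((a : ℤ) - 2 * j) := by
  rw [qq, add_comm, add_pow]
  refine Finset.sum_congr rfl fun j hj => ?_
  have hj' : j ≤ a := by simpa [Nat.lt_succ_iff] using hj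
  rw [mon_pow, mon_pow, mon_mul, Algebra.smul_def, map_natCast, mul_comm]
  congr 2
  push_cast [Nat.cast_sub hj']; ring

lemma L_pq (n a b : ℕ) : L (wt n) (pp ^ a * qq ^ b) = mu' n a * mu' n b := by
  rw [pp_pow, qq_pow, Finset.sum_mul_sum, map_sum, mu', mu', Finset.sum_mul_sum]
  refine Finset.sum_congr rfl fun i _ => ?_
  rw [map_sum]
  refine Finset.sum_congr rfl fun j _ => ?_
  rw [smul_mul_smul_comm, mon_mul, map_smul, L_mon, wt, smul_eq_mul]
  simp only [add_zero, zero_add]; ring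

lemma L_nu (n e d : ℕ) : L (wt n) ((pp ^ 2 + qq ^ 2) ^ e * (pp * qq) ^ d) = nu n e d := by
  rw [add_pow, Finset.sum_mul, map_sum, nu]
  refine Finset.sum_congr rfl fun b _ => ?_
  have : (pp ^ 2) ^ b * (qq ^ 2) ^ (e - b) * ((e.choose b : ℕ) : A) * (pp * qq) ^ d =
      ((e.choose b : ℚ)) • (pp ^ (d + 2 * b) * qq ^ (d + 2 * (e - b))) := by
    rw [Algebra.smul_def, map_natCast]; ring
  rw [this, map_smul, L_pq, smul_eq_mul]; ring

lemma xx_add_yy : xx + yy = pp * qq - 4 := by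
  have h1 : mon 1 0 * mon 0 1 = mon 1 1 := by rw [mon_mul]; simp
  have h2 : mon 1 0 * mon 0 (-1) = mon 1 (-1) := by rw [mon_mul]; simp
  have h3 : mon (-1) 0 * mon 0 1 = mon (-1) 1 := by rw [mon_mul]; simp
  have h4 : mon (-1) 0 * mon 0 (-1) = mon (-1) (-1) := by rw [mon_mul]; simp
  rw [xx, yy, pp, qq, ← h1, ← h2, ← h3, ← h4]; ring

lemma xx_mul_yy : xx * yy = (pp ^ 2 + qq ^ 2) - 2 * (pp * qq) := by
  have h1 : mon 1 0 * mon 0 1 = mon 1 1 := by rw [mon_mul]; simp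
  have h2 : mon 1 0 * mon 0 (-1) = mon 1 (-1) := by rw [mon_mul]; simp
  have h3 : mon (-1) 0 * mon 0 1 = mon (-1) 1 := by rw [mon_mul]; simp
  have h4 : mon (-1) 0 * mon 0 (-1) = mon (-1) (-1) := by rw [mon_mul]; simp
  have h5 : mon 1 0 * mon (-1) 0 = 1 := by rw [mon_mul]; simp
  have h6 : mon 0 1 * mon 0 (-1) = 1 := by rw [mon_mul]; simp
  rw [xx, yy, pp, qq, ← h1, ← h2, ← h3, ← h4]
  generalize mon 1 0 = t at *
  generalize mon (-1) 0 = t' at *
  generalize mon 0 1 = u at *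
  generalize mon 0 (-1) = u' at *
  linear_combination (u ^ 2 + u' ^ 2 - 2) * h5 + (t ^ 2 + t' ^ 2 - 2) * h6

/-- the polynomial functional `∑_m g m · L(coeff m f)` -/
def Gf (n : ℕ) (g : ℕ → ℚ) (f : Polynomial A) : ℚ :=
  ∑ m ∈ range (2 * n + 1), g m * L (wt n) (f.coeff m)

lemma Gf_sum {ι : Type*} (n : ℕ) (g : ℕ → ℚ) (s : Finset ι) (f : ι → Polynomial A) :
    Gf n g (∑ i ∈ s, f i) = ∑ i ∈ s, Gf n g (f i) := by
  simp only [Gf, Polynomial.finsetSum_coeff, map_sum, Finset.mul_sum]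
  rw [Finset.sum_comm]

lemma Gf_C_mul_map (n : ℕ) (g : ℕ → ℚ) (a : A) (P : Polynomial ℚ) :
    Gf n g (Polynomial.C a * P.map (algebraMap ℚ A)) =
      L (wt n) a * ∑ m ∈ range (2 * n + 1), P.coeff m * g m := by
  rw [Gf, Finset.mul_sum]
  refine Finset.sum_congr rfl fun m _ => ?_
  rw [Polynomial.coeff_C_mul, Polynomial.coeff_map, mul_comm a, L_algebraMap_mul]; ring

/-- `P_{e,d}(η) = η^(2e+d) (1+2η)^d (1+4η)^(K-e-d)` -/
def PP (K e d : ℕ) : Polynomial ℚ :=
  Polynomial.X ^ (2 * e + d) * (1 + 2 * Polynomial.X) ^ d * (1 + 4 * Polynomial.X) ^ (K - e - d)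

/-- `a(e,d) = A(P_{e,d})` for the functional `A(η^m) = g m` (`m ≤ 2n`), `A(η^m) = 0` (`m > 2n`) -/
def aa (n : ℕ) (g : ℕ → ℚ) (K e d : ℕ) : ℚ := ∑ m ∈ range (2 * n + 1), (PP K e d).coeff m * g m

open Polynomial in
/-- the product `((1 - η x)(1 - η y))^K` -/
def QQ (K : ℕ) : Polynomial A := ((1 - C xx * X) * (1 - C yy * X)) ^ K

open Polynomial in
lemma QQ_coeff (K m : ℕ) : (QQ K).coeff m =
    (-1 : A) ^ m * ∑ x ∈ antidiagonal m, ((K.choose x.1 : ℕ) : A) * ((K.choose x.2 : ℕ) : A) *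
      (xx ^ x.1 * yy ^ x.2) := by
  have h : ∀ (a : A) (j : ℕ), ((1 - C a * X : Polynomial A) ^ K).coeff j =
      (-1) ^ j * ((K.choose j : ℕ) : A) * a ^ j := by
    intro a j
    have h0 : (1 - C a * X : Polynomial A) = (-1) * (C a * X) + 1 := by ring
    rw [h0, add_pow, Polynomial.finsetSum_coeff]
    have : ∀ i ∈ range (K + 1), (((-1) * (C a * X)) ^ i * 1 ^ (K - i) * ((K.choose i : ℕ) : Polynomial A)).coeff j
        = if j = i then (-1) ^ i * ((K.choose i : ℕ) : A) * a ^ i else 0 := by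
      intro i _
      have h1 : (((-1) * (C a * X)) ^ i * 1 ^ (K - i) * ((K.choose i : ℕ) : Polynomial A)) =
          C ((-1) ^ i * ((K.choose i : ℕ) : A) * a ^ i) * X ^ i := by
        simp only [map_mul, map_pow, map_neg, map_one, map_natCast, one_pow, mul_one]
        rw [mul_pow, mul_pow]; ring
      rw [h1, Polynomial.coeff_C_mul_X_pow]
    rw [Finset.sum_congr rfl this, Finset.sum_ite_eq]
    by_cases hj : j ∈ range (K + 1)
    · rw [if_pos hj]
    · rw [if_neg hj, Nat.choose_eq_zero_of_lt (by simpa using hj)]; simp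
  rw [QQ, mul_pow, Polynomial.coeff_mul, Finset.mul_sum]
  refine Finset.sum_congr rfl fun x hx => ?_
  rw [h, h, ← mem_antidiagonal.mp hx, pow_add]; ring

lemma L_QQ_coeff (n m : ℕ) : L (wt n) ((QQ (4 * n + 2)).coeff m) = (-1) ^ m * rr n m := by
  have h1 : (-1 : A) ^ m = algebraMap ℚ A ((-1) ^ m) := by
    rw [map_pow, map_neg, map_one]
  rw [QQ_coeff, h1, L_algebraMap_mul, map_sum, rr]
  congr 1
  refine Finset.sum_congr rfl fun x _ => ?_
  have h2 : (((4 * n + 2).choose x.1 : ℕ) : A) * (((4 * n + 2).choose x.2 : ℕ) : A) =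
      algebraMap ℚ A (((4 * n + 2).choose x.1 : ℚ) * ((4 * n + 2).choose x.2 : ℚ)) := by
    rw [map_mul, map_natCast, map_natCast]
  rw [h2, L_algebraMap_mul, MM_eq]

open Polynomial in
lemma QQ_expand (K : ℕ) : QQ K = ∑ e ∈ range (K + 1), ∑ d ∈ range (K - e + 1),
    C ((-1 : A) ^ d * ((K.choose e : ℕ) : A) * (((K - e).choose d : ℕ) : A) *
      ((pp ^ 2 + qq ^ 2) ^ e * (pp * qq) ^ d)) * (PP K e d).map (algebraMap ℚ A) := by
  have h : (1 - C xx * X) * (1 - C yy * X) =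
      C (pp ^ 2 + qq ^ 2) * X ^ 2 + (C (-(pp * qq)) * (X * (1 + 2 * X)) + (1 + 4 * X)) := by
    have e1 : C xx + C yy = C (pp * qq) - 4 := by
      rw [← map_add, xx_add_yy, map_sub]; rfl
    have e2 : C xx * C yy = C (pp ^ 2 + qq ^ 2) - 2 * C (pp * qq) := by
      rw [← map_mul, xx_mul_yy, map_sub, map_mul]; rfl
    rw [map_neg]
    linear_combination (-X) * e1 + X ^ 2 * e2
  have h' : C (-(pp * qq)) * (X * (1 + 2 * X)) = (-1 : Polynomial A) * (C (pp * qq) * (X * (1 + 2 * X))) := by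
    rw [map_neg]; ring
  rw [h'] at h
  rw [QQ, h, add_pow]
  refine Finset.sum_congr rfl fun e he => ?_
  have he' : e ≤ K := by simpa [Nat.lt_succ_iff] using he
  rw [add_pow, Finset.mul_sum, Finset.sum_mul]
  refine Finset.sum_congr rfl fun d hd => ?_
  simp only [PP, map_mul, map_pow, map_neg, map_one, map_natCast, Polynomial.map_mul,
    Polynomial.map_pow, Polynomial.map_add, Polynomial.map_one, Polynomial.map_X,
    Polynomial.map_ofNat, mul_pow]
  ring

/-- NUM-B, general form -/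
theorem numB_gen (n : ℕ) (g : ℕ → ℚ) :
    ∑ m ∈ range (2 * n + 1), (-1) ^ m * rr n m * g m =
      ∑ e ∈ range (4 * n + 3), ∑ d ∈ range (4 * n + 2 - e + 1),
        (-1 : ℚ) ^ d * ((4 * n + 2).choose e : ℚ) * ((4 * n + 2 - e).choose d : ℚ) * nu n e d *
          aa n g (4 * n + 2) e d := by
  have h1 : ∑ m ∈ range (2 * n + 1), (-1) ^ m * rr n m * g m = Gf n g (QQ (4 * n + 2)) := by
    rw [Gf]
    refine Finset.sum_congr rfl fun m _ => ?_
    rw [L_QQ_coeff]; ring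
  rw [h1, QQ_expand, Gf_sum]
  refine Finset.sum_congr rfl fun e _ => ?_
  rw [Gf_sum]
  refine Finset.sum_congr rfl fun d _ => ?_
  rw [Gf_C_mul_map]
  have h2 : (-1 : A) ^ d * (((4 * n + 2).choose e : ℕ) : A) * (((4 * n + 2 - e).choose d : ℕ) : A) =
      algebraMap ℚ A ((-1) ^ d * ((4 * n + 2).choose e : ℚ) * ((4 * n + 2 - e).choose d : ℚ)) := by
    rw [map_mul, map_mul, map_pow, map_neg, map_one, map_natCast, map_natCast]
  rw [h2, L_algebraMap_mul, L_nu, aa]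

/-- support of `P_{e,d}`: exponents `≥ 2e + d` -/
lemma PP_coeff_lt (K e d m : ℕ) (h : m < 2 * e + d) : (PP K e d).coeff m = 0 := by
  rw [PP, mul_assoc, Polynomial.coeff_X_pow_mul', if_neg (by omega)]

lemma aa_eq_zero (n : ℕ) (g : ℕ → ℚ) (K e d : ℕ) (h : 2 * n < 2 * e + d) : aa n g K e d = 0 := by
  rw [aa]
  refine Finset.sum_eq_zero fun m hm => ?_
  rw [PP_coeff_lt K e d m (by have := mem_range.mp hm; omega), zero_mul]

/-- NUM-B, general form with the ranges cut to `2e + d ≤ 2n` -/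
theorem numB_gen' (n : ℕ) (g : ℕ → ℚ) :
    ∑ m ∈ range (2 * n + 1), (-1) ^ m * rr n m * g m =
      ∑ e ∈ range (n + 1), ∑ d ∈ range (2 * n + 1 - 2 * e),
        (-1 : ℚ) ^ d * ((4 * n + 2).choose e : ℚ) * ((4 * n + 2 - e).choose d : ℚ) * nu n e d *
          aa n g (4 * n + 2) e d := by
  rw [numB_gen]
  have h1 : ∑ e ∈ range (4 * n + 3), ∑ d ∈ range (4 * n + 2 - e + 1),
        (-1 : ℚ) ^ d * ((4 * n + 2).choose e : ℚ) * ((4 * n + 2 - e).choose d : ℚ) * nu n e d *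
          aa n g (4 * n + 2) e d = ∑ e ∈ range (n + 1), ∑ d ∈ range (4 * n + 2 - e + 1),
        (-1 : ℚ) ^ d * ((4 * n + 2).choose e : ℚ) * ((4 * n + 2 - e).choose d : ℚ) * nu n e d *
          aa n g (4 * n + 2) e d := by
    symm
    refine Finset.sum_subset (fun e he => ?_) fun e _ he => ?_
    · rw [mem_range] at *; omega
    · refine Finset.sum_eq_zero fun d _ => ?_
      rw [aa_eq_zero n g _ e d (by rw [mem_range] at he; omega), mul_zero]
  rw [h1]
  refine Finset.sum_congr rfl fun e he => ?_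
  symm
  refine Finset.sum_subset (fun d hd => ?_) fun d _ hd => ?_
  · rw [mem_range] at *; omega
  · rw [aa_eq_zero n g _ e d (by rw [mem_range] at he hd; omega), mul_zero]

/-- `(1+2η)^2 = (1+4η) + 4η^2` -/
lemma PP_rec (K e d : ℕ) (h : e + d + 2 ≤ K) :
    PP K e (d + 2) = PP K (e + 1) d + 4 * PP K (e + 2) d := by
  obtain ⟨r, hr⟩ := Nat.exists_eq_add_of_le h
  have h1 : K - e - (d + 2) = r := by omega
  have h2 : K - (e + 1) - d = r + 1 := by omega
  have h3 : K - (e + 2) - d = r := by omega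
  rw [PP, PP, PP, h1, h2, h3]
  ring

lemma aa_rec (n : ℕ) (g : ℕ → ℚ) (K e d : ℕ) (h : e + d + 2 ≤ K) :
    aa n g K e (d + 2) = aa n g K (e + 1) d + 4 * aa n g K (e + 2) d := by
  rw [aa, aa, aa, Finset.mul_sum, ← Finset.sum_add_distrib]
  refine Finset.sum_congr rfl fun m _ => ?_
  have h4 : (4 * PP K (e + 2) d : Polynomial ℚ) = Polynomial.C 4 * PP K (e + 2) d := rfl
  rw [PP_rec K e d h, Polynomial.coeff_add, h4, Polynomial.coeff_C_mul]; ring

lemma coeff_one_add_four (K i : ℕ) :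
    ((1 + 4 * Polynomial.X : Polynomial ℚ) ^ K).coeff i = 4 ^ i * (K.choose i : ℚ) := by
  have h0 : (1 + 4 * Polynomial.X : Polynomial ℚ) = Polynomial.C 4 * Polynomial.X + 1 := by
    rw [add_comm]; rfl
  rw [h0, add_pow, Polynomial.finsetSum_coeff]
  have : ∀ j ∈ range (K + 1), ((Polynomial.C (4 : ℚ) * Polynomial.X) ^ j * 1 ^ (K - j) *
      ((K.choose j : ℕ) : Polynomial ℚ)).coeff i = if i = j then 4 ^ j * (K.choose j : ℚ) else 0 := by
    intro j _
    have h1 : ((Polynomial.C (4 : ℚ) * Polynomial.X) ^ j * 1 ^ (K - j) *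
      ((K.choose j : ℕ) : Polynomial ℚ)) =
        Polynomial.C (4 ^ j * (K.choose j : ℚ)) * Polynomial.X ^ j := by
      simp only [map_mul, map_pow, map_natCast, one_pow, mul_one]
      rw [mul_pow]; ring
    rw [h1, Polynomial.coeff_C_mul_X_pow]
  rw [Finset.sum_congr rfl this, Finset.sum_ite_eq]
  by_cases hj : i ∈ range (K + 1)
  · rw [if_pos hj]
  · rw [if_neg hj, Nat.choose_eq_zero_of_lt (by simpa using hj)]; simp

/-- row `d = 0`: `a(e,0) = ∑_{i ≤ 2n-2e} 4^i C(K-e,i) g(2e+i)` -/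
lemma aa_zero (n : ℕ) (g : ℕ → ℚ) (K e : ℕ) :
    aa n g K e 0 = ∑ i ∈ range (2 * n + 1 - 2 * e), 4 ^ i * ((K - e).choose i : ℚ) * g (2 * e + i) := by
  rw [aa]
  have h : ∀ m ∈ range (2 * n + 1), (PP K e 0).coeff m * g m =
      if 2 * e ≤ m then 4 ^ (m - 2 * e) * ((K - e).choose (m - 2 * e) : ℚ) * g m else 0 := by
    intro m _
    rw [PP, pow_zero, mul_one, Nat.sub_zero, add_zero, Polynomial.coeff_X_pow_mul']
    by_cases hm : 2 * e ≤ m
    · rw [if_pos hm, if_pos hm, coeff_one_add_four]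
    · rw [if_neg hm, if_neg hm, zero_mul]
  rw [Finset.sum_congr rfl h, ← Finset.sum_filter]
  refine Finset.sum_bij' (fun m _ => m - 2 * e) (fun i _ => 2 * e + i) ?_ ?_ ?_ ?_ ?_
  · intro m hm; simp only [mem_filter, mem_range] at *; omega
  · intro i hi; simp only [mem_filter, mem_range] at *; omega
  · intro m hm; simp only [mem_filter, mem_range] at *; omega
  · intro i hi; simp only [mem_range] at *; omega
  · intro m hm
    simp only [mem_filter, mem_range] at hm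
    rw [Nat.add_sub_cancel' hm.2]

/-- row `d = 1` -/
lemma aa_one (n : ℕ) (g : ℕ → ℚ) (K e : ℕ) (hg : ∀ m, 2 * n < m → g m = 0) :
    aa n g K e 1 = ∑ i ∈ range (2 * n - 2 * e), 4 ^ i * ((K - e - 1).choose i : ℚ) *
      (g (2 * e + 1 + i) + 2 * g (2 * e + 2 + i)) := by
  have hP : PP K e 1 = Polynomial.X ^ (2 * e + 1) * (1 + 4 * Polynomial.X) ^ (K - e - 1) +
      Polynomial.C 2 * (Polynomial.X ^ (2 * e + 2) * (1 + 4 * Polynomial.X) ^ (K - e - 1)) := by
    have h2 : (Polynomial.C 2 : Polynomial ℚ) = 2 := rfl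
    rw [PP, h2]; ring
  have key : ∀ s : ℕ, ∑ m ∈ range (2 * n + 1),
      (Polynomial.X ^ s * (1 + 4 * Polynomial.X) ^ (K - e - 1) : Polynomial ℚ).coeff m * g m =
      ∑ i ∈ range (2 * n + 1 - s), 4 ^ i * ((K - e - 1).choose i : ℚ) * g (s + i) := by
    intro s
    have h : ∀ m ∈ range (2 * n + 1),
        (Polynomial.X ^ s * (1 + 4 * Polynomial.X) ^ (K - e - 1) : Polynomial ℚ).coeff m * g m =
        if s ≤ m then 4 ^ (m - s) * ((K - e - 1).choose (m - s) : ℚ) * g m else 0 := by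
      intro m _
      rw [Polynomial.coeff_X_pow_mul']
      by_cases hm : s ≤ m
      · rw [if_pos hm, if_pos hm, coeff_one_add_four]
      · rw [if_neg hm, if_neg hm, zero_mul]
    rw [Finset.sum_congr rfl h, ← Finset.sum_filter]
    refine Finset.sum_bij' (fun m _ => m - s) (fun i _ => s + i) ?_ ?_ ?_ ?_ ?_
    · intro m hm; simp only [mem_filter, mem_range] at *; omega
    · intro i hi; simp only [mem_filter, mem_range] at *; omega
    · intro m hm; simp only [mem_filter, mem_range] at *; omega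
    · intro i hi; simp only [mem_range] at *; omega
    · intro m hm
      simp only [mem_filter, mem_range] at hm
      rw [Nat.add_sub_cancel' hm.2]
  have e2 : ∑ i ∈ range (2 * n + 1 - (2 * e + 2)), 4 ^ i * ((K - e - 1).choose i : ℚ) *
      g (2 * e + 2 + i) = ∑ i ∈ range (2 * n - 2 * e), 4 ^ i * ((K - e - 1).choose i : ℚ) *
      g (2 * e + 2 + i) := by
    refine Finset.sum_subset (fun i hi => ?_) fun i _ hi => ?_
    · rw [mem_range] at *; omega
    · rw [hg _ (by rw [mem_range] at hi; omega), mul_zero]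
  have e1 : 2 * n + 1 - (2 * e + 1) = 2 * n - 2 * e := by omega
  rw [aa, hP]
  simp only [Polynomial.coeff_add, Polynomial.coeff_C_mul, add_mul, Finset.sum_add_distrib]
  simp only [mul_assoc (2 : ℚ), ← Finset.mul_sum]
  rw [key, key, e1, e2, Finset.mul_sum, ← Finset.sum_add_distrib]
  refine Finset.sum_congr rfl fun i _ => ?_
  ring

/-- `j_m = (-1)^(m-1) J_m` for `1 ≤ m ≤ 2n`, `0` otherwise -/
def jj (n m : ℕ) : ℚ := if m = 0 ∨ 2 * n < m then 0 else (-1) ^ (m + 1) * JJ n m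

lemma rr_zero (n : ℕ) : rr n 0 = 1 := by
  simp [rr, MM, tau]

/-- NUM-B -/
theorem numB (n : ℕ) : ∑ m ∈ range (2 * n + 1), rr n m * JJ n m =
    JJ n 0 - ∑ e ∈ range (n + 1), ∑ d ∈ range (2 * n + 1 - 2 * e),
        (-1 : ℚ) ^ d * ((4 * n + 2).choose e : ℚ) * ((4 * n + 2 - e).choose d : ℚ) * nu n e d *
          aa n (jj n) (4 * n + 2) e d := by
  rw [← numB_gen', Finset.sum_range_succ', Finset.sum_range_succ' (fun m => (-1) ^ m * rr n m * jj n m)]
  have h : ∀ m ∈ range (2 * n), (-1 : ℚ) ^ (m + 1) * rr n (m + 1) * jj n (m + 1) =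
      - (rr n (m + 1) * JJ n (m + 1)) := by
    intro m hm
    have hm' := mem_range.mp hm
    rw [jj, if_neg (by omega)]
    have : (-1 : ℚ) ^ (m + 1) * (-1) ^ (m + 1 + 1) = -1 := by
      rw [← pow_add, show m + 1 + (m + 1 + 1) = 2 * (m + 1) + 1 by ring, pow_succ, pow_mul]; simp
    linear_combination (rr n (m + 1) * JJ n (m + 1)) * this
  rw [Finset.sum_congr rfl h, Finset.sum_neg_distrib, rr_zero]
  simp [jj, add_comm]

/-- `aa` as the double sum `LL` -/
lemma aa_eq_LL (n : ℕ) (J : ℕ → ℚ) (hJ : ∀ m, 2 * n < m → J m = 0) (e d : ℕ) :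
    aa n J (4 * n + 2) e d = LL n J e d := by
  have hexp : PP (4 * n + 2) e d = ∑ i ∈ range (d + 1), ∑ j ∈ range (4 * n + 2 - e - d + 1),
      Polynomial.C ((d.choose i : ℚ) * 2 ^ i * ((4 * n + 2 - e - d).choose j : ℚ) * 4 ^ j) *
        Polynomial.X ^ (2 * e + d + i + j) := by
    have h2 : (1 + 2 * Polynomial.X : Polynomial ℚ) = Polynomial.C 2 * Polynomial.X + 1 := by
      rw [add_comm]; rfl
    have h4 : (1 + 4 * Polynomial.X : Polynomial ℚ) = Polynomial.C 4 * Polynomial.X + 1 := by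
      rw [add_comm]; rfl
    rw [PP, h2, h4, add_pow, add_pow, mul_assoc, Finset.sum_mul_sum, Finset.mul_sum]
    refine Finset.sum_congr rfl fun i _ => ?_
    rw [Finset.mul_sum]
    refine Finset.sum_congr rfl fun j _ => ?_
    simp only [map_mul, map_pow, map_natCast, one_pow, mul_one, mul_pow]
    rw [pow_add, pow_add]
    ring
  have hF : ∀ (c : ℚ) (s : ℕ), ∑ m ∈ range (2 * n + 1),
      (Polynomial.C c * Polynomial.X ^ s : Polynomial ℚ).coeff m * J m = c * J s := by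
    intro c s
    have : ∀ m ∈ range (2 * n + 1), (Polynomial.C c * Polynomial.X ^ s : Polynomial ℚ).coeff m * J m =
        if m = s then c * J m else 0 := by
      intro m _
      rw [Polynomial.coeff_C_mul_X_pow]
      by_cases h : m = s
      · rw [if_pos h, if_pos h]
      · rw [if_neg h, if_neg h, zero_mul]
    rw [Finset.sum_congr rfl this, Finset.sum_ite_eq']
    by_cases hs : s ∈ range (2 * n + 1)
    · rw [if_pos hs]
    · rw [if_neg hs, hJ s (by rw [mem_range] at hs; omega), mul_zero]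
  rw [aa, hexp, LL]
  simp only [Polynomial.finsetSum_coeff, Finset.sum_mul]
  rw [Finset.sum_comm]
  refine Finset.sum_congr rfl fun i _ => ?_
  rw [Finset.sum_comm]
  refine Finset.sum_congr rfl fun j _ => ?_
  rw [hF]

lemma nu_eq (n e d : ℕ) : nu n e d = KTT.nu n e d := rfl

lemma choose_mul_choose (K e d : ℕ) :
    (K.choose e : ℚ) * ((K - e).choose d : ℚ) = (K.choose (e + d) : ℚ) * ((e + d).choose e : ℚ) := by
  have := Nat.choose_mul (n := K) (k := e + d) (s := e) (Nat.le_add_right e d)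
  rw [Nat.add_sub_cancel_left] at this
  exact_mod_cast this.symm

end

end Pool.Agent.KTT.NumB

namespace Pool.Agent.KTT

open Finset NumB

/-- **NUM-B**: the sum `∑_m (-1)^m r_m J_m` in the form `SS` (for every weight `J` vanishing
beyond `2n`). -/
theorem rr_sum (n : ℕ) (J : ℕ → ℚ) (hJ : ∀ m, 2 * n < m → J m = 0) :
    ∑ m ∈ range (2 * n + 1), (-1 : ℚ) ^ m * rr n m * J m = SS n J := by
  rw [numB_gen', SS]
  rw [Finset.sum_comm' (s := range (n + 1)) (t := fun e => range (2 * n + 1 - 2 * e))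
    (s' := fun d => range ((2 * n - d) / 2 + 1)) (t' := range (2 * n + 1))]
  · refine Finset.sum_congr rfl fun d hd => Finset.sum_congr rfl fun e he => ?_
    rw [mem_range] at hd he
    rw [aa_eq_LL n J hJ, nu_eq, mul_assoc ((-1 : ℚ) ^ d),
      choose_mul_choose (4 * n + 2) e d]
    ring
  · intro e d
    simp only [mem_range]
    omega

end Pool.Agent.KTT
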