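import Pool.Agent.Work.MP_0df73a_co.KTT.NumDefs
import Pool.Agent.Work.MP_0df73a_co.KTT.NumData

/-!
KTT (MP_0df73a_co), module NUM-C (helper83): elementary facts on `tau` and on the moments
`μ_a = ∑_j C(a,j) τ(a-2j)`.
-/

set_option autoImplicit false

namespace Pool.Agent.KTT.NumC

open Finset Pool.Agent.KTT

lemma tau_zero (n : ℕ) : tau n 0 = 1 := by simp [tau]

lemma tau_neg (n : ℕ) (s : ℤ) : tau n (-s) = tau n s := by simp [tau]

lemma tau_succ (n : ℕ) (s : ℤ) :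
    tau (n + 1) s = tau n s * (1 - (s : ℚ) ^ 2 / (4 * ((n : ℚ) + 1) ^ 2)) := by
  simp only [tau]; rw [Finset.prod_range_succ]

lemma tau_even (n v : ℕ) (h1 : 1 ≤ v) (h2 : v ≤ n) : tau n (2 * (v : ℤ)) = 0 := by
  rw [tau]
  refine Finset.prod_eq_zero (i := v - 1) (by simp; omega) ?_
  have h3 : ((v - 1 : ℕ) : ℚ) + 1 = (v : ℚ) := by
    rw [Nat.cast_sub h1]; push_cast; ring
  have h4 : (v : ℚ) ≠ 0 := by positivity
  rw [h3]; push_cast; field_simp; ring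

lemma tau_even' (n : ℕ) (s : ℤ) (h0 : s ≠ 0) (h1 : s.natAbs ≤ n) : tau n (2 * s) = 0 := by
  rcases le_total 0 s with h | h
  · obtain ⟨v, rfl⟩ := Int.eq_ofNat_of_zero_le h
    exact tau_even n v (by omega) (by simpa using h1)
  · obtain ⟨v, hv⟩ := Int.eq_ofNat_of_zero_le (Int.neg_nonneg_of_nonpos h)
    have h2 : 2 * s = -(2 * (v : ℤ)) := by omega
    rw [h2, tau_neg]
    exact tau_even n v (by omega) (by omega)

/-- the first order recurrence of `tau` -/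
lemma tau_rec (n : ℕ) (u : ℤ) :
    ((u : ℚ) + 2) * (2 * n - u) * tau n (u + 2) = -(u : ℚ) * (2 * n + 2 + u) * tau n u := by
  induction n with
  | zero => simp [tau]; ring
  | succ n ih =>
    rw [tau_succ, tau_succ]
    have h0 : ((n : ℚ) + 1) ≠ 0 := by positivity
    have e1 : (1 - ((u + 2 : ℤ) : ℚ) ^ 2 / (4 * ((n : ℚ) + 1) ^ 2)) =
        (2 * n - u) * (2 * n + 4 + u) / (4 * ((n : ℚ) + 1) ^ 2) := by
      push_cast; field_simp; ring
    have e2 : (1 - (u : ℚ) ^ 2 / (4 * ((n : ℚ) + 1) ^ 2)) =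
        (2 * n + 2 - u) * (2 * n + 2 + u) / (4 * ((n : ℚ) + 1) ^ 2) := by
      field_simp; ring
    rw [e1, e2]
    push_cast
    linear_combination ((2 * (n : ℚ) + 2 - u) * (2 * n + 4 + u) / (4 * ((n : ℚ) + 1) ^ 2)) * ih

/-- `μ_{2a} = C(2a,a)` for `a ≤ n` -/
lemma mu_even (n a : ℕ) (ha : a ≤ n) :
    ∑ j ∈ range (2 * a + 1), ((2 * a).choose j : ℚ) * tau n (((2 * a : ℕ) : ℤ) - 2 * j) =
      ((2 * a).choose a : ℚ) := by
  rw [Finset.sum_eq_single a]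
  · have : (((2 * a : ℕ) : ℤ) - 2 * a) = 0 := by push_cast; ring
    rw [this, tau_zero, mul_one]
  · intro j hj hja
    have hj' : j ≤ 2 * a := by simpa [Nat.lt_succ_iff] using hj
    have : (((2 * a : ℕ) : ℤ) - 2 * j) = 2 * ((a : ℤ) - j) := by push_cast; ring
    rw [this, tau_even' n _ (by omega) (by omega), mul_zero]
  · intro h; exact absurd (by simp; omega) h

/-- the moments `μ_a = ∑_j C(a,j) τ(a-2j)` -/
def mm (n a : ℕ) : ℚ := ∑ j ∈ range (a + 1), (a.choose j : ℚ) * tau n ((a : ℤ) - 2 * j)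

lemma mm_one (n : ℕ) : mm n 1 = 2 * tau n 1 := by
  have h : tau n (-1) = tau n 1 := tau_neg n 1
  rw [mm, Finset.sum_range_succ, Finset.sum_range_one]
  norm_num
  rw [h]; ring

open Polynomial

/-- the functional `X^k ↦ τ(k-s)` -/
noncomputable def ell (n : ℕ) (s : ℤ) : ℚ[X] →ₗ[ℚ] ℚ :=
  lsum fun k => (tau n ((k : ℤ) - s)) • (LinearMap.id : ℚ →ₗ[ℚ] ℚ)

lemma ell_monomial (n : ℕ) (s : ℤ) (k : ℕ) (c : ℚ) :
    ell n s (monomial k c) = c * tau n ((k : ℤ) - s) := by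
  simp [ell, sum_monomial_index, mul_comm]

/-- `T d/dT` in the shifted variable -/
noncomputable def th (s : ℤ) (F : ℚ[X]) : ℚ[X] := X * derivative F - C (s : ℚ) * F

lemma th_monomial (s : ℤ) (k : ℕ) (c : ℚ) :
    th s (monomial k c) = monomial k (((k : ℚ) - s) * c) := by
  rw [th, derivative_monomial]
  rcases k with _ | k
  · simp
  · rw [Nat.add_sub_cancel, X_mul_monomial, C_mul_monomial, ← map_sub]
    congr 1; ring

lemma th_add (s : ℤ) (F G : ℚ[X]) : th s (F + G) = th s F + th s G := by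
  simp only [th, derivative_add]; ring

lemma th_sub (s : ℤ) (F G : ℚ[X]) : th s (F - G) = th s F - th s G := by
  simp only [th, derivative_sub]; ring

lemma th_C_mul (s : ℤ) (c : ℚ) (G : ℚ[X]) : th s (C c * G) = C c * th s G := by
  simp only [th, derivative_C_mul]; ring

lemma ell_C_mul (n : ℕ) (s : ℤ) (c : ℚ) (F : ℚ[X]) : ell n s (C c * F) = c * ell n s F := by
  rw [← smul_eq_C_mul, map_smul, smul_eq_mul]

lemma key (n : ℕ) (s : ℤ) (G : ℚ[X]) :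
    ell n s (th s (C (2 * (n : ℚ) + 2) * ((X ^ 2 + 1) * G) - th s ((X ^ 2 - 1) * G))) = 0 := by
  induction G using Polynomial.induction_on' with
  | add p q hp hq =>
    rw [show C (2 * (n : ℚ) + 2) * ((X ^ 2 + 1) * (p + q)) =
      C (2 * (n : ℚ) + 2) * ((X ^ 2 + 1) * p) + C (2 * (n : ℚ) + 2) * ((X ^ 2 + 1) * q) by ring,
      mul_add, th_add, add_sub_add_comm, th_add, map_add, hp, hq, add_zero]
  | monomial k c =>
    have h1 : (X ^ 2 + 1) * (monomial k c : ℚ[X]) = monomial (k + 2) c + monomial k c := by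
      rw [add_mul, one_mul, X_pow_mul_monomial]
    have h2 : (X ^ 2 - 1) * (monomial k c : ℚ[X]) = monomial (k + 2) c - monomial k c := by
      rw [sub_mul, one_mul, X_pow_mul_monomial]
    rw [h1, h2, th_sub s (monomial (k+2) c), th_monomial, th_monomial, mul_add, C_mul_monomial,
      C_mul_monomial, th_sub, th_add, th_sub]
    simp only [th_monomial, map_add, map_sub, ell_monomial]
    have h3 := tau_rec n ((k : ℤ) - s)
    rw [show (((k + 2 : ℕ) : ℤ) - s) = ((k : ℤ) - s) + 2 by push_cast; ring]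
    push_cast at h3 ⊢
    linear_combination c * h3

lemma deriv_U (k : ℕ) : derivative ((X ^ 2 + 1 : ℚ[X]) ^ (k + 1)) =
    ((k : ℚ[X]) + 1) * (X ^ 2 + 1) ^ k * (2 * X) := by
  rw [derivative_pow_succ]
  simp only [map_add, derivative_X_pow, derivative_one, map_natCast, map_one]
  push_cast
  ring

lemma inner_eq (n c : ℕ) :
    C (2 * (n : ℚ) + 2) * ((X ^ 2 + 1) * ((X ^ 2 - 1) * (X ^ 2 + 1) ^ (c + 2))) -
      th ((c : ℤ) + 4) ((X ^ 2 - 1) * ((X ^ 2 - 1) * (X ^ 2 + 1) ^ (c + 2))) =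
    (X ^ 2 - 1) * ((2 * (n : ℚ[X]) - (c : ℚ[X]) - 2) * (X ^ 2 + 1) ^ (c + 3) +
      4 * ((c : ℚ[X]) + 2) * X ^ 2 * (X ^ 2 + 1) ^ (c + 1)) := by
  rw [th, ← mul_assoc (X ^ 2 - 1 : ℚ[X]) (X ^ 2 - 1), derivative_mul, derivative_mul, deriv_U (c + 1)]
  simp only [derivative_sub, derivative_X_pow, derivative_one, map_add, map_mul, map_natCast,
    map_ofNat, Int.cast_add, Int.cast_natCast, Int.cast_ofNat, map_one]
  push_cast
  ring

lemma outer_eq (n c : ℕ) :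
    th ((c : ℤ) + 4) ((X ^ 2 - 1) * ((2 * (n : ℚ[X]) - (c : ℚ[X]) - 2) * (X ^ 2 + 1) ^ (c + 3) +
      4 * ((c : ℚ[X]) + 2) * X ^ 2 * (X ^ 2 + 1) ^ (c + 1))) =
    (2 * (n : ℚ[X]) - (c : ℚ[X]) - 2) * (((c : ℚ[X]) + 4) * (X ^ 2 + 1) ^ (c + 4) -
        4 * ((c : ℚ[X]) + 3) * (X ^ 2 * (X ^ 2 + 1) ^ (c + 2))) +
      4 * ((c : ℚ[X]) + 2) * (((c : ℚ[X]) + 2) * (X ^ 2 * (X ^ 2 + 1) ^ (c + 2)) -
        4 * ((c : ℚ[X]) + 1) * (X ^ 4 * (X ^ 2 + 1) ^ c)) := by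
  have e : ((X ^ 2 - 1) * ((2 * (n : ℚ[X]) - (c : ℚ[X]) - 2) * (X ^ 2 + 1) ^ (c + 3) +
      4 * ((c : ℚ[X]) + 2) * X ^ 2 * (X ^ 2 + 1) ^ (c + 1))) =
      C (2 * (n : ℚ) - c - 2) * ((X ^ 2 - 1) * (X ^ 2 + 1) ^ (c + 3)) +
      C (4 * ((c : ℚ) + 2)) * (((X ^ 4 - X ^ 2) * (X ^ 2 + 1) ^ (c + 1))) := by
    simp only [map_add, map_mul, map_sub, map_natCast, map_ofNat]
    ring
  rw [e, th_add, th_C_mul, th_C_mul, th, th, derivative_mul, derivative_mul, deriv_U (c + 2),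
    deriv_U c]
  simp only [derivative_sub, derivative_X_pow, derivative_one, map_add, map_mul, map_natCast,
    map_ofNat, Int.cast_add, Int.cast_natCast, Int.cast_ofNat, map_one, map_sub]
  push_cast
  ring

lemma ell_X_pow (n r a : ℕ) :
    ell n ((a : ℤ) + 2 * r) (X ^ (2 * r) * (X ^ 2 + 1) ^ a) = mm n a := by
  have h : (X ^ (2 * r) * (X ^ 2 + 1) ^ a : ℚ[X]) =
      ∑ j ∈ range (a + 1), monomial (2 * j + 2 * r) ((a.choose j : ℚ)) := by
    rw [add_pow, Finset.mul_sum]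
    refine Finset.sum_congr rfl fun j _ => ?_
    rw [one_pow, mul_one, ← C_mul_X_pow_eq_monomial, map_natCast]
    ring
  rw [h, map_sum, mm]
  refine Finset.sum_congr rfl fun j _ => ?_
  rw [ell_monomial]
  congr 1
  rw [← tau_neg]
  congr 1
  push_cast; ring

/-- three-term recurrence of the moments -/
lemma mm_rec (n c : ℕ) :
    (2 * (n : ℚ) - c - 2) * (((c : ℚ) + 4) * mm n (c + 4) - 4 * ((c : ℚ) + 3) * mm n (c + 2)) +
      4 * ((c : ℚ) + 2) * (((c : ℚ) + 2) * mm n (c + 2) - 4 * ((c : ℚ) + 1) * mm n c) = 0 := by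
  have h := key n ((c : ℤ) + 4) ((X ^ 2 - 1) * (X ^ 2 + 1) ^ (c + 2))
  rw [inner_eq, outer_eq] at h
  have e : (2 * (n : ℚ[X]) - (c : ℚ[X]) - 2) * (((c : ℚ[X]) + 4) * (X ^ 2 + 1) ^ (c + 4) -
        4 * ((c : ℚ[X]) + 3) * (X ^ 2 * (X ^ 2 + 1) ^ (c + 2))) +
      4 * ((c : ℚ[X]) + 2) * (((c : ℚ[X]) + 2) * (X ^ 2 * (X ^ 2 + 1) ^ (c + 2)) -
        4 * ((c : ℚ[X]) + 1) * (X ^ 4 * (X ^ 2 + 1) ^ c)) =
      C ((2 * (n : ℚ) - c - 2) * ((c : ℚ) + 4)) * (X ^ (2 * 0) * (X ^ 2 + 1) ^ (c + 4)) -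
      C ((2 * (n : ℚ) - c - 2) * (4 * ((c : ℚ) + 3))) * (X ^ (2 * 1) * (X ^ 2 + 1) ^ (c + 2)) +
      C (4 * ((c : ℚ) + 2) * ((c : ℚ) + 2)) * (X ^ (2 * 1) * (X ^ 2 + 1) ^ (c + 2)) -
      C (4 * ((c : ℚ) + 2) * (4 * ((c : ℚ) + 1))) * (X ^ (2 * 2) * (X ^ 2 + 1) ^ c) := by
    simp only [map_add, map_mul, map_sub, map_natCast, map_ofNat, map_one]
    ring
  have e0 := ell_X_pow n 0 (c + 4)
  have e1 := ell_X_pow n 1 (c + 2)
  have e2 := ell_X_pow n 2 c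
  have s0 : (((c + 4 : ℕ) : ℤ) + 2 * ((0 : ℕ) : ℤ)) = (c : ℤ) + 4 := by push_cast; ring
  have s1 : (((c + 2 : ℕ) : ℤ) + 2 * ((1 : ℕ) : ℤ)) = (c : ℤ) + 4 := by push_cast; ring
  have s2 : ((c : ℤ) + 2 * ((2 : ℕ) : ℤ)) = (c : ℤ) + 4 := by push_cast; ring
  rw [s0] at e0
  rw [s1] at e1
  rw [s2] at e2
  rw [e, map_sub, map_add, map_sub, ell_C_mul, ell_C_mul, ell_C_mul, ell_C_mul, e0, e1, e2] at h
  linear_combination h

lemma mm_three (n : ℕ) : (2 * (n : ℚ) - 1) * (3 * mm n 3) = (16 * (n : ℚ) - 12) * mm n 1 := by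
  have h1 : tau n (-1) = tau n 1 := tau_neg n 1
  have h3 : tau n (-3) = tau n 3 := tau_neg n 3
  have h := tau_rec n 1
  norm_num at h
  have e : mm n 3 = 2 * tau n 3 + 6 * tau n 1 := by
    simp only [mm, Finset.sum_range_succ, Finset.sum_range_zero, Nat.choose]
    norm_num
    rw [h1, h3]; ring
  rw [e, mm_one]
  linear_combination 2 * h

lemma mm_even (n a : ℕ) (ha : a ≤ n) : mm n (2 * a) = (Nat.centralBinom a : ℚ) := by
  rw [mm, mu_even n a ha, Nat.centralBinom]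

lemma tau_one_val (n : ℕ) :
    tau n 1 = (2 * (n : ℚ) + 1) * (Nat.centralBinom n : ℚ) ^ 2 / 16 ^ n := by
  induction n with
  | zero => simp [tau]
  | succ n ih =>
    rw [tau_succ, ih]
    have h := Nat.succ_mul_centralBinom_succ n
    have h' : ((n : ℚ) + 1) * (Nat.centralBinom (n + 1) : ℚ) =
        2 * (2 * (n : ℚ) + 1) * (Nat.centralBinom n : ℚ) := by exact_mod_cast h
    have h0 : ((n : ℚ) + 1) ≠ 0 := by positivity
    have h2 : (Nat.centralBinom (n + 1) : ℚ) =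
        2 * (2 * (n : ℚ) + 1) * (Nat.centralBinom n : ℚ) / ((n : ℚ) + 1) := by
      field_simp; linarith
    rw [h2, pow_succ]
    push_cast
    field_simp
    ring

lemma chkE : ∀ a < 130, (a + 1) * muL.getD (2 * a + 2) 0 =
    2 * (2 * a + 1) * muL.getD (2 * a) 0 := by decide +kernel

lemma chkE0 : muL.getD 0 0 = 2 ^ 520 := by decide +kernel

lemma chkO : ∀ a < 128, (257 - 2 * a) * (2 * a + 5) * muL.getD (2 * a + 5) 0 +
      4 * (2 * a + 3) ^ 2 * muL.getD (2 * a + 3) 0 =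
    4 * (257 - 2 * a) * (2 * a + 4) * muL.getD (2 * a + 3) 0 +
      16 * (2 * a + 3) * (2 * a + 2) * muL.getD (2 * a + 1) 0 := by decide +kernel

lemma chkO1 : muL.getD 1 0 * (muL.getD 0 0 * muL.getD 0 0) = 522 * muL.getD 260 0 ^ 2 := by
  decide +kernel

lemma chkO3 : 259 * (3 * muL.getD 3 0) = 2068 * muL.getD 1 0 := by decide +kernel

attribute [local irreducible] muL

/-- the `a`-th literal, opaque -/
def m (a : ℕ) : ℕ := muL.getD a 0

lemma chkE' (a : ℕ) (ha : a < 130) : (a + 1) * m (2 * a + 2) = 2 * (2 * a + 1) * m (2 * a) :=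
  chkE a ha

lemma chkE0' : m 0 = 2 ^ 520 := chkE0

lemma chkO' (a : ℕ) (ha : a < 128) : (257 - 2 * a) * (2 * a + 5) * m (2 * a + 5) +
      4 * (2 * a + 3) ^ 2 * m (2 * a + 3) =
    4 * (257 - 2 * a) * (2 * a + 4) * m (2 * a + 3) +
      16 * (2 * a + 3) * (2 * a + 2) * m (2 * a + 1) := chkO a ha

lemma chkO1' : m 1 * (m 0 * m 0) = 522 * m 260 ^ 2 := chkO1

lemma chkO3' : 259 * (3 * m 3) = 2068 * m 1 := chkO3

attribute [local irreducible] m

lemma lit_even (a : ℕ) (ha : a ≤ 130) :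
    (2 : ℚ) ^ 520 * mm 130 (2 * a) = (m (2 * a) : ℚ) := by
  induction a with
  | zero =>
    have h : ((m 0 : ℕ) : ℚ) = 2 ^ 520 := by rw [chkE0']; push_cast; rfl
    rw [Nat.mul_zero, h]; simp [mm, tau_zero]
  | succ a ih =>
    have ih' := ih (by omega)
    rw [mm_even 130 _ (by omega)] at ih' ⊢
    have h1 : ((a : ℚ) + 1) * (m (2 * a + 2) : ℚ) =
        2 * (2 * (a : ℚ) + 1) * (m (2 * a) : ℚ) := by exact_mod_cast chkE' a (by omega)
    have h2 : ((a : ℚ) + 1) * (Nat.centralBinom (a + 1) : ℚ) =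
        2 * (2 * (a : ℚ) + 1) * (Nat.centralBinom a : ℚ) := by
      exact_mod_cast Nat.succ_mul_centralBinom_succ a
    have h0 : ((a : ℚ) + 1) ≠ 0 := by positivity
    rw [show 2 * (a + 1) = 2 * a + 2 by ring]
    refine mul_left_cancel₀ h0 ?_
    rw [h1, ← ih']
    linear_combination (2 : ℚ) ^ 520 * h2

lemma lit_one_aux (s m1 m260 c t : ℚ) (h1 : m1 * (s * s) = 522 * m260 ^ 2)
    (h2 : s * c = m260) (h0 : s ≠ 0) (ht : t * s = 261 * c ^ 2) : s * (2 * t) = m1 := by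
  have h3 : s * s ≠ 0 := mul_ne_zero h0 h0
  refine mul_right_cancel₀ h3 ?_
  rw [h1, ← h2]
  linear_combination 2 * s ^ 2 * ht

lemma lit_one : (2 : ℚ) ^ 520 * mm 130 1 = (m 1 : ℚ) := by
  have h0 : ((m 0 : ℕ) : ℚ) = 2 ^ 520 := by rw [chkE0']; push_cast; rfl
  have h1 : ((m 1 : ℕ) : ℚ) * ((2 : ℚ) ^ 520 * 2 ^ 520) =
      522 * ((m 260 : ℕ) : ℚ) ^ 2 := by
    rw [← h0]
    exact_mod_cast chkO1'
  have h2 := lit_even 130 le_rfl
  rw [mm_even 130 130 le_rfl, show 2 * 130 = 260 by rfl] at h2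
  rw [mm_one]
  refine lit_one_aux _ _ _ _ _ h1 h2 (by positivity) ?_
  rw [tau_one_val, show (16 : ℚ) = 2 ^ 4 by norm_num, ← pow_mul, show 4 * 130 = 520 by rfl]
  have h6 : (2 : ℚ) ^ 520 ≠ 0 := by positivity
  rw [div_mul_cancel₀ _ h6]
  generalize (Nat.centralBinom 130 : ℚ) = c
  norm_num

lemma lit_three_aux (s a b m1 m3 : ℚ) (h : 259 * (3 * b) = 2068 * a) (h1 : s * a = m1)
    (h3 : 259 * (3 * m3) = 2068 * m1) : s * b = m3 := by
  have h5 : (777 : ℚ) ≠ 0 := by norm_num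
  refine mul_left_cancel₀ h5 ?_
  subst h1
  linear_combination s * h - h3

lemma lit_step_aux (s a x y z mx my mz : ℚ) (hne : (257 - 2 * a) * (2 * a + 5) ≠ 0)
    (hr : (257 - 2 * a) * ((2 * a + 5) * z - 4 * (2 * a + 4) * y) +
      4 * (2 * a + 3) * ((2 * a + 3) * y - 4 * (2 * a + 2) * x) = 0)
    (hx : s * x = mx) (hy : s * y = my)
    (hc : (257 - 2 * a) * (2 * a + 5) * mz + 4 * (2 * a + 3) ^ 2 * my =
      4 * (257 - 2 * a) * (2 * a + 4) * my + 16 * (2 * a + 3) * (2 * a + 2) * mx) :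
    s * z = mz := by
  refine mul_left_cancel₀ hne ?_
  subst hx; subst hy
  linear_combination s * hr - hc

lemma lit_odd (a : ℕ) (ha : a ≤ 128) :
    (2 : ℚ) ^ 520 * mm 130 (2 * a + 1) = (m (2 * a + 1) : ℚ) ∧
    (2 : ℚ) ^ 520 * mm 130 (2 * a + 3) = (m (2 * a + 3) : ℚ) := by
  induction a with
  | zero =>
    refine ⟨lit_one, ?_⟩
    have h := mm_three 130
    have h3 : (259 : ℚ) * (3 * (m 3 : ℚ)) = 2068 * (m 1 : ℚ) := by
      exact_mod_cast chkO3'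
    have h' : (259 : ℚ) * (3 * mm 130 3) = 2068 * mm 130 1 := by
      rw [show (259 : ℚ) = 2 * ((130 : ℕ) : ℚ) - 1 by norm_num, h]; norm_num
    exact lit_three_aux _ _ _ _ _ h' lit_one h3
  | succ a ih =>
    obtain ⟨i1, i3⟩ := ih (by omega)
    refine ⟨i3, ?_⟩
    have hr := mm_rec 130 (2 * a + 1)
    have hc : ((257 : ℚ) - 2 * a) * (2 * a + 5) * (m (2 * a + 5) : ℚ) +
      4 * (2 * (a : ℚ) + 3) ^ 2 * (m (2 * a + 3) : ℚ) =
      4 * ((257 : ℚ) - 2 * a) * (2 * a + 4) * (m (2 * a + 3) : ℚ) +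
      16 * (2 * (a : ℚ) + 3) * (2 * a + 2) * (m (2 * a + 1) : ℚ) := by
      have h := chkO' a (by omega)
      have h' : ((257 - 2 * a : ℕ) : ℚ) = 257 - 2 * (a : ℚ) := by
        rw [Nat.cast_sub (by omega)]; push_cast; ring
      generalize hD : 257 - 2 * a = D at h h'
      have h2 := congrArg (fun x : ℕ => (x : ℚ)) h
      push_cast at h2
      rw [h'] at h2
      linear_combination h2
    have hne : ((257 : ℚ) - 2 * a) * (2 * a + 5) ≠ 0 := by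
      have h0 : (a : ℚ) ≤ 127 := by exact_mod_cast (by omega : a ≤ 127)
      clear i1 i3 hr hc
      have h1 : (0 : ℚ) < 257 - 2 * a := by linarith
      positivity
    rw [show 2 * (a + 1) + 3 = 2 * a + 5 by ring]
    rw [show 2 * a + 1 + 4 = 2 * a + 5 by ring, show 2 * a + 1 + 2 = 2 * a + 3 by ring] at hr
    refine lit_step_aux _ _ _ _ _ _ _ _ hne ?_ i1 i3 hc
    push_cast at hr
    linear_combination hr

end Pool.Agent.KTT.NumC

namespace Pool.Agent.KTT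

/-- NC: the literal list of the moments -/
theorem mu_lit : ∀ a ≤ 260, (2 : ℚ) ^ 520 * muN 130 a = (muL.getD a 0 : ℚ) := by
  intro a ha
  change (2 : ℚ) ^ 520 * NumC.mm 130 a = (NumC.m a : ℚ)
  obtain ⟨b, hb | hb⟩ := Nat.even_or_odd' a
  · subst hb; exact NumC.lit_even b (by omega)
  · subst hb
    rcases Nat.lt_or_ge b 129 with h | h
    · exact (NumC.lit_odd b (by omega)).1
    · have hb : b = 129 := by omega
      subst hb
      exact (NumC.lit_odd 128 le_rfl).2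

end Pool.Agent.KTT
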