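import Pool.Agent.Work.MP_0df73a_co.KTT.NumData
import Pool.Agent.Work.MP_0df73a_co.KTT.Spec

/-!
KTT (MP_0df73a_co), module NUM-D (helper5): the numbers `JJ 130 m` in integer form, and
`JJ 130 0 ≤ 9`.
-/

set_option autoImplicit false

namespace Pool.Agent.KTT

open Finset

/-- `1567! / 1047!` -/
def Dj : ℕ := ∏ i ∈ range 520, (1048 + i)

namespace NumD

/-- `b_j = (j-1)! (1567-j)! / 1047!` for `1 ≤ j ≤ 520`. -/
def bb (j : ℕ) : ℕ := (j - 1).factorial * Nat.ascFactorial 1048 (520 - j)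

theorem Dj_asc : Dj = Nat.ascFactorial 1048 520 := by
  rw [Nat.ascFactorial_eq_prod_range]; rfl

theorem Dj_pos : 0 < Dj := by
  rw [Dj_asc]; exact Nat.ascFactorial_pos _ _

theorem key_gen (a s j : ℕ) (h1 : 1 ≤ j) (h2 : j ≤ s) :
    j * Nat.choose (a + s) j * ((j - 1).factorial * Nat.ascFactorial (a + 1) (s - j)) =
      Nat.ascFactorial (a + 1) s := by
  have e1 : a.factorial * Nat.ascFactorial (a + 1) s = (a + s).factorial :=
    Nat.factorial_mul_ascFactorial a s
  have e2 : a.factorial * Nat.ascFactorial (a + 1) (s - j) = (a + s - j).factorial := by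
    rw [show a + s - j = a + (s - j) by omega]
    exact Nat.factorial_mul_ascFactorial a (s - j)
  have e3 : Nat.choose (a + s) j * j.factorial * (a + s - j).factorial = (a + s).factorial :=
    Nat.choose_mul_factorial_mul_factorial (by omega)
  have e4 : j * (j - 1).factorial = j.factorial := Nat.mul_factorial_pred (by omega)
  have hpos : 0 < a.factorial := Nat.factorial_pos _
  refine Nat.eq_of_mul_eq_mul_left hpos ?_
  rw [e1, ← e3, ← e2, ← e4]
  ring

theorem key {j : ℕ} (h1 : 1 ≤ j) (h2 : j ≤ 520) : j * Nat.choose 1567 j * bb j = Dj := by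
  rw [Dj_asc]
  exact key_gen 1047 520 j h1 h2

theorem bb_succ {j : ℕ} (h1 : 1 ≤ j) (h2 : j < 520) : bb j * j / (1567 - j) = bb (j + 1) := by
  have h : bb j * j = bb (j + 1) * (1567 - j) := by
    obtain ⟨i, rfl⟩ : ∃ i, j = i + 1 := ⟨j - 1, by omega⟩
    simp only [bb, Nat.add_sub_cancel]
    obtain ⟨r, hr⟩ : ∃ r, 520 - (i + 1) = r + 1 := ⟨520 - (i + 1) - 1, by omega⟩
    rw [hr, show 520 - (i + 1 + 1) = r by omega, Nat.ascFactorial_succ,
      show 1567 - (i + 1) = 1048 + r by omega, Nat.factorial_succ]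
    ring
  rw [h, Nat.mul_div_cancel _ (by omega)]

/-- the list `b_j, b_{j+1}, ...` (`k` terms). -/
def bgen : ℕ → ℕ → ℕ → List ℕ
  | 0, _, _ => []
  | k + 1, j, b => b :: bgen k (j + 1) (b * j / (1567 - j))

theorem bgen_length (k j b : ℕ) : (bgen k j b).length = k := by
  induction k generalizing j b with
  | zero => rfl
  | succ k ih => simp [bgen, ih]

theorem bgen_getD (k : ℕ) : ∀ j i : ℕ, 1 ≤ j → i < k → j + k ≤ 521 →
    (bgen k j (bb j)).getD i 0 = bb (j + i) := by
  induction k with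
  | zero => intro j i _ hi; omega
  | succ k ih =>
    intro j i hj hi hk
    cases i with
    | zero => simp [bgen]
    | succ i =>
      simp only [bgen, List.getD_cons_succ]
      rw [bb_succ hj (by omega), ih (j + 1) i (by omega) (by omega) (by omega)]
      congr 1; ring

/-- `k` terms of the alternating sum `∑ (-1)^i C(q,e+i) x_i`, two accumulators that are swapped. -/
def go (q : ℕ) : ℕ → List ℕ → ℕ → ℕ → ℕ → ℕ → ℕ × ℕ
  | 0, _, _, _, P, Q => (P, Q)
  | _ + 1, [], _, _, P, Q => (P, Q)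
  | k + 1, x :: xs, e, c, P, Q =>
    -- the guard forces the kernel to evaluate `c` and `P` (both branches are the same)
    cond (Nat.ble c P) (go q k xs (e + 1) (c * (q - e) / (e + 1)) Q (P + c * x))
      (go q k xs (e + 1) (c * (q - e) / (e + 1)) Q (P + c * x))

theorem go_spec (q : ℕ) : ∀ (k : ℕ) (l : List ℕ) (e P Q : ℕ), k ≤ l.length →
    (((go q k l e (Nat.choose q e) P Q).1 : ℤ) - (go q k l e (Nat.choose q e) P Q).2) =
      (-1) ^ k * (((P : ℤ) - Q) + ∑ i ∈ range k, (-1) ^ i * (Nat.choose q (e + i) : ℤ) * (l.getD i 0 : ℕ)) := by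
  intro k
  induction k with
  | zero => intro l e P Q _; simp [go]
  | succ k ih =>
    intro l e P Q hl
    cases l with
    | nil => simp at hl
    | cons x xs =>
      have hc : Nat.choose q e * (q - e) / (e + 1) = Nat.choose q (e + 1) := by
        rw [← Nat.choose_succ_right_eq, Nat.mul_div_cancel _ (by omega)]
      simp only [go, hc, Bool.cond_self]
      rw [ih xs (e + 1) Q (P + Nat.choose q e * x) (by simpa using hl), sum_range_succ']
      simp only [List.getD_cons_succ, List.getD_cons_zero, Nat.add_zero]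
      push_cast
      have : ∑ i ∈ range k, (-1 : ℤ) ^ (i + 1) * (Nat.choose q (e + (i + 1)) : ℤ) * (xs.getD i 0 : ℕ)
          = - ∑ i ∈ range k, (-1 : ℤ) ^ i * (Nat.choose q (e + 1 + i) : ℤ) * (xs.getD i 0 : ℕ) := by
        rw [← sum_neg_distrib]
        refine sum_congr rfl fun i _ => ?_
        rw [show e + (i + 1) = e + 1 + i by ring]; ring
      rw [this]; ring

/-- check that `ys` is the list of the numbers `∑ (-1)^i C(q,i) b_{m+i}`, `q = q0, q0-2, ...`. -/
def chk : List ℕ → List ℕ → ℕ → Bool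
  | [], _, _ => true
  | _ :: _, [], _ => false
  | y :: ys, b :: bs, q =>
    (match go q (q + 1) (b :: bs) 0 1 0 0 with
      | (P, Q) => Nat.beq Q (P + y)) && chk ys bs (q - 2)

theorem chk_ok : chk (jL.drop 1) (bgen 520 1 (bb 1)) 518 = true := by decide +kernel

theorem chk_spec : ∀ (ys bs : List ℕ) (r : ℕ), chk ys bs (2 * r) = true → 2 * r + 1 ≤ bs.length →
    ∀ i, i < ys.length → i ≤ r →
      ((ys.getD i 0 : ℕ) : ℤ) = ∑ e ∈ range (2 * (r - i) + 1),
        (-1) ^ e * (Nat.choose (2 * (r - i)) e : ℤ) * (bs.getD (i + e) 0 : ℕ) := by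
  intro ys
  induction ys with
  | nil => intro bs r _ _ i hi; simp at hi
  | cons y ys ih =>
    intro bs r h hl i hi hir
    cases bs with
    | nil => simp at hl
    | cons b bs =>
      simp only [chk, Bool.and_eq_true] at h
      obtain ⟨h1, h2⟩ := h
      cases i with
      | zero =>
        have hg := go_spec (2 * r) (2 * r + 1) (b :: bs) 0 0 0 hl
        rw [Nat.choose_zero_right] at hg
        rcases hpq : go (2 * r) (2 * r + 1) (b :: bs) 0 1 0 0 with ⟨P, Q⟩
        rw [hpq] at hg h1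
        have hQ : Q = P + y := Nat.eq_of_beq_eq_true h1
        simp only [hQ] at hg
        push_cast at hg
        have hs : (-1 : ℤ) ^ (2 * r + 1) = -1 := by rw [pow_succ, pow_mul]; simp
        rw [hs] at hg
        simp only [List.getD_cons_zero, Nat.sub_zero, Nat.zero_add]
        simp only [Nat.zero_add] at hg
        linarith
      | succ i =>
        have hr : 2 * r - 2 = 2 * (r - 1) := by omega
        rw [hr] at h2
        have := ih bs (r - 1) h2 (by simp only [List.length_cons] at hl; omega) i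
          (by simpa using hi) (by omega)
        simp only [List.getD_cons_succ]
        rw [this, show r - 1 - i = r - (i + 1) by omega]
        refine sum_congr rfl fun e _ => ?_
        rw [show i + 1 + e = (i + e) + 1 by ring, List.getD_cons_succ]

theorem jL_length : (jL.drop 1).length = 260 := by decide +kernel

theorem jL_eq {m : ℕ} (h1 : 1 ≤ m) (h2 : m ≤ 260) :
    ((jL.getD m 0 : ℕ) : ℤ) = ∑ e ∈ range (2 * (260 - m) + 1),
      (-1) ^ e * (Nat.choose (2 * (260 - m)) e : ℤ) * (bb (m + e) : ℕ) := by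
  obtain ⟨i, rfl⟩ : ∃ i, m = i + 1 := ⟨m - 1, by omega⟩
  have := chk_spec (jL.drop 1) (bgen 520 1 (bb 1)) 259 chk_ok (by rw [bgen_length]; omega) i
    (by rw [jL_length]; omega) (by omega)
  have e1 : (jL.drop 1).getD i 0 = jL.getD (i + 1) 0 := by
    simp only [List.getD_eq_getElem?_getD, List.getElem?_drop]
    rw [Nat.add_comm]
  rw [← e1, this, show 259 - i = 260 - (i + 1) by omega]
  refine sum_congr rfl fun e he => ?_
  rw [mem_range] at he
  rw [bgen_getD 520 1 (i + e) (by omega) (by omega) (by omega),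
    show 1 + (i + e) = i + 1 + e by ring]

theorem beta_Dj {j : ℕ} (h1 : 1 ≤ j) (h2 : j ≤ 520) :
    beta 1568 j * (Dj : ℚ) = (-1) ^ (j + 1) * (bb j : ℚ) := by
  have hk := key h1 h2
  have hj : (j : ℚ) ≠ 0 := by positivity
  have hc : ((Nat.choose 1567 j : ℕ) : ℚ) ≠ 0 := by
    exact_mod_cast (Nat.choose_pos (by omega)).ne'
  have hM : (1568 : ℕ) - 1 = 1567 := rfl
  rw [beta, if_neg (by omega), hM, ← hk]
  push_cast
  field_simp

end NumD

/-- the numbers `JJ 130 m`, `1 ≤ m ≤ 260`. -/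
theorem JJ_lit : ∀ m, 1 ≤ m → m ≤ 260 →
    JJ 130 m * (Dj : ℚ) = (-1) ^ (m + 1) * (jL.getD m 0 : ℚ) := by
  intro m h1 h2
  have h := NumD.jL_eq h1 h2
  have h' : ((jL.getD m 0 : ℕ) : ℚ) = ∑ e ∈ range (2 * (260 - m) + 1),
      (-1) ^ e * (Nat.choose (2 * (260 - m)) e : ℚ) * (NumD.bb (m + e) : ℕ) := by
    have := congrArg (Int.cast : ℤ → ℚ) h
    push_cast at this
    exact this
  rw [h', JJ, show 2 * 130 - m = 260 - m by omega, show 12 * 130 + 8 = 1568 by norm_num,
    sum_mul, mul_sum]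
  refine sum_congr rfl fun e he => ?_
  rw [mem_range] at he
  rw [mul_assoc, NumD.beta_Dj (by omega) (by omega), show m + e + 1 = (m + 1) + e by ring, pow_add]
  ring

namespace NumD

/-- rounded harmonic sum with accumulator (the guard forces evaluation of the accumulator). -/
def hs : ℕ → ℕ → ℕ
  | 0, a => a
  | k + 1, a => cond (Nat.ble a 0) (hs k (a + (1000000 / (k + 1) + 1)))
      (hs k (a + (1000000 / (k + 1) + 1)))

theorem hs_spec (k a : ℕ) :
    (a : ℚ) + (∑ i ∈ range k, 1 / ((i : ℚ) + 1)) * 1000000 ≤ (hs k a : ℚ) := by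
  induction k generalizing a with
  | zero => simp [hs]
  | succ k ih =>
    rw [sum_range_succ, add_mul, hs, Bool.cond_self]
    refine le_trans ?_ (ih _)
    push_cast
    have h1 : (1000000 : ℕ) < (1000000 / (k + 1) + 1) * (k + 1) := by
      have := Nat.lt_mul_div_succ 1000000 (Nat.succ_pos k); rw [Nat.mul_comm] at this; exact this
    have h2 : (1000000 : ℚ) ≤ (((1000000 / (k + 1) : ℕ) : ℚ) + 1) * ((k : ℚ) + 1) := by
      exact_mod_cast h1.le
    have h3 : 1 / ((k : ℚ) + 1) * 1000000 ≤ ((1000000 / (k + 1) : ℕ) : ℚ) + 1 := by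
      rw [one_div, inv_mul_le_iff₀ (by positivity)]
      linarith
    linarith

theorem hs_ok : Nat.ble (hs 1567 0) (1000000 * 8) = true := by decide +kernel

theorem go_ok : (match go 520 520 (bgen 520 1 (bb 1)) 1 520 0 0 with
    | (P, Q) => Nat.ble P (Q + Nat.ascFactorial 1048 520)) = true := by
  decide +kernel

end NumD

namespace NumD

theorem harm_gen (k H : ℕ) (h : Nat.ble (hs k 0) (1000000 * H) = true) :
    ∑ i ∈ range k, 1 / ((i : ℚ) + 1) ≤ (H : ℚ) := by
  have h1 := hs_spec k 0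
  have h2 : ((hs k 0 : ℕ) : ℚ) ≤ 1000000 * (H : ℚ) := by
    exact_mod_cast Nat.le_of_ble_eq_true h
  push_cast at h1
  linarith

theorem alt_eq : (∑ i ∈ range 520, (Nat.choose 520 (i + 1) : ℚ) * beta 1568 (i + 1)) * (Dj : ℚ) =
    ((∑ i ∈ range 520, (-1) ^ i * (Nat.choose 520 (1 + i) : ℤ) *
      ((bgen 520 1 (bb 1)).getD i 0 : ℕ) : ℤ) : ℚ) := by
  push_cast
  rw [sum_mul]
  refine sum_congr rfl fun i hi => ?_
  rw [mem_range] at hi
  rw [bgen_getD 520 1 i (by omega) hi (by omega), mul_assoc,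
    beta_Dj (by omega) (by omega), show 1 + i = i + 1 by ring]
  rw [show i + 1 + 1 = i + 2 by ring, pow_add]
  ring

theorem alt_le : ∑ i ∈ range 520, (-1) ^ i * (Nat.choose 520 (1 + i) : ℤ) *
      ((bgen 520 1 (bb 1)).getD i 0 : ℕ) ≤ (Dj : ℤ) := by
  have hg := go_spec 520 520 (bgen 520 1 (bb 1)) 1 0 0 (by rw [bgen_length])
  rw [Nat.choose_one_right] at hg
  have hgo := go_ok
  rcases hpq : go 520 520 (bgen 520 1 (bb 1)) 1 520 0 0 with ⟨P, Q⟩
  rw [hpq] at hg hgo
  have hb : P ≤ Q + Dj := by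
    rw [Dj_asc]; exact Nat.le_of_ble_eq_true hgo
  have hb' : (P : ℤ) - Q ≤ (Dj : ℤ) := by
    have : (P : ℤ) ≤ Q + (Dj : ℤ) := by exact_mod_cast hb
    linarith
  have he : (-1 : ℤ) ^ 520 = 1 := Even.neg_one_pow ⟨260, rfl⟩
  simp only [he] at hg
  push_cast at hg
  rw [one_mul, zero_add] at hg
  rw [← hg]; exact hb'

theorem alt_le_one :
    ∑ i ∈ range 520, (Nat.choose 520 (i + 1) : ℚ) * beta 1568 (i + 1) ≤ 1 := by
  have hD : (0 : ℚ) < (Dj : ℚ) := by exact_mod_cast Dj_pos
  have h : (∑ i ∈ range 520, (Nat.choose 520 (i + 1) : ℚ) * beta 1568 (i + 1)) * (Dj : ℚ) ≤ Dj := by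
    rw [alt_eq]; exact_mod_cast alt_le
  by_contra hcon
  push Not at hcon
  nlinarith

theorem JJ_gen (n q M k H : ℕ) (h1 : 2 * (2 * n - 0) = q) (h2 : 12 * n + 8 = M) (h3 : M - 1 = k)
    (hs' : Nat.ble (hs k 0) (1000000 * H) = true)
    (ha : ∑ i ∈ range q, (Nat.choose q (i + 1) : ℚ) * beta M (i + 1) ≤ 1) :
    JJ n 0 ≤ (H : ℚ) + 1 := by
  subst h1; subst h2; subst h3
  have hb := harm_gen _ _ hs'
  rw [JJ, sum_range_succ']
  simp only [Nat.zero_add, Nat.choose_zero_right, Nat.cast_one, one_mul]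
  have hb0 : beta (12 * n + 8) 0 = ∑ i ∈ range (12 * n + 8 - 1), 1 / ((i : ℚ) + 1) := by
    rw [beta, if_pos rfl]
  rw [hb0]
  linarith

end NumD

theorem JJ_zero : JJ 130 0 ≤ 9 := by
  have h := NumD.JJ_gen 130 520 1568 1567 8 rfl rfl rfl NumD.hs_ok NumD.alt_le_one
  norm_num at h
  exact h

end Pool.Agent.KTT
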