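import Pool.Agent.Work.MP_0df73a_co.KTT.NumB
import Pool.Agent.Work.MP_0df73a_co.KTT.NumD
import Pool.Agent.Work.MP_0df73a_co.KTT.NumK

/-!
KTT (MP_0df73a_co), module NUM: `2 * hp 130 ≤ 362`, and `e1 130` in terms of `SS 130 J1`.
-/

set_option autoImplicit false

namespace Pool.Agent.KTT.NumH

open Finset

/-! ### the harmonic part -/

theorem inv_le (i : ℕ) : (1 : ℚ) / ((i : ℚ) + 1) ≤ ((1000000 / (i + 1) + 1 : ℕ) : ℚ) / 1000000 := by
  have hpos : (0 : ℚ) < (i : ℚ) + 1 := by positivity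
  rw [div_le_div_iff₀ hpos (by norm_num)]
  have h : 1000000 ≤ (1000000 / (i + 1) + 1) * (i + 1) := by
    have h1 := Nat.div_add_mod 1000000 (i + 1)
    have h2 := Nat.mod_lt 1000000 (show 0 < i + 1 by omega)
    generalize 1000000 / (i + 1) = u at h1 ⊢
    generalize 1000000 % (i + 1) = v at h1 h2
    have h3 : (u + 1) * (i + 1) = (i + 1) * u + (i + 1) := by ring
    rw [h3]
    generalize (i + 1) * u = w at h1 ⊢
    omega
  have h' : ((1000000 : ℕ) : ℚ) ≤ (((1000000 / (i + 1) + 1) * (i + 1) : ℕ) : ℚ) := by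
    exact_mod_cast h
  rw [Nat.cast_mul] at h'
  push_cast at h' ⊢
  linarith

theorem hp_bound : 2 * hp 130 ≤ 362 := by
  have h1 : ∑ i ∈ Ico (130 : ℕ) (2 * 130), (1 : ℚ) / ((i : ℚ) + 1) ≤
      ∑ i ∈ Ico (130 : ℕ) (2 * 130), ((1000000 / (i + 1) + 1 : ℕ) : ℚ) / 1000000 :=
    Finset.sum_le_sum fun i _ => inv_le i
  rw [← Finset.sum_div, ← Nat.cast_sum] at h1
  have h2 : ∑ i ∈ Ico (130 : ℕ) (2 * 130), (1000000 / (i + 1) + 1) ≤ 693400 := by decide +kernel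
  have h3 : ((∑ i ∈ Ico (130 : ℕ) (2 * 130), (1000000 / (i + 1) + 1) : ℕ) : ℚ) ≤ 693400 := by
    exact_mod_cast h2
  have h4 : ∑ i ∈ Ico (130 : ℕ) (2 * 130), (1 : ℚ) / ((i : ℚ) + 1) ≤ 693400 / 1000000 :=
    h1.trans (div_le_div_of_nonneg_right h3 (by norm_num))
  rw [hp]
  push_cast
  push_cast at h4
  linarith

/-! ### linearity of `SS` -/

/-- the weight `1` at `0` -/
def dl (m : ℕ) : ℚ := if m = 0 then 1 else 0

theorem LL_lin (n : ℕ) (J J' J'' : ℕ → ℚ) (a b : ℚ) (h : ∀ m, J m = a * J' m + b * J'' m)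
    (e d : ℕ) : LL n J e d = a * LL n J' e d + b * LL n J'' e d := by
  rw [LL, LL, LL, Finset.mul_sum, Finset.mul_sum, ← Finset.sum_add_distrib]
  refine Finset.sum_congr rfl fun i _ => ?_
  rw [Finset.mul_sum, Finset.mul_sum, ← Finset.sum_add_distrib]
  refine Finset.sum_congr rfl fun j _ => ?_
  rw [h]
  ring

theorem SS_lin (n : ℕ) (J J' J'' : ℕ → ℚ) (a b : ℚ) (h : ∀ m, J m = a * J' m + b * J'' m) :
    SS n J = a * SS n J' + b * SS n J'' := by
  rw [SS, SS, SS, Finset.mul_sum, Finset.mul_sum, ← Finset.sum_add_distrib]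
  refine Finset.sum_congr rfl fun d _ => ?_
  rw [Finset.mul_sum, Finset.mul_sum, ← Finset.sum_add_distrib]
  refine Finset.sum_congr rfl fun e _ => ?_
  rw [LL_lin n J J' J'' a b h]
  ring

theorem tau_zero' (n : ℕ) : tau n 0 = 1 := by
  rw [tau]
  exact Finset.prod_eq_one fun r _ => by simp

theorem LL_dl (n e d : ℕ) : LL n dl e d = if e = 0 ∧ d = 0 then 1 else 0 := by
  rw [LL]
  split_ifs with h
  · obtain ⟨rfl, rfl⟩ := h
    rw [zero_add, Finset.sum_range_one]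
    rw [Finset.sum_eq_single 0]
    · simp [dl]
    · intro j _ hj
      have : dl (2 * 0 + 0 + 0 + j) = 0 := by
        rw [dl, if_neg (by omega)]
      rw [this, mul_zero]
    · intro h; exact absurd (Finset.mem_range.2 (Nat.succ_pos _)) h
  · refine Finset.sum_eq_zero fun i _ => Finset.sum_eq_zero fun j _ => ?_
    have : dl (2 * e + d + i + j) = 0 := by
      rw [dl, if_neg (by omega)]
    rw [this, mul_zero]

theorem SS_dl (n : ℕ) : SS n dl = 1 := by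
  rw [SS, Finset.sum_eq_single 0]
  · rw [Finset.sum_eq_single 0]
    · rw [LL_dl, if_pos ⟨rfl, rfl⟩, nu]
      simp [muN, tau_zero']
    · intro e _ he
      rw [LL_dl, if_neg (fun h => he h.1), mul_zero]
    · intro h; exact absurd (Finset.mem_range.2 (Nat.succ_pos _)) h
  · intro d _ hd
    refine Finset.sum_eq_zero fun e _ => ?_
    rw [LL_dl, if_neg (fun h => hd h.2), mul_zero]
  · intro h; exact absurd (Finset.mem_range.2 (Nat.succ_pos _)) h

/-! ### `e1 130` -/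

/-- the weight `(-1)^m JJ n m`, `m ≤ 2 n` -/
def J0 (n m : ℕ) : ℚ := if 2 * n < m then 0 else (-1) ^ m * JJ n m

theorem sum_rr (n : ℕ) : ∑ m ∈ range (2 * n + 1), rr n m * JJ n m = SS n (J0 n) := by
  rw [← rr_sum n (J0 n) (fun m hm => by rw [J0, if_pos hm])]
  refine Finset.sum_congr rfl fun m hm => ?_
  rw [Finset.mem_range] at hm
  rw [J0, if_neg (by omega)]
  have h4 : ((-1 : ℚ) ^ m) * (-1) ^ m = 1 := by rw [← mul_pow]; norm_num
  linear_combination (-(rr n m * JJ n m)) * h4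

theorem J0_eq (n : ℕ) (D : ℚ) (j : ℕ → ℚ) (J1 : ℕ → ℚ)
    (hJ : ∀ m, J1 m = if m = 0 ∨ 2 * n < m then 0 else j m) (hD : 0 < D)
    (h : ∀ m, 1 ≤ m → m ≤ 2 * n → JJ n m * D = (-1) ^ (m + 1) * j m) (m : ℕ) :
    J0 n m = JJ n 0 * dl m + (-1 / D) * J1 m := by
  rw [J0, dl, hJ]
  by_cases h0 : m = 0
  · subst h0
    rw [if_neg (by omega), if_pos rfl, if_pos (Or.inl rfl)]
    ring
  by_cases h1 : 2 * n < m
  · rw [if_pos h1, if_neg h0, if_pos (Or.inr h1)]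
    ring
  rw [if_neg h1, if_neg h0, if_neg (by omega)]
  have h2 := h m (by omega) (by omega)
  have h3 : JJ n m = (-1) ^ (m + 1) * j m / D := by
    rw [eq_div_iff hD.ne', h2]
  rw [h3, mul_zero, zero_add, pow_succ]
  have h4 : ((-1 : ℚ) ^ m) * (-1) ^ m = 1 := by rw [← mul_pow]; norm_num
  linear_combination (-(j m) / D) * h4

theorem e1_eq (n : ℕ) (D : ℚ) (j : ℕ → ℚ) (J1 : ℕ → ℚ)
    (hJ : ∀ m, J1 m = if m = 0 ∨ 2 * n < m then 0 else j m) (hD : 0 < D)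
    (h : ∀ m, 1 ≤ m → m ≤ 2 * n → JJ n m * D = (-1) ^ (m + 1) * j m) :
    e1 n = 2 * hp n + (JJ n 0 + (-1 / D) * SS n J1) := by
  rw [e1, sum_rr, SS_lin n (J0 n) dl J1 _ _ (J0_eq n D j J1 hJ hD h), SS_dl, mul_one]

theorem fin_step (e h z D S : ℚ) (hD : 0 < D) (h1 : e = 2 * h + (z + (-1 / D) * S))
    (h2 : 2 * h ≤ 362) (h3 : z ≤ 9) (h4 : 371 * D < S) : e < 0 := by
  have h5 : 371 < S / D := by rw [lt_div_iff₀ hD]; exact h4
  rw [h1, show (-1 / D) * S = -(S / D) by ring]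
  linarith

theorem e1_neg_of (hmain : 371 * (Dj : ℚ) < SS 130 J1) : e1 130 < 0 :=
  fin_step (e1 130) (hp 130) (JJ 130 0) (Dj : ℚ) (SS 130 J1)
    (Nat.cast_pos.2 NumD.Dj_pos)
    (e1_eq 130 (Dj : ℚ) (fun m => (jL.getD m 0 : ℚ)) J1 (fun _ => rfl)
      (Nat.cast_pos.2 NumD.Dj_pos) JJ_lit)
    hp_bound JJ_zero hmain

end Pool.Agent.KTT.NumH
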