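import Pool.Agent.Work.MP_0df73a_co.KTT.NumK

/-!
KTT (MP_0df73a_co), module NM: the functions of `NumK` compute the sums that we want.
-/

set_option autoImplicit false

namespace Pool.Agent.KTT.NumK

open Finset

theorem dot_nil (Y : List ℕ) : dot [] Y = 0 := rfl
theorem dot_cons_nil (x : ℕ) (X : List ℕ) : dot (x :: X) [] = 0 := rfl
theorem dot_cons (x : ℕ) (X : List ℕ) (y : ℕ) (Y : List ℕ) :
    dot (x :: X) (y :: Y) = x * y + dot X Y := rfl

theorem hd_eq (X : List ℕ) : hd X = X.getD 0 0 := by cases X <;> rfl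
theorem tl_eq (X : List ℕ) : tl X = X.tail := by cases X <;> rfl
theorem tl_getD (X : List ℕ) (i : ℕ) : (tl X).getD i 0 = X.getD (i + 1) 0 := by
  cases X with
  | nil => simp [tl_eq]
  | cons x X => simp [tl_eq]

theorem dr_zero (X : List ℕ) : dr 0 X = X := rfl
theorem dr_succ (k : ℕ) (X : List ℕ) : dr (k + 1) X = dr k (tl X) := rfl

theorem dr_eq (k : ℕ) : ∀ X : List ℕ, dr k X = X.drop k := by
  induction k with
  | zero => intro X; rw [dr_zero, List.drop_zero]
  | succ k ih =>
    intro X
    rw [dr_succ, ih, tl_eq, List.drop_tail]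

theorem dot_eq : ∀ X Y : List ℕ, dot X Y = ∑ i ∈ range X.length, X.getD i 0 * Y.getD i 0 := by
  intro X
  induction X with
  | nil => intro Y; simp [dot_nil]
  | cons x X ih =>
    intro Y
    cases Y with
    | nil => simp [dot_cons_nil]
    | cons y Y =>
      rw [dot_cons, ih, List.length_cons, Finset.sum_range_succ']
      simp only [List.getD_cons_succ, List.getD_cons_zero]
      ring

theorem pd_nil (R X A W : List ℕ) : pd [] R X A W = 0 := rfl
theorem pd_cons (x : ℕ) (Z R X A W : List ℕ) :
    pd (x :: Z) R X A W = hd W * hd A * dot (x :: R) X + pd Z (x :: R) X (tl A) (tl W) := rfl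

theorem pd_eq : ∀ Z R X A W : List ℕ, pd Z R X A W =
    ∑ e ∈ range Z.length, (W.getD e 0 * A.getD e 0) * dot ((Z.take (e + 1)).reverse ++ R) X := by
  intro Z
  induction Z with
  | nil => intro R X A W; simp [pd_nil]
  | cons x Z ih =>
    intro R X A W
    rw [pd_cons, ih, List.length_cons, Finset.sum_range_succ', hd_eq, hd_eq, add_comm]
    congr 1
    · refine Finset.sum_congr rfl fun e _ => ?_
      rw [tl_getD, tl_getD]
      have : (List.take (e + 1 + 1) (x :: Z)).reverse ++ R = (List.take (e + 1) Z).reverse ++ x :: R := by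
        rw [List.take_succ_cons, List.reverse_cons, List.append_assoc]
        rfl
      rw [this]

theorem mulL_nil (Y : List ℕ) : mulL [] Y = [] := rfl
theorem mulL_cons_nil (x : ℕ) (X : List ℕ) : mulL (x :: X) [] = [] := rfl
theorem mulL_cons (x : ℕ) (X : List ℕ) (y : ℕ) (Y : List ℕ) :
    mulL (x :: X) (y :: Y) = (x * y) :: mulL X Y := rfl

theorem mulL_length : ∀ X Y : List ℕ, (mulL X Y).length = min X.length Y.length := by
  intro X
  induction X with
  | nil => intro Y; simp [mulL_nil]
  | cons x X ih =>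
    intro Y
    cases Y with
    | nil => simp [mulL_cons_nil]
    | cons y Y => simp [mulL_cons, ih]

theorem mulL_getD : ∀ (X Y : List ℕ) (i : ℕ), (mulL X Y).getD i 0 = X.getD i 0 * Y.getD i 0 := by
  intro X
  induction X with
  | nil => intro Y i; simp [mulL_nil]
  | cons x X ih =>
    intro Y i
    cases Y with
    | nil => simp [mulL_cons_nil]
    | cons y Y =>
      rw [mulL_cons]
      cases i with
      | zero => simp
      | succ i => simpa using ih Y i

theorem nx0_nil : nx0 [] = [] := rfl
theorem nx0_cons (x : ℕ) (X : List ℕ) : nx0 (x :: X) = (x + 4 * hd X) :: nx0 X := rfl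

theorem nx0_getD : ∀ (X : List ℕ) (i : ℕ), (nx0 X).getD i 0 = X.getD i 0 + 4 * X.getD (i + 1) 0 := by
  intro X
  induction X with
  | nil => intro i; simp [nx0_nil]
  | cons x X ih =>
    intro i
    rw [nx0_cons]
    cases i with
    | zero => simp [hd_eq]
    | succ i => simpa using ih i

theorem nx_getD (X : List ℕ) (i : ℕ) :
    (nx X).getD i 0 = X.getD (i + 1) 0 + 4 * X.getD (i + 2) 0 := by
  rw [nx, nx0_getD, tl_getD, tl_getD]

theorem itn_zero (X : List ℕ) : itn 0 X = X := rfl
theorem itn_succ (k : ℕ) (X : List ℕ) : itn (k + 1) X = itn k (nx X) := rfl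

theorem itn_succ' (k : ℕ) : ∀ X : List ℕ, itn (k + 1) X = nx (itn k X) := by
  induction k with
  | zero => intro X; rfl
  | succ k ih =>
    intro X
    rw [itn_succ, ih, itn_succ]

theorem itn_getD (k : ℕ) : ∀ (X : List ℕ) (i : ℕ),
    (itn k X).getD i 0 = rwA (fun j => X.getD j 0) k i := by
  induction k with
  | zero => intro X i; rfl
  | succ k ih =>
    intro X i
    rw [itn_succ', nx_getD, ih, ih]
    rfl

theorem sm_zero (G U H A W : List ℕ) : sm G 0 U H A W = 0 := rfl
theorem sm_succ (G : List ℕ) (k : ℕ) (U H A W : List ℕ) :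
    sm G (k + 1) U H A W = hd H * pd (mulL U G) [] (mulL U G) A W +
      sm G k (tl U) (tl H) (nx A) (tl (tl W)) := rfl

/-- `∑_{b ≤ e} x_{e-b} x_b` -/
theorem dot_rev (X : List ℕ) (e : ℕ) (he : e < X.length) :
    dot ((X.take (e + 1)).reverse ++ []) X =
      ∑ b ∈ range (e + 1), X.getD b 0 * X.getD (e - b) 0 := by
  rw [List.append_nil, dot_eq, List.length_reverse, List.length_take,
    show min (e + 1) X.length = e + 1 by omega]
  refine Finset.sum_congr rfl fun b hb => ?_
  rw [Finset.mem_range] at hb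
  rw [mul_comm]
  congr 1
  have h1 : b < (X.take (e + 1)).reverse.length := by
    rw [List.length_reverse, List.length_take]; omega
  have h2 : e - b < X.length := by omega
  rw [List.getD_eq_getElem _ _ h1, List.getD_eq_getElem _ _ h2, List.getElem_reverse,
    List.getElem_take]
  congr 1
  rw [List.length_take]; omega

/-- value of `pd` -/
theorem pd_val (U G A W : List ℕ) :
    pd (mulL U G) [] (mulL U G) A W =
      ∑ e ∈ range (min U.length G.length), (W.getD e 0 * A.getD e 0) *
        conv (fun i => U.getD i 0) (fun i => G.getD i 0) 0 e := by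
  rw [pd_eq, mulL_length]
  refine Finset.sum_congr rfl fun e he => ?_
  rw [Finset.mem_range] at he
  rw [dot_rev _ e (by rw [mulL_length]; exact he)]
  congr 1
  rw [conv]
  refine Finset.sum_congr rfl fun b _ => ?_
  rw [mulL_getD, mulL_getD, zero_add, zero_add]

/-- the summand -/
def tm (u g h a w : ℕ → ℕ) (L p s : ℕ) : ℕ :=
  h s * ∑ e ∈ range (L - s), (w (e + (2 * s + p)) * rwA a s e) * conv u g s e

theorem drop_getD (X : List ℕ) (k i : ℕ) : (X.drop k).getD i 0 = X.getD (k + i) 0 := by
  rw [List.getD_eq_getElem?_getD, List.getD_eq_getElem?_getD, List.getElem?_drop]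

theorem conv_shift (U : List ℕ) (g : ℕ → ℕ) (s e : ℕ) :
    conv (fun i => (U.drop s).getD i 0) g 0 e = conv (fun i => U.getD i 0) g s e := by
  rw [conv, conv]
  refine Finset.sum_congr rfl fun b _ => ?_
  rw [drop_getD, drop_getD, zero_add, zero_add]

theorem sm_val (U G H A W : List ℕ) (p : ℕ) (hG : U.length ≤ G.length) (k : ℕ) : ∀ s0 : ℕ,
    sm G k (dr s0 U) (dr s0 H) (itn s0 A) (dr (2 * s0 + p) W) =
      ∑ s ∈ range k, tm (fun i => U.getD i 0) (fun i => G.getD i 0) (fun i => H.getD i 0)
        (fun i => A.getD i 0) (fun i => W.getD i 0) U.length p (s0 + s) := by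
  induction k with
  | zero => intro s0; rw [sm_zero]; simp
  | succ k ih =>
    intro s0
    rw [sm_succ, Finset.sum_range_succ', add_comm]
    congr 1
    · have e1 : ∀ (j : ℕ) (X : List ℕ), tl (dr j X) = dr (j + 1) X := by
        intro j X
        rw [dr_eq, dr_eq, tl_eq, List.tail_drop]
      rw [e1, e1, e1, e1, ← itn_succ', show 2 * s0 + p + 1 + 1 = 2 * (s0 + 1) + p by ring, ih]
      refine Finset.sum_congr rfl fun s _ => ?_
      rw [show s0 + 1 + s = s0 + (s + 1) by ring]
    · rw [pd_val, add_zero, tm, hd_eq, dr_eq, dr_eq, dr_eq, drop_getD, add_zero, List.length_drop]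
      rw [show min (U.length - s0) G.length = U.length - s0 by omega]
      congr 1
      refine Finset.sum_congr rfl fun e _ => ?_
      rw [drop_getD, itn_getD, conv_shift, add_comm (2 * s0 + p) e]

end Pool.Agent.KTT.NumK
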