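import Pool.Agent.Work.MP_0df73a_co.KTT.NumKE
import Pool.Agent.Work.MP_0df73a_co.KTT.NumKO

/-!
KTT (MP_0df73a_co), module NM: the sums over even and odd `d`, and the final inequality between
integers.
-/

set_option autoImplicit false

namespace Pool.Agent.KTT.NumK

open Finset

theorem acc (f : ℕ → ℕ) (a b x y : ℕ) (h1 : ∑ s ∈ range a, f s = x)
    (h2 : ∑ s ∈ range b, f (a + s) = y) : ∑ s ∈ range (a + b), f s = x + y := by
  rw [Finset.sum_range_add, h1, h2]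

/-- the summands for even `d` -/
def tmE (s : ℕ) : ℕ :=
  tm (fun i => ueL.getD i 0) (fun i => gL.getD i 0) (fun i => heL.getD i 0)
    (fun i => aeL.getD i 0) (fun i => weL.getD i 0) 131 0 s

/-- the summands for odd `d` -/
def tmO (s : ℕ) : ℕ :=
  tm (fun i => uoL.getD i 0) (fun i => gL.getD i 0) (fun i => hoL.getD i 0)
    (fun i => aoL.getD i 0) (fun i => woL.getD i 0) 130 1 s

theorem lenG : gL.length = 131 := by decide +kernel
theorem lenE : ueL.length = 131 := by decide +kernel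
theorem lenO : uoL.length = 130 := by decide +kernel

theorem valE (k s0 c : ℕ)
    (h : sm gL k (dr s0 ueL) (dr s0 heL) (itn s0 aeL) (dr (2 * s0 + 0) weL) = c) :
    ∑ s ∈ range k, tmE (s0 + s) = c := by
  rw [sm_val ueL gL heL aeL weL 0 (by rw [lenE, lenG]) k s0, lenE] at h
  exact h

theorem valO (k s0 c : ℕ)
    (h : sm gL k (dr s0 uoL) (dr s0 hoL) (itn s0 aoL) (dr (2 * s0 + 1) woL) = c) :
    ∑ s ∈ range k, tmO (s0 + s) = c := by
  rw [sm_val uoL gL hoL aoL woL 1 (by rw [lenO, lenG]; decide) k s0, lenO] at h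
  exact h

theorem sumE : ∑ s ∈ range 131, tmE s = cE0 + cE1 + cE2 + cE3 + cE4 + cE5 + cE6 + cE7 + cE8 := by
  have h0 : ∑ s ∈ range 5, tmE s = cE0 := by
    have h := valE 5 0 cE0 tE0
    simpa only [zero_add] using h
  have h1 := acc tmE 5 6 _ cE1 h0 (valE 6 5 cE1 tE1)
  have h2 := acc tmE 11 7 _ cE2 h1 (valE 7 11 cE2 tE2)
  have h3 := acc tmE 18 8 _ cE3 h2 (valE 8 18 cE3 tE3)
  have h4 := acc tmE 26 9 _ cE4 h3 (valE 9 26 cE4 tE4)
  have h5 := acc tmE 35 11 _ cE5 h4 (valE 11 35 cE5 tE5)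
  have h6 := acc tmE 46 15 _ cE6 h5 (valE 15 46 cE6 tE6)
  have h7 := acc tmE 61 30 _ cE7 h6 (valE 30 61 cE7 tE7)
  have h8 := acc tmE 91 40 _ cE8 h7 (valE 40 91 cE8 tE8)
  exact h8

theorem sumO : ∑ s ∈ range 130, tmO s = cO0 + cO1 + cO2 + cO3 + cO4 + cO5 + cO6 + cO7 + cO8 := by
  have h0 : ∑ s ∈ range 5, tmO s = cO0 := by
    have h := valO 5 0 cO0 tO0
    simpa only [zero_add] using h
  have h1 := acc tmO 5 6 _ cO1 h0 (valO 6 5 cO1 tO1)
  have h2 := acc tmO 11 7 _ cO2 h1 (valO 7 11 cO2 tO2)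
  have h3 := acc tmO 18 8 _ cO3 h2 (valO 8 18 cO3 tO3)
  have h4 := acc tmO 26 9 _ cO4 h3 (valO 9 26 cO4 tO4)
  have h5 := acc tmO 35 11 _ cO5 h4 (valO 11 35 cO5 tO5)
  have h6 := acc tmO 46 16 _ cO6 h5 (valO 16 46 cO6 tO6)
  have h7 := acc tmO 62 35 _ cO7 h6 (valO 35 62 cO7 tO7)
  have h8 := acc tmO 97 33 _ cO8 h7 (valO 33 97 cO8 tO8)
  exact h8

theorem final_int :
    371 * (Nat.ascFactorial 1048 520) * (2 ^ 1031 * Nat.factorial 260 * (gL.getD 0 0) ^ 2) +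
      (cO0 + cO1 + cO2 + cO3 + cO4 + cO5 + cO6 + cO7 + cO8) <
    2 ^ 1029 * (cE0 + cE1 + cE2 + cE3 + cE4 + cE5 + cE6 + cE7 + cE8) := by
  decide +kernel

end Pool.Agent.KTT.NumK
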