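import Mathlib

/-!
KTT (MP_0df73a_co), ring set-up for the constant-term computation.

`A` = Laurent polynomials in `X, Y` over `ℚ`; `S = A⟦z⟧`.
`cf F n i j` = coefficient of `z^n X^i Y^j` in `F`.
`L w` = the linear functional `X^i Y^j ↦ w (i, j)` on `A`; `LS w` = coefficientwise on `S`.
`Sup E F` : all monomials `z^n X^i Y^j` of `F` satisfy `E n i j`.
-/

set_option autoImplicit false

namespace Pool.Agent.KTT

open PowerSeries Finset

/-- Laurent polynomials in `X, Y` over `ℚ`. -/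
abbrev A : Type := AddMonoidAlgebra ℚ (ℤ × ℤ)

/-- power series in `z` over `A` -/
abbrev S : Type := PowerSeries A

noncomputable section

/-- the monomial `X^i Y^j` of `A` -/
def mon (i j : ℤ) : A := AddMonoidAlgebra.single (i, j) 1

/-- the monomial `X^i Y^j` in `S` -/
def mm (i j : ℤ) : S := PowerSeries.C (mon i j)

/-- the variable `z` -/
def z : S := PowerSeries.X

/-- coefficient of `z^n X^i Y^j` -/
def cf (F : S) (n : ℕ) (i j : ℤ) : ℚ := (PowerSeries.coeff n F).coeff (i, j)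

/-- The functional `X^i Y^j ↦ w (i,j)`. -/
def L (w : ℤ × ℤ → ℚ) : A →ₗ[ℚ] ℚ where
  toFun f := f.coeff.sum fun p c => c * w p
  map_add' f g := by
    rw [AddMonoidAlgebra.coeff_add, Finsupp.sum_add_index']
    · intro p; simp
    · intro p a b; ring
  map_smul' c f := by
    rw [AddMonoidAlgebra.coeff_smul, Finsupp.sum_smul_index']
    · rw [Finsupp.sum, Finsupp.sum, RingHom.id_apply, smul_eq_mul, Finset.mul_sum]
      refine Finset.sum_congr rfl fun p _ => ?_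
      simp [mul_assoc]
    · intro p; simp

/-- constant term in `X, Y` -/
def CTA : A →ₗ[ℚ] ℚ where
  toFun f := f.coeff (0, 0)
  map_add' f g := by simp
  map_smul' c f := by simp

/-- coefficientwise functional on `S` -/
def LS (w : ℤ × ℤ → ℚ) (F : S) : PowerSeries ℚ :=
  PowerSeries.mk fun n => L w (PowerSeries.coeff n F)

/-- coefficientwise constant term -/
def CT (F : S) : PowerSeries ℚ := PowerSeries.mk fun n => CTA (PowerSeries.coeff n F)

lemma mon_mul (i j i' j' : ℤ) : mon i j * mon i' j' = mon (i + i') (j + j') := by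
  simp [mon]

@[simp] lemma mon_zero : mon 0 0 = 1 := rfl

lemma mm_mul (i j i' j' : ℤ) : mm i j * mm i' j' = mm (i + i') (j + j') := by
  rw [mm, mm, mm, ← map_mul, mon_mul]

@[simp] lemma mm_zero : mm 0 0 = 1 := by rw [mm, mon_zero, map_one]

/-- `X^i Y^j` as a unit of `S` -/
def mu (i j : ℤ) : Sˣ where
  val := mm i j
  inv := mm (-i) (-j)
  val_inv := by rw [mm_mul]; simp
  inv_val := by rw [mm_mul]; simp

@[simp] lemma val_mu (i j : ℤ) : ((mu i j : Sˣ) : S) = mm i j := rfl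

lemma mu_mul (i j i' j' : ℤ) : mu i j * mu i' j' = mu (i + i') (j + j') := by
  apply Units.ext; simp [mm_mul]

@[simp] lemma mu_zero : mu 0 0 = 1 := by apply Units.ext; simp

@[simp] lemma L_single (w : ℤ × ℤ → ℚ) (p : ℤ × ℤ) (c : ℚ) :
    L w (AddMonoidAlgebra.single p c) = c * w p := by
  simp [L]

@[simp] lemma L_mon (w : ℤ × ℤ → ℚ) (i j : ℤ) : L w (mon i j) = w (i, j) := by
  simp [mon]

lemma CTA_apply (f : A) : CTA f = f.coeff (0, 0) := rfl

lemma CTA_eq (f : A) : CTA f = L (fun p => if p = (0, 0) then 1 else 0) f := by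
  have : CTA = L (fun p => if p = (0, 0) then 1 else 0) := by
    refine LinearMap.toAddMonoidHom_injective ?_
    refine AddMonoidAlgebra.addMonoidHom_ext fun m r => ?_
    simp only [LinearMap.toAddMonoidHom_coe, L_single]
    by_cases h : m = (0, 0)
    · subst h; rw [CTA_apply]; simp
    · rw [CTA_apply]; simp [h]
  rw [this]

@[simp] lemma coeff_CT (F : S) (n : ℕ) : PowerSeries.coeff n (CT F) = cf F n 0 0 := by
  simp [CT, CTA_apply, cf]

@[simp] lemma coeff_LS (w : ℤ × ℤ → ℚ) (F : S) (n : ℕ) :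
    PowerSeries.coeff n (LS w F) = L w (PowerSeries.coeff n F) := by
  simp [LS]

lemma CT_eq_LS (F : S) : CT F = LS (fun p => if p = (0, 0) then 1 else 0) F := by
  ext n; rw [coeff_LS, ← CTA_eq]; simp [CT]

lemma LS_add (w : ℤ × ℤ → ℚ) (F G : S) : LS w (F + G) = LS w F + LS w G := by
  ext n; simp

lemma LS_sub (w : ℤ × ℤ → ℚ) (F G : S) : LS w (F - G) = LS w F - LS w G := by
  ext n; simp

lemma LS_sum {ι : Type*} (w : ℤ × ℤ → ℚ) (s : Finset ι) (F : ι → S) :
    LS w (∑ i ∈ s, F i) = ∑ i ∈ s, LS w (F i) := by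
  ext n; simp

lemma LS_smul (w : ℤ × ℤ → ℚ) (c : ℚ) (F : S) : LS w (c • F) = c • LS w F := by
  ext n; simp

/-- power series in `z` with rational coefficients, inside `S` -/
def zz : PowerSeries ℚ →+* S := PowerSeries.map (algebraMap ℚ A)

@[simp] lemma zz_X : zz PowerSeries.X = z := by simp [zz, z]

lemma L_algebraMap_mul (w : ℤ × ℤ → ℚ) (c : ℚ) (f : A) : L w (algebraMap ℚ A c * f) = c * L w f := by
  rw [← Algebra.smul_def, map_smul, smul_eq_mul]

lemma LS_zz_mul (w : ℤ × ℤ → ℚ) (g : PowerSeries ℚ) (F : S) :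
    LS w (zz g * F) = g * LS w F := by
  ext n
  rw [coeff_LS, PowerSeries.coeff_mul, PowerSeries.coeff_mul, map_sum]
  refine Finset.sum_congr rfl fun p _ => ?_
  rw [zz, PowerSeries.coeff_map, L_algebraMap_mul, coeff_LS]

lemma CT_zz_mul (g : PowerSeries ℚ) (F : S) : CT (zz g * F) = g * CT F := by
  rw [CT_eq_LS, LS_zz_mul, ← CT_eq_LS]

lemma CT_add (F G : S) : CT (F + G) = CT F + CT G := by
  simp only [CT_eq_LS, LS_add]

lemma CT_sub (F G : S) : CT (F - G) = CT F - CT G := by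
  simp only [CT_eq_LS, LS_sub]

lemma CT_sum {ι : Type*} (s : Finset ι) (F : ι → S) :
    CT (∑ i ∈ s, F i) = ∑ i ∈ s, CT (F i) := by
  simp only [CT_eq_LS, LS_sum]

/-! ### supports -/

/-- all monomials `z^n X^i Y^j` of `F` satisfy `E n i j` -/
def Sup (E : ℕ → ℤ → ℤ → Prop) (F : S) : Prop := ∀ n i j, cf F n i j ≠ 0 → E n i j

lemma cf_add (F G : S) (n : ℕ) (i j : ℤ) : cf (F + G) n i j = cf F n i j + cf G n i j := by
  simp [cf]

lemma cf_sub (F G : S) (n : ℕ) (i j : ℤ) : cf (F - G) n i j = cf F n i j - cf G n i j := by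
  simp [cf]

lemma cf_neg (F : S) (n : ℕ) (i j : ℤ) : cf (-F) n i j = - cf F n i j := by
  simp [cf]

lemma cf_sum {ι : Type*} (s : Finset ι) (F : ι → S) (n : ℕ) (i j : ℤ) :
    cf (∑ a ∈ s, F a) n i j = ∑ a ∈ s, cf (F a) n i j := by
  simp [cf]

lemma cf_one (n : ℕ) (i j : ℤ) : cf 1 n i j = if n = 0 ∧ i = 0 ∧ j = 0 then 1 else 0 := by
  rw [cf, PowerSeries.coeff_one]
  by_cases hn : n = 0
  · subst hn
    simp only [if_true, true_and, AddMonoidAlgebra.one_def, AddMonoidAlgebra.coeff_single,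
      Finsupp.single_apply]
    refine if_congr ?_ rfl rfl
    constructor
    · intro h; have := Prod.mk.inj h; exact ⟨this.1.symm, this.2.symm⟩
    · rintro ⟨h1, h2⟩; rw [h1, h2]; rfl
  · simp [hn]

lemma cf_mm (a b : ℤ) (n : ℕ) (i j : ℤ) :
    cf (mm a b) n i j = if n = 0 ∧ i = a ∧ j = b then 1 else 0 := by
  rw [cf, mm, PowerSeries.coeff_C]
  by_cases hn : n = 0
  · subst hn
    simp only [if_true, true_and, mon, AddMonoidAlgebra.coeff_single, Finsupp.single_apply]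
    refine if_congr ?_ rfl rfl
    constructor
    · intro h; have := Prod.mk.inj h; exact ⟨this.1.symm, this.2.symm⟩
    · rintro ⟨h1, h2⟩; rw [h1, h2]
  · simp [hn]

lemma cf_z_mul (F : S) (n : ℕ) (i j : ℤ) :
    cf (z * F) n i j = if n = 0 then 0 else cf F (n - 1) i j := by
  rw [cf, z]
  cases n with
  | zero => simp
  | succ n => simp [cf, PowerSeries.coeff_succ_X_mul]

lemma cf_mm_mul (a b : ℤ) (F : S) (n : ℕ) (i j : ℤ) :
    cf (mm a b * F) n i j = cf F n (i - a) (j - b) := by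
  rw [cf, mm, PowerSeries.coeff_C_mul, mon, cf]
  rw [AddMonoidAlgebra.coeff_single_mul_eq_mul_coeff (m₂ := (i - a, j - b))]
  · simp
  · rintro ⟨c, d⟩ _
    constructor
    · intro h
      have := Prod.mk.inj h
      ext <;> simp <;> omega
    · intro h
      have := Prod.mk.inj h
      ext <;> simp <;> omega

lemma cf_mul_ne_zero {F G : S} {n : ℕ} {i j : ℤ} (h : cf (F * G) n i j ≠ 0) :
    ∃ n₁ n₂ : ℕ, ∃ i₁ i₂ j₁ j₂ : ℤ, n₁ + n₂ = n ∧ i₁ + i₂ = i ∧ j₁ + j₂ = j ∧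
      cf F n₁ i₁ j₁ ≠ 0 ∧ cf G n₂ i₂ j₂ ≠ 0 := by
  classical
  rw [cf, PowerSeries.coeff_mul, AddMonoidAlgebra.coeff_sum, Finsupp.finsetSum_apply] at h
  obtain ⟨⟨n₁, n₂⟩, hn, h⟩ := Finset.exists_ne_zero_of_sum_ne_zero h
  rw [AddMonoidAlgebra.coeff_mul, Finsupp.sum] at h
  obtain ⟨⟨i₁, j₁⟩, hp, h⟩ := Finset.exists_ne_zero_of_sum_ne_zero h
  rw [Finsupp.sum] at h
  obtain ⟨⟨i₂, j₂⟩, hq, h⟩ := Finset.exists_ne_zero_of_sum_ne_zero h
  have h0 : (i₁, j₁) + (i₂, j₂) = (i, j) := by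
    by_contra hne
    exact h (if_neg hne)
  have h1 := Prod.mk.inj h0
  exact ⟨n₁, n₂, i₁, i₂, j₁, j₂, by simpa using hn, h1.1, h1.2,
    Finsupp.mem_support_iff.mp hp, Finsupp.mem_support_iff.mp hq⟩

lemma Sup.mul {E₁ E₂ E : ℕ → ℤ → ℤ → Prop} {F G : S} (hF : Sup E₁ F) (hG : Sup E₂ G)
    (hE : ∀ n₁ n₂ i₁ i₂ j₁ j₂, E₁ n₁ i₁ j₁ → E₂ n₂ i₂ j₂ → E (n₁ + n₂) (i₁ + i₂) (j₁ + j₂)) :
    Sup E (F * G) := by
  intro n i j h
  obtain ⟨n₁, n₂, i₁, i₂, j₁, j₂, rfl, rfl, rfl, h1, h2⟩ := cf_mul_ne_zero h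
  exact hE _ _ _ _ _ _ (hF _ _ _ h1) (hG _ _ _ h2)

lemma Sup.mono {E E' : ℕ → ℤ → ℤ → Prop} {F : S} (hF : Sup E F)
    (h : ∀ n i j, E n i j → E' n i j) : Sup E' F := fun n i j hh => h _ _ _ (hF n i j hh)

lemma Sup.add {E : ℕ → ℤ → ℤ → Prop} {F G : S} (hF : Sup E F) (hG : Sup E G) :
    Sup E (F + G) := by
  intro n i j h
  rw [cf_add] at h
  by_cases h1 : cf F n i j = 0
  · rw [h1, zero_add] at h; exact hG _ _ _ h
  · exact hF _ _ _ h1

lemma Sup.neg {E : ℕ → ℤ → ℤ → Prop} {F : S} (hF : Sup E F) : Sup E (-F) := by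
  intro n i j h
  rw [cf_neg] at h
  exact hF _ _ _ (by simpa using h)

lemma Sup.sub {E : ℕ → ℤ → ℤ → Prop} {F G : S} (hF : Sup E F) (hG : Sup E G) :
    Sup E (F - G) := by
  rw [sub_eq_add_neg]; exact hF.add hG.neg

lemma Sup.zero {E : ℕ → ℤ → ℤ → Prop} : Sup E 0 := by
  intro n i j h; simp [cf] at h

lemma Sup.sum {ι : Type*} {E : ℕ → ℤ → ℤ → Prop} (s : Finset ι) {F : ι → S}
    (hF : ∀ a ∈ s, Sup E (F a)) : Sup E (∑ a ∈ s, F a) := by
  intro n i j h
  rw [cf_sum] at h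
  obtain ⟨a, ha, h⟩ := Finset.exists_ne_zero_of_sum_ne_zero h
  exact hF a ha _ _ _ h

lemma Sup.one {E : ℕ → ℤ → ℤ → Prop} (h : E 0 0 0) : Sup E 1 := by
  intro n i j hh
  rw [cf_one] at hh
  by_cases h1 : n = 0 ∧ i = 0 ∧ j = 0
  · obtain ⟨rfl, rfl, rfl⟩ := h1; exact h
  · simp [h1] at hh

lemma Sup.mm {E : ℕ → ℤ → ℤ → Prop} {a b : ℤ} (h : E 0 a b) : Sup E (mm a b) := by
  intro n i j hh
  rw [cf_mm] at hh
  by_cases h1 : n = 0 ∧ i = a ∧ j = b
  · obtain ⟨rfl, rfl, rfl⟩ := h1; exact h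
  · simp [h1] at hh

lemma Sup.z {E : ℕ → ℤ → ℤ → Prop} (h : E 1 0 0) : Sup E z := by
  intro n i j hh
  have : cf KTT.z n i j = cf (KTT.z * 1) n i j := by rw [mul_one]
  rw [this, cf_z_mul, cf_one] at hh
  by_cases hn : n = 0
  · simp [hn] at hh
  · rw [if_neg hn] at hh
    by_cases h1 : n - 1 = 0 ∧ i = 0 ∧ j = 0
    · obtain ⟨h2, rfl, rfl⟩ := h1
      have : n = 1 := by omega
      subst this; exact h
    · simp [h1] at hh

lemma Sup.pow {E : ℕ → ℤ → ℤ → Prop} {F : S} (hF : Sup E F) (h0 : E 0 0 0)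
    (hE : ∀ n₁ n₂ i₁ i₂ j₁ j₂, E n₁ i₁ j₁ → E n₂ i₂ j₂ → E (n₁ + n₂) (i₁ + i₂) (j₁ + j₂))
    (m : ℕ) : Sup E (F ^ m) := by
  induction m with
  | zero => rw [pow_zero]; exact Sup.one h0
  | succ m ih => rw [pow_succ]; exact ih.mul hF hE

/-- the inverse of a series `F ≡ 1 mod z` is supported in any additively closed set containing
the support of `F` -/
lemma Sup.inv {E : ℕ → ℤ → ℤ → Prop} {F G : S} (hF : Sup E F) (h0 : E 0 0 0)
    (hE : ∀ n₁ n₂ i₁ i₂ j₁ j₂, E n₁ i₁ j₁ → E n₂ i₂ j₂ → E (n₁ + n₂) (i₁ + i₂) (j₁ + j₂))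
    (hc : PowerSeries.constantCoeff F = 1) (hFG : F * G = 1) : Sup E G := by
  have key : ∀ n : ℕ, ∀ i j, cf G n i j ≠ 0 → E n i j := by
    intro n
    induction n using Nat.strong_induction_on with
    | _ n ih =>
      intro i j h
      -- G = 1 - (F - 1) G
      have hG : G = 1 - (F - 1) * G := by rw [sub_mul, hFG]; ring
      rw [hG, cf_sub] at h
      by_cases h1 : cf 1 n i j = 0
      · rw [h1, zero_sub, neg_ne_zero] at h
        obtain ⟨n₁, n₂, i₁, i₂, j₁, j₂, rfl, rfl, rfl, h1, h2⟩ := cf_mul_ne_zero h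
        have hn1 : n₁ ≠ 0 := by
          rintro rfl
          apply h1
          rw [cf_sub]
          have : cf F 0 i₁ j₁ = cf 1 0 i₁ j₁ := by
            rw [cf, cf, PowerSeries.coeff_zero_eq_constantCoeff_apply, hc,
              PowerSeries.coeff_zero_eq_constantCoeff_apply, map_one]
          rw [this, sub_self]
        have h1' : cf F n₁ i₁ j₁ ≠ 0 := by
          rw [cf_sub, cf_one] at h1
          simpa [hn1] using h1
        exact hE _ _ _ _ _ _ (hF _ _ _ h1') (ih n₂ (by omega) _ _ h2)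
      · rw [cf_one] at h1
        by_cases h2 : n = 0 ∧ i = 0 ∧ j = 0
        · obtain ⟨rfl, rfl, rfl⟩ := h2; exact h0
        · simp [h2] at h1
  exact key

/-! ### the basic units `1 + c z X^i Y^j` -/

/-- `1 + c z X^i Y^j` -/
def lin (c : ℚ) (i j : ℤ) : S := 1 + zz (PowerSeries.C c) * (z * mm i j)

lemma constantCoeff_lin (c : ℚ) (i j : ℤ) : PowerSeries.constantCoeff (lin c i j) = 1 := by
  simp [lin, z]

/-- a series with constant coefficient `1` as a unit -/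
def unit1 (F : S) (h : PowerSeries.constantCoeff F = 1) : Sˣ where
  val := F
  inv := PowerSeries.invOfUnit F 1
  val_inv := PowerSeries.mul_invOfUnit F 1 (by simpa using h)
  inv_val := by rw [mul_comm]; exact PowerSeries.mul_invOfUnit F 1 (by simpa using h)

@[simp] lemma val_unit1 (F : S) (h : PowerSeries.constantCoeff F = 1) :
    ((unit1 F h : Sˣ) : S) = F := rfl

/-- `1 + c z X^i Y^j` as a unit -/
def ulin (c : ℚ) (i j : ℤ) : Sˣ := unit1 (lin c i j) (constantCoeff_lin c i j)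

@[simp] lemma val_ulin (c : ℚ) (i j : ℤ) : ((ulin c i j : Sˣ) : S) = lin c i j := rfl

lemma lin_one (i j : ℤ) : lin 1 i j = 1 + z * mm i j := by simp [lin]

lemma lin_neg_one (i j : ℤ) : lin (-1) i j = 1 - z * mm i j := by
  simp [lin, sub_eq_add_neg]

lemma Sup.zz {E : ℕ → ℤ → ℤ → Prop} (h : ∀ n, E n 0 0) (g : PowerSeries ℚ) : Sup E (zz g) := by
  intro n i j hh
  have : cf (KTT.zz g) n i j = if i = 0 ∧ j = 0 then PowerSeries.coeff n g else 0 := by
    rw [cf, KTT.zz, PowerSeries.coeff_map]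
    have h2 : algebraMap ℚ A (PowerSeries.coeff n g) =
        AddMonoidAlgebra.single 0 (PowerSeries.coeff n g) := by
      simp
    rw [h2]
    simp only [AddMonoidAlgebra.coeff_single, Finsupp.single_apply]
    refine if_congr ?_ rfl rfl
    constructor
    · intro h; have := Prod.mk.inj h; exact ⟨this.1.symm, this.2.symm⟩
    · rintro ⟨h1, h2⟩; rw [h1, h2]; rfl
  rw [this] at hh
  by_cases h1 : i = 0 ∧ j = 0
  · rw [h1.1, h1.2]; exact h n
  · simp [h1] at hh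

end

end Pool.Agent.KTT
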