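import Pool.Agent.Work.MP_0df73a_co.Four.Bij
import Pool.Agent.Work.MP_0df73a_co.KTT.Path

/-!
KTT (MP_0df73a_co), BR2a: semistandard tableaux of shape `k * Lam n` and content `k * Mu n` are
Gelfand-Tsetlin arrays; the Young diagrams with row lengths `Lam n`, `Mu n`.
-/

set_option autoImplicit false

namespace Pool.Agent.KTT

open Finset Pool.Agent.Work.MP_0df73a_co Pool.Agent.Work.MP_0df73a_co.Four

theorem Lam_zero {n i : ℕ} (h : 4 * n + 4 ≤ i) : Lam n i = 0 := by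
  unfold Lam
  rw [if_neg (by omega), if_neg (by omega)]

theorem Mu_zero {n v : ℕ} (h : 4 * n + 6 ≤ v) : Mu n v = 0 := by
  unfold Mu
  rw [if_neg (by omega), if_neg (by omega), if_neg (by omega), if_neg (by omega)]

theorem Lam_anti (n : ℕ) : Antitone (Lam n) := by
  intro i j h
  unfold Lam
  split_ifs <;> omega

theorem Mu_anti (n : ℕ) : Antitone (Mu n) := by
  intro i j h
  unfold Mu
  split_ifs <;> omega

/-- Tableaux with shape `L` and content `mu` correspond to Gelfand-Tsetlin arrays. -/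
theorem card_tab_gt' {D : YoungDiagram} {L : ℕ → ℕ} {R n : ℕ} {mu : ℕ → ℕ} (hD : Shape D L)
    (hR : ∀ i, R ≤ i → L i = 0) (hmu : ∀ v, n ≤ v → mu v = 0) :
    Nat.card {T : SemistandardYoungTableau D //
      ∀ v : ℕ, Nat.card {c : ℕ × ℕ // c ∈ D ∧ T c.1 c.2 = v} = mu v} =
    Nat.card {G : ℕ → ℕ → ℕ // IsGT L R n mu G} := by
  refine Nat.card_eq_of_bijective
    (fun T => (⟨cnt L T.1, isGT_cnt hD hR hmu T.1 T.2⟩ : {G : ℕ → ℕ → ℕ // IsGT L R n mu G})) ⟨?_, ?_⟩
  · intro T T' h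
    have h' : cnt L T.1 = cnt L T'.1 := congrArg Subtype.val h
    exact Subtype.ext (tab_ext hD T.1 T'.1 fun i v => congrFun (congrFun h' i) v)
  · rintro ⟨G, hG⟩
    obtain ⟨T, hT, hTG⟩ := exists_tab hD hR hG
    refine ⟨⟨T, hT⟩, Subtype.ext ?_⟩
    funext i v
    exact hTG i v

/-- BR2a. -/
theorem card_tab_gt (n k : ℕ) (D : YoungDiagram) (hD : ∀ i j : ℕ, (i, j) ∈ D ↔ j < k * Lam n i) :
    Nat.card {T : SemistandardYoungTableau D //
      ∀ v : ℕ, Nat.card {c : ℕ × ℕ // c ∈ D ∧ T c.1 c.2 = v} = k * Mu n v} =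
    Nat.card {G : ℕ → ℕ → ℕ //
      IsGT (fun i => k * Lam n i) (4 * n + 4) (4 * n + 6) (fun v => k * Mu n v) G} := by
  refine card_tab_gt' (L := fun i => k * Lam n i) (mu := fun v => k * Mu n v) hD ?_ ?_
  · intro i hi
    rw [Lam_zero hi, Nat.mul_zero]
  · intro v hv
    rw [Mu_zero hv, Nat.mul_zero]

/-- A Young diagram with prescribed row lengths. -/
def diag (L : ℕ → ℕ) (hL : Antitone L) (R : ℕ) (_hR : ∀ i, R ≤ i → L i = 0) : YoungDiagram where
  cells := (range R ×ˢ range (L 0)).filter fun c => c.2 < L c.1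
  isLowerSet := by
    intro c d hdc hc
    rw [Finset.mem_coe, Finset.mem_filter, Finset.mem_product, Finset.mem_range,
      Finset.mem_range] at hc ⊢
    obtain ⟨⟨h1, h2⟩, h3⟩ := hc
    have e1 : d.1 ≤ c.1 := hdc.1
    have e2 : d.2 ≤ c.2 := hdc.2
    have e3 := hL e1
    exact ⟨⟨by omega, by omega⟩, by omega⟩

theorem mem_diag (L : ℕ → ℕ) (hL : Antitone L) (R : ℕ) (hR : ∀ i, R ≤ i → L i = 0) (i j : ℕ) :
    (i, j) ∈ diag L hL R hR ↔ j < L i := by
  change (i, j) ∈ (range R ×ˢ range (L 0)).filter (fun c => c.2 < L c.1) ↔ j < L i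
  rw [Finset.mem_filter, Finset.mem_product, Finset.mem_range, Finset.mem_range]
  constructor
  · rintro ⟨-, h⟩
    exact h
  · intro h
    have h' : j < L i := h
    refine ⟨⟨?_, ?_⟩, h⟩
    · change i < R
      by_contra hc
      rw [hR i (by omega)] at h'
      omega
    · exact lt_of_lt_of_le h' (hL (Nat.zero_le i))

theorem rowLen_diag (L : ℕ → ℕ) (hL : Antitone L) (R : ℕ) (hR : ∀ i, R ≤ i → L i = 0) (i : ℕ) :
    (diag L hL R hR).rowLen i = L i := by
  refine eq_of_forall_lt_iff fun j => ?_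
  rw [← YoungDiagram.mem_iff_lt_rowLen, mem_diag]

/-- The partitions `λ` and `μ`. -/
theorem exists_diagrams (n : ℕ) : ∃ la mu : YoungDiagram,
    (∀ i, la.rowLen i = Lam n i) ∧ ∀ v, mu.rowLen v = Mu n v :=
  ⟨diag (Lam n) (Lam_anti n) (4 * n + 4) (fun _ h => Lam_zero h),
    diag (Mu n) (Mu_anti n) (4 * n + 6) (fun _ h => Mu_zero h),
    fun i => rowLen_diag _ _ _ _ i, fun i => rowLen_diag _ _ _ _ i⟩

/-- a diagram `D` with row lengths `k * Lam n i` -/
theorem exists_scaled (n k : ℕ) : ∃ D : YoungDiagram, ∀ i j : ℕ, (i, j) ∈ D ↔ j < k * Lam n i :=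
  ⟨diag (fun i => k * Lam n i) (fun _ _ h => Nat.mul_le_mul_left k (Lam_anti n h)) (4 * n + 4)
    (fun i h => by rw [Lam_zero h, Nat.mul_zero]), fun i j => mem_diag _ _ _ _ i j⟩

end Pool.Agent.KTT
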