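import Pool.Agent.Work.MP_0df73a_co.KTT.Spec

/-!
KTT (MP_0df73a_co), module VAL2a: `MM n p q = 0` for `p + q > 2 n`.
-/

set_option autoImplicit false

namespace Pool.Agent.KTT

namespace Val2a

open Finset MvPolynomial

/-- alternating sums kill low powers -/
lemma alt_pow (N m : ℕ) (h : m < N) (y : ℚ) :
    ∑ i ∈ range (N + 1), (-1 : ℚ) ^ i * (N.choose i : ℚ) * (y + i) ^ m = 0 := by
  have h1 := congrFun (fwdDiff_iter_pow_eq_zero_of_lt (R := ℚ) h) y
  rw [fwdDiff_iter_eq_sum_shift] at h1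
  have h2 : ∑ i ∈ range (N + 1), (-1 : ℚ) ^ i * (N.choose i : ℚ) * (y + i) ^ m =
      (-1) ^ N * ∑ k ∈ range (N + 1), ((-1 : ℤ) ^ (N - k) * N.choose k) • (y + k • (1 : ℚ)) ^ m := by
    rw [Finset.mul_sum]
    refine Finset.sum_congr rfl fun i hi => ?_
    rw [Finset.mem_range] at hi
    rw [zsmul_eq_mul]
    push_cast
    have e : (-1 : ℚ) ^ N * (-1) ^ (N - i) = (-1) ^ i := by
      have : N = (N - i) + i := by omega
      rw [this, pow_add, show N - i + i - i = N - i by omega]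
      have : ((-1 : ℚ) ^ (N - i)) * (-1) ^ (N - i) = 1 := by
        rw [← mul_pow]; norm_num
      linear_combination ((-1 : ℚ) ^ i) * this
    rw [nsmul_eq_mul, mul_one]
    linear_combination (-(N.choose i : ℚ) * (y + i) ^ m) * e
  rw [h2, h1]
  simp

/-- the polynomial `∏_{r<n} (1 - f²/(4(r+1)²))` -/
noncomputable def tauP (n : ℕ) (f : MvPolynomial (Fin 2) ℚ) : MvPolynomial (Fin 2) ℚ :=
  ∏ r ∈ range n, (1 - f ^ 2 * C (1 / (4 * ((r : ℚ) + 1) ^ 2)))

lemma eval_tauP (n : ℕ) (f : MvPolynomial (Fin 2) ℚ) (x : Fin 2 → ℚ) (s : ℤ)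
    (h : eval x f = s) : eval x (tauP n f) = tau n s := by
  rw [tauP, tau, map_prod]
  refine Finset.prod_congr rfl fun r _ => ?_
  rw [map_sub, map_mul, map_pow, h, eval_C, map_one]
  ring

lemma totalDegree_tauP (n : ℕ) (f : MvPolynomial (Fin 2) ℚ) (hf : f.totalDegree ≤ 1) :
    (tauP n f).totalDegree ≤ 2 * n := by
  rw [tauP]
  refine (totalDegree_finsetProd _ _).trans ?_
  refine (Finset.sum_le_card_nsmul _ _ 2 fun r _ => ?_).trans ?_
  · refine (totalDegree_sub _ _).trans ?_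
    rw [max_le_iff]
    constructor
    · rw [show (1 : MvPolynomial (Fin 2) ℚ) = C 1 by simp, totalDegree_C]; omega
    · refine (totalDegree_mul _ _).trans ?_
      rw [totalDegree_C]
      have := totalDegree_pow f 2
      omega
  · rw [Finset.card_range, smul_eq_mul]; omega

/-- double alternating sums kill polynomials of small total degree -/
lemma alt_sum (p q : ℕ) (G : MvPolynomial (Fin 2) ℚ) (hG : G.totalDegree < p + q) (x y : ℚ) :
    ∑ i ∈ range (p + 1), ∑ j ∈ range (q + 1),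
      (-1 : ℚ) ^ (i + j) * (p.choose i : ℚ) * (q.choose j : ℚ) * eval ![x + i, y + j] G = 0 := by
  simp only [eval_eq']
  simp only [Finset.mul_sum]
  have h : ∑ i ∈ range (p + 1), ∑ j ∈ range (q + 1), ∑ d ∈ G.support,
      (-1 : ℚ) ^ (i + j) * (p.choose i : ℚ) * (q.choose j : ℚ) *
        (coeff d G * ∏ l : Fin 2, (![x + (i : ℚ), y + (j : ℚ)] : Fin 2 → ℚ) l ^ d l) =
      ∑ d ∈ G.support, coeff d G * ((∑ i ∈ range (p + 1), (-1 : ℚ) ^ i * (p.choose i : ℚ) *
        (x + i) ^ d 0) * (∑ j ∈ range (q + 1), (-1 : ℚ) ^ j * (q.choose j : ℚ) * (y + j) ^ d 1)) := by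
    have h1 : ∀ i ∈ range (p + 1), ∑ j ∈ range (q + 1), ∑ d ∈ G.support,
      (-1 : ℚ) ^ (i + j) * (p.choose i : ℚ) * (q.choose j : ℚ) *
        (coeff d G * ∏ l : Fin 2, (![x + (i : ℚ), y + (j : ℚ)] : Fin 2 → ℚ) l ^ d l) =
        ∑ d ∈ G.support, ∑ j ∈ range (q + 1),
      (-1 : ℚ) ^ (i + j) * (p.choose i : ℚ) * (q.choose j : ℚ) *
        (coeff d G * ∏ l : Fin 2, (![x + (i : ℚ), y + (j : ℚ)] : Fin 2 → ℚ) l ^ d l) := by
      intro i _; exact Finset.sum_comm
    rw [Finset.sum_congr rfl h1, Finset.sum_comm]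
    refine Finset.sum_congr rfl fun d _ => ?_
    rw [Finset.sum_mul_sum, Finset.mul_sum]
    refine Finset.sum_congr rfl fun i _ => ?_
    rw [Finset.mul_sum]
    refine Finset.sum_congr rfl fun j _ => ?_
    rw [Fin.prod_univ_two, pow_add]
    simp only [Matrix.cons_val_zero, Matrix.cons_val_one]
    ring
  rw [h]
  refine Finset.sum_eq_zero fun d hd => ?_
  have hdeg := le_totalDegree hd
  rw [Finsupp.sum_fintype _ _ (fun _ => rfl), Fin.sum_univ_two] at hdeg
  by_cases h0 : d 0 < p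
  · rw [alt_pow p (d 0) h0]; ring
  · rw [alt_pow q (d 1) (by omega)]; ring

end Val2a

open Finset in
/-- **VAL2a** -/
theorem MM_zero (n p q : ℕ) (h : 2 * n < p + q) : MM n p q = 0 := by
  classical
  let G : MvPolynomial (Fin 2) ℚ :=
    Val2a.tauP n (MvPolynomial.X 0 + MvPolynomial.X 1) *
      Val2a.tauP n (MvPolynomial.X 0 - MvPolynomial.X 1)
  have hG : G.totalDegree < 2 * p + 2 * q := by
    refine lt_of_le_of_lt (MvPolynomial.totalDegree_mul _ _) ?_
    have h1 := Val2a.totalDegree_tauP n (MvPolynomial.X 0 + MvPolynomial.X 1)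
      ((MvPolynomial.totalDegree_add _ _).trans (by simp))
    have h2 := Val2a.totalDegree_tauP n (MvPolynomial.X 0 - MvPolynomial.X 1)
      ((MvPolynomial.totalDegree_sub _ _).trans (by simp))
    omega
  have key := Val2a.alt_sum (2 * p) (2 * q) G hG (-(p : ℚ)) (-(q : ℚ))
  rw [MM, ← key]
  refine Finset.sum_congr rfl fun i _ => Finset.sum_congr rfl fun j _ => ?_
  congr 1
  rw [map_mul, Val2a.eval_tauP n _ _ ((i : ℤ) - p + (j - q)), Val2a.eval_tauP n _ _ ((i : ℤ) - p - (j - q))]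
  · simp; ring
  · simp; ring

/-- hence `r_m = 0` for `m > 2n` -/
theorem rr_zero (n m : ℕ) (h : 2 * n < m) : rr n m = 0 := by
  rw [rr]
  refine Finset.sum_eq_zero fun x hx => ?_
  rw [Finset.HasAntidiagonal.mem_antidiagonal] at hx
  rw [MM_zero n x.1 x.2 (by omega), mul_zero]

end Pool.Agent.KTT
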