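import Pool.Agent.Work.MP_0df73a_co.KTT.Alg1
import Pool.Agent.Work.MP_0df73a_co.KTT.Val2a

/-!
KTT (MP_0df73a_co), module VAL2b: the four-fold sum in `ff` in terms of `rr`.
-/

set_option autoImplicit false

namespace Pool.Agent.KTT

namespace Val2b

open Finset

noncomputable section

/-- the functional `X^i Y^j ↦ tau (i+j) tau (i-j)` -/
def w (n : ℕ) (p : ℤ × ℤ) : ℚ := tau n (p.1 + p.2) * tau n (p.1 - p.2)

lemma coeff_one_add_pow (m : A) (M l : ℕ) :
    PowerSeries.coeff l ((1 + z * PowerSeries.C m) ^ M) = (M.choose l : A) * m ^ l := by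
  rw [add_comm, add_pow, map_sum]
  have h : ∀ i ∈ range (M + 1), PowerSeries.coeff l ((z * PowerSeries.C m) ^ i * 1 ^ (M - i) *
      (M.choose i : S)) = if i = l then (M.choose l : A) * m ^ l else 0 := by
    intro i _
    have e : (z * PowerSeries.C m) ^ i * 1 ^ (M - i) * (M.choose i : S) =
        PowerSeries.X ^ i * PowerSeries.C ((M.choose i : A) * m ^ i) := by
      rw [z, mul_pow, one_pow, map_mul, map_pow, map_natCast]; ring
    rw [e, PowerSeries.coeff_X_pow_mul', PowerSeries.coeff_C]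
    by_cases hil : i = l
    · subst hil; simp
    · rw [if_neg hil]
      split_ifs with h1 h2
      · exact absurd (by omega) hil
      · rfl
      · rfl
  rw [Finset.sum_congr rfl h, Finset.sum_ite_eq']
  split_ifs with h1
  · rfl
  · rw [Finset.mem_range, not_lt] at h1
    rw [Nat.choose_eq_zero_of_lt (by omega)]; simp

/-- the product -/
def PP (M : ℕ) : S :=
  (1 + z * mm 1 0) ^ M * (1 + z * mm (-1) 0) ^ M * (1 + z * mm 0 1) ^ M * (1 + z * mm 0 (-1)) ^ M

lemma lhs (n M l : ℕ) :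
    PowerSeries.coeff l (LS (w n) (PP M)) = ∑ y ∈ Finset.Nat.antidiagonalTuple 4 l,
      (M.choose (y 0) : ℚ) * (M.choose (y 1) : ℚ) * (M.choose (y 2) : ℚ) * (M.choose (y 3) : ℚ) *
      tau n (y 0 - y 1 + (y 2 - y 3)) * tau n (y 0 - y 1 - (y 2 - y 3)) := by
  have h := coeff_mul4 ![(1 + z * mm 1 0) ^ M, (1 + z * mm (-1) 0) ^ M, (1 + z * mm 0 1) ^ M,
    (1 + z * mm 0 (-1)) ^ M] l
  simp only [Matrix.cons_val_zero, Matrix.cons_val_one, Matrix.cons_val] at h
  rw [coeff_LS, PP, h, map_sum]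
  refine Finset.sum_congr rfl fun y _ => ?_
  rw [mm, mm, mm, mm, coeff_one_add_pow, coeff_one_add_pow, coeff_one_add_pow, coeff_one_add_pow,
    mon_pow, mon_pow, mon_pow, mon_pow]
  have e : (M.choose (y 0) : A) * mon (↑(y 0) * 1) (↑(y 0) * 0) *
      ((M.choose (y 1) : A) * mon (↑(y 1) * -1) (↑(y 1) * 0)) *
      ((M.choose (y 2) : A) * mon (↑(y 2) * 0) (↑(y 2) * 1)) *
      ((M.choose (y 3) : A) * mon (↑(y 3) * 0) (↑(y 3) * -1)) =
      ((M.choose (y 0) : ℚ) * (M.choose (y 1) : ℚ) * (M.choose (y 2) : ℚ) * (M.choose (y 3) : ℚ)) •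
        mon ((y 0 : ℤ) - y 1) ((y 2 : ℤ) - y 3) := by
    have hm : mon ((y 0 : ℤ) - y 1) ((y 2 : ℤ) - y 3) =
        mon (↑(y 0) * 1) (↑(y 0) * 0) * mon (↑(y 1) * -1) (↑(y 1) * 0) *
        mon (↑(y 2) * 0) (↑(y 2) * 1) * mon (↑(y 3) * 0) (↑(y 3) * -1) := by
      rw [mon_mul, mon_mul, mon_mul]
      congr 1 <;> ring
    rw [hm, Algebra.smul_def]
    simp only [map_mul, map_natCast]
    ring
  rw [e, map_smul, L_mon, smul_eq_mul, w]
  ring

/-- `ξ = X + 1/X - 2` -/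
def xi : A := mon 1 0 + mon (-1) 0 - 2

/-- `η = Y + 1/Y - 2` -/
def et : A := mon 0 1 + mon 0 (-1) - 2

lemma two_eq : (2 : A) = 2 • (1 : A) := by simp

lemma xi_pow (p : ℕ) : xi ^ p = ∑ i ∈ range (2 * p + 1), ((-1 : ℚ) ^ i * ((2 * p).choose i : ℚ)) •
    mon ((i : ℤ) - p) 0 := by
  have h1 : xi = mon (-1) 0 * (mon 1 0 - 1) ^ 2 := by
    have : mon (-1) 0 * (mon 1 0 - 1) ^ 2 =
        mon (-1) 0 * mon 1 0 * mon 1 0 - 2 * (mon (-1) 0 * mon 1 0) + mon (-1) 0 := by ring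
    rw [this, mon_mul, mon_mul, xi]
    norm_num
    ring
  rw [h1, mul_pow, ← pow_mul, mon_pow, sub_eq_add_neg, add_pow, Finset.mul_sum]
  refine Finset.sum_congr rfl fun i hi => ?_
  rw [Finset.mem_range] at hi
  have hs : (-1 : A) ^ (2 * p - i) = (-1) ^ i := by
    have : (-1 : A) ^ (2 * p - i) * (-1) ^ i = 1 := by
      rw [← pow_add, show 2 * p - i + i = 2 * p by omega, pow_mul]; norm_num
    have h2 : (-1 : A) ^ i * (-1) ^ i = 1 := by rw [← mul_pow]; norm_num
    linear_combination ((-1 : A) ^ i) * this - ((-1 : A) ^ (2 * p - i)) * h2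
  rw [hs, mon_pow, Algebra.smul_def]
  have hm : mon ((i : ℤ) - p) 0 = mon (↑p * -1) (↑p * 0) * mon (↑i * 1) (↑i * 0) := by
    rw [mon_mul]; congr 1 <;> ring
  rw [hm]
  simp only [map_mul, map_natCast, map_pow, map_neg, map_one]
  ring

lemma et_pow (p : ℕ) : et ^ p = ∑ i ∈ range (2 * p + 1), ((-1 : ℚ) ^ i * ((2 * p).choose i : ℚ)) •
    mon 0 ((i : ℤ) - p) := by
  have h1 : et = mon 0 (-1) * (mon 0 1 - 1) ^ 2 := by
    have : mon 0 (-1) * (mon 0 1 - 1) ^ 2 =
        mon 0 (-1) * mon 0 1 * mon 0 1 - 2 * (mon 0 (-1) * mon 0 1) + mon 0 (-1) := by ring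
    rw [this, mon_mul, mon_mul, et]
    norm_num
    ring
  rw [h1, mul_pow, ← pow_mul, mon_pow, sub_eq_add_neg, add_pow, Finset.mul_sum]
  refine Finset.sum_congr rfl fun i hi => ?_
  rw [Finset.mem_range] at hi
  have hs : (-1 : A) ^ (2 * p - i) = (-1) ^ i := by
    have : (-1 : A) ^ (2 * p - i) * (-1) ^ i = 1 := by
      rw [← pow_add, show 2 * p - i + i = 2 * p by omega, pow_mul]; norm_num
    have h2 : (-1 : A) ^ i * (-1) ^ i = 1 := by rw [← mul_pow]; norm_num
    linear_combination ((-1 : A) ^ i) * this - ((-1 : A) ^ (2 * p - i)) * h2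
  rw [hs, mon_pow, Algebra.smul_def]
  have hm : mon 0 ((i : ℤ) - p) = mon (↑p * 0) (↑p * -1) * mon (↑i * 0) (↑i * 1) := by
    rw [mon_mul]; congr 1 <;> ring
  rw [hm]
  simp only [map_mul, map_natCast, map_pow, map_neg, map_one]
  ring

lemma L_xi_et (n p q : ℕ) : L (w n) (xi ^ p * et ^ q) = MM n p q := by
  rw [xi_pow, et_pow, Finset.sum_mul_sum, map_sum, MM]
  refine Finset.sum_congr rfl fun i _ => ?_
  rw [map_sum]
  refine Finset.sum_congr rfl fun j _ => ?_
  rw [smul_mul_smul_comm, mon_mul, map_smul, L_mon, smul_eq_mul, w]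
  simp only [add_zero, zero_add]
  rw [pow_add]
  ring

lemma one_add_X_pair : (1 + z * mm 1 0) * (1 + z * mm (-1) 0) =
    z * PowerSeries.C xi + zz ((1 + PowerSeries.X) ^ 2) := by
  have h : mm 1 0 * mm (-1) 0 = 1 := by rw [mm_mul]; simp
  have e : PowerSeries.C xi = mm 1 0 + mm (-1) 0 - 2 := by
    rw [xi, map_sub, map_add, mm, mm, map_ofNat PowerSeries.C 2]
  rw [map_pow, map_add, zz_X, map_one, e]
  linear_combination z ^ 2 * h

lemma one_add_Y_pair : (1 + z * mm 0 1) * (1 + z * mm 0 (-1)) =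
    z * PowerSeries.C et + zz ((1 + PowerSeries.X) ^ 2) := by
  have h : mm 0 1 * mm 0 (-1) = 1 := by rw [mm_mul]; simp
  have e : PowerSeries.C et = mm 0 1 + mm 0 (-1) - 2 := by
    rw [et, map_sub, map_add, mm, mm, map_ofNat PowerSeries.C 2]
  rw [map_pow, map_add, zz_X, map_one, e]
  linear_combination z ^ 2 * h

lemma PP_eq (M : ℕ) : PP M = ∑ p ∈ range (M + 1), ∑ q ∈ range (M + 1),
    zz (PowerSeries.C ((M.choose p : ℚ) * (M.choose q : ℚ)) *
      (PowerSeries.X ^ (p + q) * (1 + PowerSeries.X) ^ (4 * M - 2 * (p + q)))) *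
      PowerSeries.C (xi ^ p * et ^ q) := by
  have h1 : PP M = ((1 + z * mm 1 0) * (1 + z * mm (-1) 0)) ^ M *
      ((1 + z * mm 0 1) * (1 + z * mm 0 (-1))) ^ M := by
    rw [PP, mul_pow, mul_pow]; ring
  rw [h1, one_add_X_pair, one_add_Y_pair, add_pow (z * PowerSeries.C xi) _ M,
    add_pow (z * PowerSeries.C et) _ M, Finset.sum_mul_sum]
  refine Finset.sum_congr rfl fun p hp => Finset.sum_congr rfl fun q hq => ?_
  rw [Finset.mem_range] at hp hq
  have e : 4 * M - 2 * (p + q) = 2 * (M - p) + 2 * (M - q) := by omega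
  rw [e, pow_add _ (2 * (M - p)) (2 * (M - q)), pow_mul _ 2 (M - p), pow_mul _ 2 (M - q)]
  simp only [map_mul, map_pow, zz_X, map_add, map_one]
  have hc : ∀ a : ℕ, zz (PowerSeries.C (a : ℚ)) = (a : S) := by
    intro a; simp
  rw [hc, hc]
  ring

lemma LS_C (n : ℕ) (f : A) : LS (w n) (PowerSeries.C f) = PowerSeries.C (L (w n) f) := by
  ext m
  rw [coeff_LS, PowerSeries.coeff_C, PowerSeries.coeff_C]
  split_ifs <;> simp

lemma coeff_aux (c : ℚ) (d e l : ℕ) :
    PowerSeries.coeff l (PowerSeries.C c * (PowerSeries.X ^ d * (1 + PowerSeries.X) ^ e)) =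
      if d ≤ l then c * (e.choose (l - d) : ℚ) else 0 := by
  rw [PowerSeries.coeff_C_mul, PowerSeries.coeff_X_pow_mul']
  split_ifs with h
  · congr 1
    have : ((1 + PowerSeries.X) ^ e : PowerSeries ℚ) =
        (((1 + Polynomial.X) ^ e : Polynomial ℚ) : PowerSeries ℚ) := by simp
    rw [this, Polynomial.coeff_coe, Polynomial.coeff_one_add_X_pow]
  · ring

lemma rhs (n M l : ℕ) :
    PowerSeries.coeff l (LS (w n) (PP M)) = ∑ p ∈ range (M + 1), ∑ q ∈ range (M + 1),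
      if p + q ≤ l then (M.choose p : ℚ) * (M.choose q : ℚ) * MM n p q *
        ((4 * M - 2 * (p + q)).choose (l - (p + q)) : ℚ) else 0 := by
  rw [PP_eq, LS_sum, map_sum]
  refine Finset.sum_congr rfl fun p _ => ?_
  rw [LS_sum, map_sum]
  refine Finset.sum_congr rfl fun q _ => ?_
  rw [LS_zz_mul, LS_C, L_xi_et]
  have e : PowerSeries.C ((M.choose p : ℚ) * (M.choose q : ℚ)) *
      (PowerSeries.X ^ (p + q) * (1 + PowerSeries.X) ^ (4 * M - 2 * (p + q))) *
      PowerSeries.C (MM n p q) =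
      PowerSeries.C ((M.choose p : ℚ) * (M.choose q : ℚ) * MM n p q) *
      (PowerSeries.X ^ (p + q) * (1 + PowerSeries.X) ^ (4 * M - 2 * (p + q))) := by
    simp only [map_mul]; ring
  rw [e, coeff_aux]

/-- box sums to diagonal sums -/
lemma box_to_diag (M l : ℕ) (g : ℕ → ℕ → ℚ) (hg : ∀ p q, M < p ∨ M < q → g p q = 0) :
    ∑ p ∈ range (M + 1), ∑ q ∈ range (M + 1), (if p + q ≤ l then g p q else 0) =
      ∑ m ∈ range (l + 1), ∑ x ∈ antidiagonal m, g x.1 x.2 := by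
  set B := M + l + 1 with hB
  have h1 : ∑ p ∈ range (M + 1), ∑ q ∈ range (M + 1), (if p + q ≤ l then g p q else 0) =
      ∑ x ∈ range B ×ˢ range B, (if x.1 + x.2 ≤ l then g x.1 x.2 else 0) := by
    rw [← Finset.sum_product']
    refine Finset.sum_subset ?_ ?_
    · intro x hx
      rw [Finset.mem_product, Finset.mem_range, Finset.mem_range] at hx ⊢
      omega
    · intro x _ hx
      rw [Finset.mem_product, Finset.mem_range, Finset.mem_range] at hx
      rw [hg x.1 x.2 (by omega)]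
      simp
  have h2 : ∀ m ∈ range (l + 1), ∑ x ∈ antidiagonal m, g x.1 x.2 =
      ∑ x ∈ range B ×ˢ range B, (if x.1 + x.2 = m then g x.1 x.2 else 0) := by
    intro m hm
    rw [Finset.mem_range] at hm
    rw [← Finset.sum_filter]
    refine Finset.sum_congr ?_ fun _ _ => rfl
    ext x
    rw [Finset.HasAntidiagonal.mem_antidiagonal, Finset.mem_filter, Finset.mem_product,
      Finset.mem_range, Finset.mem_range]
    omega
  rw [h1, Finset.sum_congr rfl h2, Finset.sum_comm]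
  refine Finset.sum_congr rfl fun x _ => ?_
  rw [Finset.sum_ite_eq]
  simp only [Finset.mem_range, Nat.lt_succ_iff]

end

end Val2b

open Finset in
/-- **VAL2b** -/
theorem sumY (n l : ℕ) :
    ∑ y ∈ Finset.Nat.antidiagonalTuple 4 l,
      ((4 * n + 2).choose (y 0) : ℚ) * ((4 * n + 2).choose (y 1) : ℚ) *
      ((4 * n + 2).choose (y 2) : ℚ) * ((4 * n + 2).choose (y 3) : ℚ) *
      tau n (y 0 - y 1 + (y 2 - y 3)) * tau n (y 0 - y 1 - (y 2 - y 3)) =
    ∑ m ∈ range (l + 1), rr n m * ((16 * n + 8 - 2 * m).choose (l - m) : ℚ) := by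
  rw [← Val2b.lhs n (4 * n + 2) l, Val2b.rhs, Val2b.box_to_diag (4 * n + 2) l
    (fun p q => ((4 * n + 2).choose p : ℚ) * ((4 * n + 2).choose q : ℚ) * MM n p q *
        ((4 * (4 * n + 2) - 2 * (p + q)).choose (l - (p + q)) : ℚ))]
  · refine Finset.sum_congr rfl fun m _ => ?_
    rw [rr, Finset.sum_mul]
    refine Finset.sum_congr rfl fun x hx => ?_
    rw [Finset.HasAntidiagonal.mem_antidiagonal] at hx
    rw [hx, show 4 * (4 * n + 2) = 16 * n + 8 by ring]
  · rintro p q (h | h)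
    · rw [Nat.choose_eq_zero_of_lt h]; simp
    · rw [Nat.choose_eq_zero_of_lt (n := 4 * n + 2) (k := q) h]; simp

end Pool.Agent.KTT
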